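import Mathlib

set_option autoImplicit false

open Real Set MeasureTheory Metric
open scoped RealInnerProductSpace Pointwise

namespace Pool.Agent.H65G

/-- Euclidean space of dimension `n`. -/
abbrev E (n : ℕ) : Type := EuclideanSpace ℝ (Fin n)

/-- The unit sphere of `E n`. -/
abbrev Sph (n : ℕ) : Type := Metric.sphere (0 : E n) 1

/-- The rotation invariant probability measure of the unit sphere. -/
noncomputable def sigma (n : ℕ) : Measure (Sph n) :=
  ((volume : Measure (E n)).toSphere univ)⁻¹ • (volume : Measure (E n)).toSphere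

instance instProb (d : ℕ) : IsProbabilityMeasure (sigma (d + 1)) := by
  refine ⟨?_⟩
  have h0 : (volume : Measure (E (d + 1))).toSphere univ ≠ 0 := by
    rw [Measure.toSphere_apply_univ]
    exact mul_ne_zero (by simp) (measure_ball_pos _ _ one_pos).ne'
  have h1 : (volume : Measure (E (d + 1))).toSphere univ ≠ ⊤ := measure_ne_top _ _
  simp only [sigma, Measure.smul_apply, smul_eq_mul]
  exact ENNReal.inv_mul_cancel h0 h1

/-- The sphere is compact. -/
instance instCompact (n : ℕ) : CompactSpace (Sph n) :=
  isCompact_iff_compactSpace.1 (isCompact_sphere 0 1)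

theorem integrable_of_cont {n : ℕ} {F : Type} [NormedAddCommGroup F] [NormedSpace ℝ F]
    [SecondCountableTopology F]
    {f : Sph (n + 1) → F} (hf : Continuous f) : Integrable f (sigma (n + 1)) := by
  obtain ⟨C, hC⟩ := isCompact_univ.exists_bound_of_continuousOn (hf.continuousOn (s := univ))
  exact Integrable.mono' (integrable_const C) hf.aestronglyMeasurable
    (Filter.Eventually.of_forall fun g => hC g (mem_univ g))

theorem measurePreserving_toSphere {n : ℕ} (f : E n ≃ₗᵢ[ℝ] E n) :
    MeasurePreserving (fun y : Sph n => (⟨f y, by simp⟩ : Sph n))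
      (volume : Measure (E n)).toSphere (volume : Measure (E n)).toSphere := by
  have hc : Continuous (fun y : Sph n => (⟨f y, by simp⟩ : Sph n)) :=
    (f.continuous.comp continuous_subtype_val).subtype_mk _
  refine ⟨hc.measurable, ?_⟩
  ext s hs
  rw [Measure.map_apply hc.measurable hs, Measure.toSphere_apply' _ hs,
    Measure.toSphere_apply' _ (hc.measurable hs)]
  congr 1
  have hset : Ioo (0 : ℝ) 1 • ((fun y : Sph n => (y : E n)) ''
      ((fun y : Sph n => (⟨f y, by simp⟩ : Sph n)) ⁻¹' s)) =
      f ⁻¹' (Ioo (0 : ℝ) 1 • ((fun y : Sph n => (y : E n)) '' s)) := by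
    ext z
    constructor
    · rintro ⟨c, hc, _, ⟨y, hy, rfl⟩, rfl⟩
      refine ⟨c, hc, f y, ⟨⟨f y, by simp⟩, hy, rfl⟩, ?_⟩
      simp
    · rintro ⟨c, hc, _, ⟨y, hy, rfl⟩, hz⟩
      refine ⟨c, hc, f.symm y, ⟨⟨f.symm y, by simp⟩, ?_, rfl⟩, ?_⟩
      · simpa using hy
      · have : f.symm (f z) = f.symm (c • (y : E n)) := by
          rw [← hz]
        simp at this
        exact this.symm
  rw [hset]
  exact (f.measurePreserving).measure_preimage_emb f.toHomeomorph.measurableEmbedding _

/-- The action of a linear isometry on the sphere. -/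
noncomputable def act {n : ℕ} (f : E n ≃ₗᵢ[ℝ] E n) (s : Sph n) : Sph n := ⟨f s, by simp⟩

@[simp] theorem coe_act {n : ℕ} (f : E n ≃ₗᵢ[ℝ] E n) (s : Sph n) : (act f s : E n) = f s := rfl

theorem continuous_act {n : ℕ} (f : E n ≃ₗᵢ[ℝ] E n) : Continuous (act f) :=
  (f.continuous.comp continuous_subtype_val).subtype_mk _

theorem measurePreserving_act {n : ℕ} (f : E n ≃ₗᵢ[ℝ] E n) :
    MeasurePreserving (act f) (sigma n) (sigma n) := by
  have h := measurePreserving_toSphere f
  refine ⟨h.measurable, ?_⟩
  rw [sigma, Measure.map_smul]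
  congr 1
  exact h.map_eq

theorem measurableEmbedding_act {n : ℕ} (f : E n ≃ₗᵢ[ℝ] E n) : MeasurableEmbedding (act f) := by
  have h : Function.LeftInverse (act f.symm) (act f) := fun s => by ext1; simp
  have h' : Function.RightInverse (act f.symm) (act f) := fun s => by ext1; simp
  exact (MeasurableEquiv.mk ⟨act f, act f.symm, h, h'⟩ (continuous_act f).measurable
    (continuous_act f.symm).measurable).measurableEmbedding

/-- Rotation invariance. -/
theorem integral_act {n : ℕ} {F : Type} [NormedAddCommGroup F] [NormedSpace ℝ F]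
    (f : E n ≃ₗᵢ[ℝ] E n) (g : Sph n → F) :
    ∫ s, g (act f s) ∂(sigma n) = ∫ s, g s ∂(sigma n) :=
  (measurePreserving_act f).integral_comp (measurableEmbedding_act f) g

end Pool.Agent.H65G
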