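import Pool.Agent.H65G.Defs
import Pool.Agent.H65G.Basic

set_option autoImplicit false

open Real Set MeasureTheory Metric Filter Topology
open scoped RealInnerProductSpace

namespace Pool.Agent.H65G

variable {n : ℕ}

theorem cube_eq_preimage (n : ℕ) : cube n = (EuclideanSpace.equiv (Fin n) ℝ) ⁻¹' (Icc 0 1) := by
  ext p
  simp only [cube, Set.mem_ofPred_eq, mem_preimage, mem_Icc, Pi.le_def]
  constructor
  · intro h
    exact ⟨fun i => (h i).1, fun i => (h i).2⟩
  · rintro ⟨h1, h2⟩ i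
    exact ⟨h1 i, h2 i⟩

theorem isCompact_cube (n : ℕ) : IsCompact (cube n) := by
  rw [cube_eq_preimage]
  exact ((EuclideanSpace.equiv (Fin n) ℝ).toHomeomorph.isCompact_preimage).2 isCompact_Icc

theorem convex_cube (n : ℕ) : Convex ℝ (cube n) := by
  rw [cube_eq_preimage]
  exact (convex_Icc _ _).linear_preimage
    ((EuclideanSpace.equiv (Fin n) ℝ).toLinearEquiv : E n →ₗ[ℝ] (Fin n → ℝ))

theorem measurableSet_cube (n : ℕ) : MeasurableSet (cube n) := (isCompact_cube n).measurableSet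

theorem ae_interior_cube (n : ℕ) :
    ∀ᵐ p ∂((volume : Measure (E n)).restrict (cube n)), p ∈ interior (cube n) := by
  rw [ae_restrict_iff' (measurableSet_cube n)]
  have h := (convex_cube n).addHaar_frontier (volume : Measure (E n))
  have h2 : ∀ᵐ p ∂(volume : Measure (E n)), p ∉ frontier (cube n) := by
    rw [ae_iff]
    simpa using h
  filter_upwards [h2] with p hp hpc
  by_contra hcon
  exact hp ⟨subset_closure hpc, hcon⟩

/-- The projection to the cube. -/
noncomputable def clamp (p : E n) : E n :=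
  WithLp.toLp 2 fun i => max 0 (min (p i) 1)

theorem clamp_mem (p : E n) : clamp p ∈ cube n := by
  intro i
  simp only [clamp]
  exact ⟨le_max_left _ _, max_le zero_le_one (min_le_right _ _)⟩

theorem clamp_of_mem {p : E n} (hp : p ∈ cube n) : clamp p = p := by
  ext i
  simp only [clamp]
  rw [min_eq_left (hp i).2, max_eq_right (hp i).1]

theorem abs_clamp_sub_le (a b : ℝ) : |max 0 (min a 1) - max 0 (min b 1)| ≤ |a - b| := by
  calc |max 0 (min a 1) - max 0 (min b 1)| ≤ |min a 1 - min b 1| := by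
        have := abs_max_sub_max_le_abs (min a 1) (min b 1) 0
        rwa [max_comm _ (0 : ℝ), max_comm _ (0 : ℝ)] at this
    _ ≤ |a - b| := by
        have := abs_min_sub_min_le_max a 1 b 1
        simpa using this

theorem norm_clamp_sub_le (p p' : E n) : ‖clamp p - clamp p'‖ ≤ ‖p - p'‖ := by
  rw [EuclideanSpace.norm_eq, EuclideanSpace.norm_eq]
  apply Real.sqrt_le_sqrt
  refine Finset.sum_le_sum fun i _ => ?_
  have h := abs_clamp_sub_le (p i) (p' i)
  have h2 : ‖(clamp p - clamp p') i‖ ≤ ‖(p - p') i‖ := by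
    simpa [clamp] using h
  have h0 := norm_nonneg ((clamp p - clamp p') i)
  nlinarith

section
variable {X : Type} [MetricSpace X] {q : E n → X}
  {G : E n → Matrix (Fin n) (Fin n) ℝ}

theorem quad_le (A : Matrix (Fin n) (Fin n) ℝ) (ξ : E n) :
    quad A ξ ≤ (∑ i, ∑ j, |A i j|) * ‖ξ‖ ^ 2 := by
  unfold quad
  rw [Finset.sum_mul]
  refine Finset.sum_le_sum fun i _ => ?_
  rw [Finset.sum_mul]
  refine Finset.sum_le_sum fun j _ => ?_
  have h1 : |ξ i| ≤ ‖ξ‖ := by
    simpa using PiLp.norm_apply_le ξ i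
  have h2 : |ξ j| ≤ ‖ξ‖ := by
    simpa using PiLp.norm_apply_le ξ j
  calc A i j * ξ i * ξ j ≤ |A i j * ξ i * ξ j| := le_abs_self _
    _ = |A i j| * (|ξ i| * |ξ j|) := by rw [abs_mul, abs_mul, mul_assoc]
    _ ≤ |A i j| * (‖ξ‖ * ‖ξ‖) := by gcongr
    _ = _ := by ring

theorem continuous_quad : Continuous fun x : Matrix (Fin n) (Fin n) ℝ × E n => quad x.1 x.2 := by
  unfold quad
  fun_prop

theorem quad_smul (A : Matrix (Fin n) (Fin n) ℝ) (t : ℝ) (ξ : E n) :
    quad A (t • ξ) = t ^ 2 * quad A ξ := by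
  unfold quad
  rw [Finset.mul_sum]
  refine Finset.sum_congr rfl fun i _ => ?_
  rw [Finset.mul_sum]
  refine Finset.sum_congr rfl fun j _ => ?_
  simp only [PiLp.smul_apply, smul_eq_mul]
  ring

theorem exists_bound (hG : ContinuousOn G (cube n)) :
    ∃ L : ℝ, 0 ≤ L ∧ ∀ p ∈ cube n, ∀ ξ, quad (G p) ξ ≤ L ^ 2 * ‖ξ‖ ^ 2 := by
  have hc : ContinuousOn (fun p => ∑ i, ∑ j, |G p i j|) (cube n) := by
    refine continuousOn_finsetSum _ fun i _ => continuousOn_finsetSum _ fun j _ => ?_
    have h1 : Continuous fun A : Matrix (Fin n) (Fin n) ℝ => |A i j| := by fun_prop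
    exact h1.comp_continuousOn hG
  obtain ⟨C, hC⟩ := (isCompact_cube n).exists_bound_of_continuousOn hc
  refine ⟨√(max C 0), Real.sqrt_nonneg _, fun p hp ξ => ?_⟩
  rw [Real.sq_sqrt (le_max_right _ _)]
  refine (quad_le _ _).trans ?_
  gcongr
  exact ((le_abs_self _).trans (hC p hp)).trans (le_max_left _ _)

theorem segment_mem {p p' : E n} (hp : p ∈ cube n) (hp' : p' ∈ cube n) {t : ℝ}
    (ht : t ∈ Icc (0 : ℝ) 1) : p + t • (p' - p) ∈ cube n :=
  (convex_cube n).add_smul_sub_mem hp hp' ht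

theorem segLength_le {p p' : E n} {C : ℝ}
    (hC : ∀ t ∈ Icc (0 : ℝ) 1, quad (G (p + t • (p' - p))) (p' - p) ≤ C) :
    segLength G p p' ≤ √C := by
  unfold segLength
  have h := intervalIntegral.norm_integral_le_of_norm_le_const (a := (0 : ℝ)) (b := 1)
    (f := fun t : ℝ => √(quad (G (p + t • (p' - p))) (p' - p))) (C := √C) (fun t ht => by
      rw [uIoc_of_le zero_le_one] at ht
      rw [Real.norm_eq_abs, abs_of_nonneg (Real.sqrt_nonneg _)]
      exact Real.sqrt_le_sqrt (hC t ⟨ht.1.le, ht.2⟩))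
  simp only [sub_zero, abs_one, mul_one] at h
  exact (le_abs_self _).trans h

theorem IsRiemannianCube.dist_le_mul (h : IsRiemannianCube q G) {L : ℝ} (hL0 : 0 ≤ L)
    (hL : ∀ p ∈ cube n, ∀ ξ, quad (G p) ξ ≤ L ^ 2 * ‖ξ‖ ^ 2) {p p' : E n} (hp : p ∈ cube n)
    (hp' : p' ∈ cube n) : dist (q p) (q p') ≤ L * ‖p - p'‖ := by
  refine (h.dist_le p hp p' hp').trans ?_
  have h1 := segLength_le (G := G) (p := p) (p' := p') (C := (L * ‖p' - p‖) ^ 2) (fun t ht => by
    rw [mul_pow]
    exact hL _ (segment_mem hp hp' ht) _)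
  rw [Real.sqrt_sq (by positivity), norm_sub_rev] at h1
  exact h1

/-- `q` composed with the projection. -/
noncomputable def qt (q : E n → X) (p : E n) : X := q (clamp p)

theorem dist_qt_le (h : IsRiemannianCube q G) {L : ℝ} (hL0 : 0 ≤ L)
    (hL : ∀ p ∈ cube n, ∀ ξ, quad (G p) ξ ≤ L ^ 2 * ‖ξ‖ ^ 2) (p p' : E n) :
    dist (qt q p) (qt q p') ≤ L * ‖p - p'‖ := by
  refine (h.dist_le_mul hL0 hL (clamp_mem p) (clamp_mem p')).trans ?_
  have := norm_clamp_sub_le p p'
  gcongr

omit [MetricSpace X] in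
theorem eventually_qt {Y : Type} (F : X → Y) {p : E n} (hp : p ∈ interior (cube n)) :
    F ∘ qt q =ᶠ[𝓝 p] F ∘ q := by
  filter_upwards [mem_interior_iff_mem_nhds.1 hp] with y hy
  simp only [Function.comp_apply, qt, clamp_of_mem hy]

/-- The gradient bound. -/
theorem sq_fderiv_le (h : IsRiemannianCube q G) {g : X → ℝ} (hg : ∀ x y, |g x - g y| ≤ dist x y)
    {p : E n} (hp : p ∈ interior (cube n)) (ξ : E n) :
    (fderiv ℝ (g ∘ qt q) p ξ) ^ 2 ≤ quad (G p) ξ := by
  have hpc : p ∈ cube n := interior_subset hp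
  by_cases hd : DifferentiableAt ℝ (g ∘ qt q) p
  · have hline : HasDerivAt (fun t : ℝ => (g ∘ qt q) (p + t • ξ)) (fderiv ℝ (g ∘ qt q) p ξ) 0 := by
      have h1 : HasDerivAt (fun t : ℝ => p + t • ξ) ξ 0 := by
        simpa using ((hasDerivAt_id (0 : ℝ)).smul_const ξ).const_add p
      have h2 : HasFDerivAt (g ∘ qt q) (fderiv ℝ (g ∘ qt q) p) (p + (0 : ℝ) • ξ) := by
        simpa using hd.hasFDerivAt
      exact h2.comp_hasDerivAt (0 : ℝ) h1
    -- it suffices to bound by `√(quad + ε)`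
    have key : ∀ ε : ℝ, 0 < ε → |fderiv ℝ (g ∘ qt q) p ξ| ≤ √(quad (G p) ξ + ε) := by
      intro ε hε
      have hGc : ContinuousAt G p := (h.continuousOn p hpc).continuousAt
        (mem_interior_iff_mem_nhds.1 hp)
      have hqc : ContinuousAt (fun y => quad (G y) ξ) p := by
        have h3 : Continuous fun A : Matrix (Fin n) (Fin n) ℝ => quad A ξ :=
          continuous_quad.comp (Continuous.prodMk_left ξ)
        exact h3.continuousAt.comp hGc
      have hev : ∀ᶠ y in 𝓝 p, quad (G y) ξ < quad (G p) ξ + ε :=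
        hqc.eventually_lt_const (by linarith)
      obtain ⟨δ, hδ, hball⟩ := Metric.eventually_nhds_iff_ball.1
        (hev.and (isOpen_interior.mem_nhds hp))
      have hsmall : ∀ᶠ t in 𝓝[≠] (0 : ℝ),
          ‖t‖⁻¹ * ‖(g ∘ qt q) (p + t • ξ) - (g ∘ qt q) (p + (0 : ℝ) • ξ)‖ ≤
            √(quad (G p) ξ + ε) := by
        have hts : Tendsto (fun t : ℝ => p + t • ξ) (𝓝 0) (𝓝 p) := by
          have : Continuous fun t : ℝ => p + t • ξ := by fun_prop
          simpa using this.tendsto 0
        have hmem : ∀ᶠ t in 𝓝[≠] (0 : ℝ), p + t • ξ ∈ ball p δ :=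
          (hts.eventually (ball_mem_nhds p hδ)).filter_mono nhdsWithin_le_nhds
        filter_upwards [hmem, self_mem_nhdsWithin] with t ht ht0
        have ht0' : t ≠ 0 := ht0
        have htc : p + t • ξ ∈ cube n := interior_subset (hball _ ht).2
        have e1 : (g ∘ qt q) (p + t • ξ) = g (q (p + t • ξ)) := by
          simp only [Function.comp_apply, qt, clamp_of_mem htc]
        have e2 : (g ∘ qt q) (p + (0 : ℝ) • ξ) = g (q p) := by
          simp only [Function.comp_apply, qt, zero_smul, add_zero, clamp_of_mem hpc]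
        rw [e1, e2, Real.norm_eq_abs (g (q (p + t • ξ)) - g (q p))]
        have h4 : |g (q (p + t • ξ)) - g (q p)| ≤ ‖t‖ * √(quad (G p) ξ + ε) := by
          rw [abs_sub_comm]
          refine (hg _ _).trans ((h.dist_le p hpc _ htc).trans ?_)
          have h5 := segLength_le (G := G) (p := p) (p' := p + t • ξ)
            (C := ‖t‖ ^ 2 * (quad (G p) ξ + ε))
            (fun τ hτ => by
              rw [add_sub_cancel_left, quad_smul, Real.norm_eq_abs, sq_abs]
              have h6 : p + τ • t • ξ ∈ ball p δ := by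
                rw [mem_ball, dist_eq_norm, add_sub_cancel_left] at ht ⊢
                rw [norm_smul]
                have h7 : ‖τ‖ ≤ 1 := by
                  rw [Real.norm_eq_abs, abs_of_nonneg hτ.1]; exact hτ.2
                have h8 := norm_nonneg (t • ξ)
                nlinarith
              have h9 := (hball _ h6).1
              exact mul_le_mul_of_nonneg_left h9.le (sq_nonneg _))
          rwa [Real.sqrt_mul (sq_nonneg _), Real.sqrt_sq (norm_nonneg _)] at h5
        have hn : 0 < ‖t‖ := norm_pos_iff.2 ht0'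
        rw [inv_mul_le_iff₀ hn]
        exact h4
      have hlim := hline.tendsto_slope_zero
      have hlim2 := hlim.norm
      simp only [norm_smul, norm_inv, zero_add] at hlim2
      rw [Real.norm_eq_abs (fderiv ℝ (g ∘ qt q) p ξ)] at hlim2
      exact le_of_tendsto hlim2 hsmall
    have hq0 := h.nonneg p hpc ξ
    have hlim : Tendsto (fun ε : ℝ => √(quad (G p) ξ + ε)) (𝓝[>] 0) (𝓝 (√(quad (G p) ξ))) := by
      have : Continuous fun ε : ℝ => √(quad (G p) ξ + ε) := by fun_prop
      have h1 := this.tendsto 0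
      rw [add_zero] at h1
      exact h1.mono_left nhdsWithin_le_nhds
    have hfin : |fderiv ℝ (g ∘ qt q) p ξ| ≤ √(quad (G p) ξ) :=
      ge_of_tendsto hlim (Filter.eventually_of_mem self_mem_nhdsWithin fun ε hε => key ε hε)
    calc (fderiv ℝ (g ∘ qt q) p ξ) ^ 2 = |fderiv ℝ (g ∘ qt q) p ξ| ^ 2 := (sq_abs _).symm
      _ ≤ √(quad (G p) ξ) ^ 2 := by gcongr
      _ = _ := Real.sq_sqrt hq0
  · rw [fderiv_zero_of_not_differentiableAt hd]
    simpa using h.nonneg p hpc ξ

end

end Pool.Agent.H65G
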