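import Mathlib

set_option autoImplicit false

open Real Set MeasureTheory Metric Matrix

namespace Pool.Agent.H65G

/-- The closed unit cube `[0,1]^n`. -/
def cube (n : ℕ) : Set (EuclideanSpace ℝ (Fin n)) := {p | ∀ i, 0 ≤ p i ∧ p i ≤ 1}

/-- The quadratic form `∑ G i j ξ i ξ j`. -/
def quad {n : ℕ} (G : Matrix (Fin n) (Fin n) ℝ) (ξ : EuclideanSpace ℝ (Fin n)) : ℝ :=
  ∑ i, ∑ j, G i j * ξ i * ξ j

/-- The length of the straight segment from `p` to `p'` in the metric `G`. -/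
noncomputable def segLength {n : ℕ}
    (G : EuclideanSpace ℝ (Fin n) → Matrix (Fin n) (Fin n) ℝ) (p p' : EuclideanSpace ℝ (Fin n)) : ℝ :=
  ∫ t in (0 : ℝ)..1, √(quad (G (p + t • (p' - p))) (p' - p))

/-- `q : [0,1]^n → X` is a Riemannian cube with the continuous (possibly degenerate) metric `G`:
the distances in `X` are at most the lengths of straight segments. -/
structure IsRiemannianCube {n : ℕ} {X : Type} [MetricSpace X]
    (q : EuclideanSpace ℝ (Fin n) → X)
    (G : EuclideanSpace ℝ (Fin n) → Matrix (Fin n) (Fin n) ℝ) : Prop where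
  continuousOn : ContinuousOn G (cube n)
  symm : ∀ p ∈ cube n, (G p).IsSymm
  nonneg : ∀ p ∈ cube n, ∀ ξ, 0 ≤ quad (G p) ξ
  dist_le : ∀ p ∈ cube n, ∀ p' ∈ cube n, dist (q p) (q p') ≤ segLength G p p'

/-- The Riemannian volume of a cube. -/
noncomputable def cubeVolume {n : ℕ}
    (G : EuclideanSpace ℝ (Fin n) → Matrix (Fin n) (Fin n) ℝ) : ℝ :=
  ∫ p in cube n, √(G p).det

/-- The chain `∑ q j` has boundary `γ` of the unit sphere, as a metric current: for Lipschitz
`F = (f, π₁, …, π_{n-1}) : X → ℝ^n`, `∑ ∫ q j^*(df ∧ dπ₁ ∧ …)` is the same integral over the unit ball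
for any Lipschitz extension of `F ∘ γ` to the ball. -/
def HasBoundary {n m : ℕ} {X : Type} [MetricSpace X]
    (q : Fin m → EuclideanSpace ℝ (Fin n) → X)
    (γ : Metric.sphere (0 : EuclideanSpace ℝ (Fin n)) 1 → X) : Prop :=
  ∀ (F : X → EuclideanSpace ℝ (Fin n)) (F₀ : EuclideanSpace ℝ (Fin n) → EuclideanSpace ℝ (Fin n)),
    (∃ K, LipschitzWith K F) → (∃ K, LipschitzOnWith K F₀ (closedBall 0 1)) →
    (∀ t : Metric.sphere (0 : EuclideanSpace ℝ (Fin n)) 1, F (γ t) = F₀ t) →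
    ∑ j, ∫ p in cube n, (fderiv ℝ (F ∘ q j) p).det =
      ∫ p in closedBall (0 : EuclideanSpace ℝ (Fin n)) 1, (fderiv ℝ F₀ p).det

end Pool.Agent.H65G
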