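import Pool.Agent.H65G.Point

set_option autoImplicit false

open Real Set MeasureTheory Metric Filter Topology Matrix
open scoped RealInnerProductSpace MatrixOrder

namespace Pool.Agent.H65G

variable {d : ℕ}

theorem sq_le_of_metric {n : ℕ} {G B : Matrix (Fin n) (Fin n) ℝ} {ε : ℝ} (hε : 0 ≤ ε)
    (hB : G + ε • (1 : Matrix (Fin n) (Fin n) ℝ) = Bᵀ * B) (hBu : IsUnit B.det) {x : Fin n → ℝ}
    (hx : ∀ ξ : Fin n → ℝ, (x ⬝ᵥ ξ) ^ 2 ≤ ξ ⬝ᵥ (G *ᵥ ξ)) :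
    ∑ j, (x ᵥ* B⁻¹) j ^ 2 ≤ 1 := by
  set y := x ᵥ* B⁻¹ with hy
  have h0 : ∑ j, y j ^ 2 = y ⬝ᵥ y := by
    simp only [dotProduct, ← sq]
  have h1 : x ⬝ᵥ (B⁻¹ *ᵥ y) = y ⬝ᵥ y := by
    rw [dotProduct_mulVec]
  have h2 : (B⁻¹ *ᵥ y) ⬝ᵥ ((G + ε • (1 : Matrix (Fin n) (Fin n) ℝ)) *ᵥ (B⁻¹ *ᵥ y)) = y ⬝ᵥ y := by
    rw [hB, ← Matrix.mulVec_mulVec, Matrix.mulVec_mulVec _ B, Matrix.mul_nonsing_inv _ hBu,
      Matrix.one_mulVec, dotProduct_mulVec, Matrix.vecMul_transpose, Matrix.mulVec_mulVec,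
      Matrix.mul_nonsing_inv _ hBu, Matrix.one_mulVec]
  have h3 : (B⁻¹ *ᵥ y) ⬝ᵥ (G *ᵥ (B⁻¹ *ᵥ y)) ≤ y ⬝ᵥ y := by
    rw [← h2, Matrix.add_mulVec, dotProduct_add, Matrix.smul_mulVec, Matrix.one_mulVec,
      dotProduct_smul, smul_eq_mul]
    have : 0 ≤ (B⁻¹ *ᵥ y) ⬝ᵥ (B⁻¹ *ᵥ y) := by
      simp only [dotProduct, ← sq]
      exact Finset.sum_nonneg fun i _ => sq_nonneg _
    have := mul_nonneg hε this
    linarith
  have h4 := (hx (B⁻¹ *ᵥ y)).trans h3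
  rw [h1] at h4
  rw [h0]
  have h5 : 0 ≤ y ⬝ᵥ y := by
    rw [← h0]; exact Finset.sum_nonneg fun i _ => sq_nonneg _
  by_contra hcon
  push Not at hcon
  nlinarith

/-- The pointwise bound. -/
theorem point_bound (hd : 1 ≤ d) {w : E (d + 1)} (hw : ‖w‖ < 1) (hcrit : Crit d ‖w‖)
    {η : ℝ} (hη : 0 < η) {M : E (d + 1) →L[ℝ] E (d + 1)} {u : Sph (d + 1) → E (d + 1)}
    (hum : Measurable u) {C : ℝ} (hub : ∀ s, ‖u s‖ ≤ C)
    (hM : ∀ ξ, (∫ s, dzh w s ∂(sigma (d + 1))) (M ξ) =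
      η • ∫ s, ⟪u s, ξ⟫ • (s : E (d + 1)) ∂(sigma (d + 1)))
    {G : Matrix (Fin (d + 1)) (Fin (d + 1)) ℝ} (hG : G.PosSemidef)
    (hu : ∀ s, ∀ ξ : Fin (d + 1) → ℝ, ((fun i => u s i) ⬝ᵥ ξ) ^ 2 ≤ ξ ⬝ᵥ (G *ᵥ ξ)) :
    |∫ s, (lmap w η M (u s) s).det ∂(sigma (d + 1))| ≤ η ^ d * √G.det := by
  have key : ∀ ε : ℝ, 0 < ε → |∫ s, (lmap w η M (u s) s).det ∂(sigma (d + 1))| ≤
      η ^ d * √(G + ε • (1 : Matrix (Fin (d + 1)) (Fin (d + 1)) ℝ)).det := by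
    intro ε hε
    have hpd : (G + ε • (1 : Matrix (Fin (d + 1)) (Fin (d + 1)) ℝ)).PosDef :=
      (Matrix.PosDef.one.smul hε).posSemidef_add hG
    obtain ⟨B, hB⟩ := CStarAlgebra.nonneg_iff_eq_star_mul_self.mp hpd.posSemidef.nonneg
    rw [Matrix.star_eq_conjTranspose, Matrix.conjTranspose_eq_transpose_of_trivial] at hB
    have hdet : (G + ε • (1 : Matrix (Fin (d + 1)) (Fin (d + 1)) ℝ)).det = B.det ^ 2 := by
      rw [hB, Matrix.det_mul, Matrix.det_transpose, sq]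
    have hBu : IsUnit B.det := by
      rw [isUnit_iff_ne_zero]
      intro h0
      have := hpd.det_pos
      rw [hdet, h0] at this
      norm_num at this
    rw [hdet, Real.sqrt_sq_eq_abs]
    exact point_bound_aux hd hw hcrit hη hum hub hM B hBu
      fun s => sq_le_of_metric hε.le hB hBu (hu s)
  have hcont : Continuous fun ε : ℝ =>
      η ^ d * √(G + ε • (1 : Matrix (Fin (d + 1)) (Fin (d + 1)) ℝ)).det := by fun_prop
  have ht : Tendsto (fun ε : ℝ =>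
      η ^ d * √(G + ε • (1 : Matrix (Fin (d + 1)) (Fin (d + 1)) ℝ)).det) (𝓝[>] 0)
      (𝓝 (η ^ d * √G.det)) := by
    have := hcont.tendsto 0
    rw [zero_smul, add_zero] at this
    exact this.mono_left nhdsWithin_le_nhds
  exact ge_of_tendsto ht (Filter.eventually_of_mem self_mem_nhdsWithin fun ε hε => key ε hε)

end Pool.Agent.H65G
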