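import Pool.Agent.H65G.ZFun
import Pool.Agent.H65G.PointG

set_option autoImplicit false

open Real Set MeasureTheory Metric Filter Topology
open scoped RealInnerProductSpace

namespace Pool.Agent.H65G

variable {d : ℕ} {k₁ : ℝ}

/-- The part of `Γ_s` which depends on `w` only. -/
noncomputable def psi (c : ℝ) (s : Sph (d + 1)) (w : E (d + 1)) : E (d + 1) :=
  -(c * arcsin ⟪w, (s : E (d + 1))⟫) • (s : E (d + 1)) +
    (√(1 - ⟪w, (s : E (d + 1))⟫ ^ 2))⁻¹ • (w - ⟪w, (s : E (d + 1))⟫ • (s : E (d + 1)))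

/-- The derivative of `psi`. -/
noncomputable def dpsi (c : ℝ) (s : Sph (d + 1)) (w : E (d + 1)) : E (d + 1) →L[ℝ] E (d + 1) :=
  -(c • ((√(1 - ⟪w, (s : E (d + 1))⟫ ^ 2))⁻¹ • innerSL ℝ (s : E (d + 1))).smulRight
    (s : E (d + 1))) + dv w s

theorem smulRight_smul' (a : ℝ) (f : E (d + 1) →L[ℝ] ℝ) (v : E (d + 1)) :
    (a • f).smulRight v = a • f.smulRight v := by
  ext ξ i
  simp [mul_assoc]

theorem hasFDerivAt_inner_left (s w : E (d + 1)) :
    HasFDerivAt (fun w : E (d + 1) => ⟪w, s⟫) (innerSL ℝ s) w := by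
  have := (innerSL ℝ s).hasFDerivAt (x := w)
  refine this.congr_of_eventuallyEq (Eventually.of_forall fun w => ?_)
  simp [real_inner_comm]

theorem hasFDerivAt_psi (c : ℝ) {w : E (d + 1)} (hw : ‖w‖ < 1) (s : Sph (d + 1)) :
    HasFDerivAt (psi c s) (dpsi c s w) w := by
  have hpos := one_sub_inner_pos hw s
  have hq : 0 < √(1 - ⟪w, (s : E (d + 1))⟫ ^ 2) := Real.sqrt_pos.2 hpos
  have h1 := hasFDerivAt_inner_left (s : E (d + 1)) w
  have h2 : HasFDerivAt (fun w : E (d + 1) => -(c * arcsin ⟪w, (s : E (d + 1))⟫) • (s : E (d + 1)))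
      (-(c • ((√(1 - ⟪w, (s : E (d + 1))⟫ ^ 2))⁻¹ • innerSL ℝ (s : E (d + 1))).smulRight
    (s : E (d + 1)))) w := by
    have h3 := ((hasFDerivAt_arcsin_inner hw s).const_mul c).neg.smul_const (s : E (d + 1))
    refine h3.congr_fderiv ?_
    ext ξ i
    simp
    ring
  have h4 : HasDerivAt (fun x : ℝ => (√(1 - x ^ 2))⁻¹)
      (⟪w, (s : E (d + 1))⟫ * (√(1 - ⟪w, (s : E (d + 1))⟫ ^ 2) ^ 3)⁻¹) ⟪w, (s : E (d + 1))⟫ := by
    have h5 : HasDerivAt (fun x : ℝ => 1 - x ^ 2) (-(2 * ⟪w, (s : E (d + 1))⟫))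
        ⟪w, (s : E (d + 1))⟫ := by
      simpa using ((hasDerivAt_pow 2 ⟪w, (s : E (d + 1))⟫).const_sub 1)
    have h6 := (h5.sqrt hpos.ne').inv hq.ne'
    refine h6.congr_deriv ?_
    field_simp
  have h7 : HasFDerivAt (fun w : E (d + 1) => w - ⟪w, (s : E (d + 1))⟫ • (s : E (d + 1)))
      (ContinuousLinearMap.id ℝ (E (d + 1)) -
        (innerSL ℝ (s : E (d + 1))).smulRight (s : E (d + 1))) w :=
    (hasFDerivAt_id w).sub (h1.smul_const _)
  have h8 := (h4.comp_hasFDerivAt w h1).smul h7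
  have h9 := h2.add h8
  refine h9.congr_fderiv ?_
  unfold dpsi dv
  rw [smulRight_smul' (⟪w, (s : E (d + 1))⟫ * (√(1 - ⟪w, (s : E (d + 1))⟫ ^ 2) ^ 3)⁻¹)]
  rfl

theorem continuousOn_dpsi (c : ℝ) {k : ℝ} (hk1 : k < 1) :
    ContinuousOn (fun p : Sph (d + 1) × E (d + 1) => dpsi c p.1 p.2)
      (univ ×ˢ closedBall 0 k) := by
  have hin : Continuous fun p : Sph (d + 1) × E (d + 1) => ⟪p.2, (p.1 : E (d + 1))⟫ := by fun_prop
  have hs : Continuous fun p : Sph (d + 1) × E (d + 1) => (p.1 : E (d + 1)) := by fun_prop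
  have hne : ∀ p ∈ (univ ×ˢ closedBall 0 k : Set (Sph (d + 1) × E (d + 1))),
      √(1 - ⟪p.2, (p.1 : E (d + 1))⟫ ^ 2) ≠ 0 := by
    rintro ⟨s, w⟩ ⟨_, hw⟩
    rw [mem_closedBall_zero_iff] at hw
    exact (Real.sqrt_pos.2 (one_sub_inner_pos (lt_of_le_of_lt hw hk1) s)).ne'
  have hq : ContinuousOn (fun p : Sph (d + 1) × E (d + 1) =>
      (√(1 - ⟪p.2, (p.1 : E (d + 1))⟫ ^ 2))⁻¹) (univ ×ˢ closedBall 0 k) :=
    ContinuousOn.inv₀ (by fun_prop) hne
  have hq3 : ContinuousOn (fun p : Sph (d + 1) × E (d + 1) =>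
      (√(1 - ⟪p.2, (p.1 : E (d + 1))⟫ ^ 2) ^ 3)⁻¹) (univ ×ˢ closedBall 0 k) :=
    ContinuousOn.inv₀ (by fun_prop) fun p hp => pow_ne_zero _ (hne p hp)
  have hsl : Continuous fun p : Sph (d + 1) × E (d + 1) => innerSL ℝ (p.1 : E (d + 1)) := by
    fun_prop
  have hR := (ContinuousLinearMap.smulRightL ℝ (E (d + 1)) (E (d + 1))).continuous
  have hss : Continuous fun p : Sph (d + 1) × E (d + 1) =>
      (innerSL ℝ (p.1 : E (d + 1))).smulRight (p.1 : E (d + 1)) := (hR.comp hsl).clm_apply hs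
  have hss2 : Continuous fun p : Sph (d + 1) × E (d + 1) =>
      (innerSL ℝ (p.1 : E (d + 1))).smulRight
        (p.2 - ⟪p.2, (p.1 : E (d + 1))⟫ • (p.1 : E (d + 1))) :=
    (hR.comp hsl).clm_apply (by fun_prop)
  unfold dpsi dv
  refine ContinuousOn.add (ContinuousOn.neg (ContinuousOn.const_smul ?_ c))
    (ContinuousOn.add (hq.smul (continuous_const.sub hss).continuousOn)
      ((hin.continuousOn.mul hq3).smul hss2.continuousOn))
  simp only [smulRight_smul']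
  exact hq.smul hss.continuousOn

theorem exists_lip_psi (d : ℕ) (c : ℝ) {k : ℝ} (hk1 : k < 1) :
    ∃ K : ℝ, 0 ≤ K ∧ ∀ (s : Sph (d + 1)) (w w' : E (d + 1)), ‖w‖ ≤ k → ‖w'‖ ≤ k →
      ‖psi c s w - psi c s w'‖ ≤ K * ‖w - w'‖ := by
  have hcomp : IsCompact (univ ×ˢ closedBall 0 k : Set (Sph (d + 1) × E (d + 1))) :=
    isCompact_univ.prod (isCompact_closedBall _ _)
  obtain ⟨C, hC⟩ := hcomp.exists_bound_of_continuousOn (continuousOn_dpsi (d := d) c hk1)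
  refine ⟨max C 0, le_max_right _ _, fun s w w' hw hw' => ?_⟩
  refine (convex_closedBall (0 : E (d + 1)) k).norm_image_sub_le_of_norm_hasFDerivWithin_le
    (f := psi c s) (f' := dpsi c s) (fun x hx => ?_) (fun x hx => ?_)
    (mem_closedBall_zero_iff.2 hw') (mem_closedBall_zero_iff.2 hw)
  · exact (hasFDerivAt_psi c (lt_of_le_of_lt (mem_closedBall_zero_iff.1 hx) hk1) s).hasFDerivWithinAt
  · exact (hC (s, x) ⟨mem_univ _, hx⟩).trans (le_max_left _ _)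

theorem continuousOn_psi (c : ℝ) {k : ℝ} (hk1 : k < 1) :
    ContinuousOn (fun p : Sph (d + 1) × E (d + 1) => psi c p.1 p.2) (univ ×ˢ closedBall 0 k) := by
  have hne : ∀ p ∈ (univ ×ˢ closedBall 0 k : Set (Sph (d + 1) × E (d + 1))),
      √(1 - ⟪p.2, (p.1 : E (d + 1))⟫ ^ 2) ≠ 0 := by
    rintro ⟨s, w⟩ ⟨_, hw⟩
    rw [mem_closedBall_zero_iff] at hw
    exact (Real.sqrt_pos.2 (one_sub_inner_pos (lt_of_le_of_lt hw hk1) s)).ne'
  have hq : ContinuousOn (fun p : Sph (d + 1) × E (d + 1) =>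
      (√(1 - ⟪p.2, (p.1 : E (d + 1))⟫ ^ 2))⁻¹) (univ ×ˢ closedBall 0 k) :=
    ContinuousOn.inv₀ (by fun_prop) hne
  have harc := continuous_arcsin
  unfold psi
  exact ContinuousOn.add (by fun_prop) (hq.smul (by fun_prop))

attribute [irreducible] psi dpsi

variable {X : Type} [MetricSpace X]

/-- The map `Γ_s : X → ℝ^n`. -/
noncomputable def gam (k k₁ : ℝ) (γ : Sph (d + 1) → X) (s : Sph (d + 1)) (x : X) : E (d + 1) :=
  ((d + 1 : ℝ) * gext k₁ γ s x) • (s : E (d + 1)) + psi (d / eta d k k₁) s (wfun k k₁ γ x)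

theorem exists_lip_gam {k : ℝ} (hk0 : 0 < k) (hk : k < 1) (hkk : k ≤ k₁) (hk1 : k₁ ≤ 1)
    (γ : Sph (d + 1) → X) :
    ∃ K : ℝ, 0 ≤ K ∧ ∀ (s : Sph (d + 1)) (x y : X),
      ‖gam k k₁ γ s x - gam k k₁ γ s y‖ ≤ K * dist x y := by
  obtain ⟨K, hK0, hK⟩ := exists_lip_psi d (d / eta d k k₁) hk
  have he := eta_pos (d := d) hk0 hkk hk1
  refine ⟨(d + 1) + K * ((d + 1) * eta d k k₁), by positivity, fun s x y => ?_⟩
  have hs : ‖(s : E (d + 1))‖ = 1 := by simp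
  have h1 := hK s _ _ (wfun_spec hk0 hkk hk1 γ x).1 (wfun_spec hk0 hkk hk1 γ y).1
  have h2 := norm_wfun_sub_le hk0 hkk hk1 γ x y
  have h3 := abs_gext_sub_le (k₁ := k₁) γ s x y
  have h4 : gam k k₁ γ s x - gam k k₁ γ s y =
      ((d + 1 : ℝ) * (gext k₁ γ s x - gext k₁ γ s y)) • (s : E (d + 1)) +
      (psi (d / eta d k k₁) s (wfun k k₁ γ x) - psi (d / eta d k k₁) s (wfun k k₁ γ y)) := by
    unfold gam
    rw [mul_sub, sub_smul]
    abel
  rw [h4]
  refine (norm_add_le _ _).trans ?_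
  have h5 : ‖((d + 1 : ℝ) * (gext k₁ γ s x - gext k₁ γ s y)) • (s : E (d + 1))‖ ≤
      (d + 1) * dist x y := by
    rw [norm_smul, hs, mul_one, norm_mul, Real.norm_eq_abs, Real.norm_eq_abs,
      abs_of_nonneg (by positivity : (0 : ℝ) ≤ d + 1)]
    gcongr
  calc _ ≤ (d + 1) * dist x y + K * ((d + 1) * eta d k k₁ * dist x y) := by
        refine add_le_add h5 (h1.trans ?_)
        gcongr
    _ = _ := by ring

theorem continuous_wfun {k : ℝ} (hk0 : 0 < k) (hkk : k ≤ k₁) (hk1 : k₁ ≤ 1)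
    (γ : Sph (d + 1) → X) : Continuous (wfun k k₁ γ) := by
  have he := eta_pos (d := d) hk0 hkk hk1
  have h : LipschitzWith (Real.toNNReal ((d + 1) * eta d k k₁)) (wfun k k₁ γ) := by
    apply LipschitzWith.of_dist_le_mul
    intro x y
    rw [Real.coe_toNNReal _ (by positivity), dist_eq_norm]
    exact norm_wfun_sub_le hk0 hkk hk1 γ x y
  exact h.continuous

theorem continuous_gam {k : ℝ} (hk0 : 0 < k) (hk : k < 1) (hkk : k ≤ k₁) (hk1 : k₁ ≤ 1)
    (γ : Sph (d + 1) → X) :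
    Continuous fun p : Sph (d + 1) × X => gam k k₁ γ p.1 p.2 := by
  have h1 := continuous_gext (hk0.le.trans hkk) hk1 γ
  have h2 := continuous_wfun hk0 hkk hk1 γ
  have h3 := continuousOn_psi (d := d) (d / eta d k k₁) hk
  have h4 : Continuous fun p : Sph (d + 1) × X => (p.1, wfun k k₁ γ p.2) :=
    continuous_fst.prodMk (h2.comp continuous_snd)
  have key : ∀ P : Sph (d + 1) → E (d + 1) → E (d + 1),
      ContinuousOn (fun p : Sph (d + 1) × E (d + 1) => P p.1 p.2) (univ ×ˢ closedBall 0 k) →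
      Continuous fun p : Sph (d + 1) × X => P p.1 (wfun k k₁ γ p.2) := by
    intro P hP
    have h6 := hP.comp_continuous h4 fun p => ⟨mem_univ _,
      mem_closedBall_zero_iff.2 (wfun_spec hk0 hkk hk1 γ p.2).1⟩
    exact h6
  have h5 := key _ h3
  have h7 : Continuous fun p : Sph (d + 1) × X =>
      ((d + 1 : ℝ) * gext k₁ γ p.1 p.2) • (p.1 : E (d + 1)) :=
    (continuous_const.mul h1).smul (by fun_prop)
  exact h7.add h5

attribute [irreducible] gam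

end Pool.Agent.H65G
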