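import Pool.Agent.H65G.CubeBound

set_option autoImplicit false

open Real Set MeasureTheory Metric Filter Topology Matrix
open scoped RealInnerProductSpace

namespace Pool.Agent.H65G

variable {d : ℕ} {k₁ : ℝ} {X : Type} [MetricSpace X] {q : E (d + 1) → X}
  {G : E (d + 1) → Matrix (Fin (d + 1)) (Fin (d + 1)) ℝ}

/-- Determinants of bounded maps are bounded. -/
theorem exists_det_bound (n : ℕ) (C : ℝ) :
    ∃ B : ℝ, ∀ A : E n →L[ℝ] E n, ‖A‖ ≤ C → ‖A.det‖ ≤ B := by
  have hps : ProperSpace (E n →L[ℝ] E n) := FiniteDimensional.proper ℝ _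
  obtain ⟨B, hB⟩ := (isCompact_closedBall (0 : E n →L[ℝ] E n) C).exists_bound_of_continuousOn
    (ContinuousLinearMap.continuous_det (𝕜 := ℝ) (E := E n)).continuousOn
  exact ⟨B, fun A hA => hB A (mem_closedBall_zero_iff.2 hA)⟩

theorem norm_fderiv_fch_le {k : ℝ} (hk0 : 0 < k) (hk : k < 1) (hkk : k ≤ k₁) (hk1 : k₁ ≤ 1)
    (γ : Sph (d + 1) → X) (h : IsRiemannianCube q G) :
    ∃ C : ℝ, ∀ s p, ‖fderiv ℝ (fch k k₁ γ q s) p‖ ≤ C := by
  obtain ⟨L, hL0, hL⟩ := exists_bound h.continuousOn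
  obtain ⟨K, hK0, hK⟩ := exists_lip_gam hk0 hk hkk hk1 γ
  refine ⟨K * L, fun s p => ?_⟩
  have hl : LipschitzWith (Real.toNNReal (K * L)) (fch k k₁ γ q s) := by
    apply LipschitzWith.of_dist_le_mul
    intro x y
    rw [Real.coe_toNNReal _ (by positivity), dist_eq_norm, dist_eq_norm]
    refine (hK s _ _).trans ?_
    rw [mul_assoc]
    exact mul_le_mul_of_nonneg_left (dist_qt_le h hL0 hL x y) hK0
  have := norm_fderiv_le_of_lipschitz ℝ (x₀ := p) hl
  rwa [Real.coe_toNNReal _ (by positivity)] at this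

theorem integrable_det_fch {k : ℝ} (hk0 : 0 < k) (hk : k < 1) (hkk : k ≤ k₁) (hk1 : k₁ ≤ 1)
    (γ : Sph (d + 1) → X) (h : IsRiemannianCube q G) :
    Integrable (fun z : Sph (d + 1) × E (d + 1) => (fderiv ℝ (fch k k₁ γ q z.1) z.2).det)
      ((sigma (d + 1)).prod ((volume : Measure (E (d + 1))).restrict (cube (d + 1)))) := by
  obtain ⟨C, hC⟩ := norm_fderiv_fch_le hk0 hk hkk hk1 γ h
  obtain ⟨B, hB⟩ := exists_det_bound (d + 1) C
  have hfin : IsFiniteMeasure ((volume : Measure (E (d + 1))).restrict (cube (d + 1))) :=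
    ⟨by rw [Measure.restrict_apply_univ]; exact (isCompact_cube (d + 1)).measure_lt_top⟩
  have hsf : IsFiniteMeasure (sigma (d + 1)) := inferInstance
  have hm : Measurable fun z : Sph (d + 1) × E (d + 1) =>
      (fderiv ℝ (fch k k₁ γ q z.1) z.2).det :=
    (ContinuousLinearMap.continuous_det (𝕜 := ℝ) (E := E (d + 1))).measurable.comp
      (measurable_fderiv_with_param ℝ (continuous_fch hk0 hk hkk hk1 γ h))
  exact Integrable.mono' (integrable_const B) hm.aestronglyMeasurable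
    (Eventually.of_forall fun z => hB _ (hC _ _))

theorem ae_differentiable_wch {k : ℝ} (hk0 : 0 < k) (hkk : k ≤ k₁) (hk1 : k₁ ≤ 1)
    (γ : Sph (d + 1) → X) (h : IsRiemannianCube q G) :
    ∀ᵐ p ∂(volume : Measure (E (d + 1))), DifferentiableAt ℝ (fun p => wfun k k₁ γ (qt q p)) p := by
  obtain ⟨L, hL0, hL⟩ := exists_bound h.continuousOn
  have he := eta_pos (d := d) hk0 hkk hk1
  have hl : LipschitzWith (Real.toNNReal ((d + 1) * eta d k k₁ * L))
      (fun p => wfun k k₁ γ (qt q p)) := by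
    apply LipschitzWith.of_dist_le_mul
    intro x y
    rw [Real.coe_toNNReal _ (by positivity), dist_eq_norm, dist_eq_norm]
    refine (norm_wfun_sub_le hk0 hkk hk1 γ _ _).trans ?_
    rw [mul_assoc ((d + 1 : ℝ) * eta d k k₁)]
    exact mul_le_mul_of_nonneg_left (dist_qt_le h hL0 hL x y) (by positivity)
  exact hl.ae_differentiableAt

theorem fderiv_gam_q {k : ℝ} (γ : Sph (d + 1) → X) (s : Sph (d + 1)) {p : E (d + 1)}
    (hp : p ∈ interior (cube (d + 1))) :
    fderiv ℝ (gam k k₁ γ s ∘ q) p = fderiv ℝ (fch k k₁ γ q s) p := by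
  have h1 := eventually_qt (q := q) (gam k k₁ γ s) hp
  exact h1.symm.fderiv_eq

theorem integral_gam_q {k : ℝ} (γ : Sph (d + 1) → X) (s : Sph (d + 1)) :
    ∫ p in cube (d + 1), (fderiv ℝ (gam k k₁ γ s ∘ q) p).det =
      ∫ p in cube (d + 1), (fderiv ℝ (fch k k₁ γ q s) p).det := by
  refine integral_congr_ae ?_
  filter_upwards [ae_interior_cube (d + 1)] with p hp
  rw [fderiv_gam_q γ s hp]

theorem integrable_sqrt_det (h : IsRiemannianCube q G) :
    IntegrableOn (fun p => √(G p).det) (cube (d + 1)) volume := by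
  refine ContinuousOn.integrableOn_compact (isCompact_cube _) ?_
  have h1 : Continuous fun A : Matrix (Fin (d + 1)) (Fin (d + 1)) ℝ => √A.det := by fun_prop
  exact h1.comp_continuousOn h.continuousOn

/-- The bound for a cube. -/
theorem cube_bound (hd : 1 ≤ d) {k : ℝ} (hk0 : 0 < k) (hk : k < 1) (hkk : k ≤ k₁) (hk1 : k₁ ≤ 1)
    (hcrit : ∀ r, 0 ≤ r → r ≤ k → Crit d r)
    (γ : Sph (d + 1) → X) (h : IsRiemannianCube q G) :
    Integrable (fun s => ∫ p in cube (d + 1), (fderiv ℝ (gam k k₁ γ s ∘ q) p).det)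
      (sigma (d + 1)) ∧
    ∫ s, (∫ p in cube (d + 1), (fderiv ℝ (gam k k₁ γ s ∘ q) p).det) ∂(sigma (d + 1)) ≤
      eta d k k₁ ^ d * cubeVolume G := by
  have hk1' : 0 ≤ k₁ := hk0.le.trans hkk
  have hfin : IsFiniteMeasure ((volume : Measure (E (d + 1))).restrict (cube (d + 1))) :=
    ⟨by rw [Measure.restrict_apply_univ]; exact (isCompact_cube (d + 1)).measure_lt_top⟩
  have hsf : IsFiniteMeasure (sigma (d + 1)) := inferInstance
  have hi := integrable_det_fch hk0 hk hkk hk1 γ h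
  simp only [integral_gam_q]
  refine ⟨hi.integral_prod_left, ?_⟩
  have hsw := integral_integral_swap (μ := sigma (d + 1))
    (ν := (volume : Measure (E (d + 1))).restrict (cube (d + 1)))
    (f := fun s p => (fderiv ℝ (fch k k₁ γ q s) p).det) hi
  rw [hsw, cubeVolume, ← integral_const_mul]
  refine integral_mono_ae hi.integral_prod_right ((integrable_sqrt_det h).const_mul _) ?_
  filter_upwards [ae_interior_cube (d + 1), ae_restrict_of_ae (ae_ae_differentiable hk1' hk1 γ h),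
    ae_restrict_of_ae (ae_differentiable_wch hk0 hkk hk1 γ h)] with p hp1 hp2 hp3
  exact chart_bound hd hk0 hk hkk hk1 hcrit γ h hp1 hp2 hp3

end Pool.Agent.H65G
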