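import Mathlib

/-! Elementary inequalities for CAP/Crit. -/

set_option autoImplicit false
open Real Set

namespace Pool.Agent.H65G

/-! ### the power bound -/

theorem pow_five_le {q : ℝ} (h0 : 0 ≤ q) (h1 : q ≤ 1) :
    q ^ 5 ≤ 1 - 5 / 2 * (1 - q ^ 2) + 15 / 8 * (1 - q ^ 2) ^ 2 := by
  have h2 : 0 ≤ (1 - q) ^ 3 := pow_nonneg (by linarith) 3
  nlinarith [mul_nonneg h0 h2, mul_nonneg h0 (mul_nonneg h0 h2), sq_nonneg (1 - q), sq_nonneg q]

theorem pow_ge_four (k : ℕ) : ∀ {q : ℝ}, 0 ≤ q → q ≤ 1 → 4 ≤ k →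
    q ^ k ≤ 1 - (k : ℝ) / 2 * (1 - q ^ 2) + (k : ℝ) * (k - 2) / 8 * (1 - q ^ 2) ^ 2 := by
  induction k using Nat.strong_induction_on with
  | _ k ih =>
    intro q h0 h1 hk
    rcases Nat.lt_or_ge k 6 with h6 | h6
    · interval_cases k
      · norm_num
        nlinarith
      · have := pow_five_le h0 h1
        norm_num at this ⊢
        linarith
    · obtain ⟨j, rfl⟩ : ∃ j, k = j + 2 := ⟨k - 2, by omega⟩
      have hj := ih j (by omega) h0 h1 (by omega)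
      have h3 : 0 ≤ q ^ 2 := sq_nonneg q
      have h4 : q ^ (j + 2) = q ^ j * q ^ 2 := pow_add q j 2
      rw [h4]
      have h5 := mul_le_mul_of_nonneg_right hj h3
      refine h5.trans ?_
      have h7 : 0 ≤ (1 - q ^ 2) ^ 3 := by
        apply pow_nonneg
        nlinarith
      have hj' : (4 : ℝ) ≤ j := by exact_mod_cast (by omega : 4 ≤ j)
      have h8 : 0 ≤ (j : ℝ) * (j - 2) / 8 * (1 - q ^ 2) ^ 3 := by
        apply mul_nonneg _ h7
        have : 0 ≤ (j : ℝ) * (j - 2) := by nlinarith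
        linarith
      push_cast
      nlinarith [h8]

/-- coefficient of the quadratic term -/
noncomputable def Kc (d : ℕ) : ℝ := if d = 2 then 1 / 2 else (d + 1) * (d - 1) / 8

theorem pow_le_quad {d : ℕ} (hd : 1 ≤ d) {q : ℝ} (h0 : 0 ≤ q) (h1 : q ≤ 1) :
    q ^ (d + 1) ≤ 1 - ((d : ℝ) + 1) / 2 * (1 - q ^ 2) + Kc d * (1 - q ^ 2) ^ 2 := by
  rcases Nat.lt_or_ge d 3 with h3 | h3
  · interval_cases d
    · simp [Kc]
    · simp only [Kc, if_true]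
      norm_num
      nlinarith [mul_nonneg (sq_nonneg q) (sq_nonneg (1 - q))]
  · have := pow_ge_four (d + 1) h0 h1 (by omega)
    have hne : d ≠ 2 := by omega
    rw [Kc, if_neg hne]
    push_cast at this
    rw [show ((d : ℝ) + 1 - 2) = d - 1 by ring] at this
    exact this

/-! ### small dimensions -/

theorem num_two {x c : ℝ} (hc : 37 / 100 ≤ c) (hc1 : c ≤ 1) (hx : x = 1 - c ^ 2) :
    1 * ((1 - 3 / 4 * x) * (1 - 3 / 4 * x) * ((1 - 1 / 4 * x) * (1 - 1 / 4 * x))) ≤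
      c ^ 3 * ((1 - 1 / 4 * x) * (1 - 1 / 4 * x)) +
        1 * (c * ((1 - 3 / 4 * x) * (1 - 3 / 4 * x))) := by
  have h1 : 0 ≤ c - 37 / 100 := by linarith
  have h2 : 0 ≤ 1 - c := by linarith
  subst hx
  linarith [mul_nonneg (pow_nonneg h1 0) (pow_nonneg h2 8),
      mul_nonneg (pow_nonneg h1 1) (pow_nonneg h2 7),
      mul_nonneg (pow_nonneg h1 2) (pow_nonneg h2 6),
      mul_nonneg (pow_nonneg h1 3) (pow_nonneg h2 5),
      mul_nonneg (pow_nonneg h1 4) (pow_nonneg h2 4),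
      mul_nonneg (pow_nonneg h1 5) (pow_nonneg h2 3),
      mul_nonneg (pow_nonneg h1 6) (pow_nonneg h2 2),
      mul_nonneg (pow_nonneg h1 7) (pow_nonneg h2 1),
      mul_nonneg (pow_nonneg h1 8) (pow_nonneg h2 0)]

theorem num_three {x c : ℝ} (hc : 51 / 100 ≤ c) (hc1 : c ≤ 1) (hx : x = 1 - c ^ 2) :
    2 * ((1 - 3 / 5 * x) * (1 - 9 / 10 * x + 3 / 14 * x ^ 2) *
        ((1 - 1 / 5 * x) * (1 - 3 / 10 * x + 3 / 70 * x ^ 2))) ≤
      c ^ 3 * ((1 - 1 / 5 * x) * (1 - 3 / 10 * x + 3 / 70 * x ^ 2)) +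
        2 * (c * ((1 - 3 / 5 * x) * (1 - 9 / 10 * x + 3 / 14 * x ^ 2))) := by
  have h1 : 0 ≤ c - 51 / 100 := by linarith
  have h2 : 0 ≤ 1 - c := by linarith
  subst hx
  linarith [mul_nonneg (pow_nonneg h1 0) (pow_nonneg h2 12),
      mul_nonneg (pow_nonneg h1 1) (pow_nonneg h2 11),
      mul_nonneg (pow_nonneg h1 2) (pow_nonneg h2 10),
      mul_nonneg (pow_nonneg h1 3) (pow_nonneg h2 9),
      mul_nonneg (pow_nonneg h1 4) (pow_nonneg h2 8),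
      mul_nonneg (pow_nonneg h1 5) (pow_nonneg h2 7),
      mul_nonneg (pow_nonneg h1 6) (pow_nonneg h2 6),
      mul_nonneg (pow_nonneg h1 7) (pow_nonneg h2 5),
      mul_nonneg (pow_nonneg h1 8) (pow_nonneg h2 4),
      mul_nonneg (pow_nonneg h1 9) (pow_nonneg h2 3),
      mul_nonneg (pow_nonneg h1 10) (pow_nonneg h2 2),
      mul_nonneg (pow_nonneg h1 11) (pow_nonneg h2 1),
      mul_nonneg (pow_nonneg h1 12) (pow_nonneg h2 0)]

theorem num_four {x c : ℝ} (hc : 63 / 100 ≤ c) (hc1 : c ≤ 1) (hx : x = 1 - c ^ 2) :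
    3 * ((1 - 1 / 2 * x) * (1 - x + 5 / 16 * x ^ 2) *
        ((1 - 1 / 6 * x) * (1 - 1 / 3 * x + 1 / 16 * x ^ 2))) ≤
      c ^ 3 * ((1 - 1 / 6 * x) * (1 - 1 / 3 * x + 1 / 16 * x ^ 2)) +
        3 * (c * ((1 - 1 / 2 * x) * (1 - x + 5 / 16 * x ^ 2))) := by
  have h1 : 0 ≤ c - 63 / 100 := by linarith
  have h2 : 0 ≤ 1 - c := by linarith
  subst hx
  linarith [mul_nonneg (pow_nonneg h1 0) (pow_nonneg h2 12),
      mul_nonneg (pow_nonneg h1 1) (pow_nonneg h2 11),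
      mul_nonneg (pow_nonneg h1 2) (pow_nonneg h2 10),
      mul_nonneg (pow_nonneg h1 3) (pow_nonneg h2 9),
      mul_nonneg (pow_nonneg h1 4) (pow_nonneg h2 8),
      mul_nonneg (pow_nonneg h1 5) (pow_nonneg h2 7),
      mul_nonneg (pow_nonneg h1 6) (pow_nonneg h2 6),
      mul_nonneg (pow_nonneg h1 7) (pow_nonneg h2 5),
      mul_nonneg (pow_nonneg h1 8) (pow_nonneg h2 4),
      mul_nonneg (pow_nonneg h1 9) (pow_nonneg h2 3),
      mul_nonneg (pow_nonneg h1 10) (pow_nonneg h2 2),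
      mul_nonneg (pow_nonneg h1 11) (pow_nonneg h2 1),
      mul_nonneg (pow_nonneg h1 12) (pow_nonneg h2 0)]

theorem num_five {x c : ℝ} (hc : 68 / 100 ≤ c) (hc1 : c ≤ 1) (hx : x = 1 - c ^ 2) :
    4 * ((1 - 3 / 7 * x) * (1 - 15 / 14 * x + 25 / 56 * x ^ 2) *
        ((1 - 1 / 7 * x) * (1 - 5 / 14 * x + 5 / 56 * x ^ 2))) ≤
      c ^ 3 * ((1 - 1 / 7 * x) * (1 - 5 / 14 * x + 5 / 56 * x ^ 2)) +
        4 * (c * ((1 - 3 / 7 * x) * (1 - 15 / 14 * x + 25 / 56 * x ^ 2))) := by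
  have h1 : 0 ≤ c - 68 / 100 := by linarith
  have h2 : 0 ≤ 1 - c := by linarith
  subst hx
  linarith [mul_nonneg (pow_nonneg h1 0) (pow_nonneg h2 12),
      mul_nonneg (pow_nonneg h1 1) (pow_nonneg h2 11),
      mul_nonneg (pow_nonneg h1 2) (pow_nonneg h2 10),
      mul_nonneg (pow_nonneg h1 3) (pow_nonneg h2 9),
      mul_nonneg (pow_nonneg h1 4) (pow_nonneg h2 8),
      mul_nonneg (pow_nonneg h1 5) (pow_nonneg h2 7),
      mul_nonneg (pow_nonneg h1 6) (pow_nonneg h2 6),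
      mul_nonneg (pow_nonneg h1 7) (pow_nonneg h2 5),
      mul_nonneg (pow_nonneg h1 8) (pow_nonneg h2 4),
      mul_nonneg (pow_nonneg h1 9) (pow_nonneg h2 3),
      mul_nonneg (pow_nonneg h1 10) (pow_nonneg h2 2),
      mul_nonneg (pow_nonneg h1 11) (pow_nonneg h2 1),
      mul_nonneg (pow_nonneg h1 12) (pow_nonneg h2 0)]

/-! ### dimension at least six -/

theorem sqrt_lower {x c : ℝ} (hx : 0 ≤ x) (hx484 : x ≤ 484 / 1000) (hx2 : x ^ 2 ≤ 7 / 30)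
    (hc : 0 ≤ c) (hc2 : c ^ 2 = 1 - x) :
    1 - x / 2 - x ^ 2 / 8 - 925 / 10000 * x ^ 3 ≤ c := by
  by_contra h
  push Not at h
  have h1 : c ^ 2 < (1 - x / 2 - x ^ 2 / 8 - 925 / 10000 * x ^ 3) ^ 2 :=
    pow_lt_pow_left₀ h hc two_ne_zero
  rw [hc2] at h1
  have h3 : x ^ 3 ≤ 484 / 1000 * (7 / 30) := by
    have := mul_le_mul hx484 hx2 (sq_nonneg x) (by norm_num)
    linarith
  have h2 : (1 / 8 - 2 * (925 / 10000)) + (1 / 64 + 925 / 10000) * x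
      + 925 / 40000 * x ^ 2 + (925 / 10000) ^ 2 * x ^ 3 ≤ 0 := by
    linarith
  have h4 := mul_nonneg (pow_nonneg hx 3) (neg_nonneg.mpr h2)
  linarith

theorem cube_lower {x c : ℝ} (hx : 0 ≤ x) (hx484 : x ≤ 484 / 1000) (hc2 : c ^ 2 = 1 - x)
    (hcl : 1 - x / 2 - x ^ 2 / 8 - 925 / 10000 * x ^ 3 ≤ c) :
    1 - 3 / 2 * x + 3 / 8 * x ^ 2 ≤ c ^ 3 := by
  have h1 : c ^ 3 = c * (1 - x) := by rw [← hc2]; ring
  rw [h1]
  have h2 : 0 ≤ 1 - x := by linarith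
  have h3 := mul_le_mul_of_nonneg_right hcl h2
  linarith [pow_nonneg hx 3, pow_nonneg hx 4]

theorem B_le {w k : ℝ} (hw0 : 0 < w) (hw8 : w ≤ 1 / 8) (hk : k * (1 + 2 * w) = 1 - 4 * w) :
    (1 - 2 * w) * (3 / 8 * k + w / 2) ≤ 3 / 8 - 1725 / 1000 * w := by
  have h1 : (1 - 2 * w) * (3 / 8 * k + w / 2) * (1 + 2 * w) ≤
      (3 / 8 - 1725 / 1000 * w) * (1 + 2 * w) := by
    have h2 : (1 - 2 * w) * (3 / 8 * k + w / 2) * (1 + 2 * w) =
      (1 - 2 * w) * (3 / 8 * (1 - 4 * w) + w * (1 + 2 * w) / 2) := by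
      rw [← hk]; ring
    rw [h2]
    have h3 : 0 ≤ w * ((1 / 8 - w) * (31 / 10 - w)) := by
      apply mul_nonneg hw0.le (mul_nonneg (by linarith) (by linarith))
    linarith
  exact le_of_mul_le_mul_right h1 (by linarith)

theorem B0_le {w k : ℝ} (hw0 : 0 < w) (hw8 : w ≤ 1 / 8) (hk : k * (1 + 2 * w) = 1 - 4 * w) :
    (1 - 2 * w) * (15 / 8 * k + 9 / 2 * w) ≤ 15 / 8 - 7125 / 1000 * w := by
  have h1 : (1 - 2 * w) * (15 / 8 * k + 9 / 2 * w) * (1 + 2 * w) ≤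
      (15 / 8 - 7125 / 1000 * w) * (1 + 2 * w) := by
    have h2 : (1 - 2 * w) * (15 / 8 * k + 9 / 2 * w) * (1 + 2 * w) =
      (1 - 2 * w) * (15 / 8 * (1 - 4 * w) + 9 / 2 * w * (1 + 2 * w)) := by
      rw [← hk]; ring
    rw [h2]
    have h3 : 0 ≤ w * ((1 / 8 - w) * (15 / 10 - w)) := by
      apply mul_nonneg hw0.le (mul_nonneg (by linarith) (by linarith))
    linarith
  exact le_of_mul_le_mul_right h1 (by linarith)

theorem hD_aux {n w x U : ℝ} (hw0 : 0 < w) (hw8 : w ≤ 1 / 8) (hw : w * (n + 2) = 1)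
    (hU : U = 15 / 8 - 7125 / 1000 * w) :
    U - 3 / 8 ≤ (6 / 10 + 17 / 100 * n) * (1 - 3 / 2 * x + U * x ^ 2) := by
  have hUp : 0 < U := by rw [hU]; linarith
  have hw1 : w * (6 / 10 + 17 / 100 * n) = 17 / 100 + 26 / 100 * w := by linarith
  have h1 : w * U * (U - 3 / 8) ≤
      w * U * ((6 / 10 + 17 / 100 * n) * (1 - 3 / 2 * x + U * x ^ 2)) := by
    have h2 : w * U * ((6 / 10 + 17 / 100 * n) * (1 - 3 / 2 * x + U * x ^ 2)) =
        (17 / 100 + 26 / 100 * w) * (U * (1 - 3 / 2 * x + U * x ^ 2)) := by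
      rw [← hw1]; ring
    rw [h2]
    have h3 : U - 9 / 16 ≤ U * (1 - 3 / 2 * x + U * x ^ 2) := by
      linarith [sq_nonneg (U * x - 3 / 4)]
    have h4 : w * U * (U - 3 / 8) ≤ (17 / 100 + 26 / 100 * w) * (U - 9 / 16) := by
      rw [hU]
      have g1 : 0 ≤ w := hw0.le
      have g2 : 0 ≤ 1 / 8 - w := by linarith
      linarith [mul_nonneg (pow_nonneg g1 0) (pow_nonneg g2 3),
        mul_nonneg (pow_nonneg g1 1) (pow_nonneg g2 2),
        mul_nonneg (pow_nonneg g1 2) (pow_nonneg g2 1),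
        mul_nonneg (pow_nonneg g1 3) (pow_nonneg g2 0)]
    refine h4.trans (mul_le_mul_of_nonneg_left h3 (by linarith))
  exact le_of_mul_le_mul_left h1 (mul_pos hw0 hUp)

theorem hA_aux {w x : ℝ} (hw0 : 0 < w) (hw8 : w ≤ 1 / 8)
    (hxw : x ^ 2 * (1 - 2 * w) ≤ 7 / 5 * w) :
    3575 / 10000 * x ≤ 3 / 100 + 1725 / 1000 * w := by
  by_contra h
  push Not at h
  have h1 : (3 / 100 + 1725 / 1000 * w) ^ 2 < (3575 / 10000 * x) ^ 2 :=
    pow_lt_pow_left₀ h (by positivity) two_ne_zero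
  have h2 : (3 / 100 + 1725 / 1000 * w) ^ 2 * (1 - 2 * w) <
      (3575 / 10000 * x) ^ 2 * (1 - 2 * w) := mul_lt_mul_of_pos_right h1 (by linarith)
  have h3 : (3575 / 10000 * x) ^ 2 * (1 - 2 * w) ≤ (3575 / 10000) ^ 2 * (7 / 5 * w) := by
    linarith
  have h4 := h2.trans_le h3
  have h5 := mul_nonneg (sq_nonneg w) (by linarith : (0 : ℝ) ≤ 1 / 8 - w)
  have h6 := sq_nonneg (w - 19 / 1000)
  linarith

theorem PE0_le {w x k U : ℝ} (hx : 0 ≤ x) (hw0 : 0 < w)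
    (hk1 : 0 ≤ (1 - 2 * w) * k) (hU : (1 - 2 * w) * (15 / 8 * k + 9 / 2 * w) ≤ U) :
    (1 - 3 * w * x) * (1 - 3 / 2 * (1 - 2 * w) * x + 15 / 8 * (1 - 2 * w) * k * x ^ 2) ≤
      1 - 3 / 2 * x + U * x ^ 2 := by
  have h2 := mul_le_mul_of_nonneg_right hU (sq_nonneg x)
  have h3 := mul_nonneg (mul_nonneg hw0.le hk1) (pow_nonneg hx 3)
  linarith

theorem PE1_le {w x k U : ℝ} (hx : 0 ≤ x) (hw0 : 0 < w)
    (hk1 : 0 ≤ (1 - 2 * w) * k) (hU : (1 - 2 * w) * (3 / 8 * k + w / 2) ≤ U) :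
    (1 - w * x) * (1 - 1 / 2 * (1 - 2 * w) * x + 3 / 8 * (1 - 2 * w) * k * x ^ 2) ≤
      1 - 1 / 2 * x + U * x ^ 2 := by
  have h2 := mul_le_mul_of_nonneg_right hU (sq_nonneg x)
  have h3 := mul_nonneg (mul_nonneg hw0.le hk1) (pow_nonneg hx 3)
  linarith

/-- `w = 1 / (n + 2)`, `k = (1 - 4 w) / (1 + 2 w) = (n - 2) / (n + 4)`. -/
theorem num_big {n w x c : ℝ} (hn : 6 ≤ n) (hw : w * (n + 2) = 1) (hx : 0 ≤ x)
    (hnx : n * x ^ 2 ≤ 7 / 5) (hc : 0 ≤ c) (hc2 : c ^ 2 = 1 - x) {k : ℝ}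
    (hk : k * (1 + 2 * w) = 1 - 4 * w) :
    (1 - (6 / 10 + 17 / 100 * n) * x ^ 2) * ((1 - 3 * w * x) *
      (1 - 3 / 2 * (1 - 2 * w) * x + 15 / 8 * (1 - 2 * w) * k * x ^ 2)) ≤ c ^ 3 ∧
    (1 - 53 / 100 * x ^ 2) * ((1 - w * x) *
      (1 - 1 / 2 * (1 - 2 * w) * x + 3 / 8 * (1 - 2 * w) * k * x ^ 2)) ≤ c ∧
    x ^ 2 * (6 / 10 + 17 / 100 * n + 53 / 100 * (n - 1)) ≤ 1 := by
  have hw0 : 0 < w := by
    by_contra h
    push Not at h
    have := mul_nonpos_of_nonpos_of_nonneg h (by linarith : (0 : ℝ) ≤ n + 2)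
    linarith
  have hw8 : w ≤ 1 / 8 := by
    have := mul_nonneg hw0.le (by linarith : (0 : ℝ) ≤ n - 6)
    linarith
  have hx2 : x ^ 2 ≤ 7 / 30 := by
    have := mul_nonneg (sq_nonneg x) (by linarith : (0 : ℝ) ≤ n - 6)
    linarith
  have hx484 : x ≤ 484 / 1000 := by
    by_contra h
    push Not at h
    have := pow_lt_pow_left₀ h (by norm_num) two_ne_zero
    linarith
  have hk0 : 0 ≤ k := by
    by_contra h
    push Not at h
    have := mul_neg_of_neg_of_pos h (by linarith : (0 : ℝ) < 1 + 2 * w)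
    linarith
  have hxw : x ^ 2 * (1 - 2 * w) ≤ 7 / 5 * w := by
    have h1 : n * w = 1 - 2 * w := by linarith
    rw [← h1]
    have := mul_le_mul_of_nonneg_right hnx hw0.le
    linarith
  have hcl := sqrt_lower hx hx484 hx2 hc hc2
  have hc3 := cube_lower hx hx484 hc2 hcl
  have hk1 : 0 ≤ (1 - 2 * w) * k := mul_nonneg (by linarith) hk0
  have hnx2 : x ^ 2 * (6 / 10 + 17 / 100 * n + 53 / 100 * (n - 1)) ≤ 1 := by linarith
  have hβ : (6 / 10 + 17 / 100 * n) * x ^ 2 ≤ 1 := by linarith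
  refine ⟨?_, ?_, hnx2⟩
  · have hY := PE0_le hx hw0 hk1 (B0_le hw0 hw8 hk)
    have hD := hD_aux (x := x) hw0 hw8 hw rfl
    refine (mul_le_mul_of_nonneg_left hY (by linarith)).trans (le_trans ?_ hc3)
    have h2 := mul_le_mul_of_nonneg_right hD (sq_nonneg x)
    linarith
  · have hY := PE1_le hx hw0 hk1 (B_le hw0 hw8 hk)
    have hA := hA_aux hw0 hw8 hxw
    refine (mul_le_mul_of_nonneg_left hY (by linarith)).trans (le_trans ?_ hcl)
    have h2 := mul_le_mul_of_nonneg_right hA (sq_nonneg x)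
    have h3 := mul_nonneg (by linarith : (0 : ℝ) ≤ 3 / 8 - 1725 / 1000 * w) (pow_nonneg hx 4)
    linarith

end Pool.Agent.H65G
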