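import Pool.Agent.H65G.Basic

/-! Moments of rotation invariant integrals over the unit sphere. -/

set_option autoImplicit false
open Real Set MeasureTheory Metric
open scoped RealInnerProductSpace
namespace Pool.Agent.H65G

namespace Mom

/-- coordinate permutation -/
noncomputable def permE {n : ℕ} (σ : Equiv.Perm (Fin n)) : E n ≃ₗᵢ[ℝ] E n :=
  LinearIsometryEquiv.piLpCongrLeft 2 ℝ ℝ σ

theorem permE_apply {n : ℕ} (σ : Equiv.Perm (Fin n)) (x : E n) (j : Fin n) :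
    permE σ x j = x (σ.symm j) := by
  simp [permE, LinearIsometryEquiv.piLpCongrLeft_apply]

theorem sum_sq {n : ℕ} (s : Sph n) : ∑ j, (s : E n) j ^ 2 = 1 := by
  have h : ‖(s : E n)‖ = 1 := by simp
  have h2 := EuclideanSpace.norm_sq_eq (s : E n)
  rw [h] at h2
  simp only [Real.norm_eq_abs, sq_abs] at h2
  linarith

theorem coord_mem {n : ℕ} (s : Sph n) (j : Fin n) : (s : E n) j ∈ Icc (-1 : ℝ) 1 := by
  have h := sum_sq s
  have h2 : (s : E n) j ^ 2 ≤ ∑ j, (s : E n) j ^ 2 :=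
    Finset.single_le_sum (f := fun j => (s : E n) j ^ 2) (fun i _ => sq_nonneg _)
      (Finset.mem_univ j)
  rw [h] at h2
  constructor <;> nlinarith

theorem continuous_coord {n : ℕ} (j : Fin n) : Continuous (fun s : Sph n => (s : E n) j) := by
  fun_prop

/-- rotation in the plane `0, i` -/
noncomputable def rotL {d : ℕ} (i : Fin (d + 1)) (hi : i ≠ 0) (θ : ℝ) :
    E (d + 1) →ₗᵢ[ℝ] E (d + 1) where
  toFun x := WithLp.toLp 2 (fun j => if j = 0 then cos θ * x 0 - sin θ * x i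
    else if j = i then sin θ * x 0 + cos θ * x i else x j)
  map_add' x y := by
    ext j
    simp only [PiLp.add_apply]
    split_ifs <;> ring
  map_smul' c x := by
    ext j
    simp only [PiLp.smul_apply, RingHom.id_apply, smul_eq_mul]
    split_ifs <;> ring
  norm_map' x := by
    have key : ‖(WithLp.toLp 2 (fun j => if j = 0 then cos θ * x 0 - sin θ * x i
        else if j = i then sin θ * x 0 + cos θ * x i else x j) : E (d + 1))‖ ^ 2 = ‖x‖ ^ 2 := by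
      rw [EuclideanSpace.norm_sq_eq, EuclideanSpace.norm_sq_eq, ← sub_eq_zero,
        ← Finset.sum_sub_distrib]
      rw [← Finset.sum_subset (Finset.subset_univ ({0, i} : Finset (Fin (d + 1))))]
      · rw [Finset.sum_pair hi.symm]
        simp only [if_true, if_neg hi, Real.norm_eq_abs, sq_abs]
        have := Real.sin_sq_add_cos_sq θ
        linear_combination (x 0 ^ 2 + x i ^ 2) * this
      · intro j _ hj
        simp only [Finset.mem_insert, Finset.mem_singleton, not_or] at hj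
        simp [hj.1, hj.2]
    exact (sq_eq_sq₀ (norm_nonneg _) (norm_nonneg _)).mp key

noncomputable def rot {d : ℕ} (i : Fin (d + 1)) (hi : i ≠ 0) (θ : ℝ) :
    E (d + 1) ≃ₗᵢ[ℝ] E (d + 1) := (rotL i hi θ).toLinearIsometryEquiv rfl

theorem rot_zero {d : ℕ} (i : Fin (d + 1)) (hi : i ≠ 0) (θ : ℝ) (x : E (d + 1)) :
    rot i hi θ x 0 = cos θ * x 0 - sin θ * x i := by
  simp [rot, rotL]

theorem rot_i {d : ℕ} (i : Fin (d + 1)) (hi : i ≠ 0) (θ : ℝ) (x : E (d + 1)) :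
    rot i hi θ x i = sin θ * x 0 + cos θ * x i := by
  simp [rot, rotL, hi]

/-- sign change of one coordinate -/
noncomputable def flipE {n : ℕ} (i : Fin n) : E n ≃ₗᵢ[ℝ] E n :=
  LinearIsometryEquiv.piLpCongrRight 2 (fun j => if j = i then LinearIsometryEquiv.neg ℝ
    else LinearIsometryEquiv.refl ℝ ℝ)

theorem flipE_self {n : ℕ} (i : Fin n) (x : E n) : flipE i x i = - x i := by
  simp [flipE]

theorem flipE_ne {n : ℕ} {i j : Fin n} (h : j ≠ i) (x : E n) : flipE i x j = x j := by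
  simp [flipE, h]

theorem int_perm {n : ℕ} (σ : Equiv.Perm (Fin n)) (g : Sph n → ℝ) :
    ∫ s, g (act (permE σ) s) ∂(sigma n) = ∫ s, g s ∂(sigma n) := integral_act _ _

end Mom

open Mom

theorem moment_two (d : ℕ) :
    ∫ s : Sph (d + 1), (s : E (d + 1)) 0 ^ 2 ∂(sigma (d + 1)) = 1 / (d + 1) := by
  have h1 : ∀ i : Fin (d + 1), ∫ s : Sph (d + 1), (s : E (d + 1)) i ^ 2 ∂(sigma (d + 1))
      = ∫ s : Sph (d + 1), (s : E (d + 1)) 0 ^ 2 ∂(sigma (d + 1)) := by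
    intro i
    rw [← int_perm (Equiv.swap 0 i)]
    congr 1
    funext s
    rw [coe_act, permE_apply]
    simp
  have h2 : ∑ i : Fin (d + 1), ∫ s : Sph (d + 1), (s : E (d + 1)) i ^ 2 ∂(sigma (d + 1)) = 1 := by
    rw [← integral_finsetSum]
    · simp only [sum_sq]
      simp
    · intro i _
      exact integrable_of_cont ((continuous_coord i).pow 2)
  simp only [h1, Finset.sum_const, Finset.card_univ, Fintype.card_fin, nsmul_eq_mul] at h2
  push_cast at h2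
  field_simp
  linarith

theorem ibp {d : ℕ} {i : Fin (d + 1)} (hi : i ≠ 0) {F F' : ℝ → ℝ}
    (hF : ∀ t ∈ Icc (-1 : ℝ) 1, HasDerivAt F (F' t) t) (hF' : ContinuousOn F' (Icc (-1) 1)) :
    ∫ s : Sph (d + 1), (s : E (d + 1)) 0 * F ((s : E (d + 1)) 0) ∂(sigma (d + 1)) =
      ∫ s : Sph (d + 1), (s : E (d + 1)) i ^ 2 * F' ((s : E (d + 1)) 0) ∂(sigma (d + 1)) := by
  have hFc : ContinuousOn F (Icc (-1) 1) := fun t ht => (hF t ht).continuousAt.continuousWithinAt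
  obtain ⟨C, hC⟩ := isCompact_Icc.exists_bound_of_continuousOn hF'
  obtain ⟨D, hD⟩ := isCompact_Icc.exists_bound_of_continuousOn hFc
  -- coordinates of the rotated point
  let X : ℝ → Sph (d + 1) → ℝ := fun θ s => cos θ * (s : E (d + 1)) 0 - sin θ * (s : E (d + 1)) i
  let Y : ℝ → Sph (d + 1) → ℝ := fun θ s => sin θ * (s : E (d + 1)) 0 + cos θ * (s : E (d + 1)) i
  have hX : ∀ θ s, X θ s = (act (rot i hi θ) s : E (d + 1)) 0 := by
    intro θ s
    rw [coe_act, rot_zero]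
  have hY : ∀ θ s, Y θ s = (act (rot i hi θ) s : E (d + 1)) i := by
    intro θ s
    rw [coe_act, rot_i]
  have hXm : ∀ θ s, X θ s ∈ Icc (-1 : ℝ) 1 := fun θ s => by rw [hX]; exact coord_mem _ _
  have hYm : ∀ θ s, Y θ s ∈ Icc (-1 : ℝ) 1 := fun θ s => by rw [hY]; exact coord_mem _ _
  have hXc : ∀ θ, Continuous (X θ) := fun θ =>
    (continuous_const.mul (continuous_coord 0)).sub (continuous_const.mul (continuous_coord i))
  have hYc : ∀ θ, Continuous (Y θ) := fun θ =>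
    (continuous_const.mul (continuous_coord 0)).add (continuous_const.mul (continuous_coord i))
  have hFX : ∀ θ, Continuous (fun s => F (X θ s)) := fun θ =>
    hFc.comp_continuous (hXc θ) (hXm θ)
  have hFX' : ∀ θ, Continuous (fun s => F' (X θ s)) := fun θ =>
    hF'.comp_continuous (hXc θ) (hXm θ)
  have hXd : ∀ θ s, HasDerivAt (fun θ => X θ s) (-Y θ s) θ := by
    intro θ s
    have := ((Real.hasDerivAt_cos θ).mul_const ((s : E (d + 1)) 0)).sub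
      ((Real.hasDerivAt_sin θ).mul_const ((s : E (d + 1)) i))
    exact HasDerivAt.congr_deriv (f := fun θ => X θ s) this (by simp only [Y]; ring)
  have hYd : ∀ θ s, HasDerivAt (fun θ => Y θ s) (X θ s) θ := by
    intro θ s
    have := ((Real.hasDerivAt_sin θ).mul_const ((s : E (d + 1)) 0)).add
      ((Real.hasDerivAt_cos θ).mul_const ((s : E (d + 1)) i))
    exact HasDerivAt.congr_deriv (f := fun θ => Y θ s) this (by simp only [X]; ring)
  have hconst : ∀ θ, ∫ s, Y θ s * F (X θ s) ∂(sigma (d + 1))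
      = ∫ s : Sph (d + 1), (s : E (d + 1)) i * F ((s : E (d + 1)) 0) ∂(sigma (d + 1)) := by
    intro θ
    rw [← integral_act (rot i hi θ)
      (fun s : Sph (d + 1) => (s : E (d + 1)) i * F ((s : E (d + 1)) 0))]
    congr 1
    funext s
    rw [hX, hY]
  have hder : HasDerivAt (fun θ => ∫ s, Y θ s * F (X θ s) ∂(sigma (d + 1)))
      (∫ s, (X 0 s * F (X 0 s) + Y 0 s * (F' (X 0 s) * (-Y 0 s))) ∂(sigma (d + 1))) 0 := by
    refine (hasDerivAt_integral_of_dominated_loc_of_deriv_le (bound := fun _ => D + C)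
      (s := univ) (F' := fun θ s => X θ s * F (X θ s) + Y θ s * (F' (X θ s) * (-Y θ s)))
      Filter.univ_mem ?_ ?_ ?_ ?_ ?_ ?_).2
    · exact Filter.Eventually.of_forall fun θ => ((hYc θ).mul (hFX θ)).aestronglyMeasurable
    · exact integrable_of_cont ((hYc 0).mul (hFX 0))
    · exact (((hXc 0).mul (hFX 0)).add
        ((hYc 0).mul ((hFX' 0).mul (hYc 0).neg))).aestronglyMeasurable
    · refine Filter.Eventually.of_forall fun s θ _ => ?_
      have a1 : |X θ s| ≤ 1 := abs_le.mpr (hXm θ s)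
      have a2 : |Y θ s| ≤ 1 := abs_le.mpr (hYm θ s)
      have a3 := hC _ (hXm θ s)
      have a4 := hD _ (hXm θ s)
      rw [Real.norm_eq_abs] at a3 a4 ⊢
      refine (abs_add_le _ _).trans (add_le_add ?_ ?_)
      · rw [abs_mul]
        calc |X θ s| * |F (X θ s)| ≤ 1 * D :=
              mul_le_mul a1 a4 (abs_nonneg _) zero_le_one
          _ = D := one_mul D
      · rw [abs_mul, abs_mul, abs_neg]
        calc |Y θ s| * (|F' (X θ s)| * |Y θ s|) ≤ 1 * (C * 1) := by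
              apply mul_le_mul a2 _ (by positivity) zero_le_one
              exact mul_le_mul a3 a2 (abs_nonneg _) ((abs_nonneg _).trans a3)
          _ = C := by ring
    · exact integrable_const _
    · refine Filter.Eventually.of_forall fun s θ _ => ?_
      exact (hYd θ s).mul (HasDerivAt.comp θ (hF _ (hXm θ s)) (hXd θ s))
  have hzero : (∫ s, (X 0 s * F (X 0 s) + Y 0 s * (F' (X 0 s) * (-Y 0 s))) ∂(sigma (d + 1))) = 0 := by
    have h2 : HasDerivAt (fun θ => ∫ s, Y θ s * F (X θ s) ∂(sigma (d + 1))) 0 0 := by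
      have : (fun θ => ∫ s, Y θ s * F (X θ s) ∂(sigma (d + 1)))
          = fun _ => ∫ s : Sph (d + 1), (s : E (d + 1)) i * F ((s : E (d + 1)) 0)
            ∂(sigma (d + 1)) := by
        funext θ
        exact hconst θ
      rw [this]
      exact hasDerivAt_const _ _
    exact hder.unique h2
  have e1 : ∀ s, X 0 s = (s : E (d + 1)) 0 := by intro s; simp [X]
  have e2 : ∀ s, Y 0 s = (s : E (d + 1)) i := by intro s; simp [Y]
  have i1 : Integrable (fun s => X 0 s * F (X 0 s)) (sigma (d + 1)) :=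
    integrable_of_cont ((hXc 0).mul (hFX 0))
  have i2 : Integrable (fun s => Y 0 s * (F' (X 0 s) * (-Y 0 s))) (sigma (d + 1)) :=
    integrable_of_cont ((hYc 0).mul ((hFX' 0).mul (hYc 0).neg))
  rw [integral_add i1 i2] at hzero
  simp only [e1, e2] at hzero
  have e3 : ∫ s : Sph (d + 1), (s : E (d + 1)) i * (F' ((s : E (d + 1)) 0) * -(s : E (d + 1)) i)
      ∂(sigma (d + 1)) = - ∫ s : Sph (d + 1), (s : E (d + 1)) i ^ 2 * F' ((s : E (d + 1)) 0)
      ∂(sigma (d + 1)) := by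
    rw [← integral_neg]
    congr 1
    funext s
    ring
  rw [e3] at hzero
  linarith

theorem offdiag {d : ℕ} {i j : Fin (d + 1)} (hij : i ≠ j) (g : ℝ → ℝ) :
    ∫ s : Sph (d + 1), (s : E (d + 1)) i * (s : E (d + 1)) j * g ((s : E (d + 1)) 0)
      ∂(sigma (d + 1)) = 0 := by
  wlog hi : i ≠ 0 generalizing i j with H
  · push Not at hi
    have hj : j ≠ 0 := by
      rintro rfl
      exact hij hi
    rw [← H hij.symm hj]
    congr 1
    funext s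
    ring
  have h := integral_act (flipE i)
    (fun s : Sph (d + 1) => (s : E (d + 1)) i * (s : E (d + 1)) j * g ((s : E (d + 1)) 0))
  simp only [coe_act, flipE_self, flipE_ne hij.symm, flipE_ne hi.symm] at h
  have e : ∫ s : Sph (d + 1), -(s : E (d + 1)) i * (s : E (d + 1)) j * g ((s : E (d + 1)) 0)
      ∂(sigma (d + 1)) = - ∫ s : Sph (d + 1), (s : E (d + 1)) i * (s : E (d + 1)) j
        * g ((s : E (d + 1)) 0) ∂(sigma (d + 1)) := by
    rw [← integral_neg]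
    congr 1
    funext s
    ring
  rw [e] at h
  linarith

theorem diag {d : ℕ} {i : Fin (d + 1)} (hi : i ≠ 0) {g : ℝ → ℝ}
    (hg : ContinuousOn g (Icc (-1) 1)) :
    ∫ s : Sph (d + 1), (s : E (d + 1)) i ^ 2 * g ((s : E (d + 1)) 0) ∂(sigma (d + 1)) =
      ∫ s : Sph (d + 1), (1 - (s : E (d + 1)) 0 ^ 2) / d * g ((s : E (d + 1)) 0)
        ∂(sigma (d + 1)) := by
  have hgc : Continuous (fun s : Sph (d + 1) => g ((s : E (d + 1)) 0)) :=
    hg.comp_continuous (continuous_coord 0) (fun s => coord_mem s 0)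
  have hd : (d : ℝ) ≠ 0 := by
    rintro h
    have h0 : d = 0 := by exact_mod_cast h
    apply hi
    have := i.2
    apply Fin.ext
    rw [Fin.val_zero]
    omega
  have h1 : ∀ j : Fin (d + 1), j ≠ 0 →
      ∫ s : Sph (d + 1), (s : E (d + 1)) j ^ 2 * g ((s : E (d + 1)) 0) ∂(sigma (d + 1))
      = ∫ s : Sph (d + 1), (s : E (d + 1)) i ^ 2 * g ((s : E (d + 1)) 0) ∂(sigma (d + 1)) := by
    intro j hj
    rw [← int_perm (Equiv.swap i j)]
    congr 1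
    funext s
    rw [coe_act, permE_apply, permE_apply]
    simp only [Equiv.symm_swap, Equiv.swap_apply_right]
    rw [Equiv.swap_apply_of_ne_of_ne hi.symm hj.symm]
  have h2 : ∑ j ∈ Finset.univ.erase (0 : Fin (d + 1)),
      ∫ s : Sph (d + 1), (s : E (d + 1)) j ^ 2 * g ((s : E (d + 1)) 0) ∂(sigma (d + 1))
      = ∫ s : Sph (d + 1), (1 - (s : E (d + 1)) 0 ^ 2) * g ((s : E (d + 1)) 0)
        ∂(sigma (d + 1)) := by
    rw [← integral_finsetSum]
    · congr 1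
      funext s
      rw [← Finset.sum_mul]
      congr 1
      have := sum_sq s
      rw [← Finset.add_sum_erase _ _ (Finset.mem_univ (0 : Fin (d + 1)))] at this
      linarith
    · intro j _
      exact integrable_of_cont (((continuous_coord j).pow 2).mul hgc)
  rw [Finset.sum_congr rfl (fun j hj => h1 j (Finset.ne_of_mem_erase hj)), Finset.sum_const,
    Finset.card_erase_of_mem (Finset.mem_univ _), Finset.card_univ, Fintype.card_fin,
    Nat.add_sub_cancel, nsmul_eq_mul] at h2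
  have h3 : ∫ s : Sph (d + 1), (1 - (s : E (d + 1)) 0 ^ 2) / d * g ((s : E (d + 1)) 0)
        ∂(sigma (d + 1)) = (∫ s : Sph (d + 1), (1 - (s : E (d + 1)) 0 ^ 2) *
          g ((s : E (d + 1)) 0) ∂(sigma (d + 1))) / (d : ℝ) := by
    rw [← integral_div]
    congr 1
    funext s
    ring
  rw [h3, ← h2]
  field_simp

namespace Mom

theorem one_ne {d : ℕ} (hd : 1 ≤ d) : ∃ i : Fin (d + 1), i ≠ 0 :=
  ⟨⟨1, by omega⟩, by simp [Fin.ext_iff]⟩

/-- combination of `ibp` and `diag` -/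
theorem ibp' {d : ℕ} (hd : 1 ≤ d) {F F' : ℝ → ℝ}
    (hF : ∀ t ∈ Icc (-1 : ℝ) 1, HasDerivAt F (F' t) t) (hF' : ContinuousOn F' (Icc (-1) 1)) :
    ∫ s : Sph (d + 1), (s : E (d + 1)) 0 * F ((s : E (d + 1)) 0) ∂(sigma (d + 1)) =
      ∫ s : Sph (d + 1), (1 - (s : E (d + 1)) 0 ^ 2) / d * F' ((s : E (d + 1)) 0)
        ∂(sigma (d + 1)) := by
  obtain ⟨i, hi⟩ := one_ne hd
  rw [ibp hi hF hF', diag hi hF']

theorem cont_of {d : ℕ} {g : ℝ → ℝ} (hg : ContinuousOn g (Icc (-1) 1)) :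
    Continuous (fun s : Sph (d + 1) => g ((s : E (d + 1)) 0)) :=
  hg.comp_continuous (continuous_coord 0) (fun s => coord_mem s 0)

theorem int_of {d : ℕ} {g : ℝ → ℝ} (hg : ContinuousOn g (Icc (-1) 1)) :
    Integrable (fun s : Sph (d + 1) => g ((s : E (d + 1)) 0)) (sigma (d + 1)) :=
  integrable_of_cont (cont_of hg)

end Mom

theorem moment_four {d : ℕ} (hd : 1 ≤ d) :
    ∫ s : Sph (d + 1), (s : E (d + 1)) 0 ^ 4 ∂(sigma (d + 1)) = 3 / ((d + 1) * (d + 3)) := by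
  have hd' : (1 : ℝ) ≤ d := by exact_mod_cast hd
  have h := ibp' hd (F := fun t => t ^ 3) (F' := fun t => 3 * t ^ 2)
    (fun t _ => by simpa using hasDerivAt_pow 3 t) (by fun_prop)
  have m2 := moment_two d
  have i2 : Integrable (fun s : Sph (d + 1) => (s : E (d + 1)) 0 ^ 2) (sigma (d + 1)) :=
    int_of (g := fun t => t ^ 2) (by fun_prop)
  have i4 : Integrable (fun s : Sph (d + 1) => (s : E (d + 1)) 0 ^ 4) (sigma (d + 1)) :=
    int_of (g := fun t => t ^ 4) (by fun_prop)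
  have e1 : ∫ s : Sph (d + 1), (s : E (d + 1)) 0 * (s : E (d + 1)) 0 ^ 3 ∂(sigma (d + 1))
      = ∫ s : Sph (d + 1), (s : E (d + 1)) 0 ^ 4 ∂(sigma (d + 1)) := by
    congr 1
    funext s
    ring
  have e2 : ∫ s : Sph (d + 1), (1 - (s : E (d + 1)) 0 ^ 2) / d * (3 * (s : E (d + 1)) 0 ^ 2)
      ∂(sigma (d + 1)) = 3 / d * (∫ s : Sph (d + 1), (s : E (d + 1)) 0 ^ 2 ∂(sigma (d + 1)) -
        ∫ s : Sph (d + 1), (s : E (d + 1)) 0 ^ 4 ∂(sigma (d + 1))) := by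
    rw [← integral_sub i2 i4, ← integral_const_mul]
    congr 1
    funext s
    ring
  simp only at h
  rw [e1, e2, m2] at h
  set m4 := ∫ s : Sph (d + 1), (s : E (d + 1)) 0 ^ 4 ∂(sigma (d + 1)) with hm4
  field_simp at h ⊢
  linarith

theorem moment_six {d : ℕ} (hd : 1 ≤ d) :
    ∫ s : Sph (d + 1), (s : E (d + 1)) 0 ^ 6 ∂(sigma (d + 1)) =
      15 / ((d + 1) * (d + 3) * (d + 5)) := by
  have hd' : (1 : ℝ) ≤ d := by exact_mod_cast hd
  have h := ibp' hd (F := fun t => t ^ 5) (F' := fun t => 5 * t ^ 4)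
    (fun t _ => by simpa using hasDerivAt_pow 5 t) (by fun_prop)
  have m4 := moment_four hd
  have i4 : Integrable (fun s : Sph (d + 1) => (s : E (d + 1)) 0 ^ 4) (sigma (d + 1)) :=
    int_of (g := fun t => t ^ 4) (by fun_prop)
  have i6 : Integrable (fun s : Sph (d + 1) => (s : E (d + 1)) 0 ^ 6) (sigma (d + 1)) :=
    int_of (g := fun t => t ^ 6) (by fun_prop)
  have e1 : ∫ s : Sph (d + 1), (s : E (d + 1)) 0 * (s : E (d + 1)) 0 ^ 5 ∂(sigma (d + 1))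
      = ∫ s : Sph (d + 1), (s : E (d + 1)) 0 ^ 6 ∂(sigma (d + 1)) := by
    congr 1
    funext s
    ring
  have e2 : ∫ s : Sph (d + 1), (1 - (s : E (d + 1)) 0 ^ 2) / d * (5 * (s : E (d + 1)) 0 ^ 4)
      ∂(sigma (d + 1)) = 5 / d * (∫ s : Sph (d + 1), (s : E (d + 1)) 0 ^ 4 ∂(sigma (d + 1)) -
        ∫ s : Sph (d + 1), (s : E (d + 1)) 0 ^ 6 ∂(sigma (d + 1))) := by
    rw [← integral_sub i4 i6, ← integral_const_mul]
    congr 1
    funext s
    ring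
  simp only at h
  rw [e1, e2, m4] at h
  set m6 := ∫ s : Sph (d + 1), (s : E (d + 1)) 0 ^ 6 ∂(sigma (d + 1)) with hm6
  field_simp at h ⊢
  linarith

namespace Mom

variable {r : ℝ}

theorem q_pos (hr : r ^ 2 < 1) {t : ℝ} (ht : t ∈ Icc (-1 : ℝ) 1) :
    0 < 1 - r ^ 2 * t ^ 2 := by
  have h1 : t ^ 2 ≤ 1 := by nlinarith [ht.1, ht.2]
  nlinarith [sq_nonneg t, sq_nonneg r]

theorem contOn_q (hr : r ^ 2 < 1) (m : ℕ) :
    ContinuousOn (fun t : ℝ => (√(1 - r ^ 2 * t ^ 2) ^ m)⁻¹) (Icc (-1) 1) := by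
  apply ContinuousOn.inv₀
  · fun_prop
  · intro t ht
    exact (pow_pos (Real.sqrt_pos.mpr (q_pos hr ht)) m).ne'

/-- the derivative of `q ^ (-m)` with respect to `t` -/
theorem deriv_q (m : ℕ) {t : ℝ} (hq : 0 < 1 - r ^ 2 * t ^ 2) :
    HasDerivAt (fun t : ℝ => (√(1 - r ^ 2 * t ^ 2) ^ m)⁻¹)
      (m * r ^ 2 * t * (√(1 - r ^ 2 * t ^ 2) ^ (m + 2))⁻¹) t := by
  have hs := Real.sqrt_pos.mpr hq
  have h1 : HasDerivAt (fun t : ℝ => 1 - r ^ 2 * t ^ 2) (-(r ^ 2 * (2 * t))) t := by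
    have := ((hasDerivAt_pow 2 t).const_mul (r ^ 2)).const_sub 1
    simpa using this
  have h2 := ((h1.sqrt hq.ne').pow m).inv (pow_pos hs m).ne'
  refine h2.congr_deriv ?_
  have e : ((fun y => √(1 - r ^ 2 * y ^ 2)) ^ m) t = √(1 - r ^ 2 * t ^ 2) ^ m := rfl
  rw [e]
  set q := √(1 - r ^ 2 * t ^ 2) with hqdef
  rcases Nat.eq_zero_or_pos m with rfl | hm
  · simp
  · obtain ⟨k, rfl⟩ : ∃ k, m = k + 1 := ⟨m - 1, by omega⟩
    simp only [Nat.add_sub_cancel]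
    field_simp
    ring

/-- the key identity -/
theorem key {d : ℕ} (hd : 1 ≤ d) (hr : r ^ 2 < 1) :
    (d + 1) * (1 - r ^ 2) * ∫ s : Sph (d + 1), (s : E (d + 1)) 0 ^ 2 *
      (√(1 - r ^ 2 * (s : E (d + 1)) 0 ^ 2) ^ (d + 3))⁻¹ ∂(sigma (d + 1)) =
    ∫ s : Sph (d + 1), (√(1 - r ^ 2 * (s : E (d + 1)) 0 ^ 2) ^ (d + 1))⁻¹ ∂(sigma (d + 1)) := by
  have hd' : (1 : ℝ) ≤ d := by exact_mod_cast hd
  have c1 := contOn_q hr (d + 1)
  have c3 := contOn_q hr (d + 3)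
  have h := ibp' hd (F := fun t => t * (√(1 - r ^ 2 * t ^ 2) ^ (d + 1))⁻¹)
    (F' := fun t => 1 * (√(1 - r ^ 2 * t ^ 2) ^ (d + 1))⁻¹ +
      t * ((d + 1 : ℕ) * r ^ 2 * t * (√(1 - r ^ 2 * t ^ 2) ^ (d + 1 + 2))⁻¹))
    (fun t ht => (hasDerivAt_id t).mul (deriv_q (d + 1) (q_pos hr ht))) (by fun_prop)
  have hI : ∀ g : ℝ → ℝ, ContinuousOn g (Icc (-1) 1) →
      Integrable (fun s : Sph (d + 1) => g ((s : E (d + 1)) 0)) (sigma (d + 1)) := fun g hg =>
    int_of hg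
  have h0 : ∫ s : Sph (d + 1), (((d + 1) * (1 - r ^ 2)) * ((s : E (d + 1)) 0 ^ 2 *
      (√(1 - r ^ 2 * (s : E (d + 1)) 0 ^ 2) ^ (d + 3))⁻¹) -
      (√(1 - r ^ 2 * (s : E (d + 1)) 0 ^ 2) ^ (d + 1))⁻¹) ∂(sigma (d + 1)) = 0 := by
    have e : (∫ s : Sph (d + 1), (((d + 1) * (1 - r ^ 2)) * ((s : E (d + 1)) 0 ^ 2 *
      (√(1 - r ^ 2 * (s : E (d + 1)) 0 ^ 2) ^ (d + 3))⁻¹) -
      (√(1 - r ^ 2 * (s : E (d + 1)) 0 ^ 2) ^ (d + 1))⁻¹) ∂(sigma (d + 1)))
      = (d : ℝ) * ∫ s : Sph (d + 1), ((s : E (d + 1)) 0 * ((s : E (d + 1)) 0 *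
        (√(1 - r ^ 2 * (s : E (d + 1)) 0 ^ 2) ^ (d + 1))⁻¹) -
        (1 - (s : E (d + 1)) 0 ^ 2) / d * (1 * (√(1 - r ^ 2 * (s : E (d + 1)) 0 ^ 2) ^ (d + 1))⁻¹ +
      (s : E (d + 1)) 0 * ((d + 1 : ℕ) * r ^ 2 * (s : E (d + 1)) 0 *
        (√(1 - r ^ 2 * (s : E (d + 1)) 0 ^ 2) ^ (d + 1 + 2))⁻¹))) ∂(sigma (d + 1)) := by
      rw [← integral_const_mul]
      congr 1
      funext s
      have hq := q_pos hr (coord_mem s 0)
      have hs := Real.sqrt_pos.mpr hq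
      have hsq := Real.sq_sqrt hq.le
      set t := (s : E (d + 1)) 0 with ht
      set q := √(1 - r ^ 2 * t ^ 2) with hqdef
      have e1 : (q ^ (d + 1))⁻¹ = q ^ 2 * (q ^ (d + 3))⁻¹ := by
        field_simp
        ring
      have e2 : (q ^ (d + 1 + 2))⁻¹ = (q ^ (d + 3))⁻¹ := rfl
      rw [e2, e1, hsq]
      generalize (q ^ (d + 3))⁻¹ = Z
      push_cast
      field_simp
      ring
    rw [e, integral_sub, h, sub_self, mul_zero]
    · exact hI (fun t => t * (t * (√(1 - r ^ 2 * t ^ 2) ^ (d + 1))⁻¹)) (by fun_prop)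
    · exact hI (fun t => (1 - t ^ 2) / d * (1 * (√(1 - r ^ 2 * t ^ 2) ^ (d + 1))⁻¹ +
        t * ((d + 1 : ℕ) * r ^ 2 * t * (√(1 - r ^ 2 * t ^ 2) ^ (d + 1 + 2))⁻¹))) (by fun_prop)
  rw [integral_sub, integral_const_mul] at h0
  · linarith
  · exact hI (fun t => ((d + 1) * (1 - r ^ 2)) * (t ^ 2 * (√(1 - r ^ 2 * t ^ 2) ^ (d + 3))⁻¹))
      (by fun_prop)
  · exact hI (fun t => (√(1 - r ^ 2 * t ^ 2) ^ (d + 1))⁻¹) c1

/-- the derivative with respect to `r` -/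
theorem deriv_mass {d : ℕ} (hr0 : 0 ≤ r) (hr1 : r < 1) :
    HasDerivAt (fun r : ℝ => ∫ s : Sph (d + 1),
      (√(1 - r ^ 2 * (s : E (d + 1)) 0 ^ 2) ^ (d + 1))⁻¹ ∂(sigma (d + 1)))
      (∫ s : Sph (d + 1), (d + 1 : ℕ) * (s : E (d + 1)) 0 ^ 2 * r *
        (√(1 - r ^ 2 * (s : E (d + 1)) 0 ^ 2) ^ (d + 1 + 2))⁻¹ ∂(sigma (d + 1))) r := by
  obtain ⟨ρ, hρ1, hρ2⟩ := exists_between hr1
  have hρ0 : 0 < ρ := lt_of_le_of_lt hr0 hρ1
  have hρs : ρ ^ 2 < 1 := by nlinarith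
  have hnear : ∀ x ∈ Ioo (-ρ) ρ, x ^ 2 ≤ ρ ^ 2 := by
    intro x hx
    nlinarith [hx.1, hx.2]
  have hc : 0 < √(1 - ρ ^ 2) := Real.sqrt_pos.mpr (by linarith)
  refine (hasDerivAt_integral_of_dominated_loc_of_deriv_le (s := Ioo (-ρ) ρ)
    (bound := fun _ => (d + 1 : ℕ) * ρ * (√(1 - ρ ^ 2) ^ (d + 1 + 2))⁻¹)
    (F := fun (r : ℝ) (s : Sph (d + 1)) =>
      (√(1 - r ^ 2 * (s : E (d + 1)) 0 ^ 2) ^ (d + 1))⁻¹)
    (F' := fun (r : ℝ) (s : Sph (d + 1)) => (d + 1 : ℕ) * (s : E (d + 1)) 0 ^ 2 * r *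
        (√(1 - r ^ 2 * (s : E (d + 1)) 0 ^ 2) ^ (d + 1 + 2))⁻¹)
    (Ioo_mem_nhds (by linarith) hρ1) ?_ ?_ ?_ ?_ ?_ ?_).2
  · filter_upwards [Ioo_mem_nhds (show -ρ < r by linarith) hρ1] with x hx
    exact (cont_of (contOn_q (by linarith [hnear x hx]) (d + 1))).aestronglyMeasurable
  · exact int_of (contOn_q (by nlinarith) (d + 1))
  · have := contOn_q (r := r) (by nlinarith) (d + 1 + 2)
    exact (cont_of (g := fun t => (d + 1 : ℕ) * t ^ 2 * r *
      (√(1 - r ^ 2 * t ^ 2) ^ (d + 1 + 2))⁻¹) (by fun_prop)).aestronglyMeasurable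
  · refine Filter.Eventually.of_forall fun s x hx => ?_
    have hx2 := hnear x hx
    have ht := coord_mem s 0
    set t := (s : E (d + 1)) 0
    have ht2 : t ^ 2 ≤ 1 := by nlinarith [ht.1, ht.2]
    have hq : 1 - ρ ^ 2 ≤ 1 - x ^ 2 * t ^ 2 := by nlinarith [sq_nonneg t, sq_nonneg x]
    have hle : √(1 - ρ ^ 2) ≤ √(1 - x ^ 2 * t ^ 2) := Real.sqrt_le_sqrt hq
    have hinv : (√(1 - x ^ 2 * t ^ 2) ^ (d + 1 + 2))⁻¹ ≤ (√(1 - ρ ^ 2) ^ (d + 1 + 2))⁻¹ :=
      inv_anti₀ (pow_pos hc _) (pow_le_pow_left₀ hc.le hle _)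
    have hpos : 0 ≤ (√(1 - x ^ 2 * t ^ 2) ^ (d + 1 + 2))⁻¹ := by positivity
    have hxa : |x| ≤ ρ := abs_le.mpr ⟨hx.1.le, hx.2.le⟩
    rw [Real.norm_eq_abs, abs_mul, abs_mul, abs_mul, abs_of_nonneg hpos,
      abs_of_nonneg (by positivity : (0 : ℝ) ≤ ((d + 1 : ℕ) : ℝ)), abs_of_nonneg (sq_nonneg t)]
    calc ((d + 1 : ℕ) : ℝ) * t ^ 2 * |x| * (√(1 - x ^ 2 * t ^ 2) ^ (d + 1 + 2))⁻¹
        ≤ ((d + 1 : ℕ) : ℝ) * 1 * ρ * (√(1 - ρ ^ 2) ^ (d + 1 + 2))⁻¹ := by gcongr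
      _ = _ := by ring
  · exact integrable_const _
  · refine Filter.Eventually.of_forall fun s x hx => ?_
    have hx2 := hnear x hx
    have ht := coord_mem s 0
    set t := (s : E (d + 1)) 0
    have ht2 : t ^ 2 ≤ 1 := by nlinarith [ht.1, ht.2]
    have hq : 0 < 1 - t ^ 2 * x ^ 2 := by nlinarith [sq_nonneg t, sq_nonneg x]
    have := deriv_q (r := t) (t := x) (d + 1) hq
    simp only [mul_comm (t ^ 2)] at this
    refine this.congr_deriv ?_
    ring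

end Mom

/-- The total mass of the visual measure, with `q = √(1 - r² s₀²)`. -/
theorem visual_mass {d : ℕ} (hd : 1 ≤ d) {r : ℝ} (hr0 : 0 ≤ r) (hr1 : r < 1) :
    ∫ s : Sph (d + 1), (√(1 - r ^ 2 * (s : E (d + 1)) 0 ^ 2) ^ (d + 1))⁻¹ ∂(sigma (d + 1)) =
      (√(1 - r ^ 2))⁻¹ := by
  let M : ℝ → ℝ := fun r => ∫ s : Sph (d + 1),
      (√(1 - r ^ 2 * (s : E (d + 1)) 0 ^ 2) ^ (d + 1))⁻¹ ∂(sigma (d + 1))
  have hder : ∀ x, 0 ≤ x → x < 1 → HasDerivAt (fun x => √(1 - x ^ 2) * M x) 0 x := by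
    intro x hx0 hx1
    have h1 : 0 < 1 - x ^ 2 := by nlinarith
    have hs := Real.sqrt_pos.mpr h1
    have h2 : HasDerivAt (fun x : ℝ => √(1 - x ^ 2)) (-(2 * x) / (2 * √(1 - x ^ 2))) x := by
      have : HasDerivAt (fun t : ℝ => 1 - t ^ 2) (-(2 * x)) x := by
        have := (hasDerivAt_pow 2 x).const_sub 1
        simpa using this
      exact this.sqrt h1.ne'
    have h3 := Mom.deriv_mass (d := d) hx0 hx1
    have h4 := h2.mul h3
    refine h4.congr_deriv ?_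
    have h5 := Mom.key (r := x) hd (by linarith)
    have h6 : ∫ s : Sph (d + 1), (d + 1 : ℕ) * (s : E (d + 1)) 0 ^ 2 * x *
        (√(1 - x ^ 2 * (s : E (d + 1)) 0 ^ 2) ^ (d + 1 + 2))⁻¹ ∂(sigma (d + 1))
        = (d + 1) * x * ∫ s : Sph (d + 1), (s : E (d + 1)) 0 ^ 2 *
      (√(1 - x ^ 2 * (s : E (d + 1)) 0 ^ 2) ^ (d + 3))⁻¹ ∂(sigma (d + 1)) := by
      rw [← integral_const_mul]
      congr 1
      funext s
      push_cast
      ring
    rw [h6, ← h5]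
    have hsq := Real.sq_sqrt h1.le
    set c := √(1 - x ^ 2) with hc
    rw [← hsq]
    field_simp
    ring
  have hcon := constant_of_has_deriv_right_zero (f := fun x => √(1 - x ^ 2) * M x) (a := 0) (b := r)
    (fun x hx => (hder x hx.1 (lt_of_le_of_lt hx.2 hr1)).continuousAt.continuousWithinAt)
    (fun x hx => (hder x hx.1 (hx.2.trans hr1)).hasDerivWithinAt) r ⟨hr0, le_rfl⟩
  have h0 : M 0 = 1 := by
    simp [M]
  simp only [h0] at hcon
  have h1 : 0 < 1 - r ^ 2 := by nlinarith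
  have hs := Real.sqrt_pos.mpr h1
  apply eq_inv_of_mul_eq_one_left
  rw [mul_comm]
  simpa using hcon

theorem visual_second {d : ℕ} (hd : 1 ≤ d) {r : ℝ} (hr0 : 0 ≤ r) (hr1 : r < 1) :
    ∫ s : Sph (d + 1), (s : E (d + 1)) 0 ^ 2 *
      (√(1 - r ^ 2 * (s : E (d + 1)) 0 ^ 2) ^ (d + 3))⁻¹ ∂(sigma (d + 1)) =
      ((d + 1) * √(1 - r ^ 2) ^ 3)⁻¹ := by
  have h1 : 0 < 1 - r ^ 2 := by nlinarith
  have hs := Real.sqrt_pos.mpr h1
  have hsq := Real.sq_sqrt h1.le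
  have h := Mom.key (r := r) hd (by linarith)
  rw [visual_mass hd hr0 hr1] at h
  set c := √(1 - r ^ 2) with hc
  rw [← hsq] at h
  apply eq_inv_of_mul_eq_one_left
  have h2 : (((d : ℝ) + 1) * c ^ 2 * ∫ s : Sph (d + 1), (s : E (d + 1)) 0 ^ 2 *
      (√(1 - r ^ 2 * (s : E (d + 1)) 0 ^ 2) ^ (d + 3))⁻¹ ∂(sigma (d + 1))) * c = 1 := by
    rw [h]
    exact inv_mul_cancel₀ hs.ne'
  linarith

theorem visual_second' {d : ℕ} (hd : 1 ≤ d) {r : ℝ} (hr0 : 0 ≤ r) (hr1 : r < 1)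
    {i : Fin (d + 1)} (hi : i ≠ 0) :
    ∫ s : Sph (d + 1), (s : E (d + 1)) i ^ 2 *
      (√(1 - r ^ 2 * (s : E (d + 1)) 0 ^ 2) ^ (d + 3))⁻¹ ∂(sigma (d + 1)) =
      ((d + 1) * √(1 - r ^ 2))⁻¹ := by
  have hr : r ^ 2 < 1 := by nlinarith
  have hd' : (1 : ℝ) ≤ d := by exact_mod_cast hd
  have h1 : 0 < 1 - r ^ 2 := by nlinarith
  have hs := Real.sqrt_pos.mpr h1
  have hsq := Real.sq_sqrt h1.le
  have c1 := Mom.contOn_q hr (d + 1)
  have c3 := Mom.contOn_q hr (d + 3)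
  have hm := visual_mass hd hr0 hr1
  have h2 := visual_second hd hr0 hr1
  rw [diag hi (g := fun t => (√(1 - r ^ 2 * t ^ 2) ^ (d + 3))⁻¹) c3]
  have e : ∫ s : Sph (d + 1), (1 - (s : E (d + 1)) 0 ^ 2) / d *
      (√(1 - r ^ 2 * (s : E (d + 1)) 0 ^ 2) ^ (d + 3))⁻¹ ∂(sigma (d + 1))
      = 1 / d * (∫ s : Sph (d + 1), (√(1 - r ^ 2 * (s : E (d + 1)) 0 ^ 2) ^ (d + 1))⁻¹
        ∂(sigma (d + 1)) - (1 - r ^ 2) * ∫ s : Sph (d + 1), (s : E (d + 1)) 0 ^ 2 *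
      (√(1 - r ^ 2 * (s : E (d + 1)) 0 ^ 2) ^ (d + 3))⁻¹ ∂(sigma (d + 1))) := by
    rw [← integral_const_mul, ← integral_sub, ← integral_const_mul]
    · congr 1
      funext s
      have hq := Mom.q_pos hr (Mom.coord_mem s 0)
      have hs := Real.sqrt_pos.mpr hq
      have hsq := Real.sq_sqrt hq.le
      set t := (s : E (d + 1)) 0 with ht
      set q := √(1 - r ^ 2 * t ^ 2) with hqdef
      have e1 : (q ^ (d + 1))⁻¹ = q ^ 2 * (q ^ (d + 3))⁻¹ := by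
        field_simp
        ring
      rw [e1, hsq]
      ring
    · exact Mom.int_of (g := fun t => (√(1 - r ^ 2 * t ^ 2) ^ (d + 1))⁻¹) c1
    · exact Mom.int_of (g := fun t => (1 - r ^ 2) * (t ^ 2 *
        (√(1 - r ^ 2 * t ^ 2) ^ (d + 3))⁻¹)) (by fun_prop)
  rw [e, hm, h2]
  set c := √(1 - r ^ 2) with hc
  rw [← hsq]
  field_simp
  ring

end Pool.Agent.H65G
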