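import Pool.Agent.H65G.CritDefs
import Pool.Agent.H65G.Moments
import Pool.Agent.H65G.CritNum

/-! Module CAP/Crit: the calibration criterion holds in the stated ranges. -/

set_option autoImplicit false
open Real Set MeasureTheory Metric
open scoped RealInnerProductSpace
namespace Pool.Agent.H65G

theorem continuous_s0 (d : ℕ) : Continuous (fun s : Sph (d + 1) => (s : E (d + 1)) 0) := by
  fun_prop

theorem s0_sq_le {d : ℕ} (s : Sph (d + 1)) : (s : E (d + 1)) 0 ^ 2 ≤ 1 := by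
  have h := EuclideanSpace.real_norm_sq_eq (s : E (d + 1))
  have h1 : ‖(s : E (d + 1))‖ = 1 := by simp
  rw [h1] at h
  have h2 := Finset.single_le_sum (f := fun i => (s : E (d + 1)) i ^ 2)
    (fun i _ => sq_nonneg _) (Finset.mem_univ (0 : Fin (d + 1)))
  simp only at h2
  linarith

theorem inv_lower {q m : ℝ} (hq : 0 < q) (hm : 0 < m) :
    3 / (2 * m) - q ^ 2 / (2 * m ^ 3) ≤ 1 / q := by
  have h : 1 / q - (3 / (2 * m) - q ^ 2 / (2 * m ^ 3)) = ((q - m) ^ 2 * (q + 2 * m)) /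
      (2 * m ^ 3 * q) := by
    field_simp
    ring
  have h2 : 0 ≤ ((q - m) ^ 2 * (q + 2 * m)) / (2 * m ^ 3 * q) := by positivity
  linarith

section

variable {d : ℕ} {r : ℝ}

theorem q_sq (hr0 : 0 ≤ r) (hr1 : r < 1) (s : Sph (d + 1)) :
    √(1 - r ^ 2 * (s : E (d + 1)) 0 ^ 2) ^ 2 = 1 - r ^ 2 * (s : E (d + 1)) 0 ^ 2 := by
  apply Real.sq_sqrt
  have h1 := s0_sq_le s
  have h2 : r ^ 2 ≤ 1 := by nlinarith
  nlinarith [sq_nonneg r, sq_nonneg ((s : E (d + 1)) 0)]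

theorem q_ge (s : Sph (d + 1)) :
    √(1 - r ^ 2) ≤ √(1 - r ^ 2 * (s : E (d + 1)) 0 ^ 2) := by
  apply Real.sqrt_le_sqrt
  have h1 := s0_sq_le s
  nlinarith [sq_nonneg r]

theorem c_pos (hr0 : 0 ≤ r) (hr1 : r < 1) : 0 < √(1 - r ^ 2) := by
  apply Real.sqrt_pos.mpr
  nlinarith

theorem q_pos (hr0 : 0 ≤ r) (hr1 : r < 1) (s : Sph (d + 1)) :
    0 < √(1 - r ^ 2 * (s : E (d + 1)) 0 ^ 2) := (c_pos hr0 hr1).trans_le (q_ge s)

theorem q_le (s : Sph (d + 1)) :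
    √(1 - r ^ 2 * (s : E (d + 1)) 0 ^ 2) ≤ 1 := by
  apply Real.sqrt_le_one.mpr
  nlinarith [mul_nonneg (sq_nonneg r) (sq_nonneg ((s : E (d + 1)) 0))]

theorem continuous_q (r : ℝ) (d : ℕ) :
    Continuous (fun s : Sph (d + 1) => √(1 - r ^ 2 * (s : E (d + 1)) 0 ^ 2)) := by
  have := continuous_s0 d
  fun_prop

theorem inv_integral_lower (hr0 : 0 ≤ r) (hr1 : r < 1) {ω : Sph (d + 1) → ℝ} (hω : Continuous ω)
    (h0 : ∀ s, 0 ≤ ω s) {μ0 μ1 m : ℝ} (hμ0 : ∫ s, ω s ∂(sigma (d + 1)) = μ0)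
    (hμ1 : ∫ s : Sph (d + 1), ω s * (s : E (d + 1)) 0 ^ 2 ∂(sigma (d + 1)) = μ1) (hm : 0 < m)
    (hm2 : m ^ 2 * μ0 = μ0 - r ^ 2 * μ1) :
    μ0 / m ≤ ∫ s : Sph (d + 1), ω s / √(1 - r ^ 2 * (s : E (d + 1)) 0 ^ 2) ∂(sigma (d + 1)) := by
  have hs := continuous_s0 d
  have h1 : ∫ s : Sph (d + 1), ((3 / (2 * m) - 1 / (2 * m ^ 3)) * ω s +
      (r ^ 2 / (2 * m ^ 3)) * (ω s * (s : E (d + 1)) 0 ^ 2)) ∂(sigma (d + 1)) = μ0 / m := by
    rw [integral_add, integral_const_mul, integral_const_mul, hμ0, hμ1]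
    · have h2 : r ^ 2 * μ1 = μ0 - m ^ 2 * μ0 := by linarith
      field_simp
      linear_combination h2
    · exact integrable_of_cont (by fun_prop)
    · exact integrable_of_cont (by fun_prop)
  rw [← h1]
  apply integral_mono
  · exact integrable_of_cont (by fun_prop)
  · refine integrable_of_cont (hω.div (continuous_q r d) fun s => (q_pos hr0 hr1 s).ne')
  · intro s
    have h2 := inv_lower (q_pos hr0 hr1 s) hm
    rw [q_sq hr0 hr1] at h2
    have h3 := mul_le_mul_of_nonneg_left h2 (h0 s)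
    simp only
    calc _ = ω s * (3 / (2 * m) - (1 - r ^ 2 * (s : E (d + 1)) 0 ^ 2) / (2 * m ^ 3)) := by
          field_simp
          ring
      _ ≤ ω s * (1 / √(1 - r ^ 2 * (s : E (d + 1)) 0 ^ 2)) := h3
      _ = _ := by rw [mul_one_div]

theorem pow_integral_upper (hd : 1 ≤ d) (hr0 : 0 ≤ r) (hr1 : r < 1) {ω : Sph (d + 1) → ℝ}
    (hω : Continuous ω) (h0 : ∀ s, 0 ≤ ω s) {μ0 μ1 μ2 : ℝ}
    (hμ0 : ∫ s, ω s ∂(sigma (d + 1)) = μ0)
    (hμ1 : ∫ s : Sph (d + 1), ω s * (s : E (d + 1)) 0 ^ 2 ∂(sigma (d + 1)) = μ1)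
    (hμ2 : ∫ s : Sph (d + 1), ω s * (s : E (d + 1)) 0 ^ 4 ∂(sigma (d + 1)) = μ2) :
    ∫ s : Sph (d + 1), ω s * √(1 - r ^ 2 * (s : E (d + 1)) 0 ^ 2) ^ (d + 1) ∂(sigma (d + 1)) ≤
      μ0 - ((d : ℝ) + 1) / 2 * r ^ 2 * μ1 + Kc d * (r ^ 2) ^ 2 * μ2 := by
  have hs := continuous_s0 d
  have h1 : ∫ s : Sph (d + 1), (ω s + (-(((d : ℝ) + 1) / 2 * r ^ 2)) *
      (ω s * (s : E (d + 1)) 0 ^ 2) + (Kc d * (r ^ 2) ^ 2) * (ω s * (s : E (d + 1)) 0 ^ 4))
      ∂(sigma (d + 1)) = μ0 - ((d : ℝ) + 1) / 2 * r ^ 2 * μ1 + Kc d * (r ^ 2) ^ 2 * μ2 := by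
    rw [integral_add, integral_add, integral_const_mul, integral_const_mul, hμ0, hμ1, hμ2]
    · ring
    · exact integrable_of_cont (by fun_prop)
    · exact integrable_of_cont (by fun_prop)
    · exact integrable_of_cont (by fun_prop)
    · exact integrable_of_cont (by fun_prop)
  rw [← h1]
  apply integral_mono
  · exact integrable_of_cont (hω.mul ((continuous_q r d).pow _))
  · exact integrable_of_cont (by fun_prop)
  · intro s
    have h2 := pow_le_quad hd (q_pos hr0 hr1 s).le (q_le s)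
    rw [q_sq hr0 hr1] at h2
    have h3 := mul_le_mul_of_nonneg_left h2 (h0 s)
    simp only
    refine h3.trans (le_of_eq ?_)
    ring

theorem pow_integral_pos (hr0 : 0 ≤ r) (hr1 : r < 1) {ω : Sph (d + 1) → ℝ}
    (hω : Continuous ω) (h0 : ∀ s, 0 ≤ ω s) (hμ0 : 0 < ∫ s, ω s ∂(sigma (d + 1))) :
    0 < ∫ s : Sph (d + 1), ω s * √(1 - r ^ 2 * (s : E (d + 1)) 0 ^ 2) ^ (d + 1)
      ∂(sigma (d + 1)) := by
  have h1 : 0 < ∫ s : Sph (d + 1), √(1 - r ^ 2) ^ (d + 1) * ω s ∂(sigma (d + 1)) := by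
    rw [integral_const_mul]
    exact mul_pos (pow_pos (c_pos hr0 hr1) _) hμ0
  refine h1.trans_le ?_
  apply integral_mono
  · exact integrable_of_cont (by fun_prop)
  · exact integrable_of_cont (hω.mul ((continuous_q r d).pow _))
  · intro s
    simp only
    rw [mul_comm]
    exact mul_le_mul_of_nonneg_left (pow_le_pow_left₀ (c_pos hr0 hr1).le (q_ge s) _) (h0 s)

end

section assembly

variable {d : ℕ}

/-- the weight of the directions orthogonal to the axis -/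
noncomputable def om1 (d : ℕ) (s : Sph (d + 1)) : ℝ := (1 - (s : E (d + 1)) 0 ^ 2) / d

theorem continuous_om1 (d : ℕ) : Continuous (om1 d) := by
  unfold om1
  have := continuous_s0 d
  fun_prop

theorem om1_nonneg (s : Sph (d + 1)) : 0 ≤ om1 d s := by
  unfold om1
  have := s0_sq_le s
  have : 0 ≤ 1 - (s : E (d + 1)) 0 ^ 2 := by linarith
  positivity

theorem mom00 (hd : 1 ≤ d) : ∫ s : Sph (d + 1), (s : E (d + 1)) 0 ^ 2 * (s : E (d + 1)) 0 ^ 2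
    ∂(sigma (d + 1)) = 3 / (((d : ℝ) + 1) * (d + 3)) := by
  rw [← moment_four hd]
  congr 1
  ext s
  ring

theorem mom01 (hd : 1 ≤ d) : ∫ s : Sph (d + 1), (s : E (d + 1)) 0 ^ 2 * (s : E (d + 1)) 0 ^ 4
    ∂(sigma (d + 1)) = 15 / (((d : ℝ) + 1) * (d + 3) * (d + 5)) := by
  rw [← moment_six hd]
  congr 1
  ext s
  ring

theorem mom10 (hd : 1 ≤ d) : ∫ s, om1 d s ∂(sigma (d + 1)) = 1 / ((d : ℝ) + 1) := by
  have hs := continuous_s0 d
  have hd' : (0 : ℝ) < d := by exact_mod_cast hd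
  have h1 : ∫ s, om1 d s ∂(sigma (d + 1)) =
      ∫ s : Sph (d + 1), ((1 / (d : ℝ)) + (-(1 / (d : ℝ))) * (s : E (d + 1)) 0 ^ 2)
        ∂(sigma (d + 1)) := by
    congr 1
    ext s
    unfold om1
    ring
  rw [h1, integral_add (integrable_const _) (integrable_of_cont (by fun_prop)),
    integral_const_mul, moment_two]
  simp only [integral_const, probReal_univ, smul_eq_mul]
  field_simp
  ring

theorem mom11 (hd : 1 ≤ d) : ∫ s : Sph (d + 1), om1 d s * (s : E (d + 1)) 0 ^ 2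
    ∂(sigma (d + 1)) = 1 / (((d : ℝ) + 1) * (d + 3)) := by
  have hs := continuous_s0 d
  have hd' : (0 : ℝ) < d := by exact_mod_cast hd
  have h1 : ∫ s : Sph (d + 1), om1 d s * (s : E (d + 1)) 0 ^ 2 ∂(sigma (d + 1)) =
      ∫ s : Sph (d + 1), ((1 / (d : ℝ)) * (s : E (d + 1)) 0 ^ 2 +
        (-(1 / (d : ℝ))) * (s : E (d + 1)) 0 ^ 4) ∂(sigma (d + 1)) := by
    congr 1
    ext s
    unfold om1
    ring
  rw [h1, integral_add (integrable_of_cont (by fun_prop)) (integrable_of_cont (by fun_prop)),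
    integral_const_mul, integral_const_mul, moment_two, moment_four hd]
  field_simp
  ring

theorem mom12 (hd : 1 ≤ d) : ∫ s : Sph (d + 1), om1 d s * (s : E (d + 1)) 0 ^ 4
    ∂(sigma (d + 1)) = 3 / (((d : ℝ) + 1) * (d + 3) * (d + 5)) := by
  have hs := continuous_s0 d
  have hd' : (0 : ℝ) < d := by exact_mod_cast hd
  have h1 : ∫ s : Sph (d + 1), om1 d s * (s : E (d + 1)) 0 ^ 4 ∂(sigma (d + 1)) =
      ∫ s : Sph (d + 1), ((1 / (d : ℝ)) * (s : E (d + 1)) 0 ^ 4 +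
        (-(1 / (d : ℝ))) * (s : E (d + 1)) 0 ^ 6) ∂(sigma (d + 1)) := by
    congr 1
    ext s
    unfold om1
    ring
  rw [h1, integral_add (integrable_of_cont (by fun_prop)) (integrable_of_cont (by fun_prop)),
    integral_const_mul, integral_const_mul, moment_four hd, moment_six hd]
  field_simp
  ring

theorem term_lower {N c T A P E : ℝ} (hN : 0 < N) (hc : 0 ≤ c) (hP : 0 < P) (hA : 0 < A)
    (hT : 1 / N / √P ≤ T) (hAE : A ≤ E / N) : 0 < E ∧ c / (P * E) ≤ N * c * T ^ 2 / A := by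
  have hE : 0 < E := by
    have h1 : 0 < E / N := hA.trans_le hAE
    have h2 := mul_pos h1 hN
    rwa [div_mul_cancel₀ _ hN.ne'] at h2
  refine ⟨hE, ?_⟩
  have hs : 0 < √P := Real.sqrt_pos.mpr hP
  have h1 : 0 ≤ 1 / N / √P := by positivity
  have h2 : (1 / N / √P) ^ 2 ≤ T ^ 2 := pow_le_pow_left₀ h1 hT 2
  have h3 : (1 / N / √P) ^ 2 = 1 / (N ^ 2 * P) := by
    rw [div_pow, div_pow, Real.sq_sqrt hP.le]
    field_simp
  rw [h3] at h2
  rw [div_le_div_iff₀ (mul_pos hP hE) hA]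
  have h4 : A * N ≤ E := by
    rwa [le_div_iff₀ hN] at hAE
  have h5 : 1 ≤ T ^ 2 * (N ^ 2 * P) := by
    rwa [div_le_iff₀ (by positivity)] at h2
  have h6 : A * N * 1 ≤ E * (T ^ 2 * (N ^ 2 * P)) :=
    mul_le_mul h4 h5 zero_le_one hE.le
  have h7 : c * (A * N * 1) ≤ c * (E * (T ^ 2 * (N ^ 2 * P))) := mul_le_mul_of_nonneg_left h6 hc
  have h8 : N * (c * A) ≤ N * (N * c * T ^ 2 * (P * E)) := by
    linarith
  exact le_of_mul_le_mul_left h8 hN

theorem crit_red (hd : 1 ≤ d) {r : ℝ} (hr0 : 0 ≤ r) (hr1 : r < 1) {P0 E0 P1 E1 : ℝ}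
    (hP0 : P0 = 1 - 3 * r ^ 2 / (d + 3)) (hP1 : P1 = 1 - r ^ 2 / (d + 3))
    (hE0 : E0 = 1 - 3 / 2 * ((d : ℝ) + 1) * r ^ 2 / (d + 3) +
      15 * Kc d * (r ^ 2) ^ 2 / ((d + 3) * (d + 5)))
    (hE1 : E1 = 1 - 1 / 2 * ((d : ℝ) + 1) * r ^ 2 / (d + 3) +
      3 * Kc d * (r ^ 2) ^ 2 / ((d + 3) * (d + 5)))
    (hnum : 0 < P0 → 0 < P1 → 0 < E0 → 0 < E1 →
      (d : ℝ) * ((P0 * E0) * (P1 * E1)) ≤
      √(1 - r ^ 2) ^ 3 * (P1 * E1) + d * (√(1 - r ^ 2) * (P0 * E0))) : Crit d r := by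
  have hd' : (0 : ℝ) < d := by exact_mod_cast hd
  have hd1 : (1 : ℝ) ≤ d := by exact_mod_cast hd
  have hx0 : 0 ≤ r ^ 2 := sq_nonneg r
  have hx1 : r ^ 2 < 1 := by nlinarith
  have hP0p : 0 < P0 := by
    rw [hP0, sub_pos, div_lt_one (by positivity)]
    linarith
  have hP1p : 0 < P1 := by
    rw [hP1, sub_pos, div_lt_one (by positivity)]
    linarith
  have hc := c_pos hr0 hr1
  -- axis direction
  have hT : 1 / ((d : ℝ) + 1) / √P0 ≤ Tint d r := by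
    refine inv_integral_lower hr0 hr1 (ω := fun s : Sph (d + 1) => (s : E (d + 1)) 0 ^ 2)
      ((continuous_s0 d).pow 2) (fun s => sq_nonneg _) (moment_two d) (mom00 hd)
      (Real.sqrt_pos.mpr hP0p) ?_
    rw [Real.sq_sqrt hP0p.le, hP0]
    field_simp
  have hA0 : A0 d r ≤ E0 / ((d : ℝ) + 1) := by
    refine (pow_integral_upper hd hr0 hr1 (ω := fun s : Sph (d + 1) => (s : E (d + 1)) 0 ^ 2)
      ((continuous_s0 d).pow 2) (fun s => sq_nonneg _) (moment_two d) (mom00 hd)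
      (mom01 hd)).trans (le_of_eq ?_)
    rw [hE0]
    field_simp
  have hA0p : 0 < A0 d r := by
    refine pow_integral_pos hr0 hr1 (ω := fun s : Sph (d + 1) => (s : E (d + 1)) 0 ^ 2)
      ((continuous_s0 d).pow 2) (fun s => sq_nonneg _) ?_
    rw [moment_two]
    positivity
  -- orthogonal directions
  have hS : 1 / ((d : ℝ) + 1) / √P1 ≤ Sint d r := by
    refine inv_integral_lower hr0 hr1 (ω := om1 d) (continuous_om1 d) om1_nonneg (mom10 hd)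
      (mom11 hd) (Real.sqrt_pos.mpr hP1p) ?_
    rw [Real.sq_sqrt hP1p.le, hP1]
    field_simp
  have hA1 : A1 d r ≤ E1 / ((d : ℝ) + 1) := by
    refine (pow_integral_upper hd hr0 hr1 (ω := om1 d) (continuous_om1 d) om1_nonneg (mom10 hd)
      (mom11 hd) (mom12 hd)).trans (le_of_eq ?_)
    rw [hE1]
    field_simp
  have hA1p : 0 < A1 d r := by
    refine pow_integral_pos hr0 hr1 (ω := om1 d) (continuous_om1 d) om1_nonneg ?_
    rw [mom10 hd]
    positivity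
  have hN : (0 : ℝ) < (d : ℝ) + 1 := by positivity
  obtain ⟨hE0p, t0⟩ := term_lower hN (pow_nonneg hc.le 3) hP0p hA0p hT hA0
  obtain ⟨hE1p, t1⟩ := term_lower hN hc.le hP1p hA1p hS hA1
  have hq := hnum hP0p hP1p hE0p hE1p
  unfold Crit
  have h1 : (d : ℝ) ≤ √(1 - r ^ 2) ^ 3 / (P0 * E0) + d * (√(1 - r ^ 2) / (P1 * E1)) := by
    rw [← mul_div_assoc, div_add_div _ _ (by positivity) (by positivity),
      le_div_iff₀ (by positivity)]
    linarith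
  have h2 := mul_le_mul_of_nonneg_left t1 hd'.le
  linarith

theorem combine {X Y a c D β α : ℝ} (hX : 0 < X) (hY : 0 < Y) (hD : 0 ≤ D)
    (h1 : (1 - β) * X ≤ a) (h2 : (1 - α) * Y ≤ c) (h3 : β + D * α ≤ 1) :
    D * (X * Y) ≤ a * Y + D * (c * X) := by
  have k1 := mul_le_mul_of_nonneg_right h1 hY.le
  have k2 := mul_le_mul_of_nonneg_left (mul_le_mul_of_nonneg_right h2 hX.le) hD
  have k3 := mul_nonneg (mul_pos hX hY).le (sub_nonneg.mpr h3)
  linarith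

theorem crit_of {d : ℕ} (hd : 1 ≤ d) {r : ℝ} (hr0 : 0 ≤ r) (hr1 : r < 1)
    (h : (d = 1 ∧ r ^ 2 ≤ 1 - 0.37 ^ 2) ∨ (d = 2 ∧ r ^ 2 ≤ 1 - 0.51 ^ 2) ∨
      (d + 1) * r ^ 4 ≤ 7 / 5) : Crit d r := by
  have hx0 : 0 ≤ r ^ 2 := sq_nonneg r
  have hx1 : r ^ 2 < 1 := by nlinarith
  have hc := c_pos hr0 hr1
  have hc2 : √(1 - r ^ 2) ^ 2 = 1 - r ^ 2 := Real.sq_sqrt (by linarith)
  have hc1 : √(1 - r ^ 2) ≤ 1 := Real.sqrt_le_one.mpr (by linarith)
  have hxc : r ^ 2 = 1 - √(1 - r ^ 2) ^ 2 := by rw [hc2]; ring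
  have hlow : ∀ a : ℝ, 0 ≤ a → r ^ 2 ≤ 1 - a ^ 2 → a ≤ √(1 - r ^ 2) := by
    intro a ha hle
    exact Real.le_sqrt_of_sq_le (by linarith)
  rcases Nat.lt_or_ge d 5 with h5 | h5
  · have h' : d = 1 ∧ r ^ 2 ≤ 1 - (37 / 100) ^ 2 ∨ d = 2 ∧ r ^ 2 ≤ 1 - (51 / 100) ^ 2 ∨
        d = 3 ∧ r ^ 2 ≤ 1 - (63 / 100) ^ 2 ∨ d = 4 ∧ r ^ 2 ≤ 1 - (68 / 100) ^ 2 := by
      have hbig : ∀ a : ℝ, 0 ≤ a → ((d : ℝ) + 1) * r ^ 4 ≤ 7 / 5 → 7 / 5 ≤ (d + 1) * a ^ 2 →
          r ^ 2 ≤ a := by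
        intro a ha h1 h2
        have h3 : (r ^ 2) ^ 2 ≤ a ^ 2 := by
          have : ((d : ℝ) + 1) * (r ^ 2) ^ 2 ≤ (d + 1) * a ^ 2 := by
            refine le_trans (le_of_eq ?_) (h1.trans h2)
            ring
          exact le_of_mul_le_mul_left this (by positivity)
        exact (pow_le_pow_iff_left₀ hx0 ha two_ne_zero).mp h3
      rcases h with ⟨h1, h2⟩ | ⟨h1, h2⟩ | h
      · left
        exact ⟨h1, by norm_num at h2 ⊢; exact h2⟩
      · right; left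
        exact ⟨h1, by norm_num at h2 ⊢; exact h2⟩
      · interval_cases d
        · left
          exact ⟨rfl, hbig _ (by norm_num) (by exact_mod_cast h) (by norm_num)⟩
        · right; left
          exact ⟨rfl, hbig _ (by norm_num) (by exact_mod_cast h) (by norm_num)⟩
        · right; right; left
          exact ⟨rfl, hbig _ (by norm_num) (by exact_mod_cast h) (by norm_num)⟩
        · right; right; right
          exact ⟨rfl, hbig _ (by norm_num) (by exact_mod_cast h) (by norm_num)⟩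
    rcases h' with ⟨rfl, h2⟩ | ⟨rfl, h2⟩ | ⟨rfl, h2⟩ | ⟨rfl, h2⟩
    · refine crit_red hd hr0 hr1 (P0 := 1 - 3 / 4 * r ^ 2) (P1 := 1 - 1 / 4 * r ^ 2)
        (E0 := 1 - 3 / 4 * r ^ 2) (E1 := 1 - 1 / 4 * r ^ 2) ?_ ?_ ?_ ?_ ?_
      · push_cast; ring
      · push_cast; ring
      · simp only [Kc]; norm_num; ring
      · simp only [Kc]; norm_num; ring
      · intro _ _ _ _
        rw [Nat.cast_one]
        exact num_two (hlow _ (by norm_num) h2) hc1 hxc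
    · refine crit_red hd hr0 hr1 (P0 := 1 - 3 / 5 * r ^ 2) (P1 := 1 - 1 / 5 * r ^ 2)
        (E0 := 1 - 9 / 10 * r ^ 2 + 3 / 14 * (r ^ 2) ^ 2)
        (E1 := 1 - 3 / 10 * r ^ 2 + 3 / 70 * (r ^ 2) ^ 2) ?_ ?_ ?_ ?_ ?_
      · push_cast; ring
      · push_cast; ring
      · simp only [Kc]; norm_num; ring
      · simp only [Kc]; norm_num; ring
      · intro _ _ _ _
        rw [Nat.cast_ofNat]
        exact num_three (hlow _ (by norm_num) h2) hc1 hxc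
    · refine crit_red hd hr0 hr1 (P0 := 1 - 1 / 2 * r ^ 2) (P1 := 1 - 1 / 6 * r ^ 2)
        (E0 := 1 - r ^ 2 + 5 / 16 * (r ^ 2) ^ 2)
        (E1 := 1 - 1 / 3 * r ^ 2 + 1 / 16 * (r ^ 2) ^ 2) ?_ ?_ ?_ ?_ ?_
      · push_cast; ring
      · push_cast; ring
      · simp only [Kc]; norm_num; ring
      · simp only [Kc]; norm_num; ring
      · intro _ _ _ _
        rw [Nat.cast_ofNat]
        exact num_four (hlow _ (by norm_num) h2) hc1 hxc
    · refine crit_red hd hr0 hr1 (P0 := 1 - 3 / 7 * r ^ 2) (P1 := 1 - 1 / 7 * r ^ 2)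
        (E0 := 1 - 15 / 14 * r ^ 2 + 25 / 56 * (r ^ 2) ^ 2)
        (E1 := 1 - 5 / 14 * r ^ 2 + 5 / 56 * (r ^ 2) ^ 2) ?_ ?_ ?_ ?_ ?_
      · push_cast; ring
      · push_cast; ring
      · simp only [Kc]; norm_num; ring
      · simp only [Kc]; norm_num; ring
      · intro _ _ _ _
        rw [Nat.cast_ofNat]
        exact num_five (hlow _ (by norm_num) h2) hc1 hxc
  · have h' : ((d : ℝ) + 1) * (r ^ 2) ^ 2 ≤ 7 / 5 := by
      rcases h with ⟨h1, -⟩ | ⟨h1, -⟩ | h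
      · omega
      · omega
      · refine le_trans (le_of_eq ?_) h
        ring
    have hd5 : (5 : ℝ) ≤ d := by exact_mod_cast h5
    obtain ⟨n1, n2, n3⟩ := num_big (n := (d : ℝ) + 1) (w := 1 / (d + 3)) (x := r ^ 2)
      (c := √(1 - r ^ 2)) (k := (d - 1) / (d + 5)) (by linarith) (by field_simp; ring) hx0 h'
      hc.le hc2 (by field_simp; ring)
    have hK : Kc d = (d + 1) * (d - 1) / 8 := by
      rw [Kc, if_neg (by omega)]
    refine crit_red hd hr0 hr1 (P0 := 1 - 3 * (1 / ((d : ℝ) + 3)) * r ^ 2)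
      (P1 := 1 - 1 / ((d : ℝ) + 3) * r ^ 2)
      (E0 := 1 - 3 / 2 * (1 - 2 * (1 / ((d : ℝ) + 3))) * r ^ 2 +
        15 / 8 * (1 - 2 * (1 / ((d : ℝ) + 3))) * ((d - 1) / (d + 5)) * (r ^ 2) ^ 2)
      (E1 := 1 - 1 / 2 * (1 - 2 * (1 / ((d : ℝ) + 3))) * r ^ 2 +
        3 / 8 * (1 - 2 * (1 / ((d : ℝ) + 3))) * ((d - 1) / (d + 5)) * (r ^ 2) ^ 2) ?_ ?_ ?_ ?_ ?_
    · field_simp
    · field_simp
    · rw [hK]
      field_simp
      ring
    · rw [hK]
      field_simp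
      ring
    · intro hP0 hP1 hE0 hE1
      refine combine (mul_pos hP0 hE0) (mul_pos hP1 hE1) (by linarith) n1 n2 ?_
      have e1 : r ^ 2 * r ^ 2 = (r ^ 2) ^ 2 := by ring
      linarith

end assembly

end Pool.Agent.H65G
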