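import Pool.Agent.H65G.Axis

set_option autoImplicit false

open Real Set MeasureTheory Metric Filter Topology
open scoped RealInnerProductSpace

namespace Pool.Agent.H65G

variable {d : ℕ}

/-- `e₀`. -/
noncomputable def e0 (d : ℕ) : E (d + 1) := EuclideanSpace.single 0 1

theorem norm_e0 : ‖e0 d‖ = 1 := by simp [e0]

theorem inner_e0 (s : E (d + 1)) : ⟪e0 d, s⟫ = s 0 := by
  simp [e0, EuclideanSpace.inner_single_left]

/-- A linear isometry which maps `e₀` to a given unit vector. -/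
theorem exists_rot {u : E (d + 1)} (hu : ‖u‖ = 1) : ∃ O : E (d + 1) ≃ₗᵢ[ℝ] E (d + 1), O (e0 d) = u :=
  ⟨(ℝ ∙ (e0 d - u))ᗮ.reflection, Submodule.reflection_sub (by rw [norm_e0, hu])⟩

/-- The map `w ↦ ∫ arcsin ⟨w,s⟩ s`. -/
noncomputable def zh (w : E (d + 1)) : E (d + 1) :=
  ∫ s : Sph (d + 1), arcsin ⟪w, (s : E (d + 1))⟫ • (s : E (d + 1)) ∂(sigma (d + 1))

/-- The radial function of `zh`. -/
noncomputable def rho (d : ℕ) (k : ℝ) : ℝ :=
  ∫ s : Sph (d + 1), arcsin (k * (s : E (d + 1)) 0) * (s : E (d + 1)) 0 ∂(sigma (d + 1))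

theorem continuous_integrand (w : E (d + 1)) :
    Continuous fun s : Sph (d + 1) => arcsin ⟪w, (s : E (d + 1))⟫ • (s : E (d + 1)) := by
  have : Continuous arcsin := continuous_arcsin
  fun_prop

theorem integrable_integrand (w : E (d + 1)) :
    Integrable (fun s : Sph (d + 1) => arcsin ⟪w, (s : E (d + 1))⟫ • (s : E (d + 1)))
      (sigma (d + 1)) :=
  integrable_of_cont (continuous_integrand w)

theorem zh_rot (O : E (d + 1) ≃ₗᵢ[ℝ] E (d + 1)) (w : E (d + 1)) : zh (O w) = O (zh w) := by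
  unfold zh
  rw [← integral_act O]
  simp only [coe_act, LinearIsometryEquiv.inner_map_map]
  have h := (O.toContinuousLinearEquiv : E (d + 1) →L[ℝ] E (d + 1)).integral_comp_comm
    (integrable_integrand w)
  simpa using h

theorem integral_coord_apply {f : Sph (d + 1) → E (d + 1)} (hf : Integrable f (sigma (d + 1)))
    (i : Fin (d + 1)) : (∫ s, f s ∂(sigma (d + 1))) i = ∫ s, f s i ∂(sigma (d + 1)) := by
  have h := (EuclideanSpace.proj (𝕜 := ℝ) i : E (d + 1) →L[ℝ] ℝ).integral_comp_comm hf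
  simpa using h.symm

/-- Odd integrals vanish. -/
theorem int_odd {i : Fin (d + 1)} (hi : i ≠ 0) (g : ℝ → ℝ) :
    ∫ s : Sph (d + 1), g ((s : E (d + 1)) 0) * (s : E (d + 1)) i ∂(sigma (d + 1)) = 0 := by
  set R : E (d + 1) ≃ₗᵢ[ℝ] E (d + 1) :=
    (ℝ ∙ (EuclideanSpace.single i (1 : ℝ) : E (d + 1)))ᗮ.reflection with hR
  have hRs : ∀ s : E (d + 1), R s = s - (2 * s i) • (EuclideanSpace.single i (1 : ℝ)) := by
    intro s
    rw [hR, Submodule.reflection_orthogonal_apply, Submodule.reflection_singleton_apply]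
    simp [EuclideanSpace.inner_single_left, two_smul, two_mul, add_smul]
  have h1 := integral_act R (fun s : Sph (d + 1) => g ((s : E (d + 1)) 0) * (s : E (d + 1)) i)
  simp only [coe_act, hRs] at h1
  have h2 : ∀ s : Sph (d + 1), g (((s : E (d + 1)) - (2 * (s : E (d + 1)) i) •
      (EuclideanSpace.single i (1 : ℝ))) 0) * ((s : E (d + 1)) - (2 * (s : E (d + 1)) i) •
      (EuclideanSpace.single i (1 : ℝ))) i = -(g ((s : E (d + 1)) 0) * (s : E (d + 1)) i) := by
    intro s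
    simp [Ne.symm hi]
    ring
  simp only [h2] at h1
  rw [integral_neg] at h1
  linarith

theorem zh_e0 (k : ℝ) : zh (k • e0 d) = rho d k • e0 d := by
  ext i
  unfold zh
  rw [integral_coord_apply (integrable_integrand _)]
  simp only [real_inner_smul_left, inner_e0, PiLp.smul_apply, smul_eq_mul]
  by_cases hi : i = 0
  · subst hi
    simp [rho, e0]
  · rw [int_odd hi (fun t => arcsin (k * t))]
    simp [e0, hi]

theorem zh_smul (k : ℝ) {u : E (d + 1)} (hu : ‖u‖ = 1) : zh (k • u) = rho d k • u := by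
  obtain ⟨O, hO⟩ := exists_rot hu
  rw [← hO, ← O.map_smul, zh_rot, zh_e0, O.map_smul]

theorem continuous_rho : Continuous (rho d) := by
  unfold rho
  have harc : Continuous arcsin := continuous_arcsin
  refine continuous_of_dominated (bound := fun _ => π / 2) ?_ ?_ (integrable_const _) ?_
  · intro k
    exact Continuous.aestronglyMeasurable (by fun_prop)
  · intro k
    refine Eventually.of_forall fun s => ?_
    rw [norm_mul, Real.norm_eq_abs, Real.norm_eq_abs]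
    have h1 : |arcsin (k * (s : E (d + 1)) 0)| ≤ π / 2 :=
      abs_le.2 ⟨neg_pi_div_two_le_arcsin _, arcsin_le_pi_div_two _⟩
    have h2 : |(s : E (d + 1)) 0| ≤ 1 := (sq_le_one_iff_abs_le_one _).1 (sq_coord_le s 0)
    calc _ ≤ π / 2 * 1 := mul_le_mul h1 h2 (abs_nonneg _) (by positivity)
      _ = _ := mul_one _
  · refine Eventually.of_forall fun s => ?_
    fun_prop

theorem rho_zero : rho d 0 = 0 := by simp [rho]

/-- `∫ ⟨ξ,s⟩² = |ξ|² / n`. -/
theorem int_inner_sq (ξ : E (d + 1)) :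
    ∫ s : Sph (d + 1), ⟪ξ, (s : E (d + 1))⟫ ^ 2 ∂(sigma (d + 1)) = ‖ξ‖ ^ 2 / (d + 1) := by
  rcases eq_or_ne ξ 0 with h | h
  · simp [h]
  · have hn : ‖ξ‖ ≠ 0 := norm_ne_zero_iff.2 h
    obtain ⟨O, hO⟩ := exists_rot (d := d) (u := ‖ξ‖⁻¹ • ξ) (by
      rw [norm_smul, norm_inv, norm_norm, inv_mul_cancel₀ hn])
    have h1 : ξ = ‖ξ‖ • O (e0 d) := by
      rw [hO, smul_smul, mul_inv_cancel₀ hn, one_smul]
    rw [← integral_act O]
    have h2 : ∀ s : Sph (d + 1), ⟪ξ, ((act O s : Sph (d + 1)) : E (d + 1))⟫ ^ 2 =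
        ‖ξ‖ ^ 2 * (s : E (d + 1)) 0 ^ 2 := by
      intro s
      conv_lhs => rw [h1]
      rw [coe_act, real_inner_smul_left, LinearIsometryEquiv.inner_map_map, inner_e0, mul_pow]
    simp only [h2]
    rw [integral_const_mul, moment_two]
    ring

theorem arcsin_mono_sq {a b : ℝ} (ha : |a| ≤ 1) (hb : |b| ≤ 1) :
    (a - b) ^ 2 ≤ (arcsin a - arcsin b) * (a - b) := by
  have ha' := abs_le.1 ha
  have hb' := abs_le.1 hb
  have h1 : |a - b| ≤ |arcsin a - arcsin b| := by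
    have h2 := Real.abs_sin_sub_sin_le
      (arcsin a) (arcsin b)
    rwa [sin_arcsin ha'.1 ha'.2, sin_arcsin hb'.1 hb'.2] at h2
  rcases le_total a b with h | h
  · have h3 : arcsin a ≤ arcsin b := monotone_arcsin h
    rw [abs_of_nonpos (by linarith), abs_of_nonpos (by linarith)] at h1
    nlinarith
  · have h3 : arcsin b ≤ arcsin a := monotone_arcsin h
    rw [abs_of_nonneg (by linarith), abs_of_nonneg (by linarith)] at h1
    nlinarith

theorem abs_inner_le_one {w : E (d + 1)} (hw : ‖w‖ ≤ 1) (s : Sph (d + 1)) :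
    |⟪w, (s : E (d + 1))⟫| ≤ 1 := by
  have h := abs_real_inner_le_norm w (s : E (d + 1))
  have hs : ‖(s : E (d + 1))‖ = 1 := by simp
  rw [hs, mul_one] at h
  exact h.trans hw

/-- Strong monotonicity. -/
theorem zh_mono {w w' : E (d + 1)} (hw : ‖w‖ ≤ 1) (hw' : ‖w'‖ ≤ 1) :
    ‖w - w'‖ ^ 2 / (d + 1) ≤ ⟪zh w - zh w', w - w'⟫ := by
  rw [← int_inner_sq, inner_sub_left]
  have h1 : ∀ w₀ : E (d + 1), ⟪zh w₀, w - w'⟫ =
      ∫ s : Sph (d + 1), arcsin ⟪w₀, (s : E (d + 1))⟫ * ⟪w - w', (s : E (d + 1))⟫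
        ∂(sigma (d + 1)) := by
    intro w₀
    unfold zh
    rw [real_inner_comm, ← integral_inner (integrable_integrand w₀)]
    congr 1
    ext s
    rw [inner_smul_right]
  have harc : Continuous arcsin := continuous_arcsin
  rw [h1, h1, ← integral_sub (integrable_of_cont (by fun_prop)) (integrable_of_cont (by fun_prop))]
  refine integral_mono (integrable_of_cont (by fun_prop)) (integrable_of_cont (by fun_prop))
    fun s => ?_
  have h2 := arcsin_mono_sq (abs_inner_le_one hw s) (abs_inner_le_one hw' s)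
  rw [← inner_sub_left] at h2
  simp only
  linarith

theorem zh_expand {w w' : E (d + 1)} (hw : ‖w‖ ≤ 1) (hw' : ‖w'‖ ≤ 1) :
    ‖w - w'‖ ≤ (d + 1) * ‖zh w - zh w'‖ := by
  have h1 := zh_mono hw hw'
  have h2 := real_inner_le_norm (zh w - zh w') (w - w')
  have h3 : (0 : ℝ) < d + 1 := by positivity
  rcases eq_or_ne (‖w - w'‖) 0 with h0 | h0
  · rw [h0]
    positivity
  · have h4 : 0 < ‖w - w'‖ := lt_of_le_of_ne (norm_nonneg _) (Ne.symm h0)
    rw [div_le_iff₀ h3] at h1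
    have h5 : ‖w - w'‖ * ‖w - w'‖ ≤ ((d + 1) * ‖zh w - zh w'‖) * ‖w - w'‖ := by nlinarith
    exact le_of_mul_le_mul_right h5 h4

theorem zh_inj {w w' : E (d + 1)} (hw : ‖w‖ ≤ 1) (hw' : ‖w'‖ ≤ 1) (h : zh w = zh w') : w = w' := by
  have h1 := zh_expand hw hw'
  rw [h, sub_self, norm_zero, mul_zero] at h1
  exact sub_eq_zero.1 (norm_le_zero_iff.1 h1)

theorem rho_strictMono {a b : ℝ} (ha : 0 ≤ a) (hab : a < b) (hb : b ≤ 1) : rho d a < rho d b := by
  have hn := norm_e0 (d := d)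
  have h1 := zh_mono (w := b • e0 d) (w' := a • e0 d)
    (by rw [norm_smul, hn, mul_one, Real.norm_eq_abs, abs_of_nonneg (by linarith)]; exact hb)
    (by rw [norm_smul, hn, mul_one, Real.norm_eq_abs, abs_of_nonneg ha]; linarith)
  rw [zh_e0, zh_e0, ← sub_smul, ← sub_smul, norm_smul, hn, mul_one, real_inner_smul_left,
    real_inner_smul_right, real_inner_self_eq_norm_sq, hn, Real.norm_eq_abs, sq_abs] at h1
  have h3 : (0 : ℝ) < d + 1 := by positivity
  have h4 : 0 < (b - a) ^ 2 / (d + 1) := by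
    have : 0 < b - a := by linarith
    positivity
  have h5 : 0 < (rho d b - rho d a) * (b - a) := by nlinarith
  have h6 := (mul_pos_iff_of_pos_right (by linarith : (0 : ℝ) < b - a)).1 h5
  linarith

/-- Surjectivity onto the ball of radius `rho k`. -/
theorem zh_surj {k : ℝ} (hk0 : 0 ≤ k) {z : E (d + 1)} (hz : ‖z‖ ≤ rho d k) :
    ∃ w : E (d + 1), ‖w‖ ≤ k ∧ zh w = z := by
  have hmem : ‖z‖ ∈ Icc (rho d 0) (rho d k) := ⟨by rw [rho_zero]; exact norm_nonneg _, hz⟩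
  obtain ⟨t, ht, hrt⟩ := intermediate_value_Icc hk0 continuous_rho.continuousOn hmem
  rcases eq_or_ne z 0 with h0 | h0
  · refine ⟨0, by simpa using hk0, ?_⟩
    have := zh_e0 (d := d) 0
    rw [zero_smul, rho_zero, zero_smul] at this
    rw [this, h0]
  · have hn : ‖z‖ ≠ 0 := norm_ne_zero_iff.2 h0
    have hu : ‖‖z‖⁻¹ • z‖ = 1 := by rw [norm_smul, norm_inv, norm_norm, inv_mul_cancel₀ hn]
    refine ⟨t • (‖z‖⁻¹ • z), ?_, ?_⟩
    · rw [norm_smul, hu, mul_one, Real.norm_eq_abs, abs_of_nonneg ht.1]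
      exact ht.2
    · rw [zh_smul _ hu, hrt, smul_smul, mul_inv_cancel₀ hn, one_smul]


theorem one_sub_inner_pos {w : E (d + 1)} (hw : ‖w‖ < 1) (s : Sph (d + 1)) :
    0 < 1 - ⟪w, (s : E (d + 1))⟫ ^ 2 := by
  have h := abs_real_inner_le_norm w (s : E (d + 1))
  have hs : ‖(s : E (d + 1))‖ = 1 := by simp
  rw [hs, mul_one] at h
  have h2 : ⟪w, (s : E (d + 1))⟫ ^ 2 ≤ ‖w‖ ^ 2 := by
    rw [← sq_abs ⟪w, (s : E (d + 1))⟫]
    gcongr
  have h3 : ‖w‖ ^ 2 < 1 := by
    have := norm_nonneg w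
    nlinarith
  linarith

/-- The derivative of the integrand. -/
noncomputable def dzh (w : E (d + 1)) (s : Sph (d + 1)) : E (d + 1) →L[ℝ] E (d + 1) :=
  ((√(1 - ⟪w, (s : E (d + 1))⟫ ^ 2))⁻¹ • innerSL ℝ (s : E (d + 1))).smulRight (s : E (d + 1))

theorem dzh_apply (w : E (d + 1)) (s : Sph (d + 1)) (ξ : E (d + 1)) :
    dzh w s ξ = ((√(1 - ⟪w, (s : E (d + 1))⟫ ^ 2))⁻¹ * ⟪(s : E (d + 1)), ξ⟫) • (s : E (d + 1)) := by
  simp [dzh]

theorem continuous_dzh {w : E (d + 1)} (hw : ‖w‖ < 1) : Continuous (dzh w) := by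
  unfold dzh
  have h1 : Continuous fun s : Sph (d + 1) => (√(1 - ⟪w, (s : E (d + 1))⟫ ^ 2))⁻¹ := by
    apply Continuous.inv₀ (by fun_prop)
    intro s
    exact (Real.sqrt_pos.2 (one_sub_inner_pos hw s)).ne'
  have h2 : Continuous fun s : Sph (d + 1) => (√(1 - ⟪w, (s : E (d + 1))⟫ ^ 2))⁻¹ •
      innerSL ℝ (s : E (d + 1)) := h1.smul (by fun_prop)
  exact ((ContinuousLinearMap.smulRightL ℝ (E (d + 1)) (E (d + 1))).continuous.comp h2).clm_apply
    continuous_subtype_val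

theorem hasFDerivAt_arcsin_inner {w : E (d + 1)} (hw : ‖w‖ < 1) (s : Sph (d + 1)) :
    HasFDerivAt (fun w : E (d + 1) => arcsin ⟪w, (s : E (d + 1))⟫)
      ((√(1 - ⟪w, (s : E (d + 1))⟫ ^ 2))⁻¹ • innerSL ℝ (s : E (d + 1))) w := by
  have hpos := one_sub_inner_pos hw s
  have h1 : HasFDerivAt (fun w : E (d + 1) => ⟪w, (s : E (d + 1))⟫) (innerSL ℝ (s : E (d + 1))) w := by
    have := (innerSL ℝ (s : E (d + 1))).hasFDerivAt (x := w)
    refine this.congr_of_eventuallyEq (Eventually.of_forall fun w => ?_)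
    simp [real_inner_comm]
  have hne1 : ⟪w, (s : E (d + 1))⟫ ≠ -1 := by
    intro h
    rw [h] at hpos
    norm_num at hpos
  have hne2 : ⟪w, (s : E (d + 1))⟫ ≠ 1 := by
    intro h
    rw [h] at hpos
    norm_num at hpos
  refine ((hasDerivAt_arcsin hne1 hne2).comp_hasFDerivAt w h1).congr_fderiv ?_
  rw [one_div]

theorem norm_dzh_le {w : E (d + 1)} {k : ℝ} (hk0 : 0 ≤ k) (hk : k < 1) (hw : ‖w‖ ≤ k)
    (s : Sph (d + 1)) : ‖dzh w s‖ ≤ (√(1 - k ^ 2))⁻¹ := by
  have hs : ‖(s : E (d + 1))‖ = 1 := by simp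
  unfold dzh
  rw [ContinuousLinearMap.norm_smulRight_apply, norm_smul, innerSL_apply_norm, hs, mul_one, mul_one,
    norm_inv, Real.norm_eq_abs, abs_of_nonneg (Real.sqrt_nonneg _)]
  have h := abs_real_inner_le_norm w (s : E (d + 1))
  rw [hs, mul_one] at h
  have h2 : ⟪w, (s : E (d + 1))⟫ ^ 2 ≤ k ^ 2 := by
    rw [← sq_abs ⟪w, (s : E (d + 1))⟫]
    have := abs_nonneg ⟪w, (s : E (d + 1))⟫
    gcongr
    exact h.trans hw
  have h3 : 0 < 1 - k ^ 2 := by nlinarith
  gcongr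

theorem hasFDerivAt_zh {w : E (d + 1)} (hw : ‖w‖ < 1) :
    HasFDerivAt zh (∫ s, dzh w s ∂(sigma (d + 1))) w := by
  obtain ⟨k, hwk, hk1⟩ := exists_between hw
  have hk0 : 0 ≤ k := (norm_nonneg w).trans hwk.le
  have hnhds : ball w (k - ‖w‖) ∈ 𝓝 w := ball_mem_nhds _ (by linarith)
  have hball : ∀ x ∈ ball w (k - ‖w‖), ‖x‖ ≤ k := by
    intro x hx
    rw [mem_ball, dist_eq_norm] at hx
    have := norm_sub_norm_le x w
    linarith
  refine hasFDerivAt_integral_of_dominated_of_fderiv_le (bound := fun _ => (√(1 - k ^ 2))⁻¹)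
    hnhds ?_ (integrable_integrand w) (continuous_dzh hw).aestronglyMeasurable ?_
    (integrable_const _) ?_
  · exact Eventually.of_forall fun x => (continuous_integrand x).aestronglyMeasurable
  · refine Eventually.of_forall fun s x hx => norm_dzh_le hk0 hk1 (hball x hx) s
  · refine Eventually.of_forall fun s x hx => ?_
    exact (hasFDerivAt_arcsin_inner (lt_of_le_of_lt (hball x hx) hk1) s).smul_const _

theorem integrable_dzh {w : E (d + 1)} (hw : ‖w‖ < 1) : Integrable (dzh w) (sigma (d + 1)) :=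
  integrable_of_cont (continuous_dzh hw)

end Pool.Agent.H65G
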