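import Pool.Agent.H65G.Basic

set_option autoImplicit false

open Real Set MeasureTheory Metric
open scoped RealInnerProductSpace

namespace Pool.Agent.H65G

/-- The mean of `s₀² / q`, where `q = √(1 - r² s₀²)`. -/
noncomputable def Tint (d : ℕ) (r : ℝ) : ℝ :=
  ∫ s : Sph (d + 1), (s : E (d + 1)) 0 ^ 2 / √(1 - r ^ 2 * (s : E (d + 1)) 0 ^ 2) ∂(sigma (d + 1))

/-- The mean of `sᵢ² / q` for `i ≠ 0`. -/
noncomputable def Sint (d : ℕ) (r : ℝ) : ℝ :=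
  ∫ s : Sph (d + 1), (1 - (s : E (d + 1)) 0 ^ 2) / d / √(1 - r ^ 2 * (s : E (d + 1)) 0 ^ 2)
    ∂(sigma (d + 1))

/-- The mean of `s₀² q ^ (d + 1)`. -/
noncomputable def A0 (d : ℕ) (r : ℝ) : ℝ :=
  ∫ s : Sph (d + 1), (s : E (d + 1)) 0 ^ 2 *
    √(1 - r ^ 2 * (s : E (d + 1)) 0 ^ 2) ^ (d + 1) ∂(sigma (d + 1))

/-- The mean of `sᵢ² q ^ (d + 1)` for `i ≠ 0`. -/
noncomputable def A1 (d : ℕ) (r : ℝ) : ℝ :=
  ∫ s : Sph (d + 1), (1 - (s : E (d + 1)) 0 ^ 2) / d *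
    √(1 - r ^ 2 * (s : E (d + 1)) 0 ^ 2) ^ (d + 1) ∂(sigma (d + 1))

/-- The calibration criterion. -/
def Crit (d : ℕ) (r : ℝ) : Prop :=
  (d : ℝ) ≤ (d + 1) * √(1 - r ^ 2) ^ 3 * Tint d r ^ 2 / A0 d r +
    d * ((d + 1) * √(1 - r ^ 2) * Sint d r ^ 2 / A1 d r)

end Pool.Agent.H65G
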