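import Mathlib

set_option autoImplicit false

open Matrix Filter Topology

namespace Pool.Agent.H65G

/-- Two continuous functions of a matrix which agree on the invertible ones are equal. -/
theorem eq_of_forall_isUnit {n : ℕ} {f g : Matrix (Fin n) (Fin n) ℝ → ℝ} (hf : Continuous f)
    (hg : Continuous g) (h : ∀ M, IsUnit M.det → f M = g M) (M : Matrix (Fin n) (Fin n) ℝ) :
    f M = g M := by
  have hc : Continuous fun t : ℝ => M + t • (1 : Matrix (Fin n) (Fin n) ℝ) := by fun_prop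
  have h0 : M + (0 : ℝ) • (1 : Matrix (Fin n) (Fin n) ℝ) = M := by simp
  have hev : ∀ᶠ t in 𝓝[≠] (0 : ℝ), f (M + t • 1) = g (M + t • 1) := by
    have hfin : {t : ℝ | (-M).charpoly.IsRoot t}.Finite :=
      Polynomial.finite_setOfPred_isRoot (Matrix.charpoly_monic (-M)).ne_zero
    have hcl : IsClosed ({t : ℝ | (-M).charpoly.IsRoot t} \ {0}) := (hfin.subset Set.sdiff_subset).isClosed
    have hmem : ({t : ℝ | (-M).charpoly.IsRoot t} \ {0})ᶜ ∈ 𝓝 (0 : ℝ) :=
      hcl.isOpen_compl.mem_nhds (by simp)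
    have h2 : ∀ᶠ t in 𝓝[≠] (0 : ℝ), t ∈ ({t : ℝ | (-M).charpoly.IsRoot t} \ {0})ᶜ :=
      mem_nhdsWithin_of_mem_nhds hmem
    filter_upwards [h2, self_mem_nhdsWithin] with t ht ht0
    apply h
    rw [isUnit_iff_ne_zero]
    intro hdet
    apply ht
    refine ⟨?_, ht0⟩
    simp only [Set.mem_ofPred_eq, Polynomial.IsRoot.def, Matrix.eval_charpoly]
    rw [← hdet]
    congr 1
    ext i j
    simp [Matrix.scalar_apply, Matrix.smul_apply, Matrix.one_apply, Matrix.diagonal_apply, add_comm]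
  have t1 : Tendsto (fun t : ℝ => f (M + t • 1)) (𝓝[≠] 0) (𝓝 (f M)) := by
    have := (hf.comp hc).tendsto 0
    simp only [Function.comp_def, h0] at this
    exact this.mono_left nhdsWithin_le_nhds
  have t2 : Tendsto (fun t : ℝ => g (M + t • 1)) (𝓝[≠] 0) (𝓝 (g M)) := by
    have := (hg.comp hc).tendsto 0
    simp only [Function.comp_def, h0] at this
    exact this.mono_left nhdsWithin_le_nhds
  exact tendsto_nhds_unique (t1.congr' hev) t2

/-- The derivative of `w ↦ (w - ⟨w,s⟩ s) / √(1 - ⟨w,s⟩²)`, with `a = ⟨w,s⟩`, `q = √(1 - a²)`. -/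
noncomputable def pmat {n : ℕ} (s w : Fin n → ℝ) (a q : ℝ) : Matrix (Fin n) (Fin n) ℝ :=
  q⁻¹ • (1 - vecMulVec s s) + (a * (q ^ 3)⁻¹) • vecMulVec (w - a • s) s

theorem det_pmat_add {n : ℕ} {s w : Fin n → ℝ} {a q : ℝ} (hs : s ⬝ᵥ s = 1) (ha : w ⬝ᵥ s = a)
    (hq : 0 < q) (hq2 : q ^ 2 = 1 - a ^ 2) (χ : Fin n → ℝ) :
    (vecMulVec s χ + pmat s w a q).det = χ ⬝ᵥ ((q ^ (n + 1))⁻¹ • (s - a • w)) := by
  set u : Fin n → ℝ := -s + (a * (q ^ 2)⁻¹) • (w - a • s) with hu
  have hsu : s ⬝ᵥ u = -1 := by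
    rw [hu, dotProduct_add, dotProduct_neg, dotProduct_smul, dotProduct_sub, dotProduct_smul, hs,
      dotProduct_comm s w, ha]
    simp
  have h1 : vecMulVec s χ + pmat s w a q =
      q⁻¹ • (1 + (Matrix.of fun (i : Fin n) (k : Fin 2) => ![u i, s i] k) *
        (Matrix.of fun (k : Fin 2) (j : Fin n) => ![s j, q * χ j] k)) := by
    ext i j
    simp only [pmat, Matrix.add_apply, vecMulVec_apply, Matrix.smul_apply, Matrix.sub_apply,
      Matrix.mul_apply, Fin.sum_univ_two, Matrix.of_apply, Matrix.cons_val_zero,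
      Matrix.cons_val_one, smul_eq_mul, Pi.sub_apply, Pi.smul_apply, hu, Pi.add_apply,
      Pi.neg_apply]
    field_simp
    ring
  rw [h1, det_smul, det_one_add_mul_comm, det_fin_two]
  have e1 : ((Matrix.of fun (k : Fin 2) (j : Fin n) => ![s j, q * χ j] k) *
      (Matrix.of fun (i : Fin n) (k : Fin 2) => ![u i, s i] k)) 0 0 = -1 := by
    rw [← hsu]; simp [Matrix.mul_apply, dotProduct]
  have e2 : ((Matrix.of fun (k : Fin 2) (j : Fin n) => ![s j, q * χ j] k) *
      (Matrix.of fun (i : Fin n) (k : Fin 2) => ![u i, s i] k)) 0 1 = 1 := by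
    rw [← hs]; simp [Matrix.mul_apply, dotProduct]
  have e3 : ((Matrix.of fun (k : Fin 2) (j : Fin n) => ![s j, q * χ j] k) *
      (Matrix.of fun (i : Fin n) (k : Fin 2) => ![u i, s i] k)) 1 0 = q * (χ ⬝ᵥ u) := by
    simp [Matrix.mul_apply, dotProduct, Finset.mul_sum, mul_assoc]
  have e4 : χ ⬝ᵥ u = -(q ^ 2)⁻¹ * (χ ⬝ᵥ (s - a • w)) := by
    rw [hu, dotProduct_add, dotProduct_neg, dotProduct_smul, dotProduct_sub, dotProduct_smul,
      dotProduct_sub, dotProduct_smul]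
    simp only [smul_eq_mul]
    field_simp
    rw [hq2]
    ring
  simp only [Matrix.add_apply, e1, e2, e3, e4]
  simp only [Matrix.one_apply_eq, dotProduct_smul, smul_eq_mul, Fintype.card_fin, ne_eq,
    zero_ne_one, not_false_eq_true, Matrix.one_apply_ne, one_ne_zero, inv_pow]
  field_simp
  ring

theorem det_add_pmat_mul {n : ℕ} {s w : Fin n → ℝ} {a q : ℝ} (hs : s ⬝ᵥ s = 1)
    (ha : w ⬝ᵥ s = a) (hq : 0 < q) (hq2 : q ^ 2 = 1 - a ^ 2) (φ : Fin n → ℝ)
    (M : Matrix (Fin n) (Fin n) ℝ) :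
    (vecMulVec s φ + pmat s w a q * M).det =
      φ ⬝ᵥ (M.adjugate *ᵥ ((q ^ (n + 1))⁻¹ • (s - a • w))) := by
  revert M
  apply eq_of_forall_isUnit
  · fun_prop
  · fun_prop
  · intro M hM
    have h1 : vecMulVec s φ + pmat s w a q * M = (vecMulVec s (φ ᵥ* M⁻¹) + pmat s w a q) * M := by
      rw [Matrix.add_mul, vecMulVec_mul, vecMul_vecMul, Matrix.nonsing_inv_mul _ hM, vecMul_one]
    rw [h1, det_mul, det_pmat_add hs ha hq hq2, ← dotProduct_mulVec, Matrix.inv_def,
      Matrix.smul_mulVec, dotProduct_smul, smul_eq_mul, mul_comm, ← mul_assoc,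
      Ring.mul_inverse_cancel _ hM, one_mul]

/-- The derivative of the determinant in the direction `V`, row by row. -/
theorem sum_det_updateRow {n : ℕ} (D V : Matrix (Fin n) (Fin n) ℝ) :
    ∑ i, (D.updateRow i (V i)).det = (D.adjugate * V).trace := by
  rw [Matrix.trace_mul_comm]
  unfold Matrix.trace
  refine Finset.sum_congr rfl fun i _ => ?_
  rw [← Matrix.cramer_transpose_apply, Matrix.cramer_eq_adjugate_mulVec, ← Matrix.adjugate_transpose]
  simp only [Matrix.mulVec, dotProduct, Matrix.transpose_apply, Matrix.diag_apply,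
    Matrix.mul_apply]
  exact Finset.sum_congr rfl fun j _ => mul_comm _ _

end Pool.Agent.H65G
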