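import Mathlib

set_option autoImplicit false
open Real Finset
namespace Pool.Agent.H65G

private lemma merge_step {x y A β a b : ℝ} (hx : 0 ≤ x) (hy : 0 ≤ y) (hxy : 0 < x + y)
    (hxy1 : x + y ≤ 1) :
    (1 - (x + y)) * (A * a) ^ 2 + (x + y) * ((x * β * a + y * b * A) / (x + y)) ^ 2 ≤
      ((1 - x) * A ^ 2 + x * β ^ 2) * ((1 - y) * a ^ 2 + y * b ^ 2) := by
  have h1 : ((1 - x) * A ^ 2 + x * β ^ 2) * ((1 - y) * a ^ 2 + y * b ^ 2) -
      ((1 - (x + y)) * (A * a) ^ 2 + (x + y) * ((x * β * a + y * b * A) / (x + y)) ^ 2) =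
      x * y * (A * a - β * b) ^ 2 + x * y * ((1 - (x + y)) / (x + y)) * (β * a - b * A) ^ 2 := by
    field_simp
    ring
  have h2 : 0 ≤ x * y * (A * a - β * b) ^ 2 := by positivity
  have h3 : 0 ≤ x * y * ((1 - (x + y)) / (x + y)) * (β * a - b * A) ^ 2 := by
    have : 0 ≤ (1 - (x + y)) / (x + y) := div_nonneg (by linarith) hxy.le
    positivity
  linarith

private lemma merge_aux {n : ℕ} (τ a b : Fin n → ℝ) (hτ0 : ∀ i, 0 ≤ τ i)
    (ha : ∀ i, 0 ≤ a i) (hb : ∀ i, 0 ≤ b i) (s : Finset (Fin n)) (hs : ∑ i ∈ s, τ i ≤ 1) :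
    ∃ β : ℝ, 0 ≤ β ∧ ∑ i ∈ s, τ i * (b i * ∏ j ∈ s.erase i, a j) = (∑ i ∈ s, τ i) * β ∧
      (1 - ∑ i ∈ s, τ i) * (∏ i ∈ s, a i) ^ 2 + (∑ i ∈ s, τ i) * β ^ 2 ≤
        ∏ i ∈ s, ((1 - τ i) * a i ^ 2 + τ i * b i ^ 2) := by
  classical
  induction s using Finset.induction_on with
  | empty => exact ⟨0, le_rfl, by simp, by simp⟩
  | insert k s hk ih =>
    rw [Finset.sum_insert hk] at hs
    have hT0 : 0 ≤ ∑ i ∈ s, τ i := Finset.sum_nonneg fun i _ => hτ0 i
    obtain ⟨β, hβ0, hβ1, hβ2⟩ := ih (by linarith [hτ0 k])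
    set T := ∑ i ∈ s, τ i with hT
    set A := ∏ i ∈ s, a i with hA
    have hA0 : 0 ≤ A := Finset.prod_nonneg fun i _ => ha i
    have hsum : ∑ i ∈ insert k s, τ i * (b i * ∏ j ∈ (insert k s).erase i, a j) =
        τ k * b k * A + T * β * a k := by
      rw [Finset.sum_insert hk, Finset.erase_insert hk, ← hβ1, Finset.sum_mul, mul_assoc]
      congr 1
      apply Finset.sum_congr rfl
      intro i hi
      have hik : k ≠ i := fun h => hk (h ▸ hi)
      rw [Finset.erase_insert_of_ne hik, Finset.prod_insert (fun h => hk (Finset.mem_of_mem_erase h))]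
      ring
    have hxi : 0 ≤ (1 - τ k) * a k ^ 2 + τ k * b k ^ 2 := by
      have h1 : 0 ≤ 1 - τ k := by linarith
      have h2 := hτ0 k
      positivity
    rw [hsum, Finset.sum_insert hk, Finset.prod_insert hk, Finset.prod_insert hk, ← hT, ← hA]
    rcases (add_nonneg hT0 (hτ0 k)).eq_or_lt with h0 | h0
    · have h1 : T = 0 := by linarith [hτ0 k]
      have h2 : τ k = 0 := by linarith [hτ0 k]
      refine ⟨0, le_rfl, by rw [h1, h2]; ring, ?_⟩
      rw [h1] at hβ2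
      rw [h1, h2]
      have h3 := mul_le_mul_of_nonneg_left hβ2 (sq_nonneg (a k))
      nlinarith [h3]
    · refine ⟨(T * β * a k + τ k * b k * A) / (T + τ k), ?_, ?_, ?_⟩
      · have h1 := hτ0 k
        have h2 := ha k
        have h3 := hb k
        positivity
      · rw [add_comm (τ k) T, mul_div_cancel₀ _ h0.ne']
        ring
      · have h1 := merge_step (A := A) (β := β) (a := a k) (b := b k) hT0 (hτ0 k) h0 (by linarith)
        rw [add_comm (τ k) T, mul_comm (a k) A]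
        refine h1.trans ?_
        rw [mul_comm]
        exact mul_le_mul_of_nonneg_left hβ2 hxi

theorem merge_ineq {n : ℕ} (τ a b : Fin n → ℝ) (hτ0 : ∀ i, 0 ≤ τ i) (hτ : ∑ i, τ i ≤ 1)
    (ha : ∀ i, 0 ≤ a i) (hb : ∀ i, 0 ≤ b i) :
    ((1 - ∑ i, τ i) * ∏ i, a i + ∑ i, τ i * (b i * ∏ j ∈ univ.erase i, a j)) ^ 2 ≤
      ∏ i, ((1 - τ i) * a i ^ 2 + τ i * b i ^ 2) := by
  obtain ⟨β, -, hβ1, hβ2⟩ := merge_aux τ a b hτ0 ha hb univ hτ
  refine le_trans ?_ hβ2
  rw [hβ1]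
  have h0 : 0 ≤ ∑ i, τ i := Finset.sum_nonneg fun i _ => hτ0 i
  set T := ∑ i, τ i
  set A := ∏ i, a i
  have h1 : (1 - T) * A ^ 2 + T * β ^ 2 - ((1 - T) * A + T * β) ^ 2 = T * (1 - T) * (A - β) ^ 2 := by
    ring
  have h2 : 0 ≤ T * (1 - T) * (A - β) ^ 2 := by
    have : 0 ≤ 1 - T := by linarith
    positivity
  linarith

theorem hadamard {n : ℕ} (M : Matrix (Fin n) (Fin n) ℝ) :
    |M.det| ≤ ∏ i, √(∑ j, M i j ^ 2) := by
  let o : Orientation ℝ (EuclideanSpace ℝ (Fin n)) (Fin n) :=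
    (EuclideanSpace.basisFun (Fin n) ℝ).toBasis.orientation
  have : Fact (Module.finrank ℝ (EuclideanSpace ℝ (Fin n)) = n) := ⟨by simp⟩
  have h1 := o.abs_volumeForm_apply_le (fun i => WithLp.toLp 2 (M i))
  have h2 : o.volumeForm (fun i => WithLp.toLp 2 (M i)) = M.det := by
    rw [o.volumeForm_robust (EuclideanSpace.basisFun (Fin n) ℝ) rfl, Module.Basis.det_apply,
      ← Matrix.det_transpose]
    congr 1
  rw [h2] at h1
  refine h1.trans (le_of_eq ?_)
  apply Finset.prod_congr rfl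
  intro i _
  rw [EuclideanSpace.norm_eq]
  simp

/-- rows `D i`, `B i`; `V i = (1-τ i) D i + τ i B i`. -/
theorem calib_le_one {n : ℕ} (τ : Fin n → ℝ) (D B : Matrix (Fin n) (Fin n) ℝ)
    (hτ0 : ∀ i, 0 ≤ τ i) (hτ1 : ∀ i, τ i ≤ 1) (hτ : ∑ i, τ i ≤ 1)
    (h : ∑ i, ((1 - τ i) * ∑ j, D i j ^ 2 + τ i * ∑ j, B i j ^ 2) ≤ n) :
    |∑ i, (D.updateRow i ((1 - τ i) • D i + τ i • B i)).det - (n - 1) * D.det| ≤ 1 := by
  have h1 : ∀ i, (D.updateRow i ((1 - τ i) • D i + τ i • B i)).det =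
      (1 - τ i) * D.det + τ i * (D.updateRow i (B i)).det := by
    intro i
    rw [Matrix.det_updateRow_add, Matrix.det_updateRow_smul, Matrix.det_updateRow_smul,
      Matrix.updateRow_eq_self]
  have h2 : ∑ i, (D.updateRow i ((1 - τ i) • D i + τ i • B i)).det - (n - 1) * D.det =
      (1 - ∑ i, τ i) * D.det + ∑ i, τ i * (D.updateRow i (B i)).det := by
    rw [Finset.sum_congr rfl fun i _ => h1 i, Finset.sum_add_distrib, ← Finset.sum_mul,
      Finset.sum_sub_distrib]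
    simp only [Finset.sum_const, Finset.card_univ, Fintype.card_fin, nsmul_eq_mul, mul_one]
    ring
  rw [h2]
  let a : Fin n → ℝ := fun i => √(∑ j, D i j ^ 2)
  let b : Fin n → ℝ := fun i => √(∑ j, B i j ^ 2)
  have ha : ∀ i, 0 ≤ a i := fun i => Real.sqrt_nonneg _
  have hb : ∀ i, 0 ≤ b i := fun i => Real.sqrt_nonneg _
  have ha2 : ∀ i, a i ^ 2 = ∑ j, D i j ^ 2 := fun i =>
    Real.sq_sqrt (Finset.sum_nonneg fun j _ => sq_nonneg _)
  have hb2 : ∀ i, b i ^ 2 = ∑ j, B i j ^ 2 := fun i =>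
    Real.sq_sqrt (Finset.sum_nonneg fun j _ => sq_nonneg _)
  have hup : ∀ i, |(D.updateRow i (B i)).det| ≤ b i * ∏ j ∈ univ.erase i, a j := by
    intro i
    refine (hadamard _).trans (le_of_eq ?_)
    rw [← Finset.mul_prod_erase univ _ (Finset.mem_univ i)]
    congr 1
    · simp [b]
    · apply Finset.prod_congr rfl
      intro j hj
      have : j ≠ i := (Finset.mem_erase.1 hj).1
      simp [a, Matrix.updateRow_ne this]
  have h3 : |(1 - ∑ i, τ i) * D.det + ∑ i, τ i * (D.updateRow i (B i)).det| ≤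
      (1 - ∑ i, τ i) * ∏ i, a i + ∑ i, τ i * (b i * ∏ j ∈ univ.erase i, a j) := by
    refine (abs_add_le _ _).trans (add_le_add ?_ ?_)
    · rw [abs_mul, abs_of_nonneg (by linarith : (0 : ℝ) ≤ 1 - ∑ i, τ i)]
      exact mul_le_mul_of_nonneg_left (hadamard D) (by linarith)
    · refine (Finset.abs_sum_le_sum_abs _ _).trans (Finset.sum_le_sum ?_)
      intro i _
      rw [abs_mul, abs_of_nonneg (hτ0 i)]
      exact mul_le_mul_of_nonneg_left (hup i) (hτ0 i)
  have h4 := merge_ineq τ a b hτ0 hτ ha hb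
  have hx0 : ∀ i, 0 ≤ (1 - τ i) * a i ^ 2 + τ i * b i ^ 2 := by
    intro i
    have h5 : 0 ≤ 1 - τ i := by linarith [hτ1 i]
    have h6 := hτ0 i
    positivity
  have h5 : ∏ i, ((1 - τ i) * a i ^ 2 + τ i * b i ^ 2) ≤ 1 := by
    have h6 : ∏ i, ((1 - τ i) * a i ^ 2 + τ i * b i ^ 2) ≤
        ∏ i, Real.exp (((1 - τ i) * a i ^ 2 + τ i * b i ^ 2) - 1) := by
      apply Finset.prod_le_prod
      · intro i _
        exact hx0 i
      · intro i _
        have := Real.add_one_le_exp (((1 - τ i) * a i ^ 2 + τ i * b i ^ 2) - 1)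
        linarith
    refine h6.trans ?_
    rw [← Real.exp_sum, Real.exp_le_one_iff, Finset.sum_sub_distrib]
    simp only [ha2, hb2, Finset.sum_const, Finset.card_univ, Fintype.card_fin, nsmul_eq_mul,
      mul_one]
    linarith
  have h6 : 0 ≤ (1 - ∑ i, τ i) * ∏ i, a i + ∑ i, τ i * (b i * ∏ j ∈ univ.erase i, a j) :=
    (abs_nonneg _).trans h3
  refine h3.trans ?_
  nlinarith [h4, h5, h6]

end Pool.Agent.H65G
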