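import Pool.Agent.H65G.Bessel
import Pool.Agent.H65G.LinAlg
import Pool.Agent.H65G.CritDefs
import Pool.Agent.H65G.Moments
import Pool.Agent.H65G.Merge

set_option autoImplicit false

open Real Set MeasureTheory Metric Matrix
open scoped RealInnerProductSpace

namespace Pool.Agent.H65G

variable {d : ℕ} {r : ℝ}

/-- `q = √(1 - r² s₀²)`. -/
noncomputable def qq (r : ℝ) (s : Sph (d + 1)) : ℝ := √(1 - r ^ 2 * (s : E (d + 1)) 0 ^ 2)

theorem continuous_coord (i : Fin (d + 1)) : Continuous fun s : Sph (d + 1) => (s : E (d + 1)) i := by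
  fun_prop

theorem sum_sq_coord (s : Sph (d + 1)) : ∑ i, (s : E (d + 1)) i ^ 2 = 1 := by
  have h : ‖(s : E (d + 1))‖ = 1 := by simp
  rw [EuclideanSpace.norm_eq] at h
  have h2 : (√(∑ i, ‖(s : E (d + 1)) i‖ ^ 2)) ^ 2 = 1 := by rw [h]; norm_num
  rw [Real.sq_sqrt (Finset.sum_nonneg fun i _ => sq_nonneg _)] at h2
  simpa using h2

theorem sq_coord_le (s : Sph (d + 1)) (i : Fin (d + 1)) : (s : E (d + 1)) i ^ 2 ≤ 1 := by
  have h := Finset.single_le_sum (f := fun i => (s : E (d + 1)) i ^ 2) (fun i _ => sq_nonneg _)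
    (Finset.mem_univ i)
  exact h.trans_eq (sum_sq_coord s)

theorem coord_mem (s : Sph (d + 1)) (i : Fin (d + 1)) :
    (s : E (d + 1)) i ∈ Icc (-1 : ℝ) 1 :=
  abs_le.1 ((sq_le_one_iff_abs_le_one _).1 (sq_coord_le s i))

theorem one_sub_pos (hr0 : 0 ≤ r) (hr1 : r < 1) {t : ℝ} (ht : t ^ 2 ≤ 1) :
    0 < 1 - r ^ 2 * t ^ 2 := by
  nlinarith [sq_nonneg t, mul_self_nonneg r]

theorem qq_pos (hr0 : 0 ≤ r) (hr1 : r < 1) (s : Sph (d + 1)) : 0 < qq r s :=
  Real.sqrt_pos.2 (one_sub_pos hr0 hr1 (sq_coord_le s 0))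

theorem qq_sq (hr0 : 0 ≤ r) (hr1 : r < 1) (s : Sph (d + 1)) :
    qq r s ^ 2 = 1 - r ^ 2 * (s : E (d + 1)) 0 ^ 2 :=
  Real.sq_sqrt (one_sub_pos hr0 hr1 (sq_coord_le s 0)).le

theorem continuous_qq : Continuous (qq r : Sph (d + 1) → ℝ) := by
  unfold qq
  fun_prop

/-- The coefficient of the axis directions. -/
noncomputable def kap (r : ℝ) (i : Fin (d + 1)) : ℝ := if i = 0 then √(1 - r ^ 2) else 1

/-- The eigenvalues of the derivative of `w ↦ ∫ arcsin ⟨w,s⟩ s`. -/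
noncomputable def alp (r : ℝ) (i : Fin (d + 1)) : ℝ := if i = 0 then Tint d r else Sint d r

/-- `∫ sᵢ² q ^ (d+1)`. -/
noncomputable def aa (r : ℝ) (i : Fin (d + 1)) : ℝ := if i = 0 then A0 d r else A1 d r

/-- The matrix `M i j = αᵢ⁻¹ ∫ sᵢ vⱼ`. -/
noncomputable def mmat (r : ℝ) (v : Sph (d + 1) → Fin (d + 1) → ℝ) :
    Matrix (Fin (d + 1)) (Fin (d + 1)) ℝ :=
  Matrix.of fun i j => (alp r i)⁻¹ * ∫ s, (s : E (d + 1)) i * v s j ∂(sigma (d + 1))

/-- The divergence free field `b`. -/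
noncomputable def bb (r : ℝ) (s : Sph (d + 1)) (i : Fin (d + 1)) : ℝ :=
  kap r i ^ 2 * (s : E (d + 1)) i / qq r s ^ (d + 2)

/-- The differential of `arcsin ⟨w,s⟩`. -/
noncomputable def dh (r : ℝ) (s : Sph (d + 1)) (i : Fin (d + 1)) : ℝ :=
  (s : E (d + 1)) i / qq r s

theorem c_pos (hr0 : 0 ≤ r) (hr1 : r < 1) : 0 < √(1 - r ^ 2) :=
  Real.sqrt_pos.2 (by nlinarith)

theorem kap_pos (hr0 : 0 ≤ r) (hr1 : r < 1) (i : Fin (d + 1)) : 0 < kap r i := by
  unfold kap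
  split_ifs
  · exact c_pos hr0 hr1
  · exact one_pos

theorem continuous_pow_qq (k : ℕ) : Continuous fun s : Sph (d + 1) => qq r s ^ k :=
  continuous_qq.pow k

theorem continuous_inv_pow_qq (hr0 : 0 ≤ r) (hr1 : r < 1) (k : ℕ) :
    Continuous fun s : Sph (d + 1) => (qq r s ^ k)⁻¹ :=
  (continuous_pow_qq k).inv₀ fun s => (pow_pos (qq_pos hr0 hr1 s) k).ne'

/-- A continuous nonnegative function on the sphere which is positive somewhere has positive
mean. -/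
theorem integral_pos_of {f : Sph (d + 1) → ℝ} (hf : Continuous f) (h0 : ∀ s, 0 ≤ f s)
    {s₀ : Sph (d + 1)} (h1 : 0 < f s₀) : 0 < ∫ s, f s ∂(sigma (d + 1)) := by
  have hopen : (sigma (d + 1)).IsOpenPosMeasure := by
    refine ⟨fun U hU hne => ?_⟩
    have h2 : (volume : Measure (E (d + 1))).toSphere U ≠ 0 := hU.measure_ne_zero _ hne
    simp only [sigma, Measure.smul_apply, smul_eq_mul, ne_eq, mul_eq_zero, ENNReal.inv_eq_zero,
      not_or]
    exact ⟨measure_ne_top _ _, h2⟩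
  exact (integral_pos_iff_support_of_nonneg (fun s => h0 s) (integrable_of_cont hf)).2
    (hf.isOpen_support.measure_pos _ ⟨s₀, h1.ne'⟩)


/-- A basis vector as a point of the sphere. -/
noncomputable def es (i : Fin (d + 1)) : Sph (d + 1) := ⟨EuclideanSpace.single i 1, by simp⟩

theorem es_self (i : Fin (d + 1)) : ((es i : Sph (d + 1)) : E (d + 1)) i = 1 := by
  simp [es]

theorem es_ne {i j : Fin (d + 1)} (h : j ≠ i) : ((es i : Sph (d + 1)) : E (d + 1)) j = 0 := by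
  simp [es, h]

/-- Integrals `∫ sᵢ sⱼ g(s₀)`: the diagonal case for `i ≠ 0`. -/
theorem int_diag {i : Fin (d + 1)} (hi : i ≠ 0) {g : ℝ → ℝ} (hg : ContinuousOn g (Icc (-1) 1)) :
    ∫ s : Sph (d + 1), (s : E (d + 1)) i ^ 2 * g ((s : E (d + 1)) 0) ∂(sigma (d + 1)) =
      ∫ s : Sph (d + 1), (1 - (s : E (d + 1)) 0 ^ 2) / d * g ((s : E (d + 1)) 0)
        ∂(sigma (d + 1)) := diag hi hg

theorem cont_g (hr0 : 0 ≤ r) (hr1 : r < 1) :
    ContinuousOn (fun t : ℝ => (√(1 - r ^ 2 * t ^ 2))⁻¹) (Icc (-1) 1) := by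
  apply ContinuousOn.inv₀ (by fun_prop)
  intro t ht
  exact (Real.sqrt_pos.2 (one_sub_pos hr0 hr1
    ((sq_le_one_iff_abs_le_one t).2 (abs_le.2 ht)))).ne'

/-- `∫ sᵢ² / q = αᵢ`. -/
theorem int_alp (hr0 : 0 ≤ r) (hr1 : r < 1) (i : Fin (d + 1)) :
    ∫ s : Sph (d + 1), (s : E (d + 1)) i ^ 2 * (qq r s)⁻¹ ∂(sigma (d + 1)) = alp r i := by
  unfold alp
  split_ifs with h
  · subst h
    unfold Tint qq
    simp only [div_eq_mul_inv]
  · rw [show (∫ s : Sph (d + 1), (s : E (d + 1)) i ^ 2 * (qq r s)⁻¹ ∂(sigma (d + 1))) = _ from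
      int_diag h (cont_g hr0 hr1)]
    unfold Sint
    simp only [div_eq_mul_inv]

theorem int_aa (i : Fin (d + 1)) :
    ∫ s : Sph (d + 1), (s : E (d + 1)) i ^ 2 * qq r s ^ (d + 1) ∂(sigma (d + 1)) = aa r i := by
  unfold aa
  split_ifs with h
  · subst h
    rfl
  · rw [show (∫ s : Sph (d + 1), (s : E (d + 1)) i ^ 2 * qq r s ^ (d + 1) ∂(sigma (d + 1))) = _ from
      int_diag h (g := fun t => √(1 - r ^ 2 * t ^ 2) ^ (d + 1)) (by fun_prop)]
    rfl

theorem int_vis (hd : 1 ≤ d) (hr0 : 0 ≤ r) (hr1 : r < 1) (i : Fin (d + 1)) :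
    √(1 - r ^ 2) * kap r i ^ 2 *
      ∫ s : Sph (d + 1), (s : E (d + 1)) i ^ 2 * (qq r s ^ (d + 3))⁻¹ ∂(sigma (d + 1)) =
      1 / (d + 1) := by
  have hc := c_pos hr0 hr1
  unfold kap
  split_ifs with h
  · subst h
    have := visual_second hd hr0 hr1
    unfold qq
    rw [this]
    field_simp
  · have := visual_second' hd hr0 hr1 h
    unfold qq
    rw [this]
    field_simp

theorem alp_pos (hr0 : 0 ≤ r) (hr1 : r < 1) (i : Fin (d + 1)) : 0 < alp r i := by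
  rw [← int_alp hr0 hr1]
  refine integral_pos_of (s₀ := es i) ?_ ?_ ?_
  · exact ((continuous_coord i).pow 2).mul (by simpa using continuous_inv_pow_qq hr0 hr1 1)
  · intro s
    exact mul_nonneg (sq_nonneg _) (inv_nonneg.2 (qq_pos hr0 hr1 s).le)
  · rw [es_self]
    have := qq_pos hr0 hr1 (es i : Sph (d + 1))
    positivity

theorem aa_pos (hr0 : 0 ≤ r) (hr1 : r < 1) (i : Fin (d + 1)) : 0 < aa r i := by
  rw [← int_aa]
  refine integral_pos_of (s₀ := es i) ?_ ?_ ?_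
  · exact ((continuous_coord i).pow 2).mul (continuous_pow_qq _)
  · intro s
    exact mul_nonneg (sq_nonneg _) (pow_pos (qq_pos hr0 hr1 s) _).le
  · rw [es_self]
    have := qq_pos hr0 hr1 (es i : Sph (d + 1))
    positivity

theorem int_off {i j : Fin (d + 1)} (hij : i ≠ j) (g : ℝ → ℝ) :
    ∫ s : Sph (d + 1), (s : E (d + 1)) i * (s : E (d + 1)) j * g ((s : E (d + 1)) 0)
      ∂(sigma (d + 1)) = 0 := offdiag hij g

end Pool.Agent.H65G
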