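import Pool.Agent.H65G.Axis

set_option autoImplicit false

open Real Set MeasureTheory Metric Matrix
open scoped RealInnerProductSpace

namespace Pool.Agent.H65G

variable {d : ℕ} {r : ℝ}

/-- The square root of the visual density. -/
noncomputable def ell (r : ℝ) (s : Sph (d + 1)) : ℝ := √(√(1 - r ^ 2) / qq r s ^ (d + 1))

theorem ell_sq (hr0 : 0 ≤ r) (hr1 : r < 1) (s : Sph (d + 1)) :
    ell r s ^ 2 = √(1 - r ^ 2) / qq r s ^ (d + 1) :=
  Real.sq_sqrt (div_nonneg (Real.sqrt_nonneg _) (pow_pos (qq_pos hr0 hr1 s) _).le)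

theorem ell_pos (hr0 : 0 ≤ r) (hr1 : r < 1) (s : Sph (d + 1)) : 0 < ell r s :=
  Real.sqrt_pos.2 (div_pos (c_pos hr0 hr1) (pow_pos (qq_pos hr0 hr1 s) _))

theorem continuous_ell (hr0 : 0 ≤ r) (hr1 : r < 1) : Continuous (ell r : Sph (d + 1) → ℝ) := by
  unfold ell
  exact ((continuous_const.div (continuous_pow_qq _)
    fun s => (pow_pos (qq_pos hr0 hr1 s) _).ne')).sqrt

/-- The norms `Pᵢ`. -/
noncomputable def pp (r : ℝ) (i : Fin (d + 1)) : ℝ :=
  aa r i / (√(1 - r ^ 2) * kap r i ^ 2 * alp r i ^ 2)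

theorem pp_pos (hr0 : 0 ≤ r) (hr1 : r < 1) (i : Fin (d + 1)) : 0 < pp r i := by
  have h1 := aa_pos hr0 hr1 i
  have h2 := c_pos hr0 hr1
  have h3 := kap_pos hr0 hr1 i
  have h4 := alp_pos hr0 hr1 i
  unfold pp
  positivity

/-- `Xᵢ = pᵢ / ℓ`. -/
noncomputable def xx (r : ℝ) (i : Fin (d + 1)) (s : Sph (d + 1)) : ℝ :=
  (s : E (d + 1)) i / (kap r i * alp r i) / ell r s

/-- `Yᵢ = n ℓ êᵢ`. -/
noncomputable def yy (r : ℝ) (i : Fin (d + 1)) (s : Sph (d + 1)) : ℝ :=
  (d + 1) * ell r s * (kap r i * (s : E (d + 1)) i / qq r s)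

theorem continuous_xx (hr0 : 0 ≤ r) (hr1 : r < 1) (i : Fin (d + 1)) :
    Continuous (xx r i : Sph (d + 1) → ℝ) := by
  unfold xx
  exact ((continuous_coord i).div_const _).div (continuous_ell hr0 hr1)
    fun s => (ell_pos hr0 hr1 s).ne'

theorem continuous_yy (hr0 : 0 ≤ r) (hr1 : r < 1) (i : Fin (d + 1)) :
    Continuous (yy r i : Sph (d + 1) → ℝ) := by
  unfold yy
  exact (continuous_const.mul (continuous_ell hr0 hr1)).mul
    ((continuous_const.mul (continuous_coord i)).div continuous_qq fun s => (qq_pos hr0 hr1 s).ne')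

theorem gram_xx (hr0 : 0 ≤ r) (hr1 : r < 1) (i j : Fin (d + 1)) :
    ∫ s, xx r i s * xx r j s ∂(sigma (d + 1)) = if i = j then pp r i else 0 := by
  have hk := kap_pos hr0 hr1 i
  have hk' := kap_pos hr0 hr1 j
  have ha := alp_pos hr0 hr1 i
  have ha' := alp_pos hr0 hr1 j
  have hc := c_pos hr0 hr1
  have h1 : ∀ s : Sph (d + 1), xx r i s * xx r j s =
      ((kap r i * alp r i) * (kap r j * alp r j) * √(1 - r ^ 2))⁻¹ *
      ((s : E (d + 1)) i * (s : E (d + 1)) j * qq r s ^ (d + 1)) := by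
    intro s
    have hq := qq_pos hr0 hr1 s
    have hl := ell_pos hr0 hr1 s
    have hl2 := ell_sq hr0 hr1 s
    have h3 : xx r i s * xx r j s = (s : E (d + 1)) i * (s : E (d + 1)) j /
        ((kap r i * alp r i) * (kap r j * alp r j)) / ell r s ^ 2 := by
      unfold xx
      field_simp
    rw [h3, hl2]
    field_simp
  simp only [h1]
  rw [integral_const_mul]
  split_ifs with h
  · subst h
    have h2 : ∀ s : Sph (d + 1), (s : E (d + 1)) i * (s : E (d + 1)) i * qq r s ^ (d + 1) =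
        (s : E (d + 1)) i ^ 2 * qq r s ^ (d + 1) := fun s => by ring
    simp only [h2]
    rw [int_aa]
    unfold pp
    field_simp
  · rw [show (∫ s : Sph (d + 1), (s : E (d + 1)) i * (s : E (d + 1)) j * qq r s ^ (d + 1)
        ∂(sigma (d + 1))) = 0 from int_off h (fun t => √(1 - r ^ 2 * t ^ 2) ^ (d + 1))]
    simp

theorem gram_xy (hr0 : 0 ≤ r) (hr1 : r < 1) (i j : Fin (d + 1)) :
    ∫ s, xx r i s * yy r j s ∂(sigma (d + 1)) = if i = j then (d + 1 : ℝ) else 0 := by
  have hk := kap_pos hr0 hr1 i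
  have hk' := kap_pos hr0 hr1 j
  have ha := alp_pos hr0 hr1 i
  have h1 : ∀ s : Sph (d + 1), xx r i s * yy r j s =
      ((d + 1) * kap r j / (kap r i * alp r i)) *
      ((s : E (d + 1)) i * (s : E (d + 1)) j * (qq r s)⁻¹) := by
    intro s
    have hq := qq_pos hr0 hr1 s
    have hl := ell_pos hr0 hr1 s
    unfold xx yy
    field_simp
  simp only [h1]
  rw [integral_const_mul]
  split_ifs with h
  · subst h
    have h2 : ∀ s : Sph (d + 1), (s : E (d + 1)) i * (s : E (d + 1)) i * (qq r s)⁻¹ =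
        (s : E (d + 1)) i ^ 2 * (qq r s)⁻¹ := fun s => by ring
    simp only [h2]
    rw [int_alp hr0 hr1]
    field_simp
  · rw [show (∫ s : Sph (d + 1), (s : E (d + 1)) i * (s : E (d + 1)) j * (qq r s)⁻¹
        ∂(sigma (d + 1))) = 0 from int_off h (fun t => (√(1 - r ^ 2 * t ^ 2))⁻¹)]
    simp

theorem gram_yy (hd : 1 ≤ d) (hr0 : 0 ≤ r) (hr1 : r < 1) (i j : Fin (d + 1)) :
    ∫ s, yy r i s * yy r j s ∂(sigma (d + 1)) = if i = j then (d + 1 : ℝ) else 0 := by
  have h1 : ∀ s : Sph (d + 1), yy r i s * yy r j s =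
      ((d + 1) ^ 2 * √(1 - r ^ 2) * (kap r i * kap r j)) *
      ((s : E (d + 1)) i * (s : E (d + 1)) j * (qq r s ^ (d + 3))⁻¹) := by
    intro s
    have hq := qq_pos hr0 hr1 s
    have hl2 := ell_sq hr0 hr1 s
    have h3 : yy r i s * yy r j s = (d + 1) ^ 2 * ell r s ^ 2 * (kap r i * kap r j) *
      ((s : E (d + 1)) i * (s : E (d + 1)) j) / qq r s ^ 2 := by
      unfold yy
      field_simp
    rw [h3, hl2, show d + 3 = (d + 1) + 2 by ring, pow_add _ (d + 1) 2]
    field_simp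
  simp only [h1]
  rw [integral_const_mul]
  split_ifs with h
  · subst h
    have h2 : ∀ s : Sph (d + 1), (s : E (d + 1)) i * (s : E (d + 1)) i * (qq r s ^ (d + 3))⁻¹ =
        (s : E (d + 1)) i ^ 2 * (qq r s ^ (d + 3))⁻¹ := fun s => by ring
    simp only [h2]
    have h3 := int_vis hd hr0 hr1 i
    calc _ = (d + 1) ^ 2 * (√(1 - r ^ 2) * kap r i ^ 2 *
      ∫ s : Sph (d + 1), (s : E (d + 1)) i ^ 2 * (qq r s ^ (d + 3))⁻¹ ∂(sigma (d + 1))) := by ring
      _ = _ := by
        rw [h3]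
        field_simp
  · rw [show (∫ s : Sph (d + 1), (s : E (d + 1)) i * (s : E (d + 1)) j * (qq r s ^ (d + 3))⁻¹
        ∂(sigma (d + 1))) = 0 from int_off h (fun t => (√(1 - r ^ 2 * t ^ 2) ^ (d + 3))⁻¹)]
    simp

/-- `τᵢ = 1 - n / Pᵢ`. -/
noncomputable def tau (r : ℝ) (i : Fin (d + 1)) : ℝ := 1 - (d + 1) / pp r i

/-- `Zᵢ = Yᵢ - (1 - τᵢ) Xᵢ`. -/
noncomputable def zz (r : ℝ) (i : Fin (d + 1)) (s : Sph (d + 1)) : ℝ :=
  yy r i s - (d + 1) / pp r i * xx r i s

theorem continuous_zz (hr0 : 0 ≤ r) (hr1 : r < 1) (i : Fin (d + 1)) :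
    Continuous (zz r i : Sph (d + 1) → ℝ) :=
  (continuous_yy hr0 hr1 i).sub (continuous_const.mul (continuous_xx hr0 hr1 i))

theorem gram_xz (hr0 : 0 ≤ r) (hr1 : r < 1) (i j : Fin (d + 1)) :
    ∫ s, xx r i s * zz r j s ∂(sigma (d + 1)) = 0 := by
  have h1 : ∀ s : Sph (d + 1), xx r i s * zz r j s =
      xx r i s * yy r j s - (d + 1) / pp r j * (xx r i s * xx r j s) := fun s => by
    unfold zz; ring
  simp only [h1]
  have hx := continuous_xx (d := d) hr0 hr1
  have hy := continuous_yy (d := d) hr0 hr1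
  have i1 : Integrable (fun s : Sph (d + 1) => xx r i s * yy r j s) (sigma (d + 1)) :=
    integrable_of_cont ((hx i).mul (hy j))
  have i2 : Integrable (fun s : Sph (d + 1) => (d + 1) / pp r j * (xx r i s * xx r j s))
      (sigma (d + 1)) := integrable_of_cont (continuous_const.mul ((hx i).mul (hx j)))
  rw [integral_sub i1 i2, integral_const_mul, gram_xy hr0 hr1, gram_xx hr0 hr1]
  split_ifs with h
  · subst h
    have := (pp_pos hr0 hr1 i).ne'
    field_simp
    ring
  · simp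

theorem gram_zz (hd : 1 ≤ d) (hr0 : 0 ≤ r) (hr1 : r < 1) (i j : Fin (d + 1)) :
    ∫ s, zz r i s * zz r j s ∂(sigma (d + 1)) = if i = j then (d + 1) * tau r i else 0 := by
  have h1 : ∀ s : Sph (d + 1), zz r i s * zz r j s =
      yy r i s * yy r j s - (d + 1) / pp r j * (xx r j s * yy r i s) -
      (d + 1) / pp r i * (xx r i s * zz r j s) := fun s => by
    unfold zz; ring
  simp only [h1]
  have hx := continuous_xx (d := d) hr0 hr1
  have hy := continuous_yy (d := d) hr0 hr1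
  have hz := continuous_zz (d := d) hr0 hr1
  have i1 : Integrable (fun s : Sph (d + 1) => yy r i s * yy r j s -
      (d + 1) / pp r j * (xx r j s * yy r i s)) (sigma (d + 1)) :=
    integrable_of_cont (((hy i).mul (hy j)).sub (continuous_const.mul ((hx j).mul (hy i))))
  have i2 : Integrable (fun s : Sph (d + 1) => (d + 1) / pp r i * (xx r i s * zz r j s))
      (sigma (d + 1)) := integrable_of_cont (continuous_const.mul ((hx i).mul (hz j)))
  have i3 : Integrable (fun s : Sph (d + 1) => yy r i s * yy r j s)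
      (sigma (d + 1)) := integrable_of_cont ((hy i).mul (hy j))
  have i4 : Integrable (fun s : Sph (d + 1) => (d + 1) / pp r j * (xx r j s * yy r i s))
      (sigma (d + 1)) := integrable_of_cont (continuous_const.mul ((hx j).mul (hy i)))
  rw [integral_sub i1 i2, integral_sub i3 i4, integral_const_mul,
    integral_const_mul, gram_xy hr0 hr1, gram_yy hd hr0 hr1, gram_xz hr0 hr1]
  by_cases h : i = j
  · subst h
    simp only [if_true, tau]
    have := (pp_pos hr0 hr1 i).ne'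
    field_simp
    ring
  · simp [h, Ne.symm h]


theorem tau_nonneg (hd : 1 ≤ d) (hr0 : 0 ≤ r) (hr1 : r < 1) (i : Fin (d + 1)) : 0 ≤ tau r i := by
  have h := gram_zz hd hr0 hr1 i i
  rw [if_pos rfl] at h
  have h2 : 0 ≤ ∫ s, zz r i s * zz r i s ∂(sigma (d + 1)) :=
    integral_nonneg fun s => mul_self_nonneg _
  rw [h] at h2
  have h3 : (0 : ℝ) < d + 1 := by positivity
  exact nonneg_of_mul_nonneg_right h2 h3

theorem tau_le_one (hr0 : 0 ≤ r) (hr1 : r < 1) (i : Fin (d + 1)) : tau r i ≤ 1 := by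
  have := pp_pos hr0 hr1 i
  have h3 : (0 : ℝ) ≤ (d + 1) / pp r i := by positivity
  unfold tau
  linarith

theorem sum_tau_le (hd : 1 ≤ d) (hr0 : 0 ≤ r) (hr1 : r < 1) (hcrit : Crit d r) :
    ∑ i : Fin (d + 1), tau r i ≤ 1 := by
  have hc := c_pos hr0 hr1
  have h0 : (0 : ℝ) < A0 d r := by
    have := aa_pos (d := d) hr0 hr1 0
    simpa [aa] using this
  have h1 : (0 : ℝ) < A1 d r := by
    have := aa_pos (d := d) hr0 hr1 ⟨1, by omega⟩
    have hne : (⟨1, by omega⟩ : Fin (d + 1)) ≠ 0 := by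
      intro h
      simpa using congrArg Fin.val h
    simpa [aa, hne] using this
  have ht0 : (d + 1) / pp (d := d) r 0 = (d + 1) * √(1 - r ^ 2) ^ 3 * Tint d r ^ 2 / A0 d r := by
    unfold pp aa kap alp
    simp only [if_true]
    field_simp
  have ht1 : ∀ i : Fin d, (d + 1) / pp (d := d) r i.succ =
      (d + 1) * √(1 - r ^ 2) * Sint d r ^ 2 / A1 d r := by
    intro i
    unfold pp aa kap alp
    simp only [Fin.succ_ne_zero, if_false]
    field_simp
  unfold Crit at hcrit
  rw [Fin.sum_univ_succ]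
  simp only [tau, ht0, ht1]
  simp only [Finset.sum_sub_distrib, Finset.sum_const, Finset.card_univ, Fintype.card_fin,
    nsmul_eq_mul, mul_one]
  linarith

/-- The total mass of the visual density. -/
theorem int_ell_sq (hd : 1 ≤ d) (hr0 : 0 ≤ r) (hr1 : r < 1) :
    ∫ s : Sph (d + 1), ell r s ^ 2 ∂(sigma (d + 1)) = 1 := by
  have h1 : ∀ s : Sph (d + 1), ell r s ^ 2 = √(1 - r ^ 2) * (qq r s ^ (d + 1))⁻¹ := fun s => by
    rw [ell_sq hr0 hr1, div_eq_mul_inv]
  simp only [h1]
  have := visual_mass hd hr0 hr1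
  rw [integral_const_mul]
  unfold qq
  rw [this]
  exact mul_inv_cancel₀ (c_pos hr0 hr1).ne'

theorem abs_le_of_sum_sq {n : ℕ} {x : Fin n → ℝ} (h : ∑ j, x j ^ 2 ≤ 1) (j : Fin n) :
    |x j| ≤ 1 := by
  have h1 := Finset.single_le_sum (f := fun i => x i ^ 2) (fun i _ => sq_nonneg _)
    (Finset.mem_univ j)
  exact (sq_le_one_iff_abs_le_one _).1 (h1.trans h)

theorem integrable_cont_mul {f : Sph (d + 1) → ℝ} (hf : Continuous f) {g : Sph (d + 1) → ℝ}
    (hg : Measurable g) {C : ℝ} (hg1 : ∀ s, |g s| ≤ C) :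
    Integrable (fun s => f s * g s) (sigma (d + 1)) := by
  obtain ⟨C', hC'⟩ := isCompact_univ.exists_bound_of_continuousOn (hf.continuousOn (s := univ))
  refine Integrable.mono' (integrable_const (C' * C))
    (hf.aestronglyMeasurable.mul hg.aestronglyMeasurable) (Filter.Eventually.of_forall fun s => ?_)
  rw [norm_mul]
  have h1 := hC' s (mem_univ s)
  have h2 := hg1 s
  rw [Real.norm_eq_abs (g s)]
  have h3 : 0 ≤ ‖f s‖ := norm_nonneg _
  have h4 : 0 ≤ |g s| := abs_nonneg _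
  nlinarith

section
variable {v : Sph (d + 1) → Fin (d + 1) → ℝ}

/-- The matrix of the `Dᵢ`. -/
noncomputable def dmat (r : ℝ) (v : Sph (d + 1) → Fin (d + 1) → ℝ) :
    Matrix (Fin (d + 1)) (Fin (d + 1)) ℝ :=
  Matrix.of fun i j => ∫ s, xx r i s * (ell r s * v s j) ∂(sigma (d + 1))

/-- The matrix of the `Vᵢ`. -/
noncomputable def vmat (r : ℝ) (v : Sph (d + 1) → Fin (d + 1) → ℝ) :
    Matrix (Fin (d + 1)) (Fin (d + 1)) ℝ :=
  Matrix.of fun i j => ∫ s, yy r i s * (ell r s * v s j) ∂(sigma (d + 1))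

/-- The matrix of the `Bᵢ`. -/
noncomputable def bmat (r : ℝ) (v : Sph (d + 1) → Fin (d + 1) → ℝ) :
    Matrix (Fin (d + 1)) (Fin (d + 1)) ℝ :=
  Matrix.of fun i j => (∫ s, zz r i s * (ell r s * v s j) ∂(sigma (d + 1))) / tau r i

theorem int_f (hr0 : 0 ≤ r) (hr1 : r < 1) (hvm : ∀ j, Measurable fun s => v s j)
    (hv1 : ∀ s, ∑ j, v s j ^ 2 ≤ 1) {f : Sph (d + 1) → ℝ} (hf : Continuous f)
    (j : Fin (d + 1)) :
    Integrable (fun s => f s * (ell r s * v s j)) (sigma (d + 1)) := by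
  have h := integrable_cont_mul (hf.mul (continuous_ell hr0 hr1)) (hvm j)
    (fun s => abs_le_of_sum_sq (hv1 s) j)
  simpa [mul_assoc] using h

theorem vmat_eq (hd : 1 ≤ d) (hr0 : 0 ≤ r) (hr1 : r < 1) (hvm : ∀ j, Measurable fun s => v s j)
    (hv1 : ∀ s, ∑ j, v s j ^ 2 ≤ 1) (i : Fin (d + 1)) :
    vmat r v i = (1 - tau r i) • dmat r v i + tau r i • bmat r v i := by
  ext j
  simp only [vmat, dmat, bmat, Matrix.of_apply, Pi.add_apply, Pi.smul_apply, smul_eq_mul]
  have hz : ∫ s, zz r i s * (ell r s * v s j) ∂(sigma (d + 1)) =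
      ∫ s, yy r i s * (ell r s * v s j) ∂(sigma (d + 1)) -
      (1 - tau r i) * ∫ s, xx r i s * (ell r s * v s j) ∂(sigma (d + 1)) := by
    rw [← integral_const_mul, ← integral_sub (int_f hr0 hr1 hvm hv1 (continuous_yy hr0 hr1 i) j)
      ((int_f hr0 hr1 hvm hv1 (continuous_xx hr0 hr1 i) j).const_mul _)]
    congr 1
    ext s
    unfold zz tau
    ring
  rcases eq_or_ne (tau r i) 0 with h0 | h0
  · have h1 : (∫ s, zz r i s * (ell r s * v s j) ∂(sigma (d + 1))) ^ 2 ≤ 0 := by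
      have hzc := continuous_zz (d := d) hr0 hr1 i
      have hl := continuous_ell (d := d) hr0 hr1
      have i1 : Integrable (fun s => zz r i s ^ 2) (sigma (d + 1)) := integrable_of_cont (hzc.pow 2)
      have i2 : Integrable (fun s => (ell r s * v s j) ^ 2) (sigma (d + 1)) := by
        have := integrable_cont_mul (hl.pow 2) ((hvm j).pow_const 2) (C := 1) (fun s => by
          rw [abs_pow]
          exact pow_le_one₀ (abs_nonneg _) (abs_le_of_sum_sq (hv1 s) j))
        simpa [mul_pow] using this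
      refine (sq_integral_mul_le i1 i2 (int_f hr0 hr1 hvm hv1 hzc j)).trans ?_
      have h3 := gram_zz hd hr0 hr1 i i
      rw [if_pos rfl, h0, mul_zero] at h3
      have h4 : ∫ s, zz r i s ^ 2 ∂(sigma (d + 1)) = 0 := by
        rw [← h3]; congr 1; ext s; ring
      rw [h4, zero_mul]
    have h2 := pow_eq_zero_iff (n := 2) (by norm_num) |>.1 (le_antisymm h1 (sq_nonneg _))
    rw [h2] at hz
    rw [h0] at hz ⊢
    linarith
  · rw [mul_div_cancel₀ _ h0, hz]
    ring

theorem sum_le (hd : 1 ≤ d) (hr0 : 0 ≤ r) (hr1 : r < 1) (hvm : ∀ j, Measurable fun s => v s j)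
    (hv1 : ∀ s, ∑ j, v s j ^ 2 ≤ 1) :
    ∑ i, ((1 - tau r i) * ∑ j, dmat r v i j ^ 2 + tau r i * ∑ j, bmat r v i j ^ 2) ≤
      ((d + 1 : ℕ) : ℝ) := by
  have hx := continuous_xx (d := d) hr0 hr1
  have hzc := continuous_zz (d := d) hr0 hr1
  have hl := continuous_ell (d := d) hr0 hr1
  -- Bessel for every column
  have hb : ∀ j, ∑ i, ((1 - tau r i) * dmat r v i j ^ 2 + tau r i * bmat r v i j ^ 2) ≤
      (d + 1) * ∫ s, (ell r s * v s j) ^ 2 ∂(sigma (d + 1)) := by
    intro j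
    have i2 : Integrable (fun s => (ell r s * v s j) ^ 2) (sigma (d + 1)) := by
      have := integrable_cont_mul (hl.pow 2) ((hvm j).pow_const 2) (C := 1) (fun s => by
        rw [abs_pow]
        exact pow_le_one₀ (abs_nonneg _) (abs_le_of_sum_sq (hv1 s) j))
      simpa [mul_pow] using this
    have h := bessel (μ := sigma (d + 1)) (K := Fin (d + 1) ⊕ Fin (d + 1))
      (φ := Sum.elim (xx r) (zz r)) (v := fun s => ell r s * v s j)
      (N := Sum.elim (pp r) (fun i => (d + 1) * tau r i)) ?_ ?_ i2 ?_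
    · rw [Fintype.sum_sum_type] at h
      simp only [Sum.elim_inl, Sum.elim_inr] at h
      have h3 : (0 : ℝ) < d + 1 := by positivity
      have h4 := mul_le_mul_of_nonneg_left h h3.le
      refine le_trans (le_of_eq ?_) h4
      rw [mul_add, Finset.mul_sum, Finset.mul_sum, ← Finset.sum_add_distrib]
      refine Finset.sum_congr rfl fun i _ => ?_
      have hp := (pp_pos hr0 hr1 i).ne'
      congr 1
      · simp only [tau, dmat, Matrix.of_apply]
        field_simp
        ring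
      · simp only [bmat, Matrix.of_apply]
        rcases eq_or_ne (tau r i) 0 with h0 | h0
        · simp [h0]
        · field_simp
    · rintro (k | k) (l | l) <;> simp only [Sum.elim_inl, Sum.elim_inr]
      · exact integrable_of_cont ((hx k).mul (hx l))
      · exact integrable_of_cont ((hx k).mul (hzc l))
      · exact integrable_of_cont ((hzc k).mul (hx l))
      · exact integrable_of_cont ((hzc k).mul (hzc l))
    · rintro (k | k) <;> simp only [Sum.elim_inl, Sum.elim_inr]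
      · exact int_f hr0 hr1 hvm hv1 (hx k) j
      · exact int_f hr0 hr1 hvm hv1 (hzc k) j
    · rintro (k | k) (l | l) <;> simp only [Sum.elim_inl, Sum.elim_inr]
      · rw [gram_xx hr0 hr1]
        simp
      · rw [gram_xz hr0 hr1]
        simp
      · have : ∀ s : Sph (d + 1), zz r k s * xx r l s = xx r l s * zz r k s := fun s => mul_comm _ _
        simp only [this]
        rw [gram_xz hr0 hr1]
        simp
      · rw [gram_zz hd hr0 hr1]
        simp
  -- sum over the columns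
  have h5 : ∑ i, ((1 - tau r i) * ∑ j, dmat r v i j ^ 2 + tau r i * ∑ j, bmat r v i j ^ 2) =
      ∑ j, ∑ i, ((1 - tau r i) * dmat r v i j ^ 2 + tau r i * bmat r v i j ^ 2) := by
    rw [Finset.sum_comm]
    refine Finset.sum_congr rfl fun i _ => ?_
    rw [Finset.sum_add_distrib, Finset.mul_sum, Finset.mul_sum]
  rw [h5]
  refine (Finset.sum_le_sum fun j _ => hb j).trans ?_
  rw [← Finset.mul_sum]
  have i2 : ∀ j, Integrable (fun s => (ell r s * v s j) ^ 2) (sigma (d + 1)) := fun j => by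
    have := integrable_cont_mul (hl.pow 2) ((hvm j).pow_const 2) (C := 1) (fun s => by
      rw [abs_pow]
      exact pow_le_one₀ (abs_nonneg _) (abs_le_of_sum_sq (hv1 s) j))
    simpa [mul_pow] using this
  rw [← integral_finsetSum _ fun j _ => i2 j]
  have h6 : ∫ s, ∑ j, (ell r s * v s j) ^ 2 ∂(sigma (d + 1)) ≤ 1 := by
    refine (integral_mono (integrable_finsetSum _ fun j _ => i2 j)
      (integrable_of_cont (hl.pow 2)) fun s => ?_).trans_eq (int_ell_sq hd hr0 hr1 (d := d))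
    have h7 : ∑ j, (ell r s * v s j) ^ 2 = ell r s ^ 2 * ∑ j, v s j ^ 2 := by
      rw [Finset.mul_sum]
      exact Finset.sum_congr rfl fun j _ => by ring
    show ∑ j, (ell r s * v s j) ^ 2 ≤ ell r s ^ 2
    rw [h7]
    exact mul_le_of_le_one_right (sq_nonneg _) (hv1 s)
  push_cast
  have h3 : (0 : ℝ) < d + 1 := by positivity
  nlinarith

end

end Pool.Agent.H65G
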