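import Pool.Agent.H65G.AxisBound

set_option autoImplicit false

open Real Set MeasureTheory Metric Matrix
open scoped RealInnerProductSpace

namespace Pool.Agent.H65G

variable {d : ℕ} {r : ℝ} {v : Sph (d + 1) → Fin (d + 1) → ℝ}

theorem prod_kap : ∏ i : Fin (d + 1), kap r i = √(1 - r ^ 2) := by
  rw [Fin.prod_univ_succ]
  simp [kap, Fin.succ_ne_zero]

theorem mmat_eq (hr0 : 0 ≤ r) (hr1 : r < 1) : mmat r v = Matrix.diagonal (kap r) * dmat r v := by
  ext i j
  rw [Matrix.diagonal_mul]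
  simp only [mmat, dmat, Matrix.of_apply]
  have hk := kap_pos hr0 hr1 i
  have ha := alp_pos hr0 hr1 i
  rw [← integral_const_mul, ← integral_const_mul]
  congr 1
  ext s
  have hl := ell_pos hr0 hr1 s
  unfold xx
  field_simp

theorem umat_eq (hr0 : 0 ≤ r) (hr1 : r < 1) (i j : Fin (d + 1)) :
    ∫ s, bb r s i * v s j ∂(sigma (d + 1)) =
      ((d + 1) * √(1 - r ^ 2))⁻¹ * (kap r i * vmat r v i j) := by
  have hk := kap_pos hr0 hr1 i
  have hc := c_pos hr0 hr1
  simp only [vmat, Matrix.of_apply]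
  rw [← integral_const_mul, ← integral_const_mul]
  congr 1
  ext s
  have hq := qq_pos hr0 hr1 s
  have hl := ell_pos hr0 hr1 s
  have hl2 := ell_sq hr0 hr1 s
  have h3 : yy r i s * (ell r s * v s j) =
      (d + 1) * ell r s ^ 2 * (kap r i * (s : E (d + 1)) i / qq r s) * v s j := by
    unfold yy
    ring
  rw [h3, hl2]
  unfold bb
  rw [show d + 2 = (d + 1) + 1 by ring, pow_succ _ (d + 1)]
  field_simp

theorem sum_kap_sq (hr0 : 0 ≤ r) (hr1 : r < 1) (s : Sph (d + 1)) :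
    ∑ i, kap r i ^ 2 * (s : E (d + 1)) i ^ 2 = qq r s ^ 2 := by
  have h := sum_sq_coord s
  rw [Fin.sum_univ_succ] at h ⊢
  rw [qq_sq hr0 hr1]
  have h1 : √(1 - r ^ 2) ^ 2 = 1 - r ^ 2 := Real.sq_sqrt (by nlinarith)
  simp only [kap, if_true, Fin.succ_ne_zero, if_false, h1, one_pow, one_mul]
  linarith

theorem dh_dot_bb (hr0 : 0 ≤ r) (hr1 : r < 1) (s : Sph (d + 1)) :
    dh r s ⬝ᵥ bb r s = (qq r s ^ (d + 1))⁻¹ := by
  have hq := qq_pos hr0 hr1 s
  have h1 : dh r s ⬝ᵥ bb r s = (∑ i, kap r i ^ 2 * (s : E (d + 1)) i ^ 2) / qq r s ^ (d + 3) := by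
    unfold dh bb dotProduct
    rw [Finset.sum_div]
    refine Finset.sum_congr rfl fun i _ => ?_
    rw [show d + 3 = (d + 2) + 1 by ring, pow_succ _ (d + 2)]
    field_simp
  rw [h1, sum_kap_sq hr0 hr1, show d + 3 = (d + 1) + 2 by ring, pow_add _ (d + 1) 2]
  field_simp

theorem continuous_bb (hr0 : 0 ≤ r) (hr1 : r < 1) (i : Fin (d + 1)) :
    Continuous fun s : Sph (d + 1) => bb r s i := by
  unfold bb
  exact ((continuous_const.mul (continuous_coord i)).div (continuous_pow_qq _)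
    fun s => (pow_pos (qq_pos hr0 hr1 s) _).ne')

theorem int_dh_bb (hd : 1 ≤ d) (hr0 : 0 ≤ r) (hr1 : r < 1) :
    ∫ s : Sph (d + 1), dh r s ⬝ᵥ bb r s ∂(sigma (d + 1)) = (√(1 - r ^ 2))⁻¹ := by
  simp only [dh_dot_bb hr0 hr1]
  exact visual_mass hd hr0 hr1

/-- The integrated form in matrix terms. -/
theorem int_form (hd : 1 ≤ d) (hr0 : 0 ≤ r) (hr1 : r < 1) (hvm : ∀ j, Measurable fun s => v s j)
    (hv1 : ∀ s, ∑ j, v s j ^ 2 ≤ 1) :
    ∫ s, ((d + 1 : ℝ) • v s - (d : ℝ) • (dh r s ᵥ* mmat r v)) ⬝ᵥ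
      ((mmat r v).adjugate *ᵥ bb r s) ∂(sigma (d + 1)) =
    ∑ i, ((dmat r v).updateRow i (vmat r v i)).det - d * (dmat r v).det := by
  have hc := c_pos hr0 hr1
  set M := mmat r v with hM
  have hb := continuous_bb (d := d) hr0 hr1
  have h1 : ∀ s, ((d + 1 : ℝ) • v s - (d : ℝ) • (dh r s ᵥ* M)) ⬝ᵥ (M.adjugate *ᵥ bb r s) =
      (d + 1) * ∑ j, ∑ k, M.adjugate j k * (bb r s k * v s j) -
      d * M.det * (dh r s ⬝ᵥ bb r s) := by
    intro s
    rw [sub_dotProduct, smul_dotProduct, smul_dotProduct, ← dotProduct_mulVec, mulVec_mulVec,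
      Matrix.mul_adjugate, Matrix.smul_mulVec, Matrix.one_mulVec, dotProduct_smul]
    simp only [smul_eq_mul]
    congr 1
    · congr 1
      simp only [dotProduct, Matrix.mulVec, Finset.mul_sum]
      refine Finset.sum_congr rfl fun j _ => Finset.sum_congr rfl fun k _ => by ring
    · ring
  have ibv : ∀ j k, Integrable (fun s => M.adjugate j k * (bb r s k * v s j))
      (sigma (d + 1)) := fun j k =>
    (integrable_cont_mul (hb k) (hvm j) (fun s => abs_le_of_sum_sq (hv1 s) j)).const_mul _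
  have i1 : Integrable (fun s => (d + 1 : ℝ) * ∑ j, ∑ k, M.adjugate j k * (bb r s k * v s j))
      (sigma (d + 1)) :=
    (integrable_finsetSum _ fun j _ => integrable_finsetSum _ fun k _ => ibv j k).const_mul _
  have i2 : Integrable (fun s => (d : ℝ) * M.det * (dh r s ⬝ᵥ bb r s)) (sigma (d + 1)) := by
    simp only [dh_dot_bb hr0 hr1]
    exact (integrable_of_cont (continuous_inv_pow_qq hr0 hr1 _)).const_mul _
  simp only [h1]
  rw [integral_sub i1 i2, integral_const_mul, integral_const_mul, int_dh_bb hd hr0 hr1,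
    integral_finsetSum _ (fun j _ => integrable_finsetSum _ fun k _ => ibv j k)]
  simp only [integral_finsetSum _ (fun k _ => ibv _ k), integral_const_mul, umat_eq hr0 hr1]
  have h2 : ∑ j, ∑ k, M.adjugate j k * (((d + 1) * √(1 - r ^ 2))⁻¹ * (kap r k * vmat r v k j)) =
      ((d + 1) * √(1 - r ^ 2))⁻¹ * (M.adjugate * (Matrix.diagonal (kap r) * vmat r v)).trace := by
    unfold Matrix.trace
    rw [Finset.mul_sum]
    refine Finset.sum_congr rfl fun j _ => ?_
    rw [Matrix.diag_apply, Matrix.mul_apply, Finset.mul_sum]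
    refine Finset.sum_congr rfl fun k _ => ?_
    rw [Matrix.diagonal_mul]
    ring
  have h3 : M.adjugate * (Matrix.diagonal (kap r) * vmat r v) =
      √(1 - r ^ 2) • ((dmat r v).adjugate * vmat r v) := by
    rw [hM, mmat_eq hr0 hr1, Matrix.adjugate_mul_distrib, Matrix.mul_assoc,
      ← Matrix.mul_assoc (Matrix.diagonal (kap r)).adjugate, Matrix.adjugate_mul,
      Matrix.det_diagonal, prod_kap]
    simp
  have h4 : M.det = √(1 - r ^ 2) * (dmat r v).det := by
    rw [hM, mmat_eq hr0 hr1, Matrix.det_mul, Matrix.det_diagonal, prod_kap]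
  rw [h2, h3, h4, Matrix.trace_smul, ← sum_det_updateRow]
  simp only [smul_eq_mul]
  field_simp

/-- The pointwise bound at the points of the axis. -/
theorem axis_bound (hd : 1 ≤ d) (hr0 : 0 ≤ r) (hr1 : r < 1) (hcrit : Crit d r)
    (hvm : ∀ j, Measurable fun s => v s j) (hv1 : ∀ s, ∑ j, v s j ^ 2 ≤ 1) :
    |∫ s, ((d + 1 : ℝ) • v s - (d : ℝ) • (dh r s ᵥ* mmat r v)) ⬝ᵥ
      ((mmat r v).adjugate *ᵥ bb r s) ∂(sigma (d + 1))| ≤ 1 := by
  rw [int_form hd hr0 hr1 hvm hv1]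
  have h := calib_le_one (n := d + 1) (tau r) (dmat r v) (bmat r v) (tau_nonneg hd hr0 hr1)
    (tau_le_one hr0 hr1) (sum_tau_le hd hr0 hr1 hcrit) (sum_le hd hr0 hr1 hvm hv1)
  simp only [← vmat_eq hd hr0 hr1 hvm hv1] at h
  simpa using h

end Pool.Agent.H65G
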