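import Pool.Agent.H65G.CubeInt

set_option autoImplicit false

open Real Set MeasureTheory Metric Filter Topology Matrix
open scoped RealInnerProductSpace

namespace Pool.Agent.H65G

variable {d : ℕ} {k k₁ : ℝ}

/-- The comparison map of the ball. -/
noncomputable def fball (k k₁ c : ℝ) (s : Sph (d + 1)) (y : E (d + 1)) : E (d + 1) :=
  ((d + 1 : ℝ) * arcsin (k₁ * ⟪y, (s : E (d + 1))⟫)) • (s : E (d + 1)) + psi c s (k • y)

theorem gam_gamma {X : Type} [MetricSpace X] (hk0 : 0 < k) (hkk : k ≤ k₁) (hk1 : k₁ ≤ 1)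
    {γ : Sph (d + 1) → X}
    (hγ : ∀ s t : Sph (d + 1), chord k₁ (s : E (d + 1)) (t : E (d + 1)) ≤ dist (γ s) (γ t))
    (s t : Sph (d + 1)) :
    gam k k₁ γ s (γ t) = fball k k₁ (d / eta d k k₁) s (t : E (d + 1)) := by
  rw [gam, fball, gext_gamma (hk0.le.trans hkk) hk1 hγ, wfun_gamma hk0 hkk hk1 hγ]

theorem abs_arcsin_sub_le (hk0 : 0 ≤ k₁) (hk1 : k₁ < 1) {a b : ℝ} (ha : |a| ≤ 1) (hb : |b| ≤ 1) :
    |arcsin (k₁ * a) - arcsin (k₁ * b)| ≤ (√(1 - k₁ ^ 2))⁻¹ * |a - b| := by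
  have hpos : 0 < 1 - k₁ ^ 2 := by nlinarith
  have hq : 0 < √(1 - k₁ ^ 2) := Real.sqrt_pos.2 hpos
  have hmem : ∀ x : ℝ, |x| ≤ 1 → k₁ * x ∈ Icc (-k₁) k₁ := by
    intro x hx
    have h := abs_le.1 hx
    constructor <;> nlinarith [h.1, h.2]
  have hbd : ∀ x ∈ Icc (-k₁) k₁, 1 - k₁ ^ 2 ≤ 1 - x ^ 2 := by
    intro x hx
    nlinarith [hx.1, hx.2]
  have h1 := (convex_Icc (-k₁) k₁).norm_image_sub_le_of_norm_hasDerivWithin_le (f := arcsin)
    (f' := fun x => 1 / √(1 - x ^ 2)) (C := (√(1 - k₁ ^ 2))⁻¹)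
    (fun x hx => (hasDerivAt_arcsin (by linarith [hx.1]) (by linarith [hx.2])).hasDerivWithinAt)
    (fun x hx => by
      rw [Real.norm_eq_abs, abs_of_nonneg (by positivity), one_div]
      have := hbd x hx
      gcongr) (hmem b hb) (hmem a ha)
  rw [Real.norm_eq_abs, Real.norm_eq_abs, ← mul_sub, abs_mul, abs_of_nonneg hk0] at h1
  refine h1.trans ?_
  have h2 : k₁ * |a - b| ≤ |a - b| := by
    nlinarith [abs_nonneg (a - b)]
  gcongr

theorem exists_lip_fball (hk0 : 0 < k) (hk : k < 1) (hk10 : 0 ≤ k₁) (hk1 : k₁ < 1) (c : ℝ)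
    (s : Sph (d + 1)) : ∃ K, LipschitzOnWith K (fball k k₁ c s) (closedBall 0 1) := by
  obtain ⟨K, hK0, hK⟩ := exists_lip_psi d c hk
  have hs : ‖(s : E (d + 1))‖ = 1 := by simp
  refine ⟨Real.toNNReal ((d + 1) * (√(1 - k₁ ^ 2))⁻¹ + K * k), ?_⟩
  refine LipschitzOnWith.of_dist_le_mul fun x hx y hy => ?_
  rw [mem_closedBall_zero_iff] at hx hy
  rw [Real.coe_toNNReal _ (by positivity), dist_eq_norm, dist_eq_norm]
  have hin : ∀ z : E (d + 1), ‖z‖ ≤ 1 → |⟪z, (s : E (d + 1))⟫| ≤ 1 := by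
    intro z hz
    have := norm_inner_le_norm (𝕜 := ℝ) z (s : E (d + 1))
    rw [hs, mul_one, Real.norm_eq_abs] at this
    exact this.trans hz
  have h1 := abs_arcsin_sub_le hk10 hk1 (hin x hx) (hin y hy)
  have h2 : |⟪x, (s : E (d + 1))⟫ - ⟪y, (s : E (d + 1))⟫| ≤ ‖x - y‖ := by
    rw [← inner_sub_left]
    have := norm_inner_le_norm (𝕜 := ℝ) (x - y) (s : E (d + 1))
    rwa [hs, mul_one, Real.norm_eq_abs] at this
  have h3 : ‖psi c s (k • x) - psi c s (k • y)‖ ≤ K * (k * ‖x - y‖) := by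
    have hkn : ∀ z : E (d + 1), ‖z‖ ≤ 1 → ‖k • z‖ ≤ k := by
      intro z hz
      rw [norm_smul, Real.norm_eq_abs, abs_of_pos hk0]
      nlinarith
    have := hK s (k • x) (k • y) (hkn x hx) (hkn y hy)
    rwa [← smul_sub, norm_smul, Real.norm_eq_abs, abs_of_pos hk0] at this
  have h4 : fball k k₁ c s x - fball k k₁ c s y =
      ((d + 1 : ℝ) * (arcsin (k₁ * ⟪x, (s : E (d + 1))⟫) -
        arcsin (k₁ * ⟪y, (s : E (d + 1))⟫))) • (s : E (d + 1)) +
      (psi c s (k • x) - psi c s (k • y)) := by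
    unfold fball
    rw [mul_sub, sub_smul]
    abel
  rw [h4]
  refine (norm_add_le _ _).trans ?_
  rw [norm_smul, hs, mul_one, norm_mul, Real.norm_eq_abs, Real.norm_eq_abs,
    abs_of_nonneg (by positivity : (0 : ℝ) ≤ d + 1)]
  calc _ ≤ (d + 1 : ℝ) * ((√(1 - k₁ ^ 2))⁻¹ * ‖x - y‖) + K * (k * ‖x - y‖) := by
        refine add_le_add ?_ h3
        refine mul_le_mul_of_nonneg_left (h1.trans ?_) (by positivity)
        gcongr
    _ = _ := by ring

/-- The determinant of a rank one perturbation of a scalar. -/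
theorem det_rank_one {c : ℝ} (hc : c ≠ 0) (v s : E (d + 1)) :
    (c • ContinuousLinearMap.id ℝ (E (d + 1)) + (innerSL ℝ s).smulRight v).det =
      c ^ d * (c + ⟪s, v⟫) := by
  rw [det_eq_matrix]
  have h1 : (Matrix.of fun i j => ((c • ContinuousLinearMap.id ℝ (E (d + 1)) +
      (innerSL ℝ s).smulRight v) (ej j)) i) =
      c • (1 + replicateCol Unit (fun i => c⁻¹ * v i) * replicateRow Unit (fun j => s j)) := by
    ext i j
    have hj : ⟪s, ej j⟫ = s j := by simp [EuclideanSpace.inner_single_right]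
    simp only [Matrix.of_apply, Matrix.smul_apply, Matrix.add_apply, Matrix.mul_apply,
      _root_.add_apply, _root_.smul_apply, ContinuousLinearMap.smulRight_apply,
      innerSL_apply_apply, hj, PiLp.add_apply, PiLp.smul_apply, smul_eq_mul,
      ContinuousLinearMap.id_apply, replicateCol_apply, replicateRow_apply, Finset.sum_const,
      Finset.card_univ, Fintype.card_unit, one_smul, PiLp.single_apply, Matrix.one_apply]
    field_simp
  rw [h1, Matrix.det_smul, Fintype.card_fin, Matrix.det_one_add_replicateCol_mul_replicateRow,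
    pow_succ, mul_assoc, inner_eq_dot]
  congr 1
  simp only [dotProduct, mul_add, mul_one, Finset.mul_sum]
  congr 1
  refine Finset.sum_congr rfl fun i _ => ?_
  field_simp

theorem hasFDerivAt_fball (hk0 : 0 < k) (hk : k < 1) (hk10 : 0 ≤ k₁) (hk1 : k₁ ≤ 1) (c : ℝ)
    (s : Sph (d + 1)) {y : E (d + 1)} (hy : ‖y‖ < 1) :
    HasFDerivAt (fball k k₁ c s)
      ((((d + 1 : ℝ) * (k₁ * (√(1 - (k₁ * ⟪y, (s : E (d + 1))⟫) ^ 2))⁻¹)) •
        innerSL ℝ (s : E (d + 1))).smulRight (s : E (d + 1)) + k • dpsi c s (k • y)) y := by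
  have hs : ‖(s : E (d + 1))‖ = 1 := by simp
  have hk1y : ‖k₁ • y‖ < 1 := by
    rw [norm_smul, Real.norm_eq_abs, abs_of_nonneg hk10]
    nlinarith [norm_nonneg y]
  have hky : ‖k • y‖ < 1 := by
    rw [norm_smul, Real.norm_eq_abs, abs_of_pos hk0]
    nlinarith [norm_nonneg y]
  have hsc : ∀ a : ℝ, HasFDerivAt (fun y : E (d + 1) => a • y)
      (a • ContinuousLinearMap.id ℝ (E (d + 1))) y := fun a => (hasFDerivAt_id y).const_smul a
  have h1 : HasFDerivAt (fun y : E (d + 1) => arcsin ⟪k₁ • y, (s : E (d + 1))⟫) _ y :=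
    HasFDerivAt.comp (g := fun w : E (d + 1) => arcsin ⟪w, (s : E (d + 1))⟫)
      (f := fun y : E (d + 1) => k₁ • y) y (hasFDerivAt_arcsin_inner hk1y s) (hsc k₁)
  have h2 := (h1.const_mul (d + 1 : ℝ)).smul_const (s : E (d + 1))
  have h3 : HasFDerivAt (fun y : E (d + 1) => psi c s (k • y)) _ y :=
    HasFDerivAt.comp (g := psi c s) (f := fun y : E (d + 1) => k • y) y
      (hasFDerivAt_psi c hky s) (hsc k)
  have h4 := h2.add h3
  have h5 : fball k k₁ c s = (fun y : E (d + 1) => ((d + 1 : ℝ) *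
      arcsin ⟪k₁ • y, (s : E (d + 1))⟫) • (s : E (d + 1))) +
      (fun y : E (d + 1) => psi c s (k • y)) := by
    ext1 y
    simp only [fball, Pi.add_apply, real_inner_smul_left]
  rw [h5]
  refine h4.congr_fderiv ?_
  ext ξ i
  simp [real_inner_smul_left]
  left
  ring

/-- The determinant of the comparison map. -/
theorem det_fball (hk0 : 0 < k) (hk : k < 1) (hk10 : 0 ≤ k₁) (hk1 : k₁ ≤ 1) (c : ℝ)
    (s : Sph (d + 1)) {y : E (d + 1)} (hy : ‖y‖ < 1) :
    (fderiv ℝ (fball k k₁ c s) y).det =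
      (k * (√(1 - (k * ⟪y, (s : E (d + 1))⟫) ^ 2))⁻¹) ^ d *
        ((d + 1) * (k₁ * (√(1 - (k₁ * ⟪y, (s : E (d + 1))⟫) ^ 2))⁻¹) -
          c * (k * (√(1 - (k * ⟪y, (s : E (d + 1))⟫) ^ 2))⁻¹)) := by
  have hs : ‖(s : E (d + 1))‖ = 1 := by simp
  have hky : ‖k • y‖ < 1 := by
    rw [norm_smul, Real.norm_eq_abs, abs_of_pos hk0]
    nlinarith [norm_nonneg y]
  have hpos := one_sub_inner_pos hky s
  rw [real_inner_smul_left] at hpos
  have hq : 0 < √(1 - (k * ⟪y, (s : E (d + 1))⟫) ^ 2) := Real.sqrt_pos.2 hpos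
  rw [(hasFDerivAt_fball hk0 hk hk10 hk1 c s hy).fderiv]
  set a := ⟪y, (s : E (d + 1))⟫ with ha
  set b := (d + 1 : ℝ) * (k₁ * (√(1 - (k₁ * a) ^ 2))⁻¹) with hb
  set Q := √(1 - (k * a) ^ 2) with hQ
  have h1 : ((b • innerSL ℝ (s : E (d + 1))).smulRight (s : E (d + 1)) + k • dpsi c s (k • y)) =
      (k * Q⁻¹) • ContinuousLinearMap.id ℝ (E (d + 1)) +
        (innerSL ℝ (s : E (d + 1))).smulRight ((b - c * (k * Q⁻¹) - k * Q⁻¹) • (s : E (d + 1)) +
          (k * (k * a * (Q ^ 3)⁻¹)) • (k • y - (k * a) • (s : E (d + 1)))) := by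
    ext ξ i
    simp only [dpsi, dv, real_inner_smul_left, ← ha, ← hQ]
    simp
    ring
  rw [h1, det_rank_one (by positivity)]
  congr 1
  have h2 : ⟪(s : E (d + 1)), y⟫ = a := by rw [ha, real_inner_comm]
  simp only [inner_add_right, inner_sub_right, real_inner_smul_right, real_inner_self_eq_norm_sq,
    hs, h2]
  ring

end Pool.Agent.H65G
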