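import Mathlib

set_option autoImplicit false

open MeasureTheory Finset

namespace Pool.Agent.H65G

variable {Ω : Type} [MeasurableSpace Ω] {μ : Measure Ω} {K : Type} [Fintype K]

/-- Cauchy-Schwarz. -/
theorem sq_integral_mul_le {f g : Ω → ℝ} (hff : Integrable (fun x => f x ^ 2) μ)
    (hgg : Integrable (fun x => g x ^ 2) μ) (hfg : Integrable (fun x => f x * g x) μ) :
    (∫ x, f x * g x ∂μ) ^ 2 ≤ (∫ x, f x ^ 2 ∂μ) * ∫ x, g x ^ 2 ∂μ := by
  have h : ∀ t : ℝ, 0 ≤ (∫ x, f x ^ 2 ∂μ) * (t * t) + (2 * ∫ x, f x * g x ∂μ) * t +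
      ∫ x, g x ^ 2 ∂μ := by
    intro t
    have h1 : 0 ≤ ∫ x, (t * f x + g x) ^ 2 ∂μ := integral_nonneg fun x => sq_nonneg _
    have h2 : ∫ x, (t * f x + g x) ^ 2 ∂μ = ∫ x, ((t * t) * f x ^ 2 + (2 * t) * (f x * g x) +
        g x ^ 2) ∂μ := by
      congr 1; ext x; ring
    have i1 : Integrable (fun x => (t * t) * f x ^ 2 + (2 * t) * (f x * g x)) μ :=
      (hff.const_mul _).add (hfg.const_mul _)
    rw [h2, integral_add i1 hgg,
      integral_add (hff.const_mul _) (hfg.const_mul _), integral_const_mul,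
      integral_const_mul] at h1
    linarith
  have := discrim_le_zero h
  unfold discrim at this
  nlinarith

/-- Bessel's inequality for a finite orthogonal family. -/
theorem bessel [DecidableEq K] {φ : K → Ω → ℝ} {v : Ω → ℝ} {N : K → ℝ}
    (hφφ : ∀ k l, Integrable (fun x => φ k x * φ l x) μ)
    (hφv : ∀ k, Integrable (fun x => φ k x * v x) μ) (hvv : Integrable (fun x => v x ^ 2) μ)
    (horth : ∀ k l, ∫ x, φ k x * φ l x ∂μ = if k = l then N k else 0) :
    ∑ k, (∫ x, φ k x * v x ∂μ) ^ 2 / N k ≤ ∫ x, v x ^ 2 ∂μ := by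
  set c : K → ℝ := fun k => (∫ x, φ k x * v x ∂μ) / N k with hc
  have h1 : 0 ≤ ∫ x, (v x - ∑ k, c k * φ k x) ^ 2 ∂μ := integral_nonneg fun x => sq_nonneg _
  have h2 : ∀ x, (v x - ∑ k, c k * φ k x) ^ 2 = v x ^ 2 - ∑ k, (2 * c k) * (φ k x * v x) +
      ∑ k, ∑ l, (c k * c l) * (φ k x * φ l x) := by
    intro x
    have h3 : (∑ k, c k * φ k x) ^ 2 = ∑ k, ∑ l, (c k * c l) * (φ k x * φ l x) := by
      rw [sq, Finset.sum_mul_sum]
      refine Finset.sum_congr rfl fun k _ => Finset.sum_congr rfl fun l _ => by ring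
    have h4 : ∑ k, (2 * c k) * (φ k x * v x) = 2 * v x * ∑ k, c k * φ k x := by
      rw [Finset.mul_sum]
      refine Finset.sum_congr rfl fun k _ => by ring
    rw [← h3, h4]
    ring
  have i1 : Integrable (fun x => ∑ k, (2 * c k) * (φ k x * v x)) μ :=
    integrable_finsetSum _ fun k _ => (hφv k).const_mul _
  have i2 : Integrable (fun x => ∑ k, ∑ l, (c k * c l) * (φ k x * φ l x)) μ :=
    integrable_finsetSum _ fun k _ => integrable_finsetSum _ fun l _ => (hφφ k l).const_mul _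
  simp only [h2] at h1
  have i3 : Integrable (fun x => v x ^ 2 - ∑ k, (2 * c k) * (φ k x * v x)) μ := hvv.sub i1
  rw [integral_add i3 i2, integral_sub hvv i1,
    integral_finsetSum _ (fun k _ => (hφv k).const_mul _),
    integral_finsetSum _ (fun k _ => integrable_finsetSum _ fun l _ =>
      (hφφ k l).const_mul _)] at h1
  have h5 : ∀ k, ∫ x, ∑ l, (c k * c l) * (φ k x * φ l x) ∂μ = c k ^ 2 * N k := by
    intro k
    rw [integral_finsetSum _ (fun l _ => (hφφ k l).const_mul _)]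
    simp only [integral_const_mul, horth]
    simp only [mul_ite, mul_zero, Finset.sum_ite_eq, Finset.mem_univ, if_true]
    ring
  simp only [h5, integral_const_mul] at h1
  have h6 : ∀ k, (∫ x, φ k x * v x ∂μ) ^ 2 / N k =
      2 * c k * (∫ x, φ k x * v x ∂μ) - c k ^ 2 * N k := by
    intro k
    rcases eq_or_ne (N k) 0 with h0 | h0
    · simp [hc, h0]
    · simp only [hc]
      field_simp
      ring
  simp only [h6, Finset.sum_sub_distrib]
  linarith

end Pool.Agent.H65G
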