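import Mathlib

set_option autoImplicit false

open Real MeasureTheory

namespace Pool.Agent.H65G

/-- The area of the unit sphere of `ℝ^n`, which is `n` times the volume of the unit ball. -/
noncomputable def sphereArea (n : ℕ) : ℝ :=
  n * (volume : Measure (EuclideanSpace ℝ (Fin n))).real (Metric.ball 0 1)

/-- The volume of the cap (geodesic ball) of radius `R` of the round unit sphere of dimension `n`. -/
noncomputable def capVolume (n : ℕ) (R : ℝ) : ℝ :=
  sphereArea n * ∫ θ in (0 : ℝ)..R, sin θ ^ (n - 1)

/-- The volume of the round hemisphere of dimension `n`. -/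
noncomputable def hemisphereVolume (n : ℕ) : ℝ :=
  sphereArea n * ∫ θ in (0 : ℝ)..(π / 2), sin θ ^ (n - 1)

/-- The volume of the round collar `{R ≤ θ ≤ π/2}` of the hemisphere of dimension `n`, where `θ` is
the distance from the pole. -/
noncomputable def collarVolume (n : ℕ) (R : ℝ) : ℝ :=
  sphereArea n * ∫ θ in R..(π / 2), sin θ ^ (n - 1)

end Pool.Agent.H65G
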