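import Pool.Agent.H65G.Core
import Pool.Agent.H65G.CapDefs

set_option autoImplicit false

open Real Set MeasureTheory Metric Filter Topology Matrix
open scoped RealInnerProductSpace

namespace Pool.Agent.H65G

variable {d : ℕ} {k k₁ : ℝ} {X : Type} [MetricSpace X]

theorem polar_ball (d : ℕ) (g : ℝ → ℝ) :
    ∫ y in closedBall (0 : E (d + 1)) 1, g ‖y‖ =
      (d + 1 : ℕ) * (volume : Measure (E (d + 1))).real (ball 0 1) *
        ∫ r in (0 : ℝ)..1, r ^ d * g r := by
  have h1 : ∫ y in closedBall (0 : E (d + 1)) 1, g ‖y‖ =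
      ∫ y : E (d + 1), (Iic (1 : ℝ)).indicator g ‖y‖ := by
    rw [← integral_indicator measurableSet_closedBall]
    congr 1
    ext1 y
    by_cases hy : ‖y‖ ≤ 1
    · rw [indicator_of_mem (mem_closedBall_zero_iff.2 hy), indicator_of_mem (mem_Iic.2 hy)]
    · have hy' : ‖y‖ ∉ Iic (1 : ℝ) := fun h => hy (mem_Iic.1 h)
      rw [indicator_of_notMem (fun h => hy (mem_closedBall_zero_iff.1 h)),
        indicator_of_notMem hy']
  rw [h1, integral_fun_norm_addHaar (volume : Measure (E (d + 1))), finrank_euclideanSpace_fin,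
    Nat.add_sub_cancel]
  have h2 : ∫ y in Ioi (0 : ℝ), y ^ d • (Iic (1 : ℝ)).indicator g y =
      ∫ r in (0 : ℝ)..1, r ^ d * g r := by
    rw [intervalIntegral.integral_of_le zero_le_one]
    have h3 : (fun y : ℝ => y ^ d • (Iic (1 : ℝ)).indicator g y) =
        (Iic (1 : ℝ)).indicator (fun y => y ^ d * g y) := by
      ext1 y
      by_cases hy : y ≤ 1
      · rw [indicator_of_mem (mem_Iic.2 hy), indicator_of_mem (mem_Iic.2 hy), smul_eq_mul]
      · have hy' : y ∉ Iic (1 : ℝ) := fun h => hy (mem_Iic.1 h)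
        rw [indicator_of_notMem hy', indicator_of_notMem hy', smul_zero]
    rw [h3, setIntegral_indicator measurableSet_Iic, Ioi_inter_Iic]
  rw [h2]
  simp only [nsmul_eq_mul, smul_eq_mul]
  ring

theorem int_cap (d : ℕ) {R : ℝ} (hR0 : 0 < R) (hR1 : R < π / 2) :
    ∫ y in closedBall (0 : E (d + 1)) 1, sin R ^ (d + 1) * (√(1 - (sin R * ‖y‖) ^ 2))⁻¹ =
      capVolume (d + 1) R := by
  have hk0 : 0 < sin R := sin_pos_of_pos_of_lt_pi hR0 (by linarith)
  have hk1 : sin R < 1 := by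
    have := sin_lt_sin_of_lt_of_le_pi_div_two (x := R) (y := π / 2) (by linarith) le_rfl hR1
    rwa [sin_pi_div_two] at this
  rw [polar_ball d (fun r => sin R ^ (d + 1) * (√(1 - (sin R * r) ^ 2))⁻¹), capVolume,
    sphereArea, Nat.add_sub_cancel]
  congr 1
  set g : ℝ → ℝ := fun u => u ^ d * (√(1 - u ^ 2))⁻¹ with hg
  have h1 : ∫ r in (0 : ℝ)..1, r ^ d * (sin R ^ (d + 1) * (√(1 - (sin R * r) ^ 2))⁻¹) =
      sin R * ∫ r in (0 : ℝ)..1, g (sin R * r) := by
    rw [← intervalIntegral.integral_const_mul]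
    congr 1
    ext1 r
    simp only [hg]
    ring
  rw [h1, intervalIntegral.mul_integral_comp_mul_left, mul_zero, mul_one]
  have hcos : ∀ θ ∈ uIcc 0 R, 0 < cos θ := by
    intro θ hθ
    rw [uIcc_of_le hR0.le] at hθ
    exact cos_pos_of_mem_Ioo ⟨by linarith [hθ.1, Real.pi_pos], by linarith [hθ.2]⟩
  have h2 := intervalIntegral.integral_comp_mul_deriv' (a := 0) (b := R) (f := sin) (f' := cos)
    (g := g) (fun x _ => hasDerivAt_sin x) continuous_cos.continuousOn (by
      rintro u ⟨θ, hθ, rfl⟩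
      have h3 : 0 < 1 - sin θ ^ 2 := by
        have := hcos θ hθ
        have h4 := sin_sq_add_cos_sq θ
        nlinarith
      have h5 : ContinuousAt (fun u : ℝ => u ^ d * (√(1 - u ^ 2))⁻¹) (sin θ) :=
        (by fun_prop : ContinuousAt (fun u : ℝ => u ^ d) (sin θ)).mul
          ((by fun_prop : ContinuousAt (fun u : ℝ => √(1 - u ^ 2)) (sin θ)).inv₀
            (Real.sqrt_pos.2 h3).ne')
      exact h5.continuousWithinAt)
  rw [sin_zero] at h2
  rw [← h2]
  refine intervalIntegral.integral_congr fun θ hθ => ?_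
  have hc := hcos θ hθ
  simp only [Function.comp_apply, hg]
  have h6 : √(1 - sin θ ^ 2) = cos θ := by
    rw [← cos_sq', Real.sqrt_sq hc.le]
  rw [h6]
  field_simp

/-- The chord bound from a round collar. -/
theorem chord_le_of_collar {R : ℝ} (hR0 : 0 < R) (hR1 : R < π / 2)
    {γ₀ γ : Sph (d + 1) → X} (hns : ∀ a b : Sph (d + 1), (b : E (d + 1)) = -(a : E (d + 1)) →
      π ≤ dist (γ₀ a) (γ₀ b))
    (hcol : ∀ a s : Sph (d + 1), 0 ≤ ⟪(a : E (d + 1)), (s : E (d + 1))⟫ →
      dist (γ₀ a) (γ s) ≤ arccos (sin R * ⟪(a : E (d + 1)), (s : E (d + 1))⟫))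
    (s t : Sph (d + 1)) : chord (sin R) (s : E (d + 1)) (t : E (d + 1)) ≤ dist (γ s) (γ t) := by
  have hk0 : 0 < sin R := sin_pos_of_pos_of_lt_pi hR0 (by linarith)
  have hk1 : sin R ≤ 1 := sin_le_one R
  have hs : ‖(s : E (d + 1))‖ = 1 := by simp
  have ht : ‖(t : E (d + 1))‖ = 1 := by simp
  rcases eq_or_ne s t with h | h
  · subst h
    unfold chord
    rw [real_inner_self_eq_norm_sq, hs]
    simp
  · have hne : (s : E (d + 1)) - t ≠ 0 := sub_ne_zero.2 fun h' => h (Subtype.ext h')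
    set l := ‖(s : E (d + 1)) - t‖ with hl
    have hl0 : 0 < l := norm_pos_iff.2 hne
    have hl2 : l ^ 2 = 2 * (1 - ⟪(s : E (d + 1)), (t : E (d + 1))⟫) := by
      rw [hl, norm_sub_sq_real, hs, ht]
      ring
    have hl1 : l ≤ 2 := by
      calc l ≤ ‖(s : E (d + 1))‖ + ‖(t : E (d + 1))‖ := norm_sub_le _ _
        _ = 2 := by rw [hs, ht]; norm_num
    set a : Sph (d + 1) := ⟨l⁻¹ • ((s : E (d + 1)) - t), by
      rw [mem_sphere_zero_iff_norm, norm_smul, norm_inv, Real.norm_eq_abs, abs_of_pos hl0]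
      exact inv_mul_cancel₀ hl0.ne'⟩ with ha
    set b : Sph (d + 1) := ⟨-(a : E (d + 1)), by
      rw [mem_sphere_zero_iff_norm, norm_neg]
      exact norm_eq_of_mem_sphere a⟩ with hb
    have h1 := hns a b rfl
    have has : ⟪(a : E (d + 1)), (s : E (d + 1))⟫ = l / 2 := by
      simp only [ha]
      rw [real_inner_smul_left, inner_sub_left, real_inner_self_eq_norm_sq, hs,
        real_inner_comm (s : E (d + 1)) (t : E (d + 1))]
      have : (1 : ℝ) ^ 2 - ⟪(s : E (d + 1)), (t : E (d + 1))⟫ = l ^ 2 / 2 := by linarith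
      rw [this]
      field_simp
    have hbt : ⟪(b : E (d + 1)), (t : E (d + 1))⟫ = l / 2 := by
      simp only [hb, ha]
      rw [inner_neg_left, real_inner_smul_left, inner_sub_left,
        real_inner_self_eq_norm_sq (t : E (d + 1)), ht]
      have : ⟪(s : E (d + 1)), (t : E (d + 1))⟫ - (1 : ℝ) ^ 2 = -(l ^ 2 / 2) := by linarith
      rw [this]
      field_simp
    have h2 := hcol a s (by rw [has]; positivity)
    have h3 := hcol b t (by rw [hbt]; positivity)
    rw [has] at h2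
    rw [hbt] at h3
    have h4 : dist (γ₀ a) (γ₀ b) ≤ dist (γ₀ a) (γ s) + dist (γ s) (γ t) + dist (γ₀ b) (γ t) := by
      have e1 := dist_triangle4 (γ₀ a) (γ s) (γ t) (γ₀ b)
      rwa [dist_comm (γ t) (γ₀ b)] at e1
    have h5 : chord (sin R) (s : E (d + 1)) (t : E (d + 1)) = 2 * arcsin (sin R * (l / 2)) := by
      rw [← arccos_two (by positivity) (by nlinarith)]
      unfold chord
      congr 1
      have : ⟪(s : E (d + 1)), (t : E (d + 1))⟫ = 1 - l ^ 2 / 2 := by linarith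
      rw [this]
      ring
    rw [h5]
    rw [arccos_eq_pi_div_two_sub_arcsin] at h2 h3
    linarith

/-- Sharp filling inequality with the chord bound. -/
theorem sharp_chord (hd : 1 ≤ d) {R : ℝ} (hR0 : 0 < R) (hR1 : R < π / 2)
    (hcrit : ∀ r, 0 ≤ r → r ≤ sin R → Crit d r) {γ : Sph (d + 1) → X}
    (hγ : ∀ s t : Sph (d + 1), chord (sin R) (s : E (d + 1)) (t : E (d + 1)) ≤ dist (γ s) (γ t))
    {m : ℕ} {q : Fin m → E (d + 1) → X}
    {G : Fin m → E (d + 1) → Matrix (Fin (d + 1)) (Fin (d + 1)) ℝ}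
    (hq : ∀ j, IsRiemannianCube (q j) (G j)) (hb : HasBoundary q γ) :
    capVolume (d + 1) R ≤ ∑ j, cubeVolume (G j) := by
  have hk0 : 0 < sin R := sin_pos_of_pos_of_lt_pi hR0 (by linarith)
  have hk1 : sin R < 1 := by
    have := sin_lt_sin_of_lt_of_le_pi_div_two (x := R) (y := π / 2) (by linarith) le_rfl hR1
    rwa [sin_pi_div_two] at this
  have h := core hd hk0 hk1 le_rfl hk1 hcrit hγ hq hb
  rw [eta_self hk0 hk1.le, div_one, one_pow, one_mul, int_ball_self hd hk0 hk1,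
    int_cap d hR0 hR1] at h
  exact h

end Pool.Agent.H65G
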