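import Pool.Agent.H65G.Ball

set_option autoImplicit false

open Real Set MeasureTheory Metric Filter Topology Matrix
open scoped RealInnerProductSpace

namespace Pool.Agent.H65G

variable {d : ℕ} {k k₁ : ℝ} {X : Type} [MetricSpace X]

/-- The Jacobian of the comparison map. -/
noncomputable def dens (d : ℕ) (k k₁ c a : ℝ) : ℝ :=
  (k * (√(1 - (k * a) ^ 2))⁻¹) ^ d *
    ((d + 1) * (k₁ * (√(1 - (k₁ * a) ^ 2))⁻¹) - c * (k * (√(1 - (k * a) ^ 2))⁻¹))

theorem integral_ball_dir (f : ℝ → ℝ) (s : Sph (d + 1)) :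
    ∫ y in closedBall (0 : E (d + 1)) 1, f ⟪y, (s : E (d + 1))⟫ =
      ∫ y in closedBall (0 : E (d + 1)) 1, f (y 0) := by
  obtain ⟨O, hO⟩ := exists_rot (d := d) (u := (s : E (d + 1))) (by simp)
  have h1 := (O.measurePreserving).setIntegral_preimage_emb
    O.toHomeomorph.measurableEmbedding (fun y : E (d + 1) => f ⟪y, (s : E (d + 1))⟫)
    (closedBall (0 : E (d + 1)) 1)
  rw [← h1]
  have h2 : O ⁻¹' closedBall (0 : E (d + 1)) 1 = closedBall (0 : E (d + 1)) 1 := by
    ext y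
    simp
  rw [h2]
  refine setIntegral_congr_fun measurableSet_closedBall fun y _ => ?_
  simp only
  rw [← hO, LinearIsometryEquiv.inner_map_map, real_inner_comm, inner_e0]

theorem ae_ball : ∀ᵐ y ∂((volume : Measure (E (d + 1))).restrict (closedBall 0 1)), ‖y‖ < 1 := by
  rw [ae_restrict_iff' measurableSet_closedBall]
  have h := Measure.addHaar_sphere (volume : Measure (E (d + 1))) 0 1
  have h2 : ∀ᵐ y ∂(volume : Measure (E (d + 1))), y ∉ sphere (0 : E (d + 1)) 1 :=
    measure_eq_zero_iff_ae_notMem.1 h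
  filter_upwards [h2] with y hy hyc
  rw [mem_closedBall_zero_iff] at hyc
  rw [mem_sphere_zero_iff_norm] at hy
  exact lt_of_le_of_ne hyc hy

theorem integral_det_fball (hk0 : 0 < k) (hk : k < 1) (hk10 : 0 ≤ k₁) (hk1 : k₁ ≤ 1) (c : ℝ)
    (s : Sph (d + 1)) :
    ∫ y in closedBall (0 : E (d + 1)) 1, (fderiv ℝ (fball k k₁ c s) y).det =
      ∫ y in closedBall (0 : E (d + 1)) 1, dens d k k₁ c (y 0) := by
  rw [← integral_ball_dir _ s]
  refine integral_congr_ae ?_
  filter_upwards [ae_ball] with y hy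
  rw [det_fball hk0 hk hk10 hk1 c s hy]
  rfl

/-- The calibration inequality. -/
theorem core (hd : 1 ≤ d) (hk0 : 0 < k) (hk : k < 1) (hkk : k ≤ k₁) (hk1 : k₁ < 1)
    (hcrit : ∀ r, 0 ≤ r → r ≤ k → Crit d r) {γ : Sph (d + 1) → X}
    (hγ : ∀ s t : Sph (d + 1), chord k₁ (s : E (d + 1)) (t : E (d + 1)) ≤ dist (γ s) (γ t))
    {m : ℕ} {q : Fin m → E (d + 1) → X}
    {G : Fin m → E (d + 1) → Matrix (Fin (d + 1)) (Fin (d + 1)) ℝ}
    (hq : ∀ j, IsRiemannianCube (q j) (G j)) (hb : HasBoundary q γ) :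
    ∫ y in closedBall (0 : E (d + 1)) 1, dens d k k₁ (d / eta d k k₁) (y 0) ≤
      eta d k k₁ ^ d * ∑ j, cubeVolume (G j) := by
  have hk10 : 0 ≤ k₁ := hk0.le.trans hkk
  obtain ⟨K, hK0, hK⟩ := exists_lip_gam hk0 hk hkk hk1.le γ
  have h1 : ∀ s : Sph (d + 1), ∑ j, ∫ p in cube (d + 1), (fderiv ℝ (gam k k₁ γ s ∘ q j) p).det =
      ∫ y in closedBall (0 : E (d + 1)) 1, dens d k k₁ (d / eta d k k₁) (y 0) := by
    intro s
    rw [hb (gam k k₁ γ s) (fball k k₁ (d / eta d k k₁) s) ?_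
      (exists_lip_fball hk0 hk hk10 hk1 _ s) (fun t => gam_gamma hk0 hkk hk1.le hγ s t),
      integral_det_fball hk0 hk hk10 hk1.le]
    refine ⟨Real.toNNReal K, LipschitzWith.of_dist_le_mul fun x y => ?_⟩
    rw [Real.coe_toNNReal _ hK0, dist_eq_norm]
    exact hK s x y
  have h2 := fun j => cube_bound hd hk0 hk hkk hk1.le hcrit γ (hq j)
  calc ∫ y in closedBall (0 : E (d + 1)) 1, dens d k k₁ (d / eta d k k₁) (y 0)
      = ∫ s, (∑ j, ∫ p in cube (d + 1), (fderiv ℝ (gam k k₁ γ s ∘ q j) p).det)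
          ∂(sigma (d + 1)) := by
        simp only [h1]
        have hp : IsProbabilityMeasure (sigma (d + 1)) := inferInstance
        rw [integral_const]
        simp
    _ = ∑ j, ∫ s, (∫ p in cube (d + 1), (fderiv ℝ (gam k k₁ γ s ∘ q j) p).det)
          ∂(sigma (d + 1)) := integral_finsetSum _ fun j _ => (h2 j).1
    _ ≤ ∑ j, eta d k k₁ ^ d * cubeVolume (G j) := Finset.sum_le_sum fun j _ => (h2 j).2
    _ = _ := by rw [Finset.mul_sum]

/-! ### The case `k = k₁` -/

theorem eta_self (hk0 : 0 < k) (hk1 : k ≤ 1) : eta d k k = 1 := by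
  rw [eta, div_self (rho_pos hk0 hk1).ne']

theorem dens_self (a : ℝ) : dens d k k d a = (k * (√(1 - (k * a) ^ 2))⁻¹) ^ (d + 1) := by
  unfold dens
  ring

theorem int_sphere_dens (hd : 1 ≤ d) (hk0 : 0 < k) (hk : k < 1) {y : E (d + 1)} (hy : ‖y‖ ≤ 1) :
    ∫ s : Sph (d + 1), (k * (√(1 - (k * ⟪y, (s : E (d + 1))⟫) ^ 2))⁻¹) ^ (d + 1)
      ∂(sigma (d + 1)) = k ^ (d + 1) * (√(1 - (k * ‖y‖) ^ 2))⁻¹ := by
  obtain ⟨O, hO⟩ : ∃ O : E (d + 1) ≃ₗᵢ[ℝ] E (d + 1), y = ‖y‖ • O (e0 d) := by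
    rcases eq_or_ne y 0 with h | h
    · exact ⟨LinearIsometryEquiv.refl ℝ _, by simp [h]⟩
    · have hn : ‖y‖ ≠ 0 := norm_ne_zero_iff.2 h
      obtain ⟨O, hO⟩ := exists_rot (d := d) (u := ‖y‖⁻¹ • y) (by
        rw [norm_smul, norm_inv, norm_norm, inv_mul_cancel₀ hn])
      exact ⟨O, by rw [hO, smul_smul, mul_inv_cancel₀ hn, one_smul]⟩
  have hr0 : 0 ≤ k * ‖y‖ := by positivity
  have hr1 : k * ‖y‖ < 1 := by nlinarith [norm_nonneg y]
  rw [← visual_mass hd hr0 hr1, ← integral_act O, ← integral_const_mul]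
  congr 1
  ext1 s
  have h1 : ⟪y, ((act O s : Sph (d + 1)) : E (d + 1))⟫ = ‖y‖ * (s : E (d + 1)) 0 := by
    rw [coe_act]
    conv_lhs => rw [hO]
    rw [real_inner_smul_left, LinearIsometryEquiv.inner_map_map, inner_e0]
  rw [h1, mul_pow k (√(1 - (k * (‖y‖ * (s : E (d + 1)) 0)) ^ 2))⁻¹, inv_pow]
  have h2 : (k * (‖y‖ * (s : E (d + 1)) 0)) ^ 2 = (k * ‖y‖) ^ 2 * (s : E (d + 1)) 0 ^ 2 := by ring
  rw [h2]

/-- Crofton type formula for the ball. -/
theorem int_ball_self (hd : 1 ≤ d) (hk0 : 0 < k) (hk : k < 1) :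
    ∫ y in closedBall (0 : E (d + 1)) 1, dens d k k d (y 0) =
      ∫ y in closedBall (0 : E (d + 1)) 1, k ^ (d + 1) * (√(1 - (k * ‖y‖) ^ 2))⁻¹ := by
  have hfin : IsFiniteMeasure ((volume : Measure (E (d + 1))).restrict (closedBall 0 1)) :=
    ⟨by rw [Measure.restrict_apply_univ]; exact measure_closedBall_lt_top⟩
  have hp : IsProbabilityMeasure (sigma (d + 1)) := inferInstance
  -- a globally continuous version of the integrand
  set φ : ℝ → ℝ := fun t => (k * (√(1 - (k * max (-1) (min t 1)) ^ 2))⁻¹) ^ (d + 1) with hφ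
  have hφc : Continuous φ := by
    have hne : ∀ t : ℝ, √(1 - (k * max (-1) (min t 1)) ^ 2) ≠ 0 := by
      intro t
      refine (Real.sqrt_pos.2 ?_).ne'
      have h1 : -1 ≤ max (-1) (min t 1) := le_max_left _ _
      have h2 : max (-1) (min t 1) ≤ 1 := max_le (by norm_num) (min_le_right _ _)
      have h3 : |k * max (-1) (min t 1)| < 1 := by
        rw [abs_mul, abs_of_pos hk0]
        have := abs_le.2 ⟨h1, h2⟩
        nlinarith [abs_nonneg (max (-1) (min t 1))]
      have := (sq_lt_one_iff_abs_lt_one _).2 h3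
      linarith
    have h4 : Continuous fun t : ℝ => √(1 - (k * max (-1) (min t 1)) ^ 2) := by fun_prop
    exact (continuous_const.mul (h4.inv₀ hne)).pow _
  have hφe : ∀ t : ℝ, |t| ≤ 1 → φ t = (k * (√(1 - (k * t) ^ 2))⁻¹) ^ (d + 1) := by
    intro t ht
    have h := abs_le.1 ht
    simp only [hφ, min_eq_left h.2, max_eq_right h.1]
  have hin : ∀ y : E (d + 1), ‖y‖ ≤ 1 → ∀ s : Sph (d + 1), |⟪y, (s : E (d + 1))⟫| ≤ 1 := by
    intro y hy s
    have hs : ‖(s : E (d + 1))‖ = 1 := by simp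
    have := norm_inner_le_norm (𝕜 := ℝ) y (s : E (d + 1))
    rw [hs, mul_one, Real.norm_eq_abs] at this
    exact this.trans hy
  have hF : Continuous fun z : Sph (d + 1) × E (d + 1) => φ ⟪z.2, (z.1 : E (d + 1))⟫ :=
    hφc.comp (by fun_prop)
  have hint : Integrable (fun z : Sph (d + 1) × E (d + 1) => φ ⟪z.2, (z.1 : E (d + 1))⟫)
      ((sigma (d + 1)).prod ((volume : Measure (E (d + 1))).restrict (closedBall 0 1))) := by
    obtain ⟨C, hC⟩ : ∃ C : ℝ, ∀ t, ‖φ t‖ ≤ C := by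
      obtain ⟨C, hC⟩ := (isCompact_Icc (a := (-1 : ℝ)) (b := 1)).exists_bound_of_continuousOn
        hφc.continuousOn
      refine ⟨C, fun t => ?_⟩
      have h1 : -1 ≤ max (-1) (min t 1) := le_max_left _ _
      have h2 : max (-1) (min t 1) ≤ 1 := max_le (by norm_num) (min_le_right _ _)
      have h5 := hC _ ⟨h1, h2⟩
      have h6 : φ (max (-1) (min t 1)) = φ t := by
        simp only [hφ, min_eq_left h2, max_eq_right h1]
      rwa [h6] at h5
    exact Integrable.mono' (integrable_const C) hF.aestronglyMeasurable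
      (Eventually.of_forall fun z => hC _)
  calc ∫ y in closedBall (0 : E (d + 1)) 1, dens d k k d (y 0)
      = ∫ s : Sph (d + 1), (∫ y in closedBall (0 : E (d + 1)) 1, φ ⟪y, (s : E (d + 1))⟫)
          ∂(sigma (d + 1)) := by
        have e1 : ∀ s : Sph (d + 1), ∫ y in closedBall (0 : E (d + 1)) 1,
            φ ⟪y, (s : E (d + 1))⟫ = ∫ y in closedBall (0 : E (d + 1)) 1, φ (y 0) :=
          fun s => integral_ball_dir φ s
        rw [integral_congr_ae (Eventually.of_forall e1), integral_const]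
        have hu : (sigma (d + 1)).real univ = 1 := probReal_univ
        rw [hu, one_smul]
        refine setIntegral_congr_fun measurableSet_closedBall fun y hy => ?_
        rw [mem_closedBall_zero_iff] at hy
        have h1 := hin y hy (es 0)
        simp only [dens_self]
        rw [hφe]
        have h2 := PiLp.norm_apply_le y 0
        rw [Real.norm_eq_abs] at h2
        exact h2.trans hy
    _ = ∫ y in closedBall (0 : E (d + 1)) 1, (∫ s : Sph (d + 1), φ ⟪y, (s : E (d + 1))⟫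
          ∂(sigma (d + 1))) :=
        integral_integral_swap (μ := sigma (d + 1))
          (ν := (volume : Measure (E (d + 1))).restrict (closedBall 0 1))
          (f := fun s y => φ ⟪y, (s : E (d + 1))⟫) hint
    _ = _ := by
        refine setIntegral_congr_fun measurableSet_closedBall fun y hy => ?_
        rw [mem_closedBall_zero_iff] at hy
        rw [← int_sphere_dens hd hk0 hk hy]
        congr 1
        ext1 s
        exact hφe _ (hin y hy s)

end Pool.Agent.H65G
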