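import Pool.Agent.H65G.Gamma
import Pool.Agent.H65G.Cube

set_option autoImplicit false

open Real Set MeasureTheory Metric Filter Topology Matrix
open scoped RealInnerProductSpace

namespace Pool.Agent.H65G

variable {d : ℕ} {k₁ : ℝ} {X : Type} [MetricSpace X] {q : E (d + 1) → X}
  {G : E (d + 1) → Matrix (Fin (d + 1)) (Fin (d + 1)) ℝ}

/-- `g_s` in the chart. -/
noncomputable def gch (k₁ : ℝ) (γ : Sph (d + 1) → X) (q : E (d + 1) → X) (s : Sph (d + 1))
    (p : E (d + 1)) : ℝ := gext k₁ γ s (qt q p)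

/-- `Γ_s` in the chart. -/
noncomputable def fch (k k₁ : ℝ) (γ : Sph (d + 1) → X) (q : E (d + 1) → X) (s : Sph (d + 1))
    (p : E (d + 1)) : E (d + 1) := gam k k₁ γ s (qt q p)

theorem continuous_qt (h : IsRiemannianCube q G) : Continuous (qt q) := by
  obtain ⟨L, hL0, hL⟩ := exists_bound h.continuousOn
  have hl : LipschitzWith (Real.toNNReal L) (qt q) := by
    apply LipschitzWith.of_dist_le_mul
    intro x y
    rw [Real.coe_toNNReal _ hL0, dist_eq_norm]
    exact dist_qt_le h hL0 hL x y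
  exact hl.continuous

theorem continuous_gch (hk0 : 0 ≤ k₁) (hk1 : k₁ ≤ 1) (γ : Sph (d + 1) → X)
    (h : IsRiemannianCube q G) :
    Continuous (Function.uncurry (gch k₁ γ q)) := by
  have h1 := continuous_gext hk0 hk1 γ
  have h2 : Continuous fun p : Sph (d + 1) × E (d + 1) => (p.1, qt q p.2) :=
    continuous_fst.prodMk ((continuous_qt h).comp continuous_snd)
  exact h1.comp h2

theorem continuous_fch {k : ℝ} (hk0 : 0 < k) (hk : k < 1) (hkk : k ≤ k₁) (hk1 : k₁ ≤ 1)
    (γ : Sph (d + 1) → X) (h : IsRiemannianCube q G) :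
    Continuous (Function.uncurry (fch k k₁ γ q)) := by
  have h1 := continuous_gam hk0 hk hkk hk1 γ
  have h2 : Continuous fun p : Sph (d + 1) × E (d + 1) => (p.1, qt q p.2) :=
    continuous_fst.prodMk ((continuous_qt h).comp continuous_snd)
  exact h1.comp h2

theorem lip_gch (γ : Sph (d + 1) → X) (h : IsRiemannianCube q G) {L : ℝ} (hL0 : 0 ≤ L)
    (hL : ∀ p ∈ cube (d + 1), ∀ ξ, quad (G p) ξ ≤ L ^ 2 * ‖ξ‖ ^ 2) (s : Sph (d + 1)) :
    LipschitzWith (Real.toNNReal L) (gch k₁ γ q s) := by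
  apply LipschitzWith.of_dist_le_mul
  intro x y
  rw [Real.coe_toNNReal _ hL0, Real.dist_eq, dist_eq_norm]
  exact (abs_gext_sub_le γ s _ _).trans (dist_qt_le h hL0 hL x y)

/-- The set of good pairs `(p, s)`. -/
theorem ae_ae_differentiable (hk0 : 0 ≤ k₁) (hk1 : k₁ ≤ 1) (γ : Sph (d + 1) → X)
    (h : IsRiemannianCube q G) :
    ∀ᵐ p ∂(volume : Measure (E (d + 1))), ∀ᵐ s ∂(sigma (d + 1)),
      DifferentiableAt ℝ (gch k₁ γ q s) p := by
  obtain ⟨L, hL0, hL⟩ := exists_bound h.continuousOn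
  have hm : MeasurableSet {p : Sph (d + 1) × E (d + 1) | DifferentiableAt ℝ (gch k₁ γ q p.1) p.2} :=
    measurableSet_of_differentiableAt_with_param ℝ (continuous_gch hk0 hk1 γ h)
  have h1 : ∀ᵐ s ∂(sigma (d + 1)), ∀ᵐ p ∂(volume : Measure (E (d + 1))),
      DifferentiableAt ℝ (gch k₁ γ q s) p :=
    Eventually.of_forall fun s => (lip_gch γ h hL0 hL s).ae_differentiableAt
  have hsf : SFinite (sigma (d + 1)) := inferInstance
  have hsf' : SFinite (volume : Measure (E (d + 1))) := inferInstance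
  have h2 : ∀ᵐ z ∂((sigma (d + 1)).prod (volume : Measure (E (d + 1)))),
      DifferentiableAt ℝ (gch k₁ γ q z.1) z.2 := (Measure.ae_prod_iff_ae_ae hm).2 h1
  have h3 : ∀ᵐ z ∂((volume : Measure (E (d + 1))).prod (sigma (d + 1))),
      DifferentiableAt ℝ (gch k₁ γ q z.2) z.1 := by
    have h4 := (Measure.measurePreserving_swap (μ := (volume : Measure (E (d + 1))))
      (ν := sigma (d + 1))).quasiMeasurePreserving.ae h2
    exact h4
  exact Measure.ae_ae_of_ae_prod h3

theorem hasFDerivAt_zch (hk0 : 0 ≤ k₁) (hk1 : k₁ ≤ 1) (γ : Sph (d + 1) → X)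
    (h : IsRiemannianCube q G) {p : E (d + 1)}
    (hp : ∀ᵐ s ∂(sigma (d + 1)), DifferentiableAt ℝ (gch k₁ γ q s) p) :
    Integrable (fun s : Sph (d + 1) => (fderiv ℝ (gch k₁ γ q s) p).smulRight (s : E (d + 1)))
      (sigma (d + 1)) ∧
    HasFDerivAt (fun p => zfun k₁ γ (qt q p))
      (∫ s : Sph (d + 1), (fderiv ℝ (gch k₁ γ q s) p).smulRight (s : E (d + 1)) ∂(sigma (d + 1)))
      p := by
  obtain ⟨L, hL0, hL⟩ := exists_bound h.continuousOn
  have hmeas : Measurable fun s : Sph (d + 1) => fderiv ℝ (gch k₁ γ q s) p := by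
    have h1 := measurable_fderiv_with_param ℝ (continuous_gch hk0 hk1 γ h)
    exact h1.comp (measurable_id.prodMk measurable_const)
  have key := hasFDerivAt_integral_of_dominated_loc_of_lip (μ := sigma (d + 1))
    (F := fun (p : E (d + 1)) (s : Sph (d + 1)) => gch k₁ γ q s p • (s : E (d + 1)))
    (F' := fun s : Sph (d + 1) => (fderiv ℝ (gch k₁ γ q s) p).smulRight (s : E (d + 1)))
    (x₀ := p) (s := univ) (bound := fun _ => L) Filter.univ_mem ?_ ?_ ?_ ?_ (integrable_const _) ?_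
  · refine ⟨key.1, ?_⟩
    have h2 : (fun p => zfun k₁ γ (qt q p)) = fun p => ∫ s : Sph (d + 1),
        gch k₁ γ q s p • (s : E (d + 1)) ∂(sigma (d + 1)) := by
      ext1 p
      simp only [zfun, gch]
    rw [h2]
    exact key.2
  · refine Eventually.of_forall fun x => ?_
    exact (integrable_zfun hk0 hk1 γ (qt q x)).aestronglyMeasurable
  · exact integrable_zfun hk0 hk1 γ (qt q p)
  · have h3 : Measurable fun s : Sph (d + 1) =>
        (ContinuousLinearMap.smulRightL ℝ (E (d + 1)) (E (d + 1)) (fderiv ℝ (gch k₁ γ q s) p))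
          (s : E (d + 1)) := by
      have hR : Continuous fun z : (E (d + 1) →L[ℝ] ℝ) × E (d + 1) =>
          ContinuousLinearMap.smulRightL ℝ (E (d + 1)) (E (d + 1)) z.1 z.2 := by fun_prop
      exact hR.measurable.comp (hmeas.prodMk measurable_subtype_coe)
    exact h3.aestronglyMeasurable
  · refine Eventually.of_forall fun s => ?_
    have h4 : LipschitzWith (Real.nnabs L) fun x => gch k₁ γ q s x • (s : E (d + 1)) := by
      apply LipschitzWith.of_dist_le_mul
      intro x y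
      have hs : ‖(s : E (d + 1))‖ = 1 := by simp
      rw [dist_eq_norm, ← sub_smul, norm_smul, hs, mul_one, Real.coe_nnabs, abs_of_nonneg hL0]
      have := (lip_gch (k₁ := k₁) γ h hL0 hL s).dist_le_mul x y
      rwa [Real.coe_toNNReal _ hL0, Real.dist_eq] at this
    exact h4.lipschitzOnWith
  · filter_upwards [hp] with s hs
    exact hs.hasFDerivAt.smul_const _

theorem quad_eq (A : Matrix (Fin (d + 1)) (Fin (d + 1)) ℝ) (ξ : Fin (d + 1) → ℝ) :
    quad A (WithLp.toLp 2 ξ) = ξ ⬝ᵥ (A *ᵥ ξ) := by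
  simp only [quad, dotProduct, Matrix.mulVec, Finset.mul_sum]
  refine Finset.sum_congr rfl fun i _ => Finset.sum_congr rfl fun j _ => by ring

theorem posSemidef_of (h : IsRiemannianCube q G) {p : E (d + 1)} (hp : p ∈ cube (d + 1)) :
    (G p).PosSemidef := by
  refine Matrix.PosSemidef.of_dotProduct_mulVec_nonneg ?_ fun x => ?_
  · rw [Matrix.IsHermitian, Matrix.conjTranspose_eq_transpose_of_trivial]
    exact h.symm p hp
  · rw [star_trivial, ← quad_eq]
    exact h.nonneg p hp _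

/-- The derivative of `Γ_s` in the chart. -/
theorem hasFDerivAt_fch {k : ℝ} (hk0 : 0 < k) (hk : k < 1) (hkk : k ≤ k₁) (hk1 : k₁ ≤ 1)
    (γ : Sph (d + 1) → X) {p : E (d + 1)} {s : Sph (d + 1)}
    (hp : DifferentiableAt ℝ (gch k₁ γ q s) p)
    (hw : DifferentiableAt ℝ (fun p => wfun k k₁ γ (qt q p)) p) :
    HasFDerivAt (fch k k₁ γ q s)
      (lmap (wfun k k₁ γ (qt q p)) (eta d k k₁) (fderiv ℝ (fun p => wfun k k₁ γ (qt q p)) p)
        ((InnerProductSpace.toDual ℝ (E (d + 1))).symm (fderiv ℝ (gch k₁ γ q s) p)) s) p := by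
  have hwn : ‖wfun k k₁ γ (qt q p)‖ < 1 :=
    lt_of_le_of_lt (wfun_spec hk0 hkk hk1 γ (qt q p)).1 hk
  have h1 := (hp.hasFDerivAt.const_mul (d + 1 : ℝ)).smul_const (s : E (d + 1))
  have h2 := (hasFDerivAt_psi (d / eta d k k₁) hwn s).comp p hw.hasFDerivAt
  have h3 := h1.add h2
  have h4 : fch k k₁ γ q s = (fun p => ((d + 1 : ℝ) * gch k₁ γ q s p) • (s : E (d + 1))) +
      (psi (d / eta d k k₁) s ∘ fun p => wfun k k₁ γ (qt q p)) := by
    ext1 p
    simp only [fch, gam, gch, Pi.add_apply, Function.comp_apply]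
  rw [h4]
  refine h3.congr_fderiv ?_
  ext ξ i
  simp only [lmap, dpsi]
  simp
  ring

/-- The pointwise bound in the chart. -/
theorem chart_bound (hd : 1 ≤ d) {k : ℝ} (hk0 : 0 < k) (hk : k < 1) (hkk : k ≤ k₁) (hk1 : k₁ ≤ 1)
    (hcrit : ∀ r, 0 ≤ r → r ≤ k → Crit d r)
    (γ : Sph (d + 1) → X) (h : IsRiemannianCube q G) {p : E (d + 1)}
    (hpi : p ∈ interior (cube (d + 1)))
    (hp : ∀ᵐ s ∂(sigma (d + 1)), DifferentiableAt ℝ (gch k₁ γ q s) p)
    (hw : DifferentiableAt ℝ (fun p => wfun k k₁ γ (qt q p)) p) :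
    ∫ s, (fderiv ℝ (fch k k₁ γ q s) p).det ∂(sigma (d + 1)) ≤
      eta d k k₁ ^ d * √(G p).det := by
  have hk1' : 0 ≤ k₁ := hk0.le.trans hkk
  have he := eta_pos (d := d) hk0 hkk hk1
  obtain ⟨L, hL0, hL⟩ := exists_bound h.continuousOn
  obtain ⟨hzi, hz⟩ := hasFDerivAt_zch hk1' hk1 γ h hp
  have hwn : ‖wfun k k₁ γ (qt q p)‖ < 1 :=
    lt_of_le_of_lt (wfun_spec hk0 hkk hk1 γ (qt q p)).1 hk
  set M := fderiv ℝ (fun p => wfun k k₁ γ (qt q p)) p with hM
  set w := wfun k k₁ γ (qt q p) with hwdef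
  set u : Sph (d + 1) → E (d + 1) := fun s =>
    (InnerProductSpace.toDual ℝ (E (d + 1))).symm (fderiv ℝ (gch k₁ γ q s) p) with hu
  have hmeas : Measurable fun s : Sph (d + 1) => fderiv ℝ (gch k₁ γ q s) p := by
    have h1 := measurable_fderiv_with_param ℝ (continuous_gch hk1' hk1 γ h)
    exact h1.comp (measurable_id.prodMk measurable_const)
  have hum : Measurable u :=
    ((InnerProductSpace.toDual ℝ (E (d + 1))).symm.continuous.measurable).comp hmeas
  have hub : ∀ s, ‖u s‖ ≤ L := by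
    intro s
    simp only [hu, LinearIsometryEquiv.norm_map]
    have := norm_fderiv_le_of_lipschitz ℝ (x₀ := p) (lip_gch (k₁ := k₁) γ h hL0 hL s)
    rwa [Real.coe_toNNReal _ hL0] at this
  have hui : ∀ s ξ, ⟪u s, ξ⟫ = fderiv ℝ (gch k₁ γ q s) p ξ := by
    intro s ξ
    simp only [hu]
    exact InnerProductSpace.toDual_symm_apply
  -- the relation between the derivatives
  have hrel : ∀ ξ, (∫ s, dzh w s ∂(sigma (d + 1))) (M ξ) =
      eta d k k₁ • ∫ s, ⟪u s, ξ⟫ • (s : E (d + 1)) ∂(sigma (d + 1)) := by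
    have h1 : HasFDerivAt (fun p => zh (wfun k k₁ γ (qt q p)))
        ((∫ s, dzh w s ∂(sigma (d + 1))).comp M) p :=
      HasFDerivAt.comp (g := zh) (f := fun p => wfun k k₁ γ (qt q p)) p (hasFDerivAt_zh hwn)
        hw.hasFDerivAt
    have h2 : (fun p => zh (wfun k k₁ γ (qt q p))) =
        fun p => eta d k k₁ • zfun k₁ γ (qt q p) := by
      ext1 p
      exact (wfun_spec hk0 hkk hk1 γ (qt q p)).2
    rw [h2] at h1
    have h3 := h1.unique (hz.const_smul (eta d k k₁))
    intro ξ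
    have h4 := DFunLike.congr_fun h3 ξ
    simp only [ContinuousLinearMap.comp_apply, _root_.smul_apply] at h4
    rw [h4, ContinuousLinearMap.integral_apply hzi]
    simp only [ContinuousLinearMap.smulRight_apply, hui]
  -- a.e. equality of the integrands
  have hae : (fun s => (fderiv ℝ (fch k k₁ γ q s) p).det) =ᵐ[sigma (d + 1)]
      fun s => (lmap w (eta d k k₁) M (u s) s).det := by
    filter_upwards [hp] with s hs
    rw [(hasFDerivAt_fch hk0 hk hkk hk1 γ hs hw).fderiv]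
  rw [integral_congr_ae hae]
  refine (le_abs_self _).trans ?_
  refine point_bound hd hwn (hcrit _ (norm_nonneg _) (wfun_spec hk0 hkk hk1 γ (qt q p)).1) he hum
    hub hrel (posSemidef_of h (interior_subset hpi)) ?_
  intro s ξ
  have h5 := sq_fderiv_le h (g := gext k₁ γ s) (abs_gext_sub_le γ s) hpi (WithLp.toLp 2 ξ)
  rw [quad_eq] at h5
  have h6 : (fun i => u s i) ⬝ᵥ ξ = fderiv ℝ (gext k₁ γ s ∘ qt q) p (WithLp.toLp 2 ξ) := by
    have h7 := hui s (WithLp.toLp 2 ξ)
    rw [inner_eq_dot] at h7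
    exact h7
  rw [h6]
  exact h5

end Pool.Agent.H65G
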