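import Pool.Agent.H65G.ZH

set_option autoImplicit false

open Real Set MeasureTheory Metric Filter Topology
open scoped RealInnerProductSpace

namespace Pool.Agent.H65G

variable {d : ℕ} {k₁ : ℝ}

/-- The spherical distance of the points in directions `s`, `t` of a sphere of radius `arcsin k₁`
of the unit sphere. -/
noncomputable def chord (k₁ : ℝ) (s t : E (d + 1)) : ℝ := arccos (1 - k₁ ^ 2 * (1 - ⟪s, t⟫))

theorem chord_comm (s t : E (d + 1)) : chord k₁ s t = chord k₁ t s := by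
  unfold chord
  rw [real_inner_comm]

theorem chord_nonneg (s t : E (d + 1)) : 0 ≤ chord k₁ s t := arccos_nonneg _

/-- The spherical triangle inequality. -/
theorem sph_tri (hk0 : 0 ≤ k₁) (hk1 : k₁ ≤ 1) {s t t' : E (d + 1)} (hs : ‖s‖ = 1) (ht : ‖t‖ = 1)
    (ht' : ‖t'‖ = 1) :
    arcsin (k₁ * ⟪t, s⟫) - arcsin (k₁ * ⟪t', s⟫) ≤ chord k₁ t t' := by
  have hc : √(1 - k₁ ^ 2) ^ 2 = 1 - k₁ ^ 2 := Real.sq_sqrt (by nlinarith)
  set P : E (d + 1) → WithLp 2 (E (d + 1) × ℝ) := fun t => WithLp.toLp 2 (k₁ • t, √(1 - k₁ ^ 2))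
    with hP
  set Q : WithLp 2 (E (d + 1) × ℝ) := WithLp.toLp 2 (s, 0) with hQ
  have hin : ∀ a b : E (d + 1), ⟪P a, P b⟫ = k₁ ^ 2 * ⟪a, b⟫ + (1 - k₁ ^ 2) := by
    intro a b
    rw [WithLp.prod_inner_apply]
    simp only [hP, real_inner_smul_left, real_inner_smul_right]
    have : ⟪√(1 - k₁ ^ 2), √(1 - k₁ ^ 2)⟫ = 1 - k₁ ^ 2 := by
      rw [← hc]
      simp [sq]
    rw [this]
    ring
  have hinQ : ∀ a : E (d + 1), ⟪P a, Q⟫ = k₁ * ⟪a, s⟫ := by
    intro a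
    rw [WithLp.prod_inner_apply]
    simp [hP, hQ, real_inner_smul_left]
  have hnP : ∀ a : E (d + 1), ‖a‖ = 1 → ‖P a‖ = 1 := by
    intro a ha
    have h := hin a a
    rw [real_inner_self_eq_norm_sq, real_inner_self_eq_norm_sq, ha] at h
    have h2 : ‖P a‖ ^ 2 = 1 := by rw [h]; ring
    have h3 := norm_nonneg (P a)
    nlinarith
  have hnQ : ‖Q‖ = 1 := by
    have h : ⟪Q, Q⟫ = 1 := by
      rw [WithLp.prod_inner_apply]
      simp [hQ, hs]
    rw [real_inner_self_eq_norm_sq] at h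
    have h3 := norm_nonneg Q
    nlinarith
  have h := InnerProductGeometry.angle_le_angle_add_angle (P t') (P t) Q
  unfold InnerProductGeometry.angle at h
  rw [hinQ, hinQ, hin, hnP t ht, hnP t' ht', hnQ] at h
  simp only [mul_one, div_one] at h
  have e1 : k₁ ^ 2 * ⟪t', t⟫ + (1 - k₁ ^ 2) = 1 - k₁ ^ 2 * (1 - ⟪t, t'⟫) := by
    rw [real_inner_comm]; ring
  rw [e1, arccos_eq_pi_div_two_sub_arcsin (k₁ * ⟪t', s⟫),
    arccos_eq_pi_div_two_sub_arcsin (k₁ * ⟪t, s⟫)] at h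
  unfold chord
  linarith

variable {X : Type} [MetricSpace X]

/-- The McShane extension of `γ t ↦ arcsin (k₁ ⟨t,s⟩)`. -/
noncomputable def gext (k₁ : ℝ) (γ : Sph (d + 1) → X) (s : Sph (d + 1)) (x : X) : ℝ :=
  ⨅ t : Sph (d + 1), (arcsin (k₁ * ⟪(t : E (d + 1)), (s : E (d + 1))⟫) + dist x (γ t))

theorem bdd_gext (γ : Sph (d + 1) → X) (s : Sph (d + 1)) (x : X) :
    BddBelow (range fun t : Sph (d + 1) =>
      arcsin (k₁ * ⟪(t : E (d + 1)), (s : E (d + 1))⟫) + dist x (γ t)) := by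
  refine ⟨-(π / 2), ?_⟩
  rintro _ ⟨t, rfl⟩
  have h1 := neg_pi_div_two_le_arcsin (k₁ * ⟪(t : E (d + 1)), (s : E (d + 1))⟫)
  have h2 := dist_nonneg (x := x) (y := γ t)
  simp only
  linarith

instance : Nonempty (Sph (d + 1)) := ⟨es 0⟩

theorem gext_le (γ : Sph (d + 1) → X) (s t : Sph (d + 1)) (x : X) :
    gext k₁ γ s x ≤ arcsin (k₁ * ⟪(t : E (d + 1)), (s : E (d + 1))⟫) + dist x (γ t) :=
  ciInf_le (bdd_gext γ s x) t

theorem gext_lip (γ : Sph (d + 1) → X) (s : Sph (d + 1)) (x y : X) :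
    gext k₁ γ s x ≤ gext k₁ γ s y + dist x y := by
  rw [← sub_le_iff_le_add]
  refine le_ciInf fun t => ?_
  have h1 := gext_le (k₁ := k₁) γ s t x
  have h2 := dist_triangle x y (γ t)
  linarith

theorem abs_gext_sub_le (γ : Sph (d + 1) → X) (s : Sph (d + 1)) (x y : X) :
    |gext k₁ γ s x - gext k₁ γ s y| ≤ dist x y := by
  have h1 := gext_lip (k₁ := k₁) γ s x y
  have h2 := gext_lip (k₁ := k₁) γ s y x
  rw [dist_comm y x] at h2
  exact abs_le.2 ⟨by linarith, by linarith⟩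

theorem gext_dir (hk0 : 0 ≤ k₁) (hk1 : k₁ ≤ 1) (γ : Sph (d + 1) → X) (s s' : Sph (d + 1)) (x : X) :
    gext k₁ γ s x ≤ gext k₁ γ s' x + chord k₁ (s : E (d + 1)) (s' : E (d + 1)) := by
  rw [← sub_le_iff_le_add]
  refine le_ciInf fun t => ?_
  have h1 := gext_le (k₁ := k₁) γ s t x
  have h2 := sph_tri (d := d) hk0 hk1 (s := (t : E (d + 1))) (t := (s : E (d + 1)))
    (t' := (s' : E (d + 1))) (by simp) (by simp) (by simp)
  rw [real_inner_comm, real_inner_comm (t : E (d + 1)) (s' : E (d + 1))] at h2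
  linarith

theorem abs_gext_dir_le (hk0 : 0 ≤ k₁) (hk1 : k₁ ≤ 1) (γ : Sph (d + 1) → X) (s s' : Sph (d + 1))
    (x : X) : |gext k₁ γ s x - gext k₁ γ s' x| ≤ chord k₁ (s : E (d + 1)) (s' : E (d + 1)) := by
  have h1 := gext_dir hk0 hk1 γ s s' x
  have h2 := gext_dir hk0 hk1 γ s' s x
  rw [chord_comm] at h2
  exact abs_le.2 ⟨by linarith, by linarith⟩

theorem gext_gamma (hk0 : 0 ≤ k₁) (hk1 : k₁ ≤ 1) {γ : Sph (d + 1) → X}
    (hγ : ∀ s t : Sph (d + 1), chord k₁ (s : E (d + 1)) (t : E (d + 1)) ≤ dist (γ s) (γ t))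
    (s t : Sph (d + 1)) :
    gext k₁ γ s (γ t) = arcsin (k₁ * ⟪(t : E (d + 1)), (s : E (d + 1))⟫) := by
  apply le_antisymm
  · have := gext_le (k₁ := k₁) γ s t (γ t)
    simpa using this
  · refine le_ciInf fun t' => ?_
    have h2 := sph_tri (d := d) hk0 hk1 (s := (s : E (d + 1))) (t := (t : E (d + 1)))
      (t' := (t' : E (d + 1))) (by simp) (by simp) (by simp)
    have h3 := hγ t t'
    linarith

theorem continuous_gext (hk0 : 0 ≤ k₁) (hk1 : k₁ ≤ 1) (γ : Sph (d + 1) → X) :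
    Continuous fun p : Sph (d + 1) × X => gext k₁ γ p.1 p.2 := by
  rw [continuous_iff_continuousAt]
  rintro ⟨s₀, x₀⟩
  rw [ContinuousAt, tendsto_iff_dist_tendsto_zero]
  have hb : ∀ p : Sph (d + 1) × X, dist (gext k₁ γ p.1 p.2) (gext k₁ γ s₀ x₀) ≤
      chord k₁ (p.1 : E (d + 1)) (s₀ : E (d + 1)) + dist p.2 x₀ := by
    intro p
    rw [Real.dist_eq]
    have h1 := abs_gext_sub_le (k₁ := k₁) γ s₀ p.2 x₀
    have h2 := abs_gext_dir_le hk0 hk1 γ p.1 s₀ p.2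
    have h3 := abs_sub_le (gext k₁ γ p.1 p.2) (gext k₁ γ s₀ p.2) (gext k₁ γ s₀ x₀)
    linarith
  refine squeeze_zero (fun p => dist_nonneg) hb ?_
  have hcont : Continuous fun p : Sph (d + 1) × X =>
      chord k₁ (p.1 : E (d + 1)) (s₀ : E (d + 1)) + dist p.2 x₀ := by
    unfold chord
    have := continuous_arccos
    fun_prop
  have := hcont.tendsto (s₀, x₀)
  have h0 : chord k₁ (s₀ : E (d + 1)) (s₀ : E (d + 1)) + dist x₀ x₀ = 0 := by
    unfold chord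
    have hs : ‖(s₀ : E (d + 1))‖ = 1 := by simp
    rw [real_inner_self_eq_norm_sq, hs]
    simp
  simp only [h0] at this
  exact this

attribute [irreducible] gext

end Pool.Agent.H65G
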