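import Pool.Agent.H65G.CapDefs

set_option autoImplicit false

open Real MeasureTheory

namespace Pool.Agent.H65G

/-- The factor `η(d,R)`: the integral over `[-1,1]` of `sin R (1-a²)^(d/2) / √(1 - (a sin R)²)`,
divided by the integral of `(1-a²)^((d-1)/2)`. -/
noncomputable def lagFactor (d : ℕ) (R : ℝ) : ℝ :=
  (∫ a in (-1 : ℝ)..1, sin R * √(1 - a ^ 2) ^ d / √(1 - (sin R * a) ^ 2)) /
    ∫ a in (-1 : ℝ)..1, √(1 - a ^ 2) ^ (d - 1)

/-- The integral of `(1-a²)^((d-1)/2) / (1 - (a sin R)²)^(d/2)` over `[-1,1]`. -/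
noncomputable def sliceInt (d : ℕ) (R : ℝ) : ℝ :=
  ∫ a in (-1 : ℝ)..1, √(1 - a ^ 2) ^ (d - 1) / √(1 - (sin R * a) ^ 2) ^ d

/-- The lower bound for the filling volume of the round `d`-sphere:
`η^(-d) ((d+1) ω_d (sin R)^d sliceInt - (d/η) capVolume (d+1) R)`, with `ω_d` the volume of the unit
ball of `ℝ^d` and `η = lagFactor d R`. -/
noncomputable def fillBound (d : ℕ) (R : ℝ) : ℝ :=
  ((d + 1) * (volume : Measure (EuclideanSpace ℝ (Fin d))).real (Metric.ball 0 1) * sin R ^ d *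
    sliceInt d R - d / lagFactor d R * capVolume (d + 1) R) / lagFactor d R ^ d

end Pool.Agent.H65G
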