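import Pool.Agent.H65G.Moments
import Pool.Agent.H65G.Axis

set_option autoImplicit false

open Real Set MeasureTheory Metric Filter Topology
open scoped RealInnerProductSpace

namespace Pool.Agent.H65G

open Mom

variable {d : ℕ}

/-- The integral of `a^m √(1-a²)^d` over `[-1,1]`. -/
noncomputable def jint (d m : ℕ) : ℝ := ∫ a in (-1 : ℝ)..1, a ^ m * √(1 - a ^ 2) ^ d

theorem jint_succ (d m : ℕ) : (m + d + 3 : ℝ) * jint d (m + 2) = (m + 1) * jint d m := by
  have hder : ∀ x ∈ Ioo (-1 : ℝ) 1, HasDerivAt (fun a : ℝ => a ^ (m + 1) * √(1 - a ^ 2) ^ (d + 2))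
      ((m + 1) * (x ^ m * √(1 - x ^ 2) ^ d) - (m + d + 3) * (x ^ (m + 2) * √(1 - x ^ 2) ^ d)) x := by
    intro x hx
    have h1 : 0 < 1 - x ^ 2 := by nlinarith [hx.1, hx.2]
    have hs := Real.sqrt_pos.2 h1
    have hsq := Real.sq_sqrt h1.le
    have h2 : HasDerivAt (fun a : ℝ => √(1 - a ^ 2)) (-(2 * x) / (2 * √(1 - x ^ 2))) x := by
      have : HasDerivAt (fun t : ℝ => 1 - t ^ 2) (-(2 * x)) x := by
        have := (hasDerivAt_pow 2 x).const_sub 1
        simpa using this
      exact this.sqrt h1.ne'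
    have h2' : HasDerivAt (fun a : ℝ => √(1 - a ^ 2) ^ (d + 2))
        ((d + 2 : ℕ) * √(1 - x ^ 2) ^ (d + 1) * (-(2 * x) / (2 * √(1 - x ^ 2)))) x := h2.pow (d + 2)
    have h3 : HasDerivAt (fun a : ℝ => a ^ (m + 1) * √(1 - a ^ 2) ^ (d + 2))
        (((m + 1 : ℕ) * x ^ m) * √(1 - x ^ 2) ^ (d + 2) + x ^ (m + 1) *
          ((d + 2 : ℕ) * √(1 - x ^ 2) ^ (d + 1) * (-(2 * x) / (2 * √(1 - x ^ 2))))) x :=
      (hasDerivAt_pow (m + 1) x).mul h2'
    refine h3.congr_deriv ?_
    push_cast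
    set u := √(1 - x ^ 2) with hu
    have hx2 : x ^ 2 = 1 - u ^ 2 := by rw [hsq]; ring
    have e3 : (m + d + 3 : ℝ) * (x ^ (m + 2) * u ^ d) =
        (m + 1) * (x ^ m * x ^ 2 * u ^ d) + (d + 2) * (x ^ (m + 2) * u ^ d) := by ring
    rw [e3, hx2]
    field_simp
    ring
  have hcont : ContinuousOn (fun a : ℝ => a ^ (m + 1) * √(1 - a ^ 2) ^ (d + 2)) (Icc (-1) 1) := by
    fun_prop
  have hi1 : IntervalIntegrable (fun x : ℝ => x ^ m * √(1 - x ^ 2) ^ d) volume (-1) 1 :=
    Continuous.intervalIntegrable (by fun_prop) _ _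
  have hi2 : IntervalIntegrable (fun x : ℝ => x ^ (m + 2) * √(1 - x ^ 2) ^ d) volume (-1) 1 :=
    Continuous.intervalIntegrable (by fun_prop) _ _
  have h := intervalIntegral.integral_eq_sub_of_hasDerivAt_of_le (by norm_num) hcont hder
    ((hi1.const_mul _).sub (hi2.const_mul _))
  rw [intervalIntegral.integral_sub (hi1.const_mul _) (hi2.const_mul _),
    intervalIntegral.integral_const_mul, intervalIntegral.integral_const_mul] at h
  simp only [one_pow, sub_self, Real.sqrt_zero, ne_eq, Nat.add_eq_zero_iff, OfNat.ofNat_ne_zero,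
    and_false, not_false_eq_true, zero_pow, mul_zero, even_two, Even.neg_pow] at h
  unfold jint
  linarith

theorem jint_one (d : ℕ) : jint d 1 = 0 := by
  unfold jint
  have h := intervalIntegral.integral_comp_neg (a := -1) (b := 1)
    (fun a : ℝ => a ^ 1 * √(1 - a ^ 2) ^ d)
  simp only [neg_neg] at h
  have h2 : ∀ a : ℝ, (-a) ^ 1 * √(1 - (-a) ^ 2) ^ d = -(a ^ 1 * √(1 - a ^ 2) ^ d) := by
    intro a
    rw [neg_sq]
    ring
  simp only [h2] at h
  rw [intervalIntegral.integral_neg] at h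
  linarith

theorem jint_zero_pos (d : ℕ) : 0 < jint d 0 := by
  unfold jint
  refine intervalIntegral.intervalIntegral_pos_of_pos_on
    (Continuous.intervalIntegrable (by fun_prop) _ _) (fun x hx => ?_) (by norm_num)
  have h1 : 0 < 1 - x ^ 2 := by nlinarith [hx.1, hx.2]
  have hs := Real.sqrt_pos.2 h1
  positivity

/-- The mean of `(1 - s₀²) s₀^m`. -/
noncomputable def nint (d m : ℕ) : ℝ :=
  ∫ s : Sph (d + 1), (1 - (s : E (d + 1)) 0 ^ 2) * (s : E (d + 1)) 0 ^ m ∂(sigma (d + 1))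

theorem nint_succ (hd : 1 ≤ d) (m : ℕ) : (m + d + 3 : ℝ) * nint d (m + 2) = (m + 1) * nint d m := by
  have hd' : (0 : ℝ) < d := by exact_mod_cast hd
  have h := ibp' hd (F := fun t => t ^ (m + 1) * (1 - t ^ 2))
    (F' := fun t => (m + 1) * (t ^ m * (1 - t ^ 2)) - 2 * t ^ (m + 2))
    (fun t _ => by
      have h1 := (hasDerivAt_pow (m + 1) t).mul ((hasDerivAt_pow 2 t).const_sub 1)
      refine h1.congr_deriv ?_
      have e2 : m + 1 - 1 = m := by omega
      rw [e2]
      push_cast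
      ring) (by fun_prop)
  have hi : ∀ j : ℕ, Integrable (fun s : Sph (d + 1) => (1 - (s : E (d + 1)) 0 ^ 2) *
      (s : E (d + 1)) 0 ^ j) (sigma (d + 1)) := fun j =>
    int_of (g := fun t => (1 - t ^ 2) * t ^ j) (by fun_prop)
  have e1 : ∫ s : Sph (d + 1), (s : E (d + 1)) 0 * ((s : E (d + 1)) 0 ^ (m + 1) *
      (1 - (s : E (d + 1)) 0 ^ 2)) ∂(sigma (d + 1)) = nint d (m + 2) := by
    unfold nint
    congr 1
    ext1 s
    ring
  have e2 : ∫ s : Sph (d + 1), (1 - (s : E (d + 1)) 0 ^ 2) / d * ((m + 1) *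
      ((s : E (d + 1)) 0 ^ m * (1 - (s : E (d + 1)) 0 ^ 2)) - 2 * (s : E (d + 1)) 0 ^ (m + 2))
        ∂(sigma (d + 1)) =
      (m + 1) / d * nint d m - (m + 3) / d * nint d (m + 2) := by
    unfold nint
    rw [← integral_const_mul, ← integral_const_mul, ← integral_sub ((hi m).const_mul _)
      ((hi (m + 2)).const_mul _)]
    congr 1
    ext1 s
    field_simp
    ring
  simp only at h
  rw [e1, e2] at h
  field_simp at h
  linarith

theorem nint_one (d : ℕ) : nint d 1 = 0 := by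
  unfold nint
  have h := integral_act (n := d + 1) (LinearIsometryEquiv.neg ℝ)
    (fun s : Sph (d + 1) => (1 - (s : E (d + 1)) 0 ^ 2) * (s : E (d + 1)) 0 ^ 1)
  have h2 : ∀ s : Sph (d + 1), (1 - ((act (LinearIsometryEquiv.neg ℝ) s : Sph (d + 1)) :
      E (d + 1)) 0 ^ 2) * ((act (LinearIsometryEquiv.neg ℝ) s : Sph (d + 1)) : E (d + 1)) 0 ^ 1 =
      -((1 - (s : E (d + 1)) 0 ^ 2) * (s : E (d + 1)) 0 ^ 1) := by
    intro s
    rw [coe_act, LinearIsometryEquiv.coe_neg]
    simp only [PiLp.neg_apply]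
    ring
  simp only [h2] at h
  rw [integral_neg] at h
  linarith

/-- The ratio of the two measures. -/
noncomputable def kk (d : ℕ) : ℝ := nint d 0 / jint d 0

theorem nint_eq (hd : 1 ≤ d) (m : ℕ) : nint d m = kk d * jint d m := by
  induction m using Nat.strong_induction_on with
  | _ m ih =>
    rcases Nat.lt_or_ge m 2 with h | h
    · interval_cases m
      · unfold kk
        rw [div_mul_cancel₀ _ (jint_zero_pos d).ne']
      · rw [nint_one, jint_one, mul_zero]
    · obtain ⟨e, rfl⟩ : ∃ e, m = e + 2 := ⟨m - 2, by omega⟩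
      have h1 := nint_succ hd e
      have h2 := jint_succ d e
      rw [ih e (by omega)] at h1
      have h3 : (0 : ℝ) < e + d + 3 := by positivity
      have h4 : (e + d + 3 : ℝ) * nint d (e + 2) = (e + d + 3) * (kk d * jint d (e + 2)) := by
        rw [h1, ← mul_assoc, mul_comm _ (kk d), mul_assoc, ← h2]
        ring
      exact mul_left_cancel₀ h3.ne' h4

theorem nint_poly (hd : 1 ≤ d) (p : Polynomial ℝ) :
    ∫ s : Sph (d + 1), (1 - (s : E (d + 1)) 0 ^ 2) * p.eval ((s : E (d + 1)) 0) ∂(sigma (d + 1)) =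
      kk d * ∫ a in (-1 : ℝ)..1, p.eval a * √(1 - a ^ 2) ^ d := by
  induction p using Polynomial.induction_on' with
  | add p q hp hq =>
    have hi : ∀ p : Polynomial ℝ, Integrable (fun s : Sph (d + 1) =>
        (1 - (s : E (d + 1)) 0 ^ 2) * p.eval ((s : E (d + 1)) 0)) (sigma (d + 1)) := fun p =>
      int_of (g := fun t => (1 - t ^ 2) * p.eval t) (by fun_prop)
    have hj : ∀ p : Polynomial ℝ, IntervalIntegrable (fun a => p.eval a * √(1 - a ^ 2) ^ d)
        volume (-1) 1 := fun p => Continuous.intervalIntegrable (by fun_prop) _ _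
    simp only [Polynomial.eval_add, mul_add, add_mul]
    rw [integral_add (hi p) (hi q), intervalIntegral.integral_add (hj p) (hj q), hp, hq, mul_add]
  | monomial m c =>
    have h := nint_eq hd m
    unfold nint jint at h
    simp only [Polynomial.eval_monomial]
    have e1 : ∀ s : Sph (d + 1), (1 - (s : E (d + 1)) 0 ^ 2) * (c * (s : E (d + 1)) 0 ^ m) =
        c * ((1 - (s : E (d + 1)) 0 ^ 2) * (s : E (d + 1)) 0 ^ m) := fun s => by ring
    have e2 : ∀ a : ℝ, c * a ^ m * √(1 - a ^ 2) ^ d = c * (a ^ m * √(1 - a ^ 2) ^ d) :=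
      fun a => by ring
    simp only [e1, e2]
    rw [integral_const_mul, intervalIntegral.integral_const_mul, h]
    ring

/-- The law of `s₀`, with the weight `1 - s₀²`. -/
theorem marg (hd : 1 ≤ d) {g : ℝ → ℝ} (hg : Continuous g) :
    ∫ s : Sph (d + 1), (1 - (s : E (d + 1)) 0 ^ 2) * g ((s : E (d + 1)) 0) ∂(sigma (d + 1)) =
      kk d * ∫ a in (-1 : ℝ)..1, g a * √(1 - a ^ 2) ^ d := by
  set L := ∫ s : Sph (d + 1), (1 - (s : E (d + 1)) 0 ^ 2) * g ((s : E (d + 1)) 0)
    ∂(sigma (d + 1)) with hL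
  set M := ∫ a in (-1 : ℝ)..1, g a * √(1 - a ^ 2) ^ d with hM
  have hkey : ∀ ε : ℝ, 0 < ε → |L - kk d * M| ≤ ε * (1 + |kk d| * 2) := by
    intro ε hε
    obtain ⟨p, hp⟩ := exists_polynomial_near_of_continuousOn (-1) 1 g hg.continuousOn ε hε
    have h1 := nint_poly hd p
    have hpc : Continuous fun a => p.eval a := p.continuous
    have h2 : |L - ∫ s : Sph (d + 1), (1 - (s : E (d + 1)) 0 ^ 2) * p.eval ((s : E (d + 1)) 0)
        ∂(sigma (d + 1))| ≤ ε := by
      rw [hL, ← integral_sub (int_of (g := fun t => (1 - t ^ 2) * g t) (by fun_prop))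
        (int_of (g := fun t => (1 - t ^ 2) * p.eval t) (by fun_prop)), ← Real.norm_eq_abs]
      have hb := norm_integral_le_of_norm_le_const (μ := sigma (d + 1)) (C := ε)
        (f := fun s : Sph (d + 1) => (1 - (s : E (d + 1)) 0 ^ 2) * g ((s : E (d + 1)) 0) -
          (1 - (s : E (d + 1)) 0 ^ 2) * p.eval ((s : E (d + 1)) 0))
        (Eventually.of_forall fun s => by
          have hs := coord_mem s 0
          have h3 := hp _ hs
          rw [← mul_sub, norm_mul, Real.norm_eq_abs, Real.norm_eq_abs, abs_sub_comm (g _)]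
          have h4 : |1 - (s : E (d + 1)) 0 ^ 2| ≤ 1 := by
            rw [abs_le]
            constructor <;> nlinarith [hs.1, hs.2]
          calc |1 - (s : E (d + 1)) 0 ^ 2| * |p.eval ((s : E (d + 1)) 0) - g ((s : E (d + 1)) 0)|
              ≤ 1 * ε := by gcongr
            _ = ε := one_mul ε)
      have hp1 : (sigma (d + 1)).real univ = 1 := probReal_univ
      rwa [hp1, mul_one] at hb
    have h3 : |(∫ a in (-1 : ℝ)..1, p.eval a * √(1 - a ^ 2) ^ d) - M| ≤ ε * 2 := by
      rw [hM, ← intervalIntegral.integral_sub (Continuous.intervalIntegrable (by fun_prop) _ _)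
        (Continuous.intervalIntegrable (by fun_prop) _ _), ← Real.norm_eq_abs]
      have hb := intervalIntegral.norm_integral_le_of_norm_le_const (a := (-1 : ℝ)) (b := 1) (C := ε)
        (f := fun a : ℝ => p.eval a * √(1 - a ^ 2) ^ d - g a * √(1 - a ^ 2) ^ d)
        (fun a ha => by
          rw [uIoc_of_le (by norm_num)] at ha
          have h3 := hp a ⟨ha.1.le, ha.2⟩
          rw [← sub_mul, norm_mul, Real.norm_eq_abs, Real.norm_eq_abs,
            abs_of_nonneg (by positivity : 0 ≤ √(1 - a ^ 2) ^ d)]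
          have h4 : √(1 - a ^ 2) ^ d ≤ 1 :=
            pow_le_one₀ (Real.sqrt_nonneg _) (Real.sqrt_le_one.mpr (by nlinarith [sq_nonneg a]))
          calc |p.eval a - g a| * √(1 - a ^ 2) ^ d ≤ ε * 1 := by gcongr
            _ = ε := mul_one ε)
      have h5 : |(1 : ℝ) - -1| = 2 := by norm_num
      rwa [h5] at hb
    rw [h1] at h2
    calc |L - kk d * M| = |(L - kk d * ∫ a in (-1 : ℝ)..1, p.eval a * √(1 - a ^ 2) ^ d) +
          kk d * ((∫ a in (-1 : ℝ)..1, p.eval a * √(1 - a ^ 2) ^ d) - M)| := by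
          congr 1
          ring
      _ ≤ |L - kk d * ∫ a in (-1 : ℝ)..1, p.eval a * √(1 - a ^ 2) ^ d| +
          |kk d * ((∫ a in (-1 : ℝ)..1, p.eval a * √(1 - a ^ 2) ^ d) - M)| := abs_add_le _ _
      _ ≤ ε + |kk d| * (ε * 2) := by
          rw [abs_mul]
          gcongr
      _ = _ := by ring
  have hzero : |L - kk d * M| ≤ 0 := by
    have hc : Tendsto (fun ε : ℝ => ε * (1 + |kk d| * 2)) (𝓝[>] 0) (𝓝 0) := by
      have : Continuous fun ε : ℝ => ε * (1 + |kk d| * 2) := by fun_prop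
      have h1 := this.tendsto 0
      rw [zero_mul] at h1
      exact h1.mono_left nhdsWithin_le_nhds
    exact ge_of_tendsto hc (Filter.eventually_of_mem self_mem_nhdsWithin fun ε hε => hkey ε hε)
  have h := abs_nonpos_iff.1 hzero
  linarith

end Pool.Agent.H65G
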