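import Pool.Agent.H65G.Limit
import Pool.Agent.H65G.Marg

set_option autoImplicit false

open Real Set MeasureTheory Metric Filter Topology Matrix
open scoped RealInnerProductSpace

namespace Pool.Agent.H65G

open Mom

variable {d : ℕ} {k : ℝ} {X : Type} [MetricSpace X]

theorem rho_eq (hd : 1 ≤ d) (hk0 : 0 ≤ k) (hk1 : k < 1) :
    rho d k = kk d / d * ∫ a in (-1 : ℝ)..1, k * √(1 - a ^ 2) ^ d / √(1 - (k * a) ^ 2) := by
  have hk2 : 0 < 1 - k ^ 2 := by nlinarith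
  have hpos : ∀ t ∈ Icc (-1 : ℝ) 1, 1 - k ^ 2 ≤ 1 - (k * t) ^ 2 := by
    intro t ht
    have h1 : t ^ 2 ≤ 1 := by nlinarith [ht.1, ht.2]
    nlinarith [mul_pow k t 2, sq_nonneg k]
  set g : ℝ → ℝ := fun t => k * (√(max (1 - (k * t) ^ 2) (1 - k ^ 2)))⁻¹ with hg
  have hgc : Continuous g := by
    refine continuous_const.mul (Continuous.inv₀ (by fun_prop) fun t => ?_)
    exact (Real.sqrt_pos.2 (hk2.trans_le (le_max_right _ _))).ne'
  have hge : ∀ t ∈ Icc (-1 : ℝ) 1, g t = k * (√(1 - (k * t) ^ 2))⁻¹ := by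
    intro t ht
    simp only [hg, max_eq_left (hpos t ht)]
  have hF : ∀ t ∈ Icc (-1 : ℝ) 1, HasDerivAt (fun t => arcsin (k * t)) (g t) t := by
    intro t ht
    have h1 := hpos t ht
    have h2 : (k * t) ^ 2 < 1 := by linarith
    have h3 := abs_lt.1 ((sq_lt_one_iff_abs_lt_one _).1 h2)
    have h4 : HasDerivAt (fun t : ℝ => k * t) k t := by
      simpa using (hasDerivAt_id t).const_mul k
    have h5 : HasDerivAt (fun t => arcsin (k * t)) (1 / √(1 - (k * t) ^ 2) * k) t :=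
      HasDerivAt.comp (h₂ := arcsin) (h := fun t : ℝ => k * t) t
        (hasDerivAt_arcsin (by linarith [h3.1]) (by linarith [h3.2])) h4
    refine h5.congr_deriv ?_
    rw [hge t ht]
    ring
  have h1 := ibp' hd hF hgc.continuousOn
  have h2 : rho d k = ∫ s : Sph (d + 1), (s : E (d + 1)) 0 * arcsin (k * (s : E (d + 1)) 0)
      ∂(sigma (d + 1)) := by
    unfold rho
    congr 1
    ext1 s
    ring
  have h3 : ∫ s : Sph (d + 1), (1 - (s : E (d + 1)) 0 ^ 2) / d * g ((s : E (d + 1)) 0)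
      ∂(sigma (d + 1)) = 1 / (d : ℝ) * ∫ s : Sph (d + 1), (1 - (s : E (d + 1)) 0 ^ 2) *
        g ((s : E (d + 1)) 0) ∂(sigma (d + 1)) := by
    rw [← integral_const_mul]
    congr 1
    ext1 s
    ring
  rw [h2, h1, h3, marg hd hgc]
  have h4 : ∫ a in (-1 : ℝ)..1, g a * √(1 - a ^ 2) ^ d =
      ∫ a in (-1 : ℝ)..1, k * √(1 - a ^ 2) ^ d / √(1 - (k * a) ^ 2) := by
    refine intervalIntegral.integral_congr fun a ha => ?_
    rw [uIcc_of_le (by norm_num)] at ha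
    rw [hge a ha]
    ring
  rw [h4]
  ring

theorem tendsto_lagInt (hd : 1 ≤ d) :
    Tendsto (fun k : ℝ => ∫ a in (-1 : ℝ)..1, k * √(1 - a ^ 2) ^ d / √(1 - (k * a) ^ 2)) (𝓝[<] 1)
      (𝓝 (∫ a in (-1 : ℝ)..1, √(1 - a ^ 2) ^ (d - 1))) := by
  have hev : ∀ᶠ k₁ : ℝ in 𝓝[<] 1, 0 ≤ k₁ ∧ k₁ ≤ 1 := by
    filter_upwards [Ioo_mem_nhdsLT (show (0 : ℝ) < 1 by norm_num)] with x hx
    exact ⟨hx.1.le, hx.2.le⟩
  refine intervalIntegral.tendsto_integral_filter_of_dominated_convergence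
    (fun _ => 1) ?_ ?_ ?_ ?_
  · refine Eventually.of_forall fun k₁ => Measurable.aestronglyMeasurable ?_
    fun_prop
  · filter_upwards [hev] with k₁ hk₁
    refine Eventually.of_forall fun a ha => ?_
    rw [uIoc_of_le (by norm_num)] at ha
    have ha2 : a ^ 2 ≤ 1 := by nlinarith [ha.1, ha.2]
    have h5 : 0 ≤ √(1 - a ^ 2) := Real.sqrt_nonneg _
    have h6 : √(1 - a ^ 2) ≤ 1 := Real.sqrt_le_one.mpr (by nlinarith)
    have h4 : √(1 - a ^ 2) ≤ √(1 - (k₁ * a) ^ 2) := by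
      apply Real.sqrt_le_sqrt
      have : k₁ ^ 2 ≤ 1 := by nlinarith [hk₁.1, hk₁.2]
      nlinarith [mul_pow k₁ a 2, sq_nonneg a]
    have hk0 := hk₁.1
    rw [Real.norm_eq_abs, abs_of_nonneg (by positivity)]
    obtain ⟨e, rfl⟩ : ∃ e, d = e + 1 := ⟨d - 1, by omega⟩
    rcases h5.eq_or_lt with h0 | h0
    · rw [← h0]; simp
    · have h8 : 0 < √(1 - (k₁ * a) ^ 2) := h0.trans_le h4
      rw [div_le_iff₀ h8, one_mul]
      have h10 : √(1 - a ^ 2) ^ (e + 1) ≤ √(1 - a ^ 2) := by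
        rw [pow_succ]
        have := pow_le_one₀ (n := e) h5 h6
        nlinarith
      calc k₁ * √(1 - a ^ 2) ^ (e + 1) ≤ 1 * √(1 - a ^ 2) ^ (e + 1) := by
            have := hk₁.2
            gcongr
        _ = √(1 - a ^ 2) ^ (e + 1) := one_mul _
        _ ≤ _ := h10.trans h4
  · exact intervalIntegrable_const
  · have h1 : ∀ᵐ a : ℝ ∂volume, a ≠ 1 := by
      rw [ae_iff]
      simp
    filter_upwards [h1] with a ha1 ha
    rw [uIoc_of_le (by norm_num)] at ha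
    have h3 : 0 < 1 - (1 * a) ^ 2 := by
      have h4 : a < 1 := lt_of_le_of_ne ha.2 ha1
      nlinarith [ha.1]
    have h3' : 0 < 1 - a ^ 2 := by linarith
    have h5 : ContinuousAt (fun k₁ : ℝ => k₁ * √(1 - a ^ 2) ^ d / √(1 - (k₁ * a) ^ 2)) 1 := by
      refine ContinuousAt.div (by fun_prop) (by fun_prop) (Real.sqrt_pos.2 h3).ne'
    have h6 := h5.tendsto.mono_left (nhdsWithin_le_nhds (s := Iio 1))
    have h7 : (1 : ℝ) * √(1 - a ^ 2) ^ d / √(1 - (1 * a) ^ 2) = √(1 - a ^ 2) ^ (d - 1) := by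
      obtain ⟨e, rfl⟩ : ∃ e, d = e + 1 := ⟨d - 1, by omega⟩
      have := (Real.sqrt_pos.2 h3').ne'
      rw [one_mul, one_mul, Nat.add_sub_cancel, pow_succ]
      field_simp
    rwa [h7] at h6

theorem rho_one_eq (hd : 1 ≤ d) :
    rho d 1 = kk d / d * ∫ a in (-1 : ℝ)..1, √(1 - a ^ 2) ^ (d - 1) := by
  have h1 : Tendsto (rho d) (𝓝[<] 1) (𝓝 (rho d 1)) :=
    (continuous_rho.tendsto 1).mono_left nhdsWithin_le_nhds
  have h2 := (tendsto_lagInt hd).const_mul (kk d / d)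
  have h3 : Tendsto (rho d) (𝓝[<] 1) (𝓝 (kk d / d * ∫ a in (-1 : ℝ)..1, √(1 - a ^ 2) ^ (d - 1))) := by
    refine h2.congr' ?_
    filter_upwards [Ioo_mem_nhdsLT (show (0 : ℝ) < 1 by norm_num)] with x hx
    rw [rho_eq hd hx.1.le hx.2]
  exact tendsto_nhds_unique h1 h3

theorem lag_eq (hd : 1 ≤ d) {R : ℝ} (hR0 : 0 < R) (hR1 : R < π / 2) :
    lag d R = lagFactor d R := by
  have hk0 : 0 < sin R := sin_pos_of_pos_of_lt_pi hR0 (by linarith)
  have hk : sin R < 1 := by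
    have := sin_lt_sin_of_lt_of_le_pi_div_two (x := R) (y := π / 2) (by linarith) le_rfl hR1
    rwa [sin_pi_div_two] at this
  have h1 : 0 < rho d 1 := rho_pos one_pos le_rfl
  have h2 : kk d / d ≠ 0 := by
    intro h0
    rw [rho_one_eq hd, h0, zero_mul] at h1
    exact lt_irrefl _ h1
  unfold lag lagFactor
  rw [rho_eq hd hk0.le hk, rho_one_eq hd, mul_div_mul_left _ _ h2]

theorem lagFactor_pos (hd : 1 ≤ d) {R : ℝ} (hR0 : 0 < R) (hR1 : R < π / 2) :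
    0 < lagFactor d R := by
  have hk0 : 0 < sin R := sin_pos_of_pos_of_lt_pi hR0 (by linarith)
  rw [← lag_eq hd hR0 hR1]
  exact div_pos (rho_pos hk0 (sin_le_one R)) (rho_pos one_pos le_rfl)

/-- The bound for all fillings. -/
theorem fill_bound (hd : 1 ≤ d) {R : ℝ} (hR0 : 0 < R) (hR1 : R < π / 2)
    (hcrit : ∀ r, 0 ≤ r → r ≤ sin R → Crit d r) {γ : Sph (d + 1) → X}
    (hns : ∀ s t : Sph (d + 1), arccos ⟪(s : E (d + 1)), (t : E (d + 1))⟫ ≤ dist (γ s) (γ t))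
    {m : ℕ} {q : Fin m → E (d + 1) → X}
    {G : Fin m → E (d + 1) → Matrix (Fin (d + 1)) (Fin (d + 1)) ℝ}
    (hq : ∀ j, IsRiemannianCube (q j) (G j)) (hb : HasBoundary q γ) :
    fillBound d R ≤ ∑ j, cubeVolume (G j) := by
  have h := fill_bound_aux hd hR0 hR1 hcrit hns hq hb
  rw [lag_eq hd hR0 hR1] at h
  exact h

end Pool.Agent.H65G
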