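import Pool.Agent.H65G.Slice
import Pool.Agent.H65G.Cap
import Pool.Agent.H65G.FillDefs

set_option autoImplicit false

open Real Set MeasureTheory Metric Filter Topology Matrix
open scoped RealInnerProductSpace

namespace Pool.Agent.H65G

variable {d : ℕ} {k k₁ : ℝ} {X : Type} [MetricSpace X]

/-- The lag factor `E[arcsin(k s₀) s₀] / E[arcsin(s₀) s₀]` for `k = sin R`. -/
noncomputable def lag (d : ℕ) (R : ℝ) : ℝ := rho d (sin R) / rho d 1

theorem chord_le_of_noShort (hk0 : 0 ≤ k₁) (hk1 : k₁ ≤ 1) {γ : Sph (d + 1) → X}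
    (hns : ∀ s t : Sph (d + 1), arccos ⟪(s : E (d + 1)), (t : E (d + 1))⟫ ≤ dist (γ s) (γ t))
    (s t : Sph (d + 1)) : chord k₁ (s : E (d + 1)) (t : E (d + 1)) ≤ dist (γ s) (γ t) := by
  refine le_trans ?_ (hns s t)
  unfold chord
  apply Real.arccos_le_arccos
  have hs : ‖(s : E (d + 1))‖ = 1 := by simp
  have ht : ‖(t : E (d + 1))‖ = 1 := by simp
  have h1 := real_inner_le_norm (s : E (d + 1)) (t : E (d + 1))
  rw [hs, ht, mul_one] at h1
  have h2 : k₁ ^ 2 ≤ 1 := by nlinarith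
  nlinarith

theorem q_pos' (hk0 : 0 < k) (hk : k < 1) {a : ℝ} (ha : a ∈ Icc (-1 : ℝ) 1) :
    √(1 - k ^ 2) ≤ √(1 - (k * a) ^ 2) ∧ 0 < √(1 - k ^ 2) := by
  have h1 : a ^ 2 ≤ 1 := by nlinarith [ha.1, ha.2]
  constructor
  · apply Real.sqrt_le_sqrt
    nlinarith [mul_pow k a 2, sq_nonneg k]
  · exact Real.sqrt_pos.2 (by nlinarith)

/-- The part of the integrand which depends on `k₁`. -/
noncomputable def fpart (d : ℕ) (k k₁ a : ℝ) : ℝ :=
  (k * (√(1 - (k * a) ^ 2))⁻¹) ^ d * (k₁ * (√(1 - (k₁ * a) ^ 2))⁻¹) * √(1 - a ^ 2) ^ d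

theorem measurable_fpart (d : ℕ) (k k₁ : ℝ) : Measurable (fpart d k k₁) := by
  unfold fpart
  fun_prop

theorem abs_fpart_le (hd : 1 ≤ d) (hk0 : 0 < k) (hk : k < 1) (hk10 : 0 ≤ k₁) (hk1 : k₁ ≤ 1) {a : ℝ}
    (ha : a ∈ Icc (-1 : ℝ) 1) : ‖fpart d k k₁ a‖ ≤ (k * (√(1 - k ^ 2))⁻¹) ^ d := by
  obtain ⟨h1, h2⟩ := q_pos' hk0 hk ha
  have h3 : 0 < √(1 - (k * a) ^ 2) := h2.trans_le h1
  have ha2 : a ^ 2 ≤ 1 := by nlinarith [ha.1, ha.2]
  have h4 : √(1 - a ^ 2) ≤ √(1 - (k₁ * a) ^ 2) := by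
    apply Real.sqrt_le_sqrt
    have : k₁ ^ 2 ≤ 1 := by nlinarith
    nlinarith [mul_pow k₁ a 2, sq_nonneg a]
  have h5 : 0 ≤ √(1 - a ^ 2) := Real.sqrt_nonneg _
  have h6 : √(1 - a ^ 2) ≤ 1 := Real.sqrt_le_one.mpr (by nlinarith)
  have h7 : k₁ * (√(1 - (k₁ * a) ^ 2))⁻¹ * √(1 - a ^ 2) ^ d ≤ 1 := by
    obtain ⟨e, rfl⟩ : ∃ e, d = e + 1 := ⟨d - 1, by omega⟩
    rcases h5.eq_or_lt with h0 | h0
    · rw [← h0]; simp
    · have h8 : 0 < √(1 - (k₁ * a) ^ 2) := h0.trans_le h4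
      have h9 : (√(1 - (k₁ * a) ^ 2))⁻¹ * √(1 - a ^ 2) ≤ 1 := by
        rw [inv_mul_le_iff₀ h8, mul_one]
        exact h4
      have h10 : √(1 - a ^ 2) ^ e ≤ 1 := pow_le_one₀ h5 h6
      calc k₁ * (√(1 - (k₁ * a) ^ 2))⁻¹ * √(1 - a ^ 2) ^ (e + 1)
          = k₁ * ((√(1 - (k₁ * a) ^ 2))⁻¹ * √(1 - a ^ 2)) * √(1 - a ^ 2) ^ e := by ring
        _ ≤ 1 * 1 * 1 := by
            have : 0 ≤ (√(1 - (k₁ * a) ^ 2))⁻¹ * √(1 - a ^ 2) := by positivity
            gcongr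
        _ = 1 := by norm_num
  have h11 : 0 ≤ k₁ * (√(1 - (k₁ * a) ^ 2))⁻¹ * √(1 - a ^ 2) ^ d := by positivity
  have h12 : (k * (√(1 - (k * a) ^ 2))⁻¹) ^ d ≤ (k * (√(1 - k ^ 2))⁻¹) ^ d := by gcongr
  unfold fpart
  rw [Real.norm_eq_abs, mul_assoc, abs_mul, abs_of_nonneg h11, abs_of_nonneg (by positivity)]
  calc (k * (√(1 - (k * a) ^ 2))⁻¹) ^ d * (k₁ * (√(1 - (k₁ * a) ^ 2))⁻¹ * √(1 - a ^ 2) ^ d)
      ≤ (k * (√(1 - k ^ 2))⁻¹) ^ d * 1 := by gcongr
    _ = _ := mul_one _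

theorem intervalIntegrable_fpart (hd : 1 ≤ d) (hk0 : 0 < k) (hk : k < 1) (hk10 : 0 ≤ k₁)
    (hk1 : k₁ ≤ 1) : IntervalIntegrable (fpart d k k₁) volume (-1) 1 := by
  rw [intervalIntegrable_iff_integrableOn_Icc_of_le (by norm_num)]
  refine Integrable.mono' (integrableOn_const (C := (k * (√(1 - k ^ 2))⁻¹) ^ d) (by simp))
    (measurable_fpart d k k₁).aestronglyMeasurable ?_
  rw [ae_restrict_iff' measurableSet_Icc]
  exact Eventually.of_forall fun a ha => abs_fpart_le hd hk0 hk hk10 hk1 ha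

/-- The calibration inequality with the integrals evaluated. -/
theorem core_slice (hd : 1 ≤ d) {R : ℝ} (hR0 : 0 < R) (hR1 : R < π / 2) (hkk : sin R ≤ k₁)
    (hk1 : k₁ < 1) (hcrit : ∀ r, 0 ≤ r → r ≤ sin R → Crit d r) {γ : Sph (d + 1) → X}
    (hγ : ∀ s t : Sph (d + 1), chord k₁ (s : E (d + 1)) (t : E (d + 1)) ≤ dist (γ s) (γ t))
    {m : ℕ} {q : Fin m → E (d + 1) → X}
    {G : Fin m → E (d + 1) → Matrix (Fin (d + 1)) (Fin (d + 1)) ℝ}
    (hq : ∀ j, IsRiemannianCube (q j) (G j)) (hb : HasBoundary q γ) :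
    (d + 1) * (volume : Measure (E d)).real (ball 0 1) *
        (∫ a in (-1 : ℝ)..1, fpart d (sin R) k₁ a) -
      d / (rho d (sin R) / rho d k₁) * capVolume (d + 1) R ≤
      (rho d (sin R) / rho d k₁) ^ d * ∑ j, cubeVolume (G j) := by
  set k := sin R with hkdef
  have hk0 : 0 < k := sin_pos_of_pos_of_lt_pi hR0 (by linarith)
  have hk : k < 1 := lt_of_le_of_lt hkk hk1
  have hk10 : 0 ≤ k₁ := hk0.le.trans hkk
  have h := core hd hk0 hk hkk hk1 hcrit hγ hq hb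
  have heta : eta d k k₁ = rho d k / rho d k₁ := by rw [eta]
  rw [heta] at h
  set c := (d : ℝ) / (rho d k / rho d k₁) with hc
  -- slicing of the full density
  have hdm : ∀ k₁ c : ℝ, Measurable (dens d k k₁ c) := by
    intro k₁ c
    unfold dens
    fun_prop
  have hdb : ∀ k₁ c : ℝ, 0 ≤ k₁ → k₁ < 1 → ∃ C, ∀ a ∈ Icc (-1 : ℝ) 1, |dens d k k₁ c a| ≤ C := by
    intro k₁ c h0 h1
    have hco : ContinuousOn (dens d k k₁ c) (Icc (-1) 1) := by
      have hne : ∀ κ : ℝ, 0 ≤ κ → κ < 1 → ContinuousOn (fun a : ℝ => κ * (√(1 - (κ * a) ^ 2))⁻¹)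
          (Icc (-1) 1) := by
        intro κ hκ0 hκ1
        refine continuousOn_const.mul (ContinuousOn.inv₀ (by fun_prop) fun a ha => ?_)
        refine (Real.sqrt_pos.2 ?_).ne'
        have h1 : a ^ 2 ≤ 1 := by nlinarith [ha.1, ha.2]
        nlinarith [mul_pow κ a 2, sq_nonneg κ]
      unfold dens
      exact ((hne k hk0.le hk).pow d).mul ((continuousOn_const.mul (hne k₁ h0 h1)).sub
        (continuousOn_const.mul (hne k hk0.le hk)))
    obtain ⟨C, hC⟩ := isCompact_Icc.exists_bound_of_continuousOn hco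
    exact ⟨C, fun a ha => hC a ha⟩
  obtain ⟨C, hC⟩ := hdb k₁ c hk10 hk1
  obtain ⟨C', hC'⟩ := hdb k d hk0.le hk
  have h1 := slice (d := d) (hdm k₁ c) hC
  have h2 := slice (d := d) (hdm k d) hC'
  rw [int_ball_self hd hk0 hk, int_cap d hR0 hR1] at h2
  have hsplit : ∀ a : ℝ, dens d k k₁ c a * √(1 - a ^ 2) ^ d =
      (d + 1) * fpart d k k₁ a - c * (dens d k k d a * √(1 - a ^ 2) ^ d) := by
    intro a
    rw [dens_self]
    unfold dens fpart
    ring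
  have hi1 := (intervalIntegrable_fpart hd hk0 hk hk10 hk1.le).const_mul (d + 1 : ℝ)
  have hi2 : IntervalIntegrable (fun a => c * (dens d k k d a * √(1 - a ^ 2) ^ d)) volume (-1) 1 := by
    refine IntervalIntegrable.const_mul ?_ c
    rw [intervalIntegrable_iff_integrableOn_Icc_of_le (by norm_num)]
    refine Integrable.mono' (integrableOn_const (C := C') (by simp))
      (((hdm k d).mul (by fun_prop)).aestronglyMeasurable) ?_
    rw [ae_restrict_iff' measurableSet_Icc]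
    refine Eventually.of_forall fun a ha => ?_
    rw [Real.norm_eq_abs, abs_mul, abs_of_nonneg (by positivity : 0 ≤ √(1 - a ^ 2) ^ d)]
    have h3 : √(1 - a ^ 2) ^ d ≤ 1 :=
      pow_le_one₀ (Real.sqrt_nonneg _) (Real.sqrt_le_one.mpr (by nlinarith [sq_nonneg a]))
    calc |dens d k k d a| * √(1 - a ^ 2) ^ d ≤ C' * 1 := by
          have := hC' a ha
          have h0 := (abs_nonneg (dens d k k d a)).trans this
          gcongr
      _ = C' := mul_one _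
  simp only [hsplit] at h1
  rw [intervalIntegral.integral_sub hi1 hi2, intervalIntegral.integral_const_mul,
    intervalIntegral.integral_const_mul] at h1
  rw [h1] at h
  have h4 : (volume : Measure (E d)).real (ball 0 1) * ((d + 1) *
      (∫ a in (-1 : ℝ)..1, fpart d k k₁ a) - c * ∫ a in (-1 : ℝ)..1, dens d k k d a *
        √(1 - a ^ 2) ^ d) = (d + 1) * (volume : Measure (E d)).real (ball 0 1) *
        (∫ a in (-1 : ℝ)..1, fpart d k k₁ a) - c * capVolume (d + 1) R := by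
    rw [h2]
    ring
  rw [h4] at h
  exact h

theorem fpart_one (hd : 1 ≤ d) (R : ℝ) :
    ∫ a in (-1 : ℝ)..1, fpart d (sin R) 1 a = sin R ^ d * sliceInt d R := by
  unfold sliceInt
  rw [← intervalIntegral.integral_const_mul]
  refine intervalIntegral.integral_congr_ae ?_
  have h1 : ∀ᵐ a : ℝ ∂volume, a ≠ 1 := by
    rw [ae_iff]
    simp
  have h2 : ∀ᵐ a : ℝ ∂volume, a ≠ -1 := by
    rw [ae_iff]
    simp
  filter_upwards [h1, h2] with a ha1 ha2 ha
  rw [uIoc_of_le (by norm_num)] at ha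
  have h3 : 0 < 1 - a ^ 2 := by
    have h4 : a < 1 := lt_of_le_of_ne ha.2 ha1
    nlinarith [ha.1]
  have h5 := Real.sqrt_pos.2 h3
  obtain ⟨e, rfl⟩ : ∃ e, d = e + 1 := ⟨d - 1, by omega⟩
  unfold fpart
  rw [Nat.add_sub_cancel, one_mul, one_mul, pow_succ (√(1 - a ^ 2)) e, mul_pow, inv_pow,
    div_eq_mul_inv]
  field_simp

theorem tendsto_fpart (hd : 1 ≤ d) (hk0 : 0 < k) (hk : k < 1) :
    Tendsto (fun k₁ => ∫ a in (-1 : ℝ)..1, fpart d k k₁ a) (𝓝[<] 1)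
      (𝓝 (∫ a in (-1 : ℝ)..1, fpart d k 1 a)) := by
  have hev : ∀ᶠ k₁ : ℝ in 𝓝[<] 1, 0 ≤ k₁ ∧ k₁ ≤ 1 := by
    filter_upwards [Ioo_mem_nhdsLT (show (0 : ℝ) < 1 by norm_num)] with x hx
    exact ⟨hx.1.le, hx.2.le⟩
  refine intervalIntegral.tendsto_integral_filter_of_dominated_convergence
    (fun _ => (k * (√(1 - k ^ 2))⁻¹) ^ d) ?_ ?_ ?_ ?_
  · exact Eventually.of_forall fun k₁ => (measurable_fpart d k k₁).aestronglyMeasurable
  · filter_upwards [hev] with k₁ hk₁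
    refine Eventually.of_forall fun a ha => ?_
    rw [uIoc_of_le (by norm_num)] at ha
    exact abs_fpart_le hd hk0 hk hk₁.1 hk₁.2 ⟨ha.1.le, ha.2⟩
  · exact intervalIntegrable_const
  · have h1 : ∀ᵐ a : ℝ ∂volume, a ≠ 1 := by
      rw [ae_iff]
      simp
    filter_upwards [h1] with a ha1 ha
    rw [uIoc_of_le (by norm_num)] at ha
    have h3 : 0 < 1 - (1 * a) ^ 2 := by
      have h4 : a < 1 := lt_of_le_of_ne ha.2 ha1
      nlinarith [ha.1]
    have h5 : ContinuousAt (fun k₁ : ℝ => fpart d k k₁ a) 1 := by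
      unfold fpart
      have h6 : ContinuousAt (fun k₁ : ℝ => (√(1 - (k₁ * a) ^ 2))⁻¹) 1 :=
        ContinuousAt.inv₀ (by fun_prop) (Real.sqrt_pos.2 h3).ne'
      exact (continuousAt_const.mul (continuousAt_id.mul h6)).mul continuousAt_const
    exact h5.tendsto.mono_left nhdsWithin_le_nhds

/-- The bound for all fillings. -/
theorem fill_bound_aux (hd : 1 ≤ d) {R : ℝ} (hR0 : 0 < R) (hR1 : R < π / 2)
    (hcrit : ∀ r, 0 ≤ r → r ≤ sin R → Crit d r) {γ : Sph (d + 1) → X}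
    (hns : ∀ s t : Sph (d + 1), arccos ⟪(s : E (d + 1)), (t : E (d + 1))⟫ ≤ dist (γ s) (γ t))
    {m : ℕ} {q : Fin m → E (d + 1) → X}
    {G : Fin m → E (d + 1) → Matrix (Fin (d + 1)) (Fin (d + 1)) ℝ}
    (hq : ∀ j, IsRiemannianCube (q j) (G j)) (hb : HasBoundary q γ) :
    ((d + 1) * (volume : Measure (E d)).real (ball 0 1) * sin R ^ d *
      sliceInt d R - d / lag d R * capVolume (d + 1) R) / lag d R ^ d ≤
      ∑ j, cubeVolume (G j) := by
  have hk0 : 0 < sin R := sin_pos_of_pos_of_lt_pi hR0 (by linarith)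
  have hk : sin R < 1 := by
    have := sin_lt_sin_of_lt_of_le_pi_div_two (x := R) (y := π / 2) (by linarith) le_rfl hR1
    rwa [sin_pi_div_two] at this
  have hr1 : 0 < rho d 1 := rho_pos one_pos le_rfl
  have hrk : 0 < rho d (sin R) := rho_pos hk0 hk.le
  have hlag : 0 < lag d R := div_pos hrk hr1
  have hev : ∀ᶠ k₁ : ℝ in 𝓝[<] 1, (d + 1) * (volume : Measure (E d)).real (ball 0 1) *
        (∫ a in (-1 : ℝ)..1, fpart d (sin R) k₁ a) -
      d / (rho d (sin R) / rho d k₁) * capVolume (d + 1) R ≤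
      (rho d (sin R) / rho d k₁) ^ d * ∑ j, cubeVolume (G j) := by
    filter_upwards [Ioo_mem_nhdsLT hk] with k₁ hk₁
    exact core_slice hd hR0 hR1 hk₁.1.le hk₁.2 hcrit
      (chord_le_of_noShort (hk0.le.trans hk₁.1.le) hk₁.2.le hns) hq hb
  have hrho : Tendsto (fun k₁ => rho d (sin R) / rho d k₁) (𝓝[<] 1)
      (𝓝 (rho d (sin R) / rho d 1)) := by
    have h1 : ContinuousAt (fun k₁ => rho d (sin R) / rho d k₁) 1 :=
      continuousAt_const.div continuous_rho.continuousAt hr1.ne'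
    exact h1.tendsto.mono_left nhdsWithin_le_nhds
  have hL := ((tendsto_fpart hd hk0 hk).const_mul
      ((d + 1) * (volume : Measure (E d)).real (ball 0 1))).sub
      (((tendsto_const_nhds (x := (d : ℝ))).div hrho hlag.ne').mul_const (capVolume (d + 1) R))
  have hRt := (hrho.pow d).mul_const (∑ j, cubeVolume (G j))
  have h := le_of_tendsto_of_tendsto hL hRt hev
  rw [fpart_one hd] at h
  rw [div_le_iff₀ (pow_pos hlag d)]
  unfold lag
  linarith

end Pool.Agent.H65G
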