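import Pool.Agent.H65G.Lag

set_option autoImplicit false

open Real Set MeasureTheory Metric Filter Topology

namespace Pool.Agent.H65G

theorem vol_one : (volume : Measure (EuclideanSpace ℝ (Fin 1))).real (Metric.ball 0 1) = 2 := by
  rw [measureReal_def, EuclideanSpace.volume_ball]
  have h1 : Real.Gamma ((1 : ℝ) / 2 + 1) = √π / 2 := by
    rw [Real.Gamma_add_one (by norm_num), Real.Gamma_one_half_eq]
    ring
  have h2 : √π ≠ 0 := (Real.sqrt_pos.2 Real.pi_pos).ne'
  simp only [ENNReal.ofReal_one, one_mul, Fintype.card_fin, pow_one, Nat.cast_one, h1]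
  rw [ENNReal.toReal_ofReal (by positivity)]
  field_simp

theorem vol_two : (volume : Measure (EuclideanSpace ℝ (Fin 2))).real (Metric.ball 0 1) = π := by
  rw [measureReal_def, EuclideanSpace.volume_ball_fin_two]
  simp [Real.pi_pos.le]

theorem vol_three :
    (volume : Measure (EuclideanSpace ℝ (Fin 3))).real (Metric.ball 0 1) = 4 * π / 3 := by
  rw [measureReal_def, EuclideanSpace.volume_ball_fin_three]
  have : 0 ≤ π * 4 / 3 := by positivity
  simp [this]
  ring

theorem sphereArea_two : sphereArea 2 = 2 * π := by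
  rw [sphereArea, vol_two]; norm_num

theorem sphereArea_three : sphereArea 3 = 4 * π := by
  rw [sphereArea, vol_three]; push_cast; ring

theorem cap_two (R : ℝ) : capVolume 2 R = 2 * π * (1 - cos R) := by
  rw [capVolume, sphereArea_two]
  congr 1
  have : ∀ θ : ℝ, sin θ ^ (2 - 1) = sin θ := fun θ => pow_one _
  simp only [this]
  rw [integral_sin, cos_zero]

theorem cap_three (R : ℝ) : capVolume 3 R = 2 * π * (R - sin R * cos R) := by
  rw [capVolume, sphereArea_three]
  have : ∀ θ : ℝ, sin θ ^ (3 - 1) = sin θ ^ 2 := fun θ => rfl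
  simp only [this]
  rw [integral_sin_sq, sin_zero]
  ring

theorem hemi_two : hemisphereVolume 2 = 2 * π := by
  have h := cap_two (π / 2)
  rw [cos_pi_div_two] at h
  unfold hemisphereVolume
  unfold capVolume at h
  linarith

theorem hemi_three : hemisphereVolume 3 = π ^ 2 := by
  have h := cap_three (π / 2)
  rw [cos_pi_div_two] at h
  unfold hemisphereVolume
  unfold capVolume at h
  rw [h]
  ring

variable {R : ℝ}

theorem sin_R_pos (hR0 : 0 < R) (hR1 : R < π / 2) : 0 < sin R :=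
  sin_pos_of_pos_of_lt_pi hR0 (by linarith)

theorem sin_R_lt (hR0 : 0 < R) (hR1 : R < π / 2) : sin R < 1 := by
  have := sin_lt_sin_of_lt_of_le_pi_div_two (x := R) (y := π / 2) (by linarith) le_rfl hR1
  rwa [sin_pi_div_two] at this

theorem one_sub_pos' {k : ℝ} (hk0 : 0 ≤ k) (hk : k < 1) {a : ℝ} (ha : a ∈ Icc (-1 : ℝ) 1) :
    0 < 1 - (k * a) ^ 2 := by
  have h1 : a ^ 2 ≤ 1 := by nlinarith [ha.1, ha.2]
  nlinarith [mul_pow k a 2, sq_nonneg k]

theorem hasDerivAt_arcsin_mul {k : ℝ} (hk0 : 0 ≤ k) (hk : k < 1) {a : ℝ}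
    (ha : a ∈ Icc (-1 : ℝ) 1) :
    HasDerivAt (fun t => arcsin (k * t)) (k / √(1 - (k * a) ^ 2)) a := by
  have h1 := one_sub_pos' hk0 hk ha
  have h3 := abs_lt.1 ((sq_lt_one_iff_abs_lt_one _).1 (by linarith : (k * a) ^ 2 < 1))
  have h4 : HasDerivAt (fun t : ℝ => k * t) k a := by
    simpa using (hasDerivAt_id a).const_mul k
  have h5 : HasDerivAt (fun t => arcsin (k * t)) (1 / √(1 - (k * a) ^ 2) * k) a :=
    HasDerivAt.comp (h₂ := arcsin) (h := fun t : ℝ => k * t) a
      (hasDerivAt_arcsin (by linarith [h3.1]) (by linarith [h3.2])) h4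
  refine h5.congr_deriv ?_
  ring

theorem int_inv_sqrt (hR0 : 0 < R) (hR1 : R < π / 2) :
    ∫ a in (-1 : ℝ)..1, sin R / √(1 - (sin R * a) ^ 2) = 2 * R := by
  have hk0 := sin_R_pos hR0 hR1
  have hk := sin_R_lt hR0 hR1
  have hc : ContinuousOn (fun a : ℝ => sin R / √(1 - (sin R * a) ^ 2)) (uIcc (-1) 1) := by
    rw [uIcc_of_le (by norm_num)]
    exact continuousOn_const.div (by fun_prop) fun a ha =>
      (Real.sqrt_pos.2 (one_sub_pos' hk0.le hk ha)).ne'
  rw [intervalIntegral.integral_eq_sub_of_hasDerivAt (f := fun t => arcsin (sin R * t))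
    (fun x hx => by
      rw [uIcc_of_le (by norm_num)] at hx
      exact hasDerivAt_arcsin_mul hk0.le hk hx) hc.intervalIntegrable]
  have h1 : arcsin (sin R) = R := arcsin_sin (by linarith) hR1.le
  simp only [mul_one, mul_neg, arcsin_neg, h1]
  ring

theorem sliceInt_one (hR0 : 0 < R) (hR1 : R < π / 2) : sin R * sliceInt 1 R = 2 * R := by
  rw [← int_inv_sqrt hR0 hR1, sliceInt, ← intervalIntegral.integral_const_mul]
  congr 1
  ext1 a
  simp [div_eq_mul_inv]

theorem fillBound_one (hR0 : 0 < R) (hR1 : R < π / 2) :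
    fillBound 1 R = (8 * R - 2 * π * (1 - cos R) / lagFactor 1 R) / lagFactor 1 R := by
  have h := sliceInt_one hR0 hR1
  rw [fillBound, vol_one, show (1 + 1 : ℕ) = 2 from rfl, cap_two]
  have e : ((1 : ℕ) + 1 : ℝ) * 2 * sin R ^ 1 * sliceInt 1 R = 8 * R := by
    rw [pow_one, mul_assoc, h]; push_cast; ring
  rw [e, pow_one, Nat.cast_one]
  ring

/-- Doubling, lower bound. -/
theorem cos_lower {x a b : ℝ} (h : a ≤ cos x) (ha : 0 ≤ a) (hb : b ≤ 2 * a ^ 2 - 1) :
    b ≤ cos (2 * x) := by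
  rw [cos_two_mul]
  nlinarith

theorem cos_upper {x a b : ℝ} (h : cos x ≤ a) (h0 : 0 ≤ cos x) (hb : 2 * a ^ 2 - 1 ≤ b) :
    cos (2 * x) ≤ b := by
  rw [cos_two_mul]
  nlinarith

theorem cos_119 : 0.37 ≤ cos 1.1916 := by
  have h0 : (0.99930668 : ℝ) ≤ cos 0.0372375 := by
    have := one_sub_sq_div_two_le_cos (x := 0.0372375)
    refine le_trans ?_ this
    norm_num
  have h1 := cos_lower (b := 0.9972276) h0 (by norm_num) (by norm_num)
  have h2 := cos_lower (b := 0.9889257) h1 (by norm_num) (by norm_num)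
  have h3 := cos_lower (b := 0.955948) h2 (by norm_num) (by norm_num)
  have h4 := cos_lower (b := 0.827672) h3 (by norm_num) (by norm_num)
  have h5 := cos_lower (b := 0.37) h4 (by norm_num) (by norm_num)
  have e : (2 : ℝ) * (2 * (2 * (2 * (2 * 0.0372375)))) = 1.1916 := by norm_num
  rwa [e] at h5

theorem cos_10352 : 0.51 ≤ cos 1.0352 := by
  have h0 : (0.9979069 : ℝ) ≤ cos 0.0647 := by
    have := one_sub_sq_div_two_le_cos (x := 0.0647)
    refine le_trans ?_ this
    norm_num
  have h1 := cos_lower (b := 0.9916363) h0 (by norm_num) (by norm_num)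
  have h2 := cos_lower (b := 0.966685) h1 (by norm_num) (by norm_num)
  have h3 := cos_lower (b := 0.868958) h2 (by norm_num) (by norm_num)
  have h4 := cos_lower (b := 0.51) h3 (by norm_num) (by norm_num)
  have e : (2 : ℝ) * (2 * (2 * (2 * 0.0647))) = 1.0352 := by norm_num
  rwa [e] at h4

theorem cos_10358 : cos 1.0358 ≤ 0.51 := by
  have hb := Real.cos_bound (x := 0.0647375) (by rw [abs_of_pos] <;> norm_num)
  have hb2 := (abs_le.1 hb).2
  rw [abs_of_pos (by norm_num : (0 : ℝ) < 0.0647375)] at hb2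
  have h0 : cos 0.0647375 ≤ (0.9979055 : ℝ) := by
    refine (sub_le_iff_le_add.1 hb2).trans ?_
    norm_num
  have hp : ∀ x : ℝ, 0 ≤ x → x ≤ 1 → 0 ≤ cos x := fun x h1 h2 =>
    cos_nonneg_of_mem_Icc ⟨by linarith [Real.pi_pos], by linarith [Real.pi_gt_three]⟩
  have h1 := cos_upper (b := 0.9916308) h0 (hp _ (by norm_num) (by norm_num)) (by norm_num)
  have h2 := cos_upper (b := 0.9666633) h1 (hp _ (by norm_num) (by norm_num)) (by norm_num)
  have h3 := cos_upper (b := 0.868876) h2 (hp _ (by norm_num) (by norm_num)) (by norm_num)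
  have h4 := cos_upper (b := 0.51) h3 (hp _ (by norm_num) (by norm_num)) (by norm_num)
  have e : (2 : ℝ) * (2 * (2 * (2 * 0.0647375))) = 1.0358 := by norm_num
  rwa [e] at h4

theorem arccos_37 : 1.1916 ≤ arccos 0.37 := by
  have h := Real.arccos_le_arccos cos_119
  rwa [arccos_cos (by norm_num) (by linarith [Real.pi_gt_three])] at h

theorem arccos_51 : 1.0352 ≤ arccos 0.51 ∧ arccos 0.51 ≤ 1.0358 := by
  constructor
  · have h := Real.arccos_le_arccos cos_10352
    rwa [arccos_cos (by norm_num) (by linarith [Real.pi_gt_three])] at h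
  · have h := Real.arccos_le_arccos cos_10358
    rwa [arccos_cos (by norm_num) (by linarith [Real.pi_gt_three])] at h

end Pool.Agent.H65G
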