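import Pool.Agent.H65G.NumA

set_option autoImplicit false

open Real Set MeasureTheory Metric Filter Topology

namespace Pool.Agent.H65G

theorem inv_sqrt_lower {x : ℝ} (_ : 0 ≤ x) (h1 : x < 1) :
    1 + x / 2 + 3 * x ^ 2 / 8 + 5 * x ^ 3 / 16 ≤ 1 / √(1 - x) := by
  set y := √(1 - x) with hy
  have hy0 : 0 < y := Real.sqrt_pos.2 (by linarith)
  have hx : x = 1 - y ^ 2 := by rw [hy, Real.sq_sqrt (by linarith)]; ring
  rw [le_div_iff₀ hy0, hx]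
  have : 0 ≤ (1 - y) ^ 4 * (16 + 29 * y + 20 * y ^ 2 + 5 * y ^ 3) := by positivity
  nlinarith

theorem inv_sqrt_upper {x : ℝ} (_ : 0 ≤ x) (h1 : x < 1) :
    1 / √(1 - x) ≤ 1 + x / 2 + 3 * x ^ 2 / 8 + 5 * x ^ 3 / 16 + 35 * x ^ 4 / 128 +
      63 / 256 * x ^ 5 / (1 - x) := by
  set y := √(1 - x) with hy
  have hy0 : 0 < y := Real.sqrt_pos.2 (by linarith)
  have hy2 : y ^ 2 = 1 - x := Real.sq_sqrt (by linarith)
  have hx : x = 1 - y ^ 2 := by rw [hy2]; ring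
  rw [← hy2, hx]
  have h : 0 ≤ (1 - y) ^ 6 * (63 + 122 * y + 102 * y ^ 2 + 42 * y ^ 3 + 7 * y ^ 4) := by positivity
  have e : 1 + (1 - y ^ 2) / 2 + 3 * (1 - y ^ 2) ^ 2 / 8 + 5 * (1 - y ^ 2) ^ 3 / 16 +
      35 * (1 - y ^ 2) ^ 4 / 128 + 63 / 256 * (1 - y ^ 2) ^ 5 / y ^ 2 - 1 / y =
      (1 - y) ^ 6 * (63 + 122 * y + 102 * y ^ 2 + 42 * y ^ 3 + 7 * y ^ 4) / (256 * y ^ 2) := by
    field_simp
    ring
  have h2 : 0 ≤ (1 - y) ^ 6 * (63 + 122 * y + 102 * y ^ 2 + 42 * y ^ 3 + 7 * y ^ 4) /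
    (256 * y ^ 2) := by positivity
  linarith

theorem j0 : jint 1 0 = π / 2 := by
  unfold jint
  rw [← integral_sqrt_one_sub_sq]
  congr 1
  ext1 a
  ring

theorem j2 : jint 1 2 = π / 2 * (1 / 4) := by
  have := jint_succ 1 0
  rw [j0] at this
  norm_num at this
  linarith

theorem j4 : jint 1 4 = π / 2 * (1 / 8) := by
  have := jint_succ 1 2
  rw [j2] at this
  norm_num at this
  linarith

theorem j6 : jint 1 6 = π / 2 * (5 / 64) := by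
  have := jint_succ 1 4
  rw [j4] at this
  norm_num at this
  linarith

theorem j8 : jint 1 8 = π / 2 * (7 / 128) := by
  have := jint_succ 1 6
  rw [j6] at this
  norm_num at this
  linarith

theorem j10 : jint 1 10 = π / 2 * (21 / 512) := by
  have := jint_succ 1 8
  rw [j8] at this
  norm_num at this
  linarith

theorem int_poly (c0 c2 c4 c6 c8 c10 : ℝ) :
    ∫ a in (-1 : ℝ)..1, √(1 - a ^ 2) * (c0 + c2 * a ^ 2 + c4 * a ^ 4 + c6 * a ^ 6 + c8 * a ^ 8 +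
      c10 * a ^ 10) = π / 2 * (c0 + c2 / 4 + c4 / 8 + c6 * (5 / 64) + c8 * (7 / 128) +
        c10 * (21 / 512)) := by
  have e : ∀ a : ℝ, √(1 - a ^ 2) * (c0 + c2 * a ^ 2 + c4 * a ^ 4 + c6 * a ^ 6 + c8 * a ^ 8 +
      c10 * a ^ 10) = c0 * (a ^ 0 * √(1 - a ^ 2) ^ 1) + c2 * (a ^ 2 * √(1 - a ^ 2) ^ 1) +
      c4 * (a ^ 4 * √(1 - a ^ 2) ^ 1) + c6 * (a ^ 6 * √(1 - a ^ 2) ^ 1) +
      c8 * (a ^ 8 * √(1 - a ^ 2) ^ 1) + c10 * (a ^ 10 * √(1 - a ^ 2) ^ 1) := fun a => by ring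
  simp only [e]
  have hi : ∀ (c : ℝ) (m : ℕ), IntervalIntegrable (fun a : ℝ => c * (a ^ m * √(1 - a ^ 2) ^ 1))
      volume (-1) 1 := fun c m => Continuous.intervalIntegrable (by fun_prop) _ _
  have hc : ∀ (c : ℝ) (m : ℕ), ∫ a in (-1 : ℝ)..1, c * (a ^ m * √(1 - a ^ 2) ^ 1) =
      c * jint 1 m := fun c m => by rw [intervalIntegral.integral_const_mul, jint]
  rw [intervalIntegral.integral_add ((((hi c0 0).add (hi c2 2)).add (hi c4 4)).add (hi c6 6) |>.add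
      (hi c8 8)) (hi c10 10),
    intervalIntegral.integral_add ((((hi c0 0).add (hi c2 2)).add (hi c4 4)).add (hi c6 6)) (hi c8 8),
    intervalIntegral.integral_add (((hi c0 0).add (hi c2 2)).add (hi c4 4)) (hi c6 6),
    intervalIntegral.integral_add ((hi c0 0).add (hi c2 2)) (hi c4 4),
    intervalIntegral.integral_add (hi c0 0) (hi c2 2)]
  simp only [hc, j0, j2, j4, j6, j8, j10]
  ring

/-- The numerator of the lag factor for `d = 1`. -/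
theorem lag_one_aux {k : ℝ} (hk0 : 0 ≤ k) (hk : k < 1) :
    π / 2 * (1 + k ^ 2 / 8 + 3 * k ^ 4 / 64 + 25 * k ^ 6 / 1024) ≤
      ∫ a in (-1 : ℝ)..1, √(1 - a ^ 2) / √(1 - (k * a) ^ 2) ∧
    ∫ a in (-1 : ℝ)..1, √(1 - a ^ 2) / √(1 - (k * a) ^ 2) ≤
      π / 2 * (1 + k ^ 2 / 8 + 3 * k ^ 4 / 64 + 25 * k ^ 6 / 1024 + 245 * k ^ 8 / 16384 +
        1323 / 131072 * k ^ 10 / (1 - k ^ 2)) := by
  have hk2 : 0 < 1 - k ^ 2 := by nlinarith
  have hc : IntervalIntegrable (fun a : ℝ => √(1 - a ^ 2) / √(1 - (k * a) ^ 2)) volume (-1) 1 := by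
    apply ContinuousOn.intervalIntegrable
    rw [uIcc_of_le (by norm_num)]
    exact ContinuousOn.div (by fun_prop) (by fun_prop) fun a ha =>
      (Real.sqrt_pos.2 (one_sub_pos' hk0 hk ha)).ne'
  constructor
  · have h1 := int_poly 1 (k ^ 2 / 2) (3 * k ^ 4 / 8) (5 * k ^ 6 / 16) 0 0
    have h2 : π / 2 * (1 + k ^ 2 / 8 + 3 * k ^ 4 / 64 + 25 * k ^ 6 / 1024) =
        ∫ a in (-1 : ℝ)..1, √(1 - a ^ 2) * (1 + k ^ 2 / 2 * a ^ 2 + 3 * k ^ 4 / 8 * a ^ 4 +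
          5 * k ^ 6 / 16 * a ^ 6 + 0 * a ^ 8 + 0 * a ^ 10) := by
      rw [h1]
      ring
    rw [h2]
    refine intervalIntegral.integral_mono_on (by norm_num)
      (Continuous.intervalIntegrable (by fun_prop) _ _) hc fun a ha => ?_
    have h3 := inv_sqrt_lower (x := (k * a) ^ 2) (sq_nonneg _)
      (by linarith [one_sub_pos' hk0 hk ha])
    rw [div_eq_mul_one_div (√(1 - a ^ 2))]
    refine mul_le_mul_of_nonneg_left (le_trans (le_of_eq ?_) h3) (Real.sqrt_nonneg _)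
    ring
  · have h1 := int_poly 1 (k ^ 2 / 2) (3 * k ^ 4 / 8) (5 * k ^ 6 / 16) (35 * k ^ 8 / 128)
      (63 / 256 * k ^ 10 / (1 - k ^ 2))
    have h2 : π / 2 * (1 + k ^ 2 / 8 + 3 * k ^ 4 / 64 + 25 * k ^ 6 / 1024 + 245 * k ^ 8 / 16384 +
        1323 / 131072 * k ^ 10 / (1 - k ^ 2)) =
        ∫ a in (-1 : ℝ)..1, √(1 - a ^ 2) * (1 + k ^ 2 / 2 * a ^ 2 + 3 * k ^ 4 / 8 * a ^ 4 +
          5 * k ^ 6 / 16 * a ^ 6 + 35 * k ^ 8 / 128 * a ^ 8 +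
          63 / 256 * k ^ 10 / (1 - k ^ 2) * a ^ 10) := by
      rw [h1]
      ring
    rw [h2]
    refine intervalIntegral.integral_mono_on (by norm_num) hc
      (Continuous.intervalIntegrable (by fun_prop) _ _) fun a ha => ?_
    have hp := one_sub_pos' hk0 hk ha
    have h3 := inv_sqrt_upper (x := (k * a) ^ 2) (sq_nonneg _) (by linarith)
    rw [div_eq_mul_one_div (√(1 - a ^ 2))]
    refine mul_le_mul_of_nonneg_left (h3.trans ?_) (Real.sqrt_nonneg _)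
    have h4 : 63 / 256 * ((k * a) ^ 2) ^ 5 / (1 - (k * a) ^ 2) ≤
        63 / 256 * k ^ 10 / (1 - k ^ 2) * a ^ 10 := by
      have h5 : 1 - k ^ 2 ≤ 1 - (k * a) ^ 2 := by
        have h1 : a ^ 2 ≤ 1 := by nlinarith [ha.1, ha.2]
        nlinarith [mul_pow k a 2, sq_nonneg k]
      have e : 63 / 256 * k ^ 10 / (1 - k ^ 2) * a ^ 10 =
          63 / 256 * ((k * a) ^ 2) ^ 5 / (1 - k ^ 2) := by ring
      rw [e]
      gcongr
    have e2 : 1 + (k * a) ^ 2 / 2 + 3 * ((k * a) ^ 2) ^ 2 / 8 + 5 * ((k * a) ^ 2) ^ 3 / 16 +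
        35 * ((k * a) ^ 2) ^ 4 / 128 = 1 + k ^ 2 / 2 * a ^ 2 + 3 * k ^ 4 / 8 * a ^ 4 +
          5 * k ^ 6 / 16 * a ^ 6 + 35 * k ^ 8 / 128 * a ^ 8 := by ring
    rw [e2]
    linarith

theorem lag_one_bounds : 0.845 ≤ lagFactor 1 (arccos 0.37) ∧
    lagFactor 1 (arccos 0.37) ≤ 0.8773 := by
  have hs : sin (arccos 0.37) = √0.8631 := by
    rw [sin_arccos]
    norm_num
  have hk2 : √(0.8631 : ℝ) ^ 2 = 0.8631 := Real.sq_sqrt (by norm_num)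
  have hk0 : 0 ≤ √(0.8631 : ℝ) := Real.sqrt_nonneg _
  have hk1 : √(0.8631 : ℝ) < 1 := by nlinarith
  obtain ⟨h1, h2⟩ := lag_one_aux hk0 hk1
  have hlo : (0.929 : ℝ) ≤ √(0.8631 : ℝ) := Real.le_sqrt_of_sq_le (by norm_num)
  have hhi : √(0.8631 : ℝ) ≤ 0.92904 := Real.sqrt_le_iff.2 ⟨by norm_num, by norm_num⟩
  have hden : ∫ a in (-1 : ℝ)..1, √(1 - a ^ 2) ^ (1 - 1) = 2 := by
    norm_num
  have hnum : ∫ a in (-1 : ℝ)..1, sin (arccos 0.37) * √(1 - a ^ 2) ^ 1 /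
      √(1 - (sin (arccos 0.37) * a) ^ 2) = √(0.8631 : ℝ) *
      ∫ a in (-1 : ℝ)..1, √(1 - a ^ 2) / √(1 - (√(0.8631 : ℝ) * a) ^ 2) := by
    rw [← intervalIntegral.integral_const_mul, hs]
    congr 1
    ext1 a
    ring
  have e : lagFactor 1 (arccos 0.37) = √(0.8631 : ℝ) *
      (∫ a in (-1 : ℝ)..1, √(1 - a ^ 2) / √(1 - (√(0.8631 : ℝ) * a) ^ 2)) / 2 := by
    rw [lagFactor, hden, hnum]
  rw [e]
  set I := ∫ a in (-1 : ℝ)..1, √(1 - a ^ 2) / √(1 - (√(0.8631 : ℝ) * a) ^ 2) with hI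
  set k := √(0.8631 : ℝ) with hk
  have k4 : k ^ 4 = 0.8631 ^ 2 := by rw [← hk2]; ring
  have k6 : k ^ 6 = 0.8631 ^ 3 := by rw [← hk2]; ring
  have k8 : k ^ 8 = 0.8631 ^ 4 := by rw [← hk2]; ring
  have k10 : k ^ 10 = 0.8631 ^ 5 := by rw [← hk2]; ring
  rw [hk2, k4, k6] at h1
  rw [hk2, k4, k6, k8, k10] at h2
  have hp1 := Real.pi_gt_d4
  have hp2 := Real.pi_lt_d4
  have h3 : (1.8197 : ℝ) ≤ I := by
    refine le_trans ?_ h1
    norm_num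
    linarith
  have h4 : I ≤ (1.8883 : ℝ) := by
    refine h2.trans ?_
    norm_num
    linarith
  constructor
  · nlinarith
  · nlinarith

theorem fill_one : 0.91 * hemisphereVolume 2 ≤ fillBound 1 (arccos 0.37) := by
  have hR := arccos_37
  have hR1 : arccos 0.37 < π / 2 := Real.arccos_lt_pi_div_two.2 (by norm_num)
  have hR0 : 0 < arccos 0.37 := by linarith
  obtain ⟨h1, h2⟩ := lag_one_bounds
  rw [hemi_two, fillBound_one hR0 hR1, Real.cos_arccos (by norm_num) (by norm_num)]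
  set η := lagFactor 1 (arccos 0.37) with hη
  have hη0 : 0 < η := by linarith
  have hp2 := Real.pi_lt_d4
  have hp0 := Real.pi_pos
  rw [le_div_iff₀ hη0, le_sub_iff_add_le, ← sub_nonneg]
  have e : 8 * arccos 0.37 - (0.91 * (2 * π) * η + 2 * π * (1 - 0.37) / η) =
      (8 * arccos 0.37 * η - π * (1.82 * η ^ 2 + 1.26)) / η := by
    field_simp
    ring
  rw [e]
  apply div_nonneg _ hη0.le
  have h3 : 9.5328 * η ≤ 8 * arccos 0.37 * η := by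
    have : (9.5328 : ℝ) ≤ 8 * arccos 0.37 := by linarith
    gcongr
  have h4 : π * (1.82 * η ^ 2 + 1.26) ≤ 3.1416 * (1.82 * η ^ 2 + 1.26) := by gcongr
  have h5 : 0 ≤ (η - 0.845) * (0.8773 - η) := mul_nonneg (by linarith) (by linarith)
  nlinarith

end Pool.Agent.H65G
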