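import Pool.Agent.H65G.NumA

set_option autoImplicit false

open Real Set MeasureTheory Metric Filter Topology

namespace Pool.Agent.H65G

variable {R : ℝ}

theorem sliceInt_two (hR0 : 0 < R) (hR1 : R < π / 2) :
    sin R ^ 2 * sliceInt 2 R = π * (1 - cos R) := by
  have hk0 := sin_R_pos hR0 hR1
  have hk := sin_R_lt hR0 hR1
  have hc0 : 0 < cos R := cos_pos_of_mem_Ioo ⟨by linarith, hR1⟩
  have hsc := sin_sq_add_cos_sq R
  set k := sin R with hkdef
  set c := cos R with hcdef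
  have h1 : sin R ^ 2 * sliceInt 2 R =
      ∫ a in (-1 : ℝ)..1, k ^ 2 * (√(1 - a ^ 2) / (1 - (k * a) ^ 2)) := by
    rw [sliceInt, ← intervalIntegral.integral_const_mul]
    refine intervalIntegral.integral_congr fun a ha => ?_
    rw [uIcc_of_le (by norm_num)] at ha
    have hp := one_sub_pos' hk0.le hk ha
    simp only [← hkdef]
    rw [Real.sq_sqrt hp.le]
    norm_num
  rw [h1]
  have hcont : ContinuousOn (fun a : ℝ => arcsin a - c * arcsin (c * a / √(1 - (k * a) ^ 2)))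
      (Icc (-1) 1) := by
    refine continuous_arcsin.continuousOn.sub (continuousOn_const.mul ?_)
    refine continuous_arcsin.comp_continuousOn ?_
    exact ContinuousOn.div (by fun_prop) (by fun_prop) fun a ha =>
      (Real.sqrt_pos.2 (one_sub_pos' hk0.le hk ha)).ne'
  have hint : IntervalIntegrable (fun a : ℝ => k ^ 2 * (√(1 - a ^ 2) / (1 - (k * a) ^ 2)))
      volume (-1) 1 := by
    apply ContinuousOn.intervalIntegrable
    rw [uIcc_of_le (by norm_num)]
    exact continuousOn_const.mul (ContinuousOn.div (by fun_prop) (by fun_prop) fun a ha =>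
      (one_sub_pos' hk0.le hk ha).ne')
  have hder : ∀ x ∈ Ioo (-1 : ℝ) 1,
      HasDerivAt (fun a : ℝ => arcsin a - c * arcsin (c * a / √(1 - (k * a) ^ 2)))
        (k ^ 2 * (√(1 - x ^ 2) / (1 - (k * x) ^ 2))) x := by
    intro x hx
    have hx2 : 0 < 1 - x ^ 2 := by nlinarith [hx.1, hx.2]
    have hp := one_sub_pos' hk0.le hk (Ioo_subset_Icc_self hx)
    have hq := Real.sqrt_pos.2 hp
    have hq2 := Real.sq_sqrt hp.le
    have hy := Real.sqrt_pos.2 hx2
    have hy2 := Real.sq_sqrt hx2.le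
    set q := √(1 - (k * x) ^ 2) with hqd
    set y := √(1 - x ^ 2) with hyd
    have d1 : HasDerivAt arcsin (1 / y) x := hasDerivAt_arcsin (by linarith [hx.1]) (by linarith [hx.2])
    have d2 : HasDerivAt (fun a : ℝ => √(1 - (k * a) ^ 2)) (-(k ^ 2 * x) / q) x := by
      have e1 : HasDerivAt (fun a : ℝ => 1 - (k * a) ^ 2) (-(2 * (k * x) * k)) x := by
        have e2 : HasDerivAt (fun t : ℝ => k * t) k x := by
          simpa using (hasDerivAt_id x).const_mul k
        have e3 := (e2.pow 2).const_sub 1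
        simpa using e3
      refine (e1.sqrt hp.ne').congr_deriv ?_
      rw [← hqd]
      field_simp
    have d3 : HasDerivAt (fun a : ℝ => c * a / √(1 - (k * a) ^ 2)) (c / q ^ 3) x := by
      have e1 : HasDerivAt (fun a : ℝ => c * a) c x := by
        simpa using (hasDerivAt_id x).const_mul c
      refine (e1.div d2 hq.ne').congr_deriv ?_
      rw [← hqd]
      have : (k * x) ^ 2 = 1 - q ^ 2 := by rw [hq2]; ring
      field_simp
      have h3 : k ^ 2 * x ^ 2 = 1 - q ^ 2 := by rw [← this]; ring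
      linear_combination h3
    have hc2' : c ^ 2 = 1 - k ^ 2 := by linarith
    have hz1 : q ^ 2 - (c * x) ^ 2 = y ^ 2 := by
      rw [hq2, hy2, mul_pow, mul_pow, hc2']
      ring
    have hz2 : 1 - (c * x / q) ^ 2 = (y / q) ^ 2 := by
      rw [div_pow, div_pow, ← hz1]
      field_simp
    have hzpos : 0 < y / q := by positivity
    have hz : √(1 - (c * x / q) ^ 2) = y / q := by
      rw [hz2, Real.sqrt_sq hzpos.le]
    have hz3 : (c * x / q) ^ 2 < 1 := by nlinarith
    have hz4 := abs_lt.1 ((sq_lt_one_iff_abs_lt_one _).1 hz3)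
    have d4 : HasDerivAt (fun a : ℝ => arcsin (c * a / √(1 - (k * a) ^ 2)))
        (1 / √(1 - (c * x / q) ^ 2) * (c / q ^ 3)) x :=
      HasDerivAt.comp (h₂ := arcsin) (h := fun a : ℝ => c * a / √(1 - (k * a) ^ 2)) x
        (hasDerivAt_arcsin (by linarith [hz4.1]) (by linarith [hz4.2])) d3
    refine (d1.sub (d4.const_mul c)).congr_deriv ?_
    rw [hz, ← hq2]
    have hc2 : c ^ 2 = 1 - k ^ 2 := by linarith
    have hkx : k ^ 2 * x ^ 2 = 1 - q ^ 2 := by rw [hq2]; ring
    field_simp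
    have e5 : k ^ 2 * y ^ 2 = k ^ 2 - k ^ 2 * x ^ 2 := by rw [hy2]; ring
    linear_combination (-1 : ℝ) * hc2 - e5 + hkx
  rw [intervalIntegral.integral_eq_sub_of_hasDerivAt_of_le (by norm_num) hcont hder hint]
  have hk1 : √(1 - (k * 1) ^ 2) = c := by
    rw [mul_one, show 1 - k ^ 2 = c ^ 2 by linarith, Real.sqrt_sq hc0.le]
  have hk2 : √(1 - (k * -1) ^ 2) = c := by
    rw [mul_neg, mul_one, neg_sq, show 1 - k ^ 2 = c ^ 2 by linarith, Real.sqrt_sq hc0.le]
  rw [hk1, hk2]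
  have e1 : c * 1 / c = 1 := by field_simp
  have e2 : c * -1 / c = -1 := by field_simp
  rw [e1, e2, arcsin_one, arcsin_neg_one]
  ring

theorem lag_two_num (hR0 : 0 < R) (hR1 : R < π / 2) :
    ∫ a in (-1 : ℝ)..1, sin R * √(1 - a ^ 2) ^ 2 / √(1 - (sin R * a) ^ 2) =
      2 * R - (R - sin R * cos R) / sin R ^ 2 := by
  have hk0 := sin_R_pos hR0 hR1
  have hk := sin_R_lt hR0 hR1
  have hc0 : 0 < cos R := cos_pos_of_mem_Ioo ⟨by linarith, hR1⟩
  have hsc := sin_sq_add_cos_sq R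
  have harc : arcsin (sin R) = R := arcsin_sin (by linarith) hR1.le
  set k := sin R with hkdef
  set c := cos R with hcdef
  have hcont : ContinuousOn (fun a : ℝ => k * √(1 - a ^ 2) ^ 2 / √(1 - (k * a) ^ 2))
      (uIcc (-1) 1) := by
    rw [uIcc_of_le (by norm_num)]
    exact ContinuousOn.div (by fun_prop) (by fun_prop) fun a ha =>
      (Real.sqrt_pos.2 (one_sub_pos' hk0.le hk ha)).ne'
  have hder : ∀ x ∈ uIcc (-1 : ℝ) 1,
      HasDerivAt (fun a : ℝ => arcsin (k * a) - (arcsin (k * a) - k * a * √(1 - (k * a) ^ 2)) /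
        (2 * k ^ 2)) (k * √(1 - x ^ 2) ^ 2 / √(1 - (k * x) ^ 2)) x := by
    intro x hx
    rw [uIcc_of_le (by norm_num)] at hx
    have hx2 : 0 ≤ 1 - x ^ 2 := by nlinarith [hx.1, hx.2]
    have hp := one_sub_pos' hk0.le hk hx
    have hq := Real.sqrt_pos.2 hp
    have hq2 := Real.sq_sqrt hp.le
    have d1 := hasDerivAt_arcsin_mul hk0.le hk hx
    set q := √(1 - (k * x) ^ 2) with hqd
    have e2 : HasDerivAt (fun t : ℝ => k * t) k x := by
      simpa using (hasDerivAt_id x).const_mul k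
    have d2 : HasDerivAt (fun a : ℝ => √(1 - (k * a) ^ 2)) (-(k ^ 2 * x) / q) x := by
      have e1 : HasDerivAt (fun a : ℝ => 1 - (k * a) ^ 2) (-(2 * (k * x) * k)) x := by
        have e3 := (e2.pow 2).const_sub 1
        simpa using e3
      refine (e1.sqrt hp.ne').congr_deriv ?_
      rw [← hqd]
      field_simp
    have d3 : HasDerivAt (fun a : ℝ => k * a * √(1 - (k * a) ^ 2))
        (k * q + k * x * (-(k ^ 2 * x) / q)) x := e2.mul d2
    refine (d1.sub ((d1.sub d3).div_const (2 * k ^ 2))).congr_deriv ?_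
    rw [Real.sq_sqrt hx2]
    have hkx : k ^ 2 * x ^ 2 = 1 - q ^ 2 := by rw [hq2]; ring
    field_simp
    linear_combination hkx
  rw [intervalIntegral.integral_eq_sub_of_hasDerivAt hder hcont.intervalIntegrable]
  have hk1 : √(1 - (k * 1) ^ 2) = c := by
    rw [mul_one, show 1 - k ^ 2 = c ^ 2 by linarith, Real.sqrt_sq hc0.le]
  have hk2 : √(1 - (k * -1) ^ 2) = c := by
    rw [mul_neg, mul_one, neg_sq, show 1 - k ^ 2 = c ^ 2 by linarith, Real.sqrt_sq hc0.le]
  rw [hk1, hk2]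
  simp only [mul_one, mul_neg, arcsin_neg, harc]
  field_simp
  ring

theorem fillBound_two (hR0 : 0 < R) (hR1 : R < π / 2) :
    fillBound 2 R = (3 * π ^ 2 * (1 - cos R) - 4 * π * (R - sin R * cos R) / lagFactor 2 R) /
      lagFactor 2 R ^ 2 := by
  have h := sliceInt_two hR0 hR1
  rw [fillBound, vol_two, show (2 + 1 : ℕ) = 3 from rfl, cap_three]
  have e : ((2 : ℕ) + 1 : ℝ) * π * sin R ^ 2 * sliceInt 2 R = 3 * π ^ 2 * (1 - cos R) := by
    rw [mul_assoc, h]; push_cast; ring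
  rw [e]
  push_cast
  ring

theorem fill_two : 0.81 * hemisphereVolume 3 ≤ fillBound 2 (arccos 0.51) := by
  obtain ⟨hRl, hRu⟩ := arccos_51
  have hR1 : arccos 0.51 < π / 2 := Real.arccos_lt_pi_div_two.2 (by norm_num)
  have hR0 : 0 < arccos 0.51 := by linarith
  have hs : sin (arccos 0.51) = √0.7399 := by
    rw [sin_arccos]
    norm_num
  have hk2 : √(0.7399 : ℝ) ^ 2 = 0.7399 := Real.sq_sqrt (by norm_num)
  have hlo : (0.86017 : ℝ) ≤ √(0.7399 : ℝ) := Real.le_sqrt_of_sq_le (by norm_num)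
  have hhi : √(0.7399 : ℝ) ≤ 0.86018 := Real.sqrt_le_iff.2 ⟨by norm_num, by norm_num⟩
  have hlag : lagFactor 2 (arccos 0.51) = (2 * arccos 0.51 - (arccos 0.51 -
      √0.7399 * 0.51) / 0.7399) / (π / 2) := by
    have h1 := lag_two_num hR0 hR1
    rw [Real.cos_arccos (by norm_num) (by norm_num), hs, hk2] at h1
    have h2 : ∫ a in (-1 : ℝ)..1, √(1 - a ^ 2) ^ (2 - 1) = π / 2 := by
      rw [← integral_sqrt_one_sub_sq]
      congr 1
      ext1 a
      exact pow_one _
    rw [lagFactor, h2, hs, h1]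
  rw [hemi_three, fillBound_two hR0 hR1, Real.cos_arccos (by norm_num) (by norm_num), hs, hlag]
  set R := arccos 0.51 with hRdef
  set k := √(0.7399 : ℝ) with hk
  set N := 2 * R - (R - k * 0.51) / 0.7399 with hN
  have hp1 := Real.pi_gt_d4
  have hp2 := Real.pi_lt_d4
  have hp0 := Real.pi_pos
  have hN1 : (1.26418 : ℝ) ≤ N := by
    rw [hN]
    have : (R - k * 0.51) / 0.7399 ≤ (R - 0.86017 * 0.51) / 0.7399 := by gcongr
    have h2 : (R - 0.86017 * 0.51) / 0.7399 ≤ 2 * R - 1.26418 := by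
      rw [div_le_iff₀ (by norm_num)]
      linarith
    linarith
  have hN2 : N ≤ 1.2646 := by
    rw [hN]
    have : (R - 0.86018 * 0.51) / 0.7399 ≤ (R - k * 0.51) / 0.7399 := by gcongr
    have h2 : 2 * R - 1.2646 ≤ (R - 0.86018 * 0.51) / 0.7399 := by
      rw [le_div_iff₀ (by norm_num)]
      linarith
    linarith
  have hN0 : 0 < N := by linarith
  have hC : R - k * 0.51 ≤ 0.597114 := by linarith
  have e : (3 * π ^ 2 * (1 - 0.51) - 4 * π * (R - k * 0.51) / (N / (π / 2))) / (N / (π / 2)) ^ 2 -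
      0.81 * π ^ 2 = π ^ 2 * (π ^ 2 * (2.94 * N - 4 * (R - k * 0.51)) - 6.48 * N ^ 3) /
        (8 * N ^ 3) := by
    field_simp
    ring
  have h3 : 6.48 * N ^ 3 ≤ 6.48 * 1.2646 ^ 3 := by gcongr
  have h4 : (1.3282 : ℝ) ≤ 2.94 * N - 4 * (R - k * 0.51) := by linarith
  have h5 : (9.869 : ℝ) ≤ π ^ 2 := by nlinarith
  have h6 : 9.869 * 1.3282 ≤ π ^ 2 * (2.94 * N - 4 * (R - k * 0.51)) := by gcongr
  have h7 : (6.48 : ℝ) * 1.2646 ^ 3 ≤ 9.869 * 1.3282 := by norm_num
  have h8 : 0 ≤ π ^ 2 * (π ^ 2 * (2.94 * N - 4 * (R - k * 0.51)) - 6.48 * N ^ 3) /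
        (8 * N ^ 3) := by
    apply div_nonneg _ (by positivity)
    apply mul_nonneg (by positivity)
    linarith
  linarith

end Pool.Agent.H65G
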