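import Pool.Agent.H65G.AxisFinal
import Pool.Agent.H65G.ZH

set_option autoImplicit false

open Real Set MeasureTheory Metric Filter Topology Matrix
open scoped RealInnerProductSpace

namespace Pool.Agent.H65G

variable {d : ℕ}

/-- The standard basis vector. -/
noncomputable abbrev ej (j : Fin (d + 1)) : E (d + 1) := EuclideanSpace.single j (1 : ℝ)

theorem abs_det_isometry (O : E (d + 1) ≃ₗᵢ[ℝ] E (d + 1)) :
    |LinearMap.det ((O.toLinearEquiv : E (d + 1) ≃ₗ[ℝ] E (d + 1)) : E (d + 1) →ₗ[ℝ] E (d + 1))| = 1 := by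
  set b := EuclideanSpace.basisFun (Fin (d + 1)) ℝ with hb
  have h1 := b.toBasis.det_comp
    ((O.toLinearEquiv : E (d + 1) ≃ₗ[ℝ] E (d + 1)) : E (d + 1) →ₗ[ℝ] E (d + 1)) b.toBasis
  rw [b.toBasis.det_self, mul_one] at h1
  have h2 := b.det_to_matrix_orthonormalBasis_real (b.map O)
  have h3 : (b.toBasis.det (b.map O)) = LinearMap.det
      ((O.toLinearEquiv : E (d + 1) ≃ₗ[ℝ] E (d + 1)) : E (d + 1) →ₗ[ℝ] E (d + 1)) := by
    rw [← h1]
    congr 1
  rw [h3] at h2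
  rcases h2 with h | h <;> rw [h] <;> simp

theorem det_eq_matrix (L : E (d + 1) →L[ℝ] E (d + 1)) :
    L.det = (Matrix.of fun i j => (L (ej j)) i).det := by
  set b := EuclideanSpace.basisFun (Fin (d + 1)) ℝ with hb
  rw [ContinuousLinearMap.det, ← LinearMap.det_toMatrix b.toBasis]
  congr 1

/-- The determinant in the basis `O e_i` of the target. -/
theorem det_eq_rot (O : E (d + 1) ≃ₗᵢ[ℝ] E (d + 1)) (L : E (d + 1) →L[ℝ] E (d + 1)) :
    L.det = LinearMap.det ((O.toLinearEquiv : E (d + 1) ≃ₗ[ℝ] E (d + 1)) : E (d + 1) →ₗ[ℝ] E (d + 1)) *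
      (Matrix.of fun i j => (O.symm (L (ej j))) i).det := by
  set O' : E (d + 1) →L[ℝ] E (d + 1) := (O.symm.toContinuousLinearEquiv : E (d + 1) →L[ℝ] E (d + 1))
    with hO'
  have h1 : (Matrix.of fun i j => (O.symm (L (ej j))) i).det = (O'.comp L).det := by
    rw [det_eq_matrix]
    rfl
  have h2 : LinearMap.det (L : E (d + 1) →ₗ[ℝ] E (d + 1)) =
      LinearMap.det (((O.toLinearEquiv : E (d + 1) ≃ₗ[ℝ] E (d + 1)) : E (d + 1) →ₗ[ℝ] E (d + 1)) ∘ₗ
        ((O'.comp L : E (d + 1) →L[ℝ] E (d + 1)) : E (d + 1) →ₗ[ℝ] E (d + 1))) := by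
    congr 1
    ext1 x
    simp [hO']
  rw [h1, ContinuousLinearMap.det, h2, LinearMap.det_comp]

/-- The derivative of `w ↦ (w - ⟨w,s⟩ s) / √(1 - ⟨w,s⟩²)`. -/
noncomputable def dv (w : E (d + 1)) (s : Sph (d + 1)) : E (d + 1) →L[ℝ] E (d + 1) :=
  (√(1 - ⟪w, (s : E (d + 1))⟫ ^ 2))⁻¹ •
    (ContinuousLinearMap.id ℝ (E (d + 1)) - (innerSL ℝ (s : E (d + 1))).smulRight (s : E (d + 1))) +
  (⟪w, (s : E (d + 1))⟫ * (√(1 - ⟪w, (s : E (d + 1))⟫ ^ 2) ^ 3)⁻¹) •
    (innerSL ℝ (s : E (d + 1))).smulRight (w - ⟪w, (s : E (d + 1))⟫ • (s : E (d + 1)))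

/-- The derivative of the map `Γ_s`. -/
noncomputable def lmap (w : E (d + 1)) (η : ℝ) (M : E (d + 1) →L[ℝ] E (d + 1)) (u : E (d + 1))
    (s : Sph (d + 1)) : E (d + 1) →L[ℝ] E (d + 1) :=
  ((d + 1 : ℝ) • innerSL ℝ u - (d / η : ℝ) •
    ((√(1 - ⟪w, (s : E (d + 1))⟫ ^ 2))⁻¹ • innerSL ℝ (s : E (d + 1))).comp M).smulRight
      (s : E (d + 1)) + (dv w s).comp M

theorem lmap_apply (w : E (d + 1)) (η : ℝ) (M : E (d + 1) →L[ℝ] E (d + 1)) (u : E (d + 1))
    (s : Sph (d + 1)) (ξ : E (d + 1)) :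
    lmap w η M u s ξ = ((d + 1 : ℝ) * ⟪u, ξ⟫ - (d / η : ℝ) *
      ((√(1 - ⟪w, (s : E (d + 1))⟫ ^ 2))⁻¹ * ⟪(s : E (d + 1)), M ξ⟫)) • (s : E (d + 1)) +
      ((√(1 - ⟪w, (s : E (d + 1))⟫ ^ 2))⁻¹ • (M ξ - ⟪(s : E (d + 1)), M ξ⟫ • (s : E (d + 1))) +
      (⟪w, (s : E (d + 1))⟫ * (√(1 - ⟪w, (s : E (d + 1))⟫ ^ 2) ^ 3)⁻¹) •
        (⟪(s : E (d + 1)), M ξ⟫ • (w - ⟪w, (s : E (d + 1))⟫ • (s : E (d + 1))))) := by
  simp [lmap, dv]

/-- The matrix of `M` in the basis `O e_i` of the target. -/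
noncomputable def mrot (O : E (d + 1) ≃ₗᵢ[ℝ] E (d + 1)) (M : E (d + 1) →L[ℝ] E (d + 1)) :
    Matrix (Fin (d + 1)) (Fin (d + 1)) ℝ := Matrix.of fun i j => (O.symm (M (ej j))) i

theorem inner_eq_dot (x y : E (d + 1)) : ⟪x, y⟫ = ∑ i, x i * y i := by
  rw [PiLp.inner_apply]
  simp only [RCLike.inner_apply, conj_trivial]
  exact Finset.sum_congr rfl fun i _ => mul_comm _ _

theorem lmap_matrix {r : ℝ} (O : E (d + 1) ≃ₗᵢ[ℝ] E (d + 1)) (η : ℝ)
    (M : E (d + 1) →L[ℝ] E (d + 1)) (u : E (d + 1)) (s : Sph (d + 1)) :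
    (Matrix.of fun i j => (O.symm (lmap (r • O (e0 d)) η M u (act O s) (ej j))) i) =
      vecMulVec (fun i => (s : E (d + 1)) i)
        ((d + 1 : ℝ) • (fun j => u j) - (d / η : ℝ) • (dh r s ᵥ* mrot O M)) +
      pmat (fun i => (s : E (d + 1)) i) (fun i => r * (e0 d : E (d + 1)) i)
        (r * (s : E (d + 1)) 0) (qq r s) * mrot O M := by
  have ha : ⟪r • O (e0 d), ((act O s : Sph (d + 1)) : E (d + 1))⟫ = r * (s : E (d + 1)) 0 := by
    rw [coe_act, real_inner_smul_left, LinearIsometryEquiv.inner_map_map, inner_e0]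
  have hq : √(1 - (r * (s : E (d + 1)) 0) ^ 2) = qq r s := by
    unfold qq; rw [mul_pow]
  have hs : ∀ ξ : E (d + 1), ⟪((act O s : Sph (d + 1)) : E (d + 1)), ξ⟫ =
      ∑ k, (s : E (d + 1)) k * (O.symm ξ) k := by
    intro ξ
    have h := O.inner_map_map (s : E (d + 1)) (O.symm ξ)
    rw [O.apply_symm_apply] at h
    rw [coe_act, ← inner_eq_dot, h]
  ext i j
  rw [Matrix.of_apply, lmap_apply, ha, hq, hs]
  have hu : ⟪u, ej j⟫ = u j := by simp [EuclideanSpace.inner_single_right]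
  rw [hu]
  simp only [map_add, map_smul, map_sub, coe_act, LinearIsometryEquiv.symm_apply_apply,
    PiLp.add_apply, PiLp.smul_apply, PiLp.sub_apply, smul_eq_mul]
  rw [Matrix.add_apply, Matrix.vecMulVec_apply, Matrix.mul_apply]
  have h1 : ∀ k, pmat (fun i => (s : E (d + 1)) i) (fun i => r * (e0 d : E (d + 1)) i)
        (r * (s : E (d + 1)) 0) (qq r s) i k * mrot O M k j =
      (qq r s)⁻¹ * ((if i = k then (O.symm (M (ej j))) k else 0) -
        (s : E (d + 1)) i * ((s : E (d + 1)) k * (O.symm (M (ej j))) k)) +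
      (r * (s : E (d + 1)) 0 * (qq r s ^ 3)⁻¹) * (((r * (e0 d : E (d + 1)) i -
        r * (s : E (d + 1)) 0 * (s : E (d + 1)) i)) * ((s : E (d + 1)) k *
          (O.symm (M (ej j))) k)) := by
    intro k
    simp only [pmat, mrot, Matrix.add_apply, Matrix.smul_apply, Matrix.sub_apply,
      Matrix.one_apply, vecMulVec_apply, Matrix.of_apply, smul_eq_mul, Pi.sub_apply,
      Pi.smul_apply]
    split_ifs <;> ring
  simp only [h1]
  rw [Finset.sum_add_distrib, ← Finset.mul_sum, Finset.sum_sub_distrib, Finset.sum_ite_eq,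
    if_pos (Finset.mem_univ i), ← Finset.mul_sum, ← Finset.mul_sum, ← Finset.mul_sum]
  have h2 : (dh r s ᵥ* mrot O M) j = (qq r s)⁻¹ * ∑ k, (s : E (d + 1)) k *
      (O.symm (M (ej j))) k := by
    simp only [Matrix.vecMul, dotProduct, dh, mrot, Matrix.of_apply, Finset.mul_sum]
    exact Finset.sum_congr rfl fun k _ => by ring
  simp only [Pi.sub_apply, Pi.smul_apply, smul_eq_mul, h2]
  ring


theorem bb_eq {r : ℝ} (hr0 : 0 ≤ r) (hr1 : r < 1) (s : Sph (d + 1)) :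
    (qq r s ^ (d + 1 + 1))⁻¹ • ((fun i => (s : E (d + 1)) i) -
      (r * (s : E (d + 1)) 0) • (fun i => r * (e0 d : E (d + 1)) i)) = bb r s := by
  have hq := qq_pos hr0 hr1 s
  have hc : √(1 - r ^ 2) ^ 2 = 1 - r ^ 2 := Real.sq_sqrt (by nlinarith)
  ext i
  simp only [Pi.smul_apply, Pi.sub_apply, smul_eq_mul, bb, kap]
  by_cases hi : i = 0
  · subst hi
    simp only [if_true, hc, e0, PiLp.single_apply, mul_one]
    rw [show d + 1 + 1 = d + 2 by ring]
    field_simp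
  · simp only [if_neg hi, e0, PiLp.single_apply]
    rw [show d + 1 + 1 = d + 2 by ring]
    field_simp
    ring

theorem det_lmap {r : ℝ} (hr0 : 0 ≤ r) (hr1 : r < 1) (O : E (d + 1) ≃ₗᵢ[ℝ] E (d + 1)) (η : ℝ)
    (M : E (d + 1) →L[ℝ] E (d + 1)) (u : E (d + 1)) (s : Sph (d + 1)) :
    (lmap (r • O (e0 d)) η M u (act O s)).det =
      LinearMap.det ((O.toLinearEquiv : E (d + 1) ≃ₗ[ℝ] E (d + 1)) : E (d + 1) →ₗ[ℝ] E (d + 1)) *
      (((d + 1 : ℝ) • (fun j => u j) - (d / η : ℝ) • (dh r s ᵥ* mrot O M)) ⬝ᵥ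
        ((mrot O M).adjugate *ᵥ bb r s)) := by
  rw [det_eq_rot O, lmap_matrix]
  congr 1
  rw [det_add_pmat_mul (n := d + 1) (q := qq r s), bb_eq hr0 hr1]
  · have h := sum_sq_coord s
    simp only [dotProduct, ← sq]
    exact h
  · simp only [dotProduct, e0, PiLp.single_apply]
    simp
  · exact qq_pos hr0 hr1 s
  · rw [qq_sq hr0 hr1, mul_pow]

theorem mrot_eq {w : E (d + 1)} {r : ℝ} (hr0 : 0 ≤ r) (hr1 : r < 1)
    {O : E (d + 1) ≃ₗᵢ[ℝ] E (d + 1)} (hw : w = r • O (e0 d)) {η : ℝ}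
    {M : E (d + 1) →L[ℝ] E (d + 1)} {u : Sph (d + 1) → E (d + 1)} (hum : Measurable u)
    {C : ℝ} (hub : ∀ s, ‖u s‖ ≤ C)
    (hM : ∀ ξ, (∫ s, dzh w s ∂(sigma (d + 1))) (M ξ) =
      η • ∫ s, ⟪u s, ξ⟫ • (s : E (d + 1)) ∂(sigma (d + 1))) :
    mrot O M = η • mmat r (fun s j => u (act O s) j) := by
  have hw1 : ‖w‖ < 1 := by
    rw [hw, norm_smul, O.norm_map, norm_e0, mul_one, Real.norm_eq_abs, abs_of_nonneg hr0]
    exact hr1
  have hC0 : 0 ≤ C := (norm_nonneg _).trans (hub (es 0))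
  ext i j
  have h1 : ⟪O (ej i), (∫ s, dzh w s ∂(sigma (d + 1))) (M (ej j))⟫ =
      ⟪O (ej i), η • ∫ s, ⟪u s, (ej j : E (d + 1))⟫ • (s : E (d + 1)) ∂(sigma (d + 1))⟫ := by
    rw [hM (ej j)]
  -- left side
  have hL : ⟪O (ej i), (∫ s, dzh w s ∂(sigma (d + 1))) (M (ej j))⟫ =
      alp r i * mrot O M i j := by
    rw [ContinuousLinearMap.integral_apply (integrable_dzh hw1),
      ← integral_inner ((integrable_dzh hw1).apply_continuousLinearMap _), ← integral_act O]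
    have h2 : ∀ s : Sph (d + 1), ⟪O (ej i), dzh w (act O s) (M (ej j))⟫ =
        ∑ k, mrot O M k j * ((s : E (d + 1)) k * (s : E (d + 1)) i * (qq r s)⁻¹) := by
      intro s
      rw [dzh_apply, real_inner_smul_right]
      have ha : ⟪w, ((act O s : Sph (d + 1)) : E (d + 1))⟫ = r * (s : E (d + 1)) 0 := by
        rw [hw, coe_act, real_inner_smul_left, LinearIsometryEquiv.inner_map_map, inner_e0]
      have hq : √(1 - (r * (s : E (d + 1)) 0) ^ 2) = qq r s := by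
        unfold qq; rw [mul_pow]
      have hs : ⟪((act O s : Sph (d + 1)) : E (d + 1)), M (ej j)⟫ =
          ∑ k, (s : E (d + 1)) k * (O.symm (M (ej j))) k := by
        have h := O.inner_map_map (s : E (d + 1)) (O.symm (M (ej j)))
        rw [O.apply_symm_apply] at h
        rw [coe_act, ← inner_eq_dot, h]
      have hi : ⟪O (ej i), ((act O s : Sph (d + 1)) : E (d + 1))⟫ = (s : E (d + 1)) i := by
        rw [coe_act, LinearIsometryEquiv.inner_map_map]
        simp [EuclideanSpace.inner_single_left]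
      rw [ha, hq, hs, hi, Finset.mul_sum, Finset.sum_mul]
      refine Finset.sum_congr rfl fun k _ => ?_
      simp only [mrot, Matrix.of_apply]
      ring
    simp only [h2]
    have hint : ∀ k, Integrable (fun s : Sph (d + 1) => mrot O M k j *
        ((s : E (d + 1)) k * (s : E (d + 1)) i * (qq r s)⁻¹)) (sigma (d + 1)) := fun k =>
      integrable_of_cont (continuous_const.mul (((continuous_coord k).mul (continuous_coord i)).mul
        (by simpa using continuous_inv_pow_qq hr0 hr1 1)))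
    rw [integral_finsetSum _ fun k _ => hint k, Finset.sum_eq_single i]
    · rw [integral_const_mul]
      have h3 : ∀ s : Sph (d + 1), (s : E (d + 1)) i * (s : E (d + 1)) i * (qq r s)⁻¹ =
        (s : E (d + 1)) i ^ 2 * (qq r s)⁻¹ := fun s => by ring
      simp only [h3]
      rw [int_alp hr0 hr1, mul_comm]
    · intro k _ hk
      rw [integral_const_mul, show (∫ s : Sph (d + 1), (s : E (d + 1)) k * (s : E (d + 1)) i *
        (qq r s)⁻¹ ∂(sigma (d + 1))) = 0 from int_off hk (fun t => (√(1 - r ^ 2 * t ^ 2))⁻¹),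
        mul_zero]
    · intro h
      exact absurd (Finset.mem_univ i) h
  -- right side
  have hR : ⟪O (ej i), η • ∫ s, ⟪u s, (ej j : E (d + 1))⟫ • (s : E (d + 1)) ∂(sigma (d + 1))⟫ =
      η * ∫ s, (s : E (d + 1)) i * u (act O s) j ∂(sigma (d + 1)) := by
    have hint : Integrable (fun s => ⟪u s, (ej j : E (d + 1))⟫ • (s : E (d + 1)))
        (sigma (d + 1)) := by
      refine Integrable.mono' (integrable_const C) ?_ (Eventually.of_forall fun s => ?_)
      · exact ((Measurable.inner (𝕜 := ℝ) hum measurable_const).aestronglyMeasurable).smul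
          continuous_subtype_val.aestronglyMeasurable
      · rw [norm_smul]
        have hs : ‖(s : E (d + 1))‖ = 1 := by simp
        rw [hs, mul_one]
        refine (norm_inner_le_norm (𝕜 := ℝ) _ _).trans ?_
        have : ‖(ej j : E (d + 1))‖ = 1 := by simp
        rw [this, mul_one]
        exact hub s
    rw [real_inner_smul_right, ← integral_inner hint, ← integral_act O]
    congr 2
    ext s
    rw [real_inner_smul_right, coe_act, LinearIsometryEquiv.inner_map_map]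
    simp only [EuclideanSpace.inner_single_left, EuclideanSpace.inner_single_right, map_one,
      one_mul, conj_trivial]
    ring
  rw [hL, hR] at h1
  have ha := (alp_pos hr0 hr1 i).ne'
  simp only [Matrix.smul_apply, mmat, Matrix.of_apply, smul_eq_mul]
  field_simp
  linarith


theorem mmat_vecMul {r : ℝ} {v : Sph (d + 1) → Fin (d + 1) → ℝ}
    (hvm : ∀ j, Measurable fun s => v s j) (hv1 : ∀ s, ∑ j, v s j ^ 2 ≤ 1)
    (B : Matrix (Fin (d + 1)) (Fin (d + 1)) ℝ) :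
    mmat r (fun s => v s ᵥ* B) = mmat r v * B := by
  ext i j
  simp only [mmat, Matrix.of_apply, Matrix.mul_apply, Matrix.vecMul, dotProduct]
  have h1 : ∀ s : Sph (d + 1), (s : E (d + 1)) i * ∑ k, v s k * B k j =
      ∑ k, B k j * ((s : E (d + 1)) i * v s k) := by
    intro s
    rw [Finset.mul_sum]
    exact Finset.sum_congr rfl fun k _ => by ring
  simp only [h1]
  rw [integral_finsetSum _ fun k _ => (integrable_cont_mul (continuous_coord i) (hvm k)
    (fun s => abs_le_of_sum_sq (hv1 s) k)).const_mul _, Finset.mul_sum]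
  refine Finset.sum_congr rfl fun k _ => ?_
  rw [integral_const_mul]
  ring

/-- The algebra of the linear changes of variables. -/
theorem form_scale {v b : Fin (d + 1) → ℝ} {h : Fin (d + 1) → ℝ} {η : ℝ} (hη : η ≠ 0)
    (M B : Matrix (Fin (d + 1)) (Fin (d + 1)) ℝ) :
    (((d + 1 : ℝ) • (v ᵥ* B) - (d / η : ℝ) • (h ᵥ* (η • (M * B)))) ⬝ᵥ
        ((η • (M * B)).adjugate *ᵥ b)) =
      η ^ d * B.det * (((d + 1 : ℝ) • v - (d : ℝ) • (h ᵥ* M)) ⬝ᵥ (M.adjugate *ᵥ b)) := by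
  have h1 : (d + 1 : ℝ) • (v ᵥ* B) - (d / η : ℝ) • (h ᵥ* (η • (M * B))) =
      ((d + 1 : ℝ) • v - (d : ℝ) • (h ᵥ* M)) ᵥ* B := by
    rw [Matrix.sub_vecMul, Matrix.smul_vecMul, Matrix.smul_vecMul, Matrix.vecMul_smul, smul_smul,
      div_mul_cancel₀ _ hη, Matrix.vecMul_vecMul]
  rw [h1, Matrix.adjugate_smul, Matrix.adjugate_mul_distrib, Fintype.card_fin,
    Nat.add_sub_cancel, Matrix.smul_mulVec, dotProduct_smul, ← Matrix.mulVec_mulVec,
    ← dotProduct_mulVec, Matrix.mulVec_mulVec _ B, Matrix.mul_adjugate, Matrix.smul_mulVec,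
    Matrix.one_mulVec, dotProduct_smul]
  simp only [smul_eq_mul]
  ring

/-- The pointwise bound, when the metric has a square root. -/
theorem point_bound_aux (hd : 1 ≤ d) {w : E (d + 1)} (hw : ‖w‖ < 1) (hcrit : Crit d ‖w‖)
    {η : ℝ} (hη : 0 < η) {M : E (d + 1) →L[ℝ] E (d + 1)} {u : Sph (d + 1) → E (d + 1)}
    (hum : Measurable u) {C : ℝ} (hub : ∀ s, ‖u s‖ ≤ C)
    (hM : ∀ ξ, (∫ s, dzh w s ∂(sigma (d + 1))) (M ξ) =
      η • ∫ s, ⟪u s, ξ⟫ • (s : E (d + 1)) ∂(sigma (d + 1)))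
    (B : Matrix (Fin (d + 1)) (Fin (d + 1)) ℝ) (hB : IsUnit B.det)
    (hu : ∀ s, ∑ j, ((fun i => u s i) ᵥ* B⁻¹) j ^ 2 ≤ 1) :
    |∫ s, (lmap w η M (u s) s).det ∂(sigma (d + 1))| ≤ η ^ d * |B.det| := by
  obtain ⟨O, hO⟩ : ∃ O : E (d + 1) ≃ₗᵢ[ℝ] E (d + 1), w = ‖w‖ • O (e0 d) := by
    rcases eq_or_ne w 0 with h | h
    · exact ⟨LinearIsometryEquiv.refl ℝ _, by simp [h]⟩
    · have hn : ‖w‖ ≠ 0 := norm_ne_zero_iff.2 h
      obtain ⟨O, hO⟩ := exists_rot (d := d) (u := ‖w‖⁻¹ • w) (by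
        rw [norm_smul, norm_inv, norm_norm, inv_mul_cancel₀ hn])
      exact ⟨O, by rw [hO, smul_smul, mul_inv_cancel₀ hn, one_smul]⟩
  set r := ‖w‖ with hr
  have hr0 : 0 ≤ r := norm_nonneg w
  set v : Sph (d + 1) → Fin (d + 1) → ℝ := fun s => (fun i => u (act O s) i) ᵥ* B⁻¹ with hv
  have hvm : ∀ j, Measurable fun s => v s j := by
    intro j
    simp only [hv, Matrix.vecMul, dotProduct]
    refine Finset.measurable_sum _ fun i _ => Measurable.mul_const ?_ _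
    have h1 : Measurable fun x : E (d + 1) => x i := by fun_prop
    exact h1.comp (hum.comp (continuous_act O).measurable)
  have hv1 : ∀ s, ∑ j, v s j ^ 2 ≤ 1 := fun s => hu (act O s)
  have hvB : ∀ s, v s ᵥ* B = fun i => u (act O s) i := by
    intro s
    rw [hv]
    simp only
    rw [Matrix.vecMul_vecMul, Matrix.nonsing_inv_mul _ hB, Matrix.vecMul_one]
  have hmr : mrot O M = η • (mmat r v * B) := by
    rw [mrot_eq hr0 hw hO hum hub hM, ← mmat_vecMul hvm hv1]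
    simp only [hvB]
  rw [← integral_act O, hO]
  simp only [det_lmap hr0 hw, hmr]
  simp only [← hvB]
  simp only [form_scale hη.ne']
  rw [integral_const_mul, integral_const_mul, abs_mul, abs_mul, abs_mul, abs_det_isometry O,
    one_mul, abs_of_pos (pow_pos hη d)]
  have h := axis_bound hd hr0 hw hcrit hvm hv1
  have h2 : 0 ≤ η ^ d * |B.det| := by positivity
  exact mul_le_of_le_one_right h2 h

end Pool.Agent.H65G
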