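import Pool.Agent.H65G.Core

set_option autoImplicit false

open Real Set MeasureTheory Metric Filter Topology
open scoped RealInnerProductSpace

namespace Pool.Agent.H65G

variable {d : ℕ}

/-- The splitting `y ↦ (y₀, (y₁, …, y_d))`. -/
noncomputable def splt (d : ℕ) (y : E (d + 1)) : ℝ × E d :=
  (y 0, WithLp.toLp 2 fun i : Fin d => y i.succ)

theorem measurePreserving_splt (d : ℕ) :
    MeasurePreserving (splt d) (volume : Measure (E (d + 1)))
      ((volume : Measure ℝ).prod (volume : Measure (E d))) := by
  have h1 := PiLp.volume_preserving_ofLp (Fin (d + 1))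
  have h2 := volume_preserving_piFinSuccAbove (fun _ : Fin (d + 1) => ℝ) 0
  have h3 := (MeasurePreserving.id (volume : Measure ℝ)).prod
    (PiLp.volume_preserving_toLp (Fin d))
  have h4 := h3.comp (h2.comp h1)
  have h5 : (Prod.map id (WithLp.toLp 2) ∘ (MeasurableEquiv.piFinSuccAbove
      (fun _ : Fin (d + 1) => ℝ) 0) ∘ WithLp.ofLp) = splt d := by
    ext1 y
    simp [splt]
    rfl
  rwa [h5] at h4

theorem norm_sq_splt (y : E (d + 1)) : ‖y‖ ^ 2 = (splt d y).1 ^ 2 + ‖(splt d y).2‖ ^ 2 := by
  rw [EuclideanSpace.norm_sq_eq, EuclideanSpace.norm_sq_eq, Fin.sum_univ_succ]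
  simp [splt]

/-- Slicing of the unit ball. -/
theorem slice {f : ℝ → ℝ} (hf : Measurable f) {C : ℝ} (hC : ∀ a ∈ Icc (-1 : ℝ) 1, |f a| ≤ C) :
    ∫ y in closedBall (0 : E (d + 1)) 1, f (y 0) =
      (volume : Measure (E d)).real (ball 0 1) *
        ∫ a in (-1 : ℝ)..1, f a * √(1 - a ^ 2) ^ d := by
  set S : Set (ℝ × E d) := {p | p.1 ^ 2 + ‖p.2‖ ^ 2 ≤ 1} with hS
  have hSm : MeasurableSet S := by
    have : Continuous fun p : ℝ × E d => p.1 ^ 2 + ‖p.2‖ ^ 2 := by fun_prop
    exact (isClosed_le this continuous_const).measurableSet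
  set F : ℝ × E d → ℝ := S.indicator fun p => f p.1 with hF
  have hFm : Measurable F := (hf.comp measurable_fst).indicator hSm
  have h1 : ∫ y in closedBall (0 : E (d + 1)) 1, f (y 0) = ∫ y, F (splt d y) := by
    rw [← integral_indicator measurableSet_closedBall]
    congr 1
    ext1 y
    have hiff : y ∈ closedBall (0 : E (d + 1)) 1 ↔ splt d y ∈ S := by
      rw [mem_closedBall_zero_iff, hS, Set.mem_ofPred_eq, ← norm_sq_splt]
      constructor
      · intro h
        have := norm_nonneg y
        nlinarith
      · intro h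
        have := norm_nonneg y
        nlinarith
    by_cases hy : y ∈ closedBall (0 : E (d + 1)) 1
    · rw [indicator_of_mem hy, hF, indicator_of_mem (hiff.1 hy)]
      rfl
    · rw [indicator_of_notMem hy, hF, indicator_of_notMem (fun h => hy (hiff.2 h))]
  have hmp := measurePreserving_splt d
  have h2 : ∫ y, F (splt d y) = ∫ p, F p ∂((volume : Measure ℝ).prod (volume : Measure (E d))) := by
    rw [← hmp.map_eq, integral_map hmp.measurable.aemeasurable hFm.aestronglyMeasurable]
  have hsub : S ⊆ Icc (-1 : ℝ) 1 ×ˢ closedBall (0 : E d) 1 := by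
    rintro ⟨a, z⟩ h
    have h' : a ^ 2 + ‖z‖ ^ 2 ≤ 1 := h
    have h0 := norm_nonneg z
    refine ⟨?_, ?_⟩
    · exact abs_le.1 ((sq_le_one_iff_abs_le_one a).1 (by nlinarith))
    · rw [mem_closedBall_zero_iff]
      nlinarith [sq_nonneg a]
  have hSfin : ((volume : Measure ℝ).prod (volume : Measure (E d))) S < ⊤ := by
    refine (measure_mono hsub).trans_lt ?_
    rw [Measure.prod_prod]
    exact ENNReal.mul_lt_top (by simp) measure_closedBall_lt_top
  have hFi : Integrable F ((volume : Measure ℝ).prod (volume : Measure (E d))) := by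
    have hc : Integrable (S.indicator fun _ => C)
        ((volume : Measure ℝ).prod (volume : Measure (E d))) :=
      (integrable_indicator_iff hSm).2 (integrableOn_const (hs := hSfin.ne))
    refine Integrable.mono' hc hFm.aestronglyMeasurable (Eventually.of_forall fun p => ?_)
    by_cases hp : p ∈ S
    · rw [hF, indicator_of_mem hp, indicator_of_mem hp, Real.norm_eq_abs]
      exact hC _ (hsub hp).1
    · rw [hF, indicator_of_notMem hp, indicator_of_notMem hp, norm_zero]
  rw [h1, h2, integral_prod _ hFi, intervalIntegral.integral_of_le (by norm_num),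
    ← integral_Icc_eq_integral_Ioc, ← integral_const_mul, ← integral_indicator measurableSet_Icc]
  congr 1
  ext1 a
  by_cases ha : a ∈ Icc (-1 : ℝ) 1
  · rw [indicator_of_mem ha]
    have ha2 : 0 ≤ 1 - a ^ 2 := by nlinarith [ha.1, ha.2]
    have h3 : (fun z : E d => F (a, z)) = (closedBall (0 : E d) (√(1 - a ^ 2))).indicator
        fun _ => f a := by
      ext1 z
      have hiff : (a, z) ∈ S ↔ z ∈ closedBall (0 : E d) (√(1 - a ^ 2)) := by
        rw [mem_closedBall_zero_iff, Real.le_sqrt (norm_nonneg z) ha2, hS, Set.mem_ofPred_eq]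
        constructor <;> intro h <;> simp only at h ⊢ <;> linarith
      by_cases hz : (a, z) ∈ S
      · rw [hF, indicator_of_mem hz, indicator_of_mem (hiff.1 hz)]
      · rw [hF, indicator_of_notMem hz, indicator_of_notMem (fun h => hz (hiff.2 h))]
    rw [h3, integral_indicator measurableSet_closedBall, setIntegral_const, measureReal_def,
      Measure.addHaar_closedBall _ _ (Real.sqrt_nonneg _), ENNReal.toReal_mul,
      ENNReal.toReal_ofReal (by positivity), finrank_euclideanSpace_fin, smul_eq_mul,
      measureReal_def]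
    ring
  · rw [indicator_of_notMem ha]
    have h3 : (fun z : E d => F (a, z)) = fun _ => 0 := by
      ext1 z
      rw [hF, indicator_of_notMem fun h => ha (hsub h).1]
    rw [h3, integral_zero]

end Pool.Agent.H65G
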