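import Pool.Agent.H65G.Ext

set_option autoImplicit false

open Real Set MeasureTheory Metric Filter Topology
open scoped RealInnerProductSpace

namespace Pool.Agent.H65G

variable {d : ℕ} {k₁ : ℝ} {X : Type} [MetricSpace X]

theorem continuous_gext_dir (hk0 : 0 ≤ k₁) (hk1 : k₁ ≤ 1) (γ : Sph (d + 1) → X) (x : X) :
    Continuous fun s : Sph (d + 1) => gext k₁ γ s x := by
  set G : Sph (d + 1) → X → ℝ := gext k₁ γ with hG
  have h2 : Continuous fun p : Sph (d + 1) × X => G p.1 p.2 := continuous_gext hk0 hk1 γ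
  clear_value G
  fun_prop

/-- `Z(x) = ∫ g_s(x) s`. -/
noncomputable def zfun (k₁ : ℝ) (γ : Sph (d + 1) → X) (x : X) : E (d + 1) :=
  ∫ s : Sph (d + 1), gext k₁ γ s x • (s : E (d + 1)) ∂(sigma (d + 1))

theorem integrable_zfun (hk0 : 0 ≤ k₁) (hk1 : k₁ ≤ 1) (γ : Sph (d + 1) → X) (x : X) :
    Integrable (fun s : Sph (d + 1) => gext k₁ γ s x • (s : E (d + 1))) (sigma (d + 1)) :=
  integrable_of_cont ((continuous_gext_dir hk0 hk1 γ x).smul continuous_subtype_val)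

theorem norm_zfun_sub_le (hk0 : 0 ≤ k₁) (hk1 : k₁ ≤ 1) (γ : Sph (d + 1) → X) (x y : X) :
    ‖zfun k₁ γ x - zfun k₁ γ y‖ ≤ dist x y := by
  unfold zfun
  rw [← integral_sub (integrable_zfun hk0 hk1 γ x) (integrable_zfun hk0 hk1 γ y)]
  have h : ∀ᵐ s ∂(sigma (d + 1)), ‖gext k₁ γ s x • (s : E (d + 1)) -
      gext k₁ γ s y • (s : E (d + 1))‖ ≤ dist x y := by
    refine Eventually.of_forall fun s => ?_
    have hs : ‖(s : E (d + 1))‖ = 1 := by simp
    rw [← sub_smul, norm_smul, hs, mul_one]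
    exact abs_gext_sub_le γ s x y
  have := norm_integral_le_of_norm_le_const h
  simpa using this

theorem arccos_two {x : ℝ} (h0 : 0 ≤ x) (h1 : x ≤ 1) : arccos (1 - 2 * x ^ 2) = 2 * arcsin x := by
  have h2 : cos (2 * arcsin x) = 1 - 2 * x ^ 2 := by
    rw [cos_two_mul, cos_arcsin, Real.sq_sqrt (by nlinarith)]
    ring
  rw [← h2, arccos_cos]
  · have := arcsin_nonneg.2 h0
    linarith
  · have := arcsin_le_pi_div_two x
    linarith

theorem int_arcsin_dir (k₁ : ℝ) {u : E (d + 1)} (hu : ‖u‖ = 1) :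
    ∫ s : Sph (d + 1), arcsin (k₁ * ⟪(s : E (d + 1)), u⟫) * ⟪(s : E (d + 1)), u⟫
      ∂(sigma (d + 1)) = rho d k₁ := by
  obtain ⟨O, hO⟩ := exists_rot hu
  rw [← integral_act O]
  unfold rho
  congr 1
  ext s
  have : ⟪((act O s : Sph (d + 1)) : E (d + 1)), u⟫ = (s : E (d + 1)) 0 := by
    rw [← hO, coe_act, LinearIsometryEquiv.inner_map_map, real_inner_comm, inner_e0]
  rw [this]

/-- `|Z| ≤ ρ(k₁)`. -/
theorem norm_zfun_le (hk0 : 0 ≤ k₁) (hk1 : k₁ ≤ 1) (γ : Sph (d + 1) → X) (x : X) :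
    ‖zfun k₁ γ x‖ ≤ rho d k₁ := by
  rcases eq_or_ne (zfun k₁ γ x) 0 with h | h
  · rw [h, norm_zero]
    rcases hk0.eq_or_lt with h0 | h0
    · rw [← h0, rho_zero]
    · have := rho_strictMono (d := d) le_rfl h0 hk1
      rw [rho_zero] at this
      exact this.le
  · have hn : ‖zfun k₁ γ x‖ ≠ 0 := norm_ne_zero_iff.2 h
    set u : E (d + 1) := ‖zfun k₁ γ x‖⁻¹ • zfun k₁ γ x with hu
    have hu1 : ‖u‖ = 1 := by rw [hu, norm_smul, norm_inv, norm_norm, inv_mul_cancel₀ hn]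
    have h1 : ‖zfun k₁ γ x‖ = ⟪zfun k₁ γ x, u⟫ := by
      rw [hu, real_inner_smul_right, real_inner_self_eq_norm_sq]
      field_simp
    have h2 : ⟪zfun k₁ γ x, u⟫ = ∫ s : Sph (d + 1), gext k₁ γ s x * ⟪(s : E (d + 1)), u⟫
        ∂(sigma (d + 1)) := by
      unfold zfun
      rw [real_inner_comm, ← integral_inner (integrable_zfun hk0 hk1 γ x)]
      congr 1
      ext s
      rw [real_inner_smul_right, real_inner_comm]
    set R : E (d + 1) ≃ₗᵢ[ℝ] E (d + 1) := (ℝ ∙ u)ᗮ.reflection with hR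
    have hRs : ∀ s : E (d + 1), R s = s - (2 * ⟪s, u⟫) • u := by
      intro s
      rw [hR, Submodule.reflection_orthogonal_apply, Submodule.reflection_singleton_apply, hu1,
        real_inner_comm]
      simp [two_smul, two_mul, add_smul]
    have huu : ⟪u, u⟫ = 1 := by rw [real_inner_self_eq_norm_sq, hu1]; norm_num
    have hRu : ∀ s : E (d + 1), ⟪R s, u⟫ = -⟪s, u⟫ := by
      intro s
      rw [hRs, inner_sub_left, real_inner_smul_left, huu]
      ring
    have hg := continuous_gext_dir hk0 hk1 γ x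
    have hin : Continuous fun s : Sph (d + 1) => ⟪(s : E (d + 1)), u⟫ := by fun_prop
    have h3 : ∫ s : Sph (d + 1), gext k₁ γ s x * ⟪(s : E (d + 1)), u⟫ ∂(sigma (d + 1)) =
        -∫ s : Sph (d + 1), gext k₁ γ (act R s) x * ⟪(s : E (d + 1)), u⟫ ∂(sigma (d + 1)) := by
      rw [← integral_act R, ← integral_neg]
      congr 1
      ext s
      rw [coe_act, hRu]
      ring
    have i1 : Integrable (fun s : Sph (d + 1) => gext k₁ γ s x * ⟪(s : E (d + 1)), u⟫)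
        (sigma (d + 1)) := integrable_of_cont (hg.mul hin)
    have i2 : Integrable (fun s : Sph (d + 1) => gext k₁ γ (act R s) x * ⟪(s : E (d + 1)), u⟫)
        (sigma (d + 1)) := integrable_of_cont ((hg.comp (continuous_act R)).mul hin)
    have h4 : 2 * ‖zfun k₁ γ x‖ = ∫ s : Sph (d + 1), (gext k₁ γ s x * ⟪(s : E (d + 1)), u⟫ -
        gext k₁ γ (act R s) x * ⟪(s : E (d + 1)), u⟫) ∂(sigma (d + 1)) := by
      rw [integral_sub i1 i2, h1, h2]
      linarith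
    have h5 : ∫ s : Sph (d + 1), (gext k₁ γ s x * ⟪(s : E (d + 1)), u⟫ -
        gext k₁ γ (act R s) x * ⟪(s : E (d + 1)), u⟫) ∂(sigma (d + 1)) ≤
        ∫ s : Sph (d + 1), 2 * (arcsin (k₁ * ⟪(s : E (d + 1)), u⟫) * ⟪(s : E (d + 1)), u⟫)
          ∂(sigma (d + 1)) := by
      have harc := continuous_arcsin
      refine integral_mono (i1.sub i2) (integrable_of_cont (by fun_prop)) fun s => ?_
      have ha : |⟪(s : E (d + 1)), u⟫| ≤ 1 := by
        have := abs_real_inner_le_norm (s : E (d + 1)) u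
        simpa [hu1] using this
      set a := ⟪(s : E (d + 1)), u⟫ with ha'
      have hinner : ⟪(s : E (d + 1)), ((act R s : Sph (d + 1)) : E (d + 1))⟫ = 1 - 2 * a ^ 2 := by
        have hs : ⟪(s : E (d + 1)), (s : E (d + 1))⟫ = 1 := by
          rw [real_inner_self_eq_norm_sq]
          simp
        rw [coe_act, hRs, inner_sub_right, real_inner_smul_right, hs]
        ring
      have hch : chord k₁ (s : E (d + 1)) ((act R s : Sph (d + 1)) : E (d + 1)) =
          2 * arcsin (k₁ * |a|) := by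
        unfold chord
        rw [hinner, ← arccos_two (mul_nonneg hk0 (abs_nonneg _))
          (mul_le_one₀ hk1 (abs_nonneg _) ha), mul_pow, sq_abs]
        congr 1
        ring
      have h6 := abs_gext_dir_le hk0 hk1 γ s (act R s) x
      rw [hch] at h6
      have h7 : arcsin (k₁ * |a|) * |a| = arcsin (k₁ * a) * a := by
        rcases abs_cases a with ⟨h, _⟩ | ⟨h, _⟩
        · rw [h]
        · have h8 : arcsin (k₁ * -a) = -arcsin (k₁ * a) := by rw [mul_neg, arcsin_neg]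
          rw [h, h8]
          ring
      show gext k₁ γ s x * a - gext k₁ γ (act R s) x * a ≤ 2 * (arcsin (k₁ * a) * a)
      rw [← h7, ← sub_mul]
      calc (gext k₁ γ s x - gext k₁ γ (act R s) x) * a ≤
          |(gext k₁ γ s x - gext k₁ γ (act R s) x) * a| := le_abs_self _
        _ = |gext k₁ γ s x - gext k₁ γ (act R s) x| * |a| := abs_mul _ _
        _ ≤ (2 * arcsin (k₁ * |a|)) * |a| := mul_le_mul_of_nonneg_right h6 (abs_nonneg _)
        _ = _ := by ring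
    rw [integral_const_mul, int_arcsin_dir k₁ hu1] at h5
    linarith

theorem zfun_gamma (hk0 : 0 ≤ k₁) (hk1 : k₁ ≤ 1) {γ : Sph (d + 1) → X}
    (hγ : ∀ s t : Sph (d + 1), chord k₁ (s : E (d + 1)) (t : E (d + 1)) ≤ dist (γ s) (γ t))
    (t : Sph (d + 1)) : zfun k₁ γ (γ t) = rho d k₁ • (t : E (d + 1)) := by
  rw [← zh_smul (d := d) k₁ (u := (t : E (d + 1))) (by simp)]
  unfold zfun zh
  congr 1
  ext1 s
  rw [gext_gamma hk0 hk1 hγ, real_inner_smul_left]

/-- The lag factor. -/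
noncomputable def eta (d : ℕ) (k k₁ : ℝ) : ℝ := rho d k / rho d k₁

theorem rho_pos {k : ℝ} (hk0 : 0 < k) (hk1 : k ≤ 1) : 0 < rho d k := by
  have := rho_strictMono (d := d) le_rfl hk0 hk1
  rwa [rho_zero] at this

theorem eta_pos {k : ℝ} (hk0 : 0 < k) (hkk : k ≤ k₁) (hk1 : k₁ ≤ 1) : 0 < eta d k k₁ :=
  div_pos (rho_pos hk0 (hkk.trans hk1)) (rho_pos (hk0.trans_le hkk) hk1)

theorem exists_wfun {k : ℝ} (hk0 : 0 < k) (hkk : k ≤ k₁) (hk1 : k₁ ≤ 1)
    (γ : Sph (d + 1) → X) (x : X) :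
    ∃ w : E (d + 1), ‖w‖ ≤ k ∧ zh w = eta d k k₁ • zfun k₁ γ x := by
  apply zh_surj hk0.le
  have h1 := norm_zfun_le (hk0.le.trans hkk) hk1 γ x
  have h2 := eta_pos (d := d) hk0 hkk hk1
  have h3 := rho_pos (d := d) (hk0.trans_le hkk) hk1
  rw [norm_smul, Real.norm_eq_abs, abs_of_pos h2]
  calc eta d k k₁ * ‖zfun k₁ γ x‖ ≤ eta d k k₁ * rho d k₁ := by gcongr
    _ = rho d k := by unfold eta; field_simp

open Classical in
/-- The map `w : X → B_k`. -/
noncomputable def wfun (k k₁ : ℝ) (γ : Sph (d + 1) → X) (x : X) : E (d + 1) :=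
  if h : ∃ w : E (d + 1), ‖w‖ ≤ k ∧ zh w = eta d k k₁ • zfun k₁ γ x then h.choose else 0

theorem wfun_spec {k : ℝ} (hk0 : 0 < k) (hkk : k ≤ k₁) (hk1 : k₁ ≤ 1)
    (γ : Sph (d + 1) → X) (x : X) :
    ‖wfun k k₁ γ x‖ ≤ k ∧ zh (wfun k k₁ γ x) = eta d k k₁ • zfun k₁ γ x := by
  have h := exists_wfun hk0 hkk hk1 γ x
  unfold wfun
  rw [dif_pos h]
  exact h.choose_spec

theorem wfun_gamma {k : ℝ} (hk0 : 0 < k) (hkk : k ≤ k₁) (hk1 : k₁ ≤ 1) {γ : Sph (d + 1) → X}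
    (hγ : ∀ s t : Sph (d + 1), chord k₁ (s : E (d + 1)) (t : E (d + 1)) ≤ dist (γ s) (γ t))
    (t : Sph (d + 1)) : wfun k k₁ γ (γ t) = k • (t : E (d + 1)) := by
  have ht : ‖(t : E (d + 1))‖ = 1 := by simp
  have h3 := rho_pos (d := d) (hk0.trans_le hkk) hk1
  obtain ⟨h1, h2⟩ := wfun_spec hk0 hkk hk1 γ (γ t)
  apply zh_inj (h1.trans (hkk.trans hk1))
  · rw [norm_smul, ht, mul_one, Real.norm_eq_abs, abs_of_pos hk0]
    exact hkk.trans hk1
  · rw [h2, zfun_gamma (hk0.le.trans hkk) hk1 hγ, zh_smul k ht, smul_smul]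
    congr 1
    unfold eta
    field_simp

theorem norm_wfun_sub_le {k : ℝ} (hk0 : 0 < k) (hkk : k ≤ k₁) (hk1 : k₁ ≤ 1)
    (γ : Sph (d + 1) → X) (x y : X) :
    ‖wfun k k₁ γ x - wfun k k₁ γ y‖ ≤ (d + 1) * eta d k k₁ * dist x y := by
  obtain ⟨h1, h2⟩ := wfun_spec hk0 hkk hk1 γ x
  obtain ⟨h3, h4⟩ := wfun_spec hk0 hkk hk1 γ y
  have h5 := zh_expand (h1.trans (hkk.trans hk1)) (h3.trans (hkk.trans hk1))
  have he := eta_pos (d := d) hk0 hkk hk1
  rw [h2, h4, ← smul_sub, norm_smul, Real.norm_eq_abs, abs_of_pos he] at h5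
  have h6 := norm_zfun_sub_le (hk0.le.trans hkk) hk1 γ x y
  have h7 : (0 : ℝ) < d + 1 := by positivity
  calc _ ≤ (d + 1) * (eta d k k₁ * ‖zfun k₁ γ x - zfun k₁ γ y‖) := h5
    _ ≤ (d + 1) * (eta d k k₁ * dist x y) := by gcongr
    _ = _ := by ring

attribute [irreducible] wfun zfun eta

end Pool.Agent.H65G
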